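import Pool.Agent.Lib_MP_25a3c1_mix.Base

/-!
List Scheduling and the careful algorithm.
-/

namespace Pool.Agent.Lib_MP_25a3c1_mix

open Pool.Agent.Lib_MP_25a3c1 Finset

variable {m : ℕ} [NeZero m]

/-- a machine of smallest load -/
noncomputable def am (L : Fin m → ℝ) : Fin m := (Finite.exists_min L).choose

theorem am_le (L : Fin m → ℝ) (j : Fin m) : L (am L) ≤ L j := (Finite.exists_min L).choose_spec j

open Classical in
/-- a machine of second smallest load -/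
noncomputable def am2 (L : Fin m → ℝ) : Fin m :=
  if h : ∃ j, j ≠ am L ∧ ∀ k, k ≠ am L → L j ≤ L k then h.choose else am L

theorem am2_spec (hm : 2 ≤ m) (L : Fin m → ℝ) :
    am2 L ≠ am L ∧ ∀ k, k ≠ am L → L (am2 L) ≤ L k := by
  classical
  have h : ∃ j, j ≠ am L ∧ ∀ k, k ≠ am L → L j ≤ L k := by
    have hne : (Finset.univ.filter fun j : Fin m => j ≠ am L).Nonempty := by
      have h1 : 1 < Fintype.card (Fin m) := by rw [Fintype.card_fin]; omega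
      obtain ⟨a, ha⟩ := Fintype.exists_ne_of_one_lt_card h1 (am L)
      exact ⟨a, by simp [ha]⟩
    obtain ⟨j, hj, hmin⟩ := Finset.exists_min_image _ L hne
    refine ⟨j, by simpa using hj, fun k hk => hmin k (by simp [hk])⟩
  unfold am2
  rw [dif_pos h]
  exact h.choose_spec

/-- the rule of List Scheduling -/
noncomputable def lsr : ℕ → (ℕ → ℝ) → (Fin m → ℝ) → Fin m := fun _ _ L => am L

theorem lsr_congr (i : ℕ) (p q : ℕ → ℝ) (L : Fin m → ℝ) (_h : ∀ k ≤ i, p k = q k) :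
    (lsr i p L : Fin m) = lsr i q L := rfl

/-- the loads of List Scheduling -/
noncomputable def ls (m : ℕ) [NeZero m] (p : ℕ → ℝ) (n : ℕ) : Fin m → ℝ := ld lsr p n

/-- the smallest load of List Scheduling -/
noncomputable def mn (m : ℕ) [NeZero m] (p : ℕ → ℝ) (n : ℕ) : ℝ := ls m p n (am (ls m p n))

theorem ls_succ (p : ℕ → ℝ) (n : ℕ) (j : Fin m) :
    ls m p (n + 1) j = ls m p n j + if am (ls m p n) = j then p n else 0 := rfl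

theorem mn_le (p : ℕ → ℝ) (n : ℕ) (j : Fin m) : mn m p n ≤ ls m p n j := am_le _ j

theorem mn_nonneg {p : ℕ → ℝ} (hp : ∀ i, 0 < p i) (n : ℕ) : 0 ≤ mn m p n := ld_nonneg hp n _

theorem mn_mono {p : ℕ → ℝ} (hp : ∀ i, 0 < p i) {n N : ℕ} (h : n ≤ N) :
    mn m p n ≤ mn m p N :=
  (mn_le p n _).trans (ld_mono hp h _)

/-- the load of a machine is zero, or stems from its last job -/
theorem ls_last {p : ℕ → ℝ} (n : ℕ) (j : Fin m) :
    ls m p n j = 0 ∨ ∃ l < n, am (ls m p l) = j ∧ ls m p n j = mn m p l + p l := by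
  induction n with
  | zero => exact Or.inl rfl
  | succ n ih =>
    by_cases hj : am (ls m p n) = j
    · right
      refine ⟨n, Nat.lt_succ_self n, hj, ?_⟩
      rw [ls_succ, if_pos hj, mn, hj]
    · rw [ls_succ, if_neg hj, add_zero]
      rcases ih with h | ⟨l, hl, h1, h2⟩
      · exact Or.inl h
      · exact Or.inr ⟨l, by omega, h1, h2⟩

theorem ls_congr {p q : ℕ → ℝ} {n : ℕ} (h : ∀ k < n, q k = p k) : ls m q n = ls m p n :=
  ld_congr lsr_congr h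

theorem mn_congr {p q : ℕ → ℝ} {n : ℕ} (h : ∀ k < n, q k = p k) : mn m q n = mn m p n := by
  rw [mn, mn, ls_congr h]

theorem card_mul_mn_le (p : ℕ → ℝ) (n : ℕ) : (m : ℝ) * mn m p n ≤ vol p n := by
  rw [← sum_ld (m := m) (r := lsr) (p := p) n]
  calc (m : ℝ) * mn m p n = ∑ _j : Fin m, mn m p n := by simp
    _ ≤ _ := Finset.sum_le_sum fun j _ => mn_le p n j

/-- `y` on one machine is safe after the first `n` jobs of `p`: however the sequence goes on, the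
mixture of the load `y` and of List Scheduling stays below `R` times the optimum. -/
def Safe (m : ℕ) [NeZero m] (lam R : ℝ) (n : ℕ) (p : ℕ → ℝ) (y : ℝ) : Prop :=
  ∀ q : ℕ → ℝ, (∀ i, 0 < q i) → (∀ i < n, q i = p i) → ∀ N, n ≤ N → ∀ j : Fin m,
    lam * ls m q N j + (1 - lam) * y ≤ R * opt m q N

theorem Safe.congr {lam R : ℝ} {n : ℕ} {p p' : ℕ → ℝ} {y : ℝ} (h : ∀ k < n, p k = p' k) :
    Safe m lam R n p y ↔ Safe m lam R n p' y := by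
  constructor
  · intro hs q hq hqp
    exact hs q hq fun i hi => (hqp i hi).trans (h i hi).symm
  · intro hs q hq hqp
    exact hs q hq fun i hi => (hqp i hi).trans (h i hi)

theorem Safe.step {lam R : ℝ} {n N : ℕ} {p : ℕ → ℝ} {y : ℝ} (h : n ≤ N)
    (hs : Safe m lam R n p y) : Safe m lam R N p y :=
  fun q hq hqp M hM => hs q hq (fun i hi => hqp i (by omega)) M (h.trans hM)

open Classical in
/-- the careful rule: take the second lowest machine if this is safe, else the lowest -/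
noncomputable def cr (m : ℕ) [NeZero m] (lam R : ℝ) :
    ℕ → (ℕ → ℝ) → (Fin m → ℝ) → Fin m := fun n p L =>
  if Safe m lam R (n + 1) p (L (am2 L) + p n) then am2 L else am L

theorem cr_congr (lam R : ℝ) (i : ℕ) (p q : ℕ → ℝ) (L : Fin m → ℝ) (h : ∀ k ≤ i, p k = q k) :
    cr m lam R i p L = cr m lam R i q L := by
  unfold cr
  have h1 : Safe m lam R (i + 1) p (L (am2 L) + p i)
      ↔ Safe m lam R (i + 1) q (L (am2 L) + q i) := by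
    rw [h i le_rfl]
    exact Safe.congr fun k hk => h k (by omega)
  by_cases h2 : Safe m lam R (i + 1) p (L (am2 L) + p i)
  · rw [if_pos h2, if_pos (h1.1 h2)]
  · rw [if_neg h2, if_neg (fun h3 => h2 (h1.2 h3))]

/-- the linear facts on the number `M` of machines, the probability `lam` of List Scheduling and
the ratio `R` which make the mixture `R`-competitive -/
structure Good (M lam R : ℝ) : Prop where
  lam0 : 0 ≤ lam
  lam1 : lam ≤ 1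
  R0 : 0 ≤ R
  base : ∀ a q p O : ℝ, M * a + q ≤ M * O → q ≤ O → p ≤ O → 0 ≤ a → 0 ≤ q → 0 ≤ p →
    lam * (a + q) + (1 - lam) * p ≤ R * O
  old : ∀ U p0 x b O0 au pu O' : ℝ, 0 < p0 → p0 ≤ O0 → 0 ≤ x → x ≤ b →
    x + p0 + (M - 1) * b ≤ U → U ≤ M * O0 → 0 ≤ au → 0 ≤ pu → pu ≤ O0 →
    M * au + pu + p0 ≤ U → O0 ≤ O' →
    lam * (au + pu) + (1 - lam) * (b + p0) ≤ R * O'
  qq : ∀ U p0 x b O0 a0 ai aj O' P' V' a' : ℝ, 0 < p0 → p0 ≤ O0 → 0 ≤ x → x ≤ b →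
    x + p0 + (M - 1) * b ≤ U → U ≤ M * O0 → 0 ≤ a0 → a0 ≤ ai → a0 ≤ aj →
    (M - 2) * a0 + ai + aj + p0 ≤ U → O0 ≤ O' → 0 ≤ P' → P' ≤ O' → U ≤ V' →
    a0 + p0 + (M - 1) * a' ≤ V' → V' + P' ≤ M * O' → a0 ≤ a' →
    U + (a' - ai) + (a' - aj) ≤ V' → U + (a' - ai) ≤ V' → U + (a' - aj) ≤ V' →
    ai + aj ≤ O' + 2 * a0 →
    lam * (a' + P') + (1 - lam) * (b + p0) ≤ R * O'
  q0 : ∀ U p0 x b O0 a0 ai O' P' V' a' : ℝ, 0 < p0 → p0 ≤ O0 → 0 ≤ x → x ≤ b →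
    x + p0 + (M - 1) * b ≤ U → U ≤ M * O0 → 0 ≤ a0 → a0 ≤ ai →
    (M - 1) * a0 + ai + p0 ≤ U → O0 ≤ O' → 0 ≤ P' → P' ≤ O' → U ≤ V' →
    a0 + p0 + (M - 1) * a' ≤ V' → V' + P' ≤ M * O' → a0 ≤ a' →
    U + (a' - ai) ≤ V' →
    ai + p0 ≤ O' + a0 →
    lam * (a' + P') + (1 - lam) * (b + p0) ≤ R * O'
  qP : ∀ U p0 x b O0 a0 ai O' P' V' a' : ℝ, 0 < p0 → p0 ≤ O0 → 0 ≤ x → x ≤ b →
    x + p0 + (M - 1) * b ≤ U → U ≤ M * O0 → 0 ≤ a0 → a0 ≤ ai →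
    (M - 1) * a0 + ai + p0 ≤ U → O0 ≤ O' → 0 ≤ P' → P' ≤ O' → U ≤ V' →
    a0 + p0 + (M - 1) * a' ≤ V' → V' + P' ≤ M * O' → a0 ≤ a' →
    U + (a' - ai) ≤ V' →
    ai + P' ≤ O' + a0 →
    lam * (a' + P') + (1 - lam) * (b + p0) ≤ R * O'
  zP : ∀ U p0 x b O0 a0 O' P' V' a' : ℝ, 0 < p0 → p0 ≤ O0 → 0 ≤ x → x ≤ b →
    x + p0 + (M - 1) * b ≤ U → U ≤ M * O0 → 0 ≤ a0 →
    O0 ≤ O' → 0 ≤ P' → P' ≤ O' → U ≤ V' →
    a0 + p0 + (M - 1) * a' ≤ V' → V' + P' ≤ M * O' → a0 ≤ a' →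
    p0 + P' ≤ O' →
    lam * (a' + P') + (1 - lam) * (b + p0) ≤ R * O'
  vi : ∀ U p0 x b O0 c O p au pu : ℝ, 0 < p0 → p0 ≤ O0 → 0 ≤ x → x ≤ b →
    x + p0 + (M - 1) * b ≤ U → U ≤ M * O0 → 0 ≤ c → c ≤ x + p0 → c ≤ b →
    O0 ≤ O → 0 < p → p ≤ O → U + p ≤ M * O → 0 ≤ au → 0 ≤ pu → pu ≤ O → M * au + pu ≤ U →
    lam * (au + pu) + (1 - lam) * (c + p) ≤ R * O
  va : ∀ U p0 x b O0 a0 c O p V a P : ℝ, 0 < p0 → p0 ≤ O0 → 0 ≤ x → x ≤ b →
    x + p0 + (M - 1) * b ≤ U → U ≤ M * O0 → 0 ≤ a0 → M * a0 + p0 ≤ U → 0 ≤ c → c ≤ x + p0 →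
    c ≤ b → O0 ≤ O → 0 < p → p ≤ O → U ≤ V → a0 + p0 + (M - 1) * a ≤ V → 0 < P → P ≤ O →
    V + P + p ≤ M * O → R * O0 < lam * (a0 + p0) + (1 - lam) * (b + p0) →
    lam * (a + P) + (1 - lam) * (c + p) ≤ R * O
  vb : ∀ U p0 x b O0 a0 c O p V a : ℝ, 0 < p0 → p0 ≤ O0 → 0 ≤ x → x ≤ b →
    x + p0 + (M - 1) * b ≤ U → U ≤ M * O0 → 0 ≤ a0 → M * a0 + p0 ≤ U → 0 ≤ c → c ≤ x + p0 →
    c ≤ b → O0 ≤ O → 0 < p → p ≤ O → U ≤ V → a0 + p0 + (M - 1) * a ≤ V →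
    V + p ≤ M * O → R * O0 < lam * (a0 + p0) + (1 - lam) * (b + p0) →
    lam * (a + p) + (1 - lam) * (c + p) ≤ R * O
  vc : ∀ U p0 x b O0 a0 c O p V a P : ℝ, 0 < p0 → p0 ≤ O0 → 0 ≤ x → x ≤ b →
    x + p0 + (M - 1) * b ≤ U → U ≤ M * O0 → 0 ≤ a0 → M * a0 + p0 ≤ U → 0 ≤ c → c ≤ x + p0 →
    c ≤ b → O0 ≤ O → 0 < p → p ≤ O → U + p ≤ V → a0 + p0 + (M - 1) * a ≤ V → 0 < P → P ≤ O →
    V + P ≤ M * O → R * O0 < lam * (a0 + p0) + (1 - lam) * (b + p0) →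
    lam * (a + P) + (1 - lam) * (c + p) ≤ R * O

end Pool.Agent.Lib_MP_25a3c1_mix
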