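import Pool.Agent.Lib_MP_25a3c1_mix.Main

/-!
The careful algorithm which looks at the three lowest machines.
-/

namespace Pool.Agent.Lib_MP_25a3c1_mix

open Pool.Agent.Lib_MP_25a3c1 Finset

variable {m : ℕ} [NeZero m]

omit [NeZero m] in
theorem exists_min_out {T : Finset (Fin m)} (hT : T.card < m) (L : Fin m → ℝ) :
    ∃ j, j ∉ T ∧ ∀ k, k ∉ T → L j ≤ L k := by
  classical
  have hne : (Tᶜ).Nonempty := by
    rw [← Finset.card_pos, Finset.card_compl, Fintype.card_fin]
    omega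
  obtain ⟨j, hj, hmin⟩ := Finset.exists_min_image _ L hne
  exact ⟨j, by simpa using hj, fun k hk => hmin k (by simpa using hk)⟩

open Classical in
/-- a machine of third smallest load -/
noncomputable def am3 (L : Fin m → ℝ) : Fin m :=
  if h : ∃ j, j ∉ ({am L, am2 L} : Finset (Fin m)) ∧
    ∀ k, k ∉ ({am L, am2 L} : Finset (Fin m)) → L j ≤ L k then h.choose else am L

theorem am3_spec (hm : 3 ≤ m) (L : Fin m → ℝ) :
    am3 L ≠ am L ∧ am3 L ≠ am2 L ∧ ∀ k, k ≠ am L → k ≠ am2 L → L (am3 L) ≤ L k := by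
  classical
  have h : ∃ j, j ∉ ({am L, am2 L} : Finset (Fin m)) ∧
      ∀ k, k ∉ ({am L, am2 L} : Finset (Fin m)) → L j ≤ L k :=
    exists_min_out (by have := Finset.card_le_two (a := am L) (b := am2 L); omega) L
  have h1 : (am3 L) ∉ ({am L, am2 L} : Finset (Fin m)) ∧
      ∀ k, k ∉ ({am L, am2 L} : Finset (Fin m)) → L (am3 L) ≤ L k := by
    unfold am3
    rw [dif_pos h]
    exact h.choose_spec
  obtain ⟨h2, h3⟩ := h1
  simp only [Finset.mem_insert, Finset.mem_singleton, not_or] at h2 h3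
  exact ⟨h2.1, h2.2, fun k hk hk' => h3 k ⟨hk, hk'⟩⟩

open Classical in
/-- the careful rule: take the third lowest machine if this is safe, else the second lowest if
this is safe, else the lowest -/
noncomputable def cr3 (m : ℕ) [NeZero m] (lam R : ℝ) :
    ℕ → (ℕ → ℝ) → (Fin m → ℝ) → Fin m := fun n p L =>
  if Safe m lam R (n + 1) p (L (am3 L) + p n) then am3 L
  else if Safe m lam R (n + 1) p (L (am2 L) + p n) then am2 L else am L

theorem cr3_congr (lam R : ℝ) (i : ℕ) (p q : ℕ → ℝ) (L : Fin m → ℝ) (h : ∀ k ≤ i, p k = q k) :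
    cr3 m lam R i p L = cr3 m lam R i q L := by
  unfold cr3
  have h1 : ∀ y : ℝ, Safe m lam R (i + 1) p (y + p i) ↔ Safe m lam R (i + 1) q (y + q i) := by
    intro y
    rw [h i le_rfl]
    exact Safe.congr fun k hk => h k (by omega)
  by_cases h2 : Safe m lam R (i + 1) p (L (am3 L) + p i)
  · rw [if_pos h2, if_pos ((h1 _).1 h2)]
  · rw [if_neg h2, if_neg (fun h3 => h2 ((h1 _).2 h3))]
    by_cases h4 : Safe m lam R (i + 1) p (L (am2 L) + p i)
    · rw [if_pos h4, if_pos ((h1 _).1 h4)]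
    · rw [if_neg h4, if_neg (fun h3 => h4 ((h1 _).2 h3))]

/-- the loads of the careful algorithm -/
noncomputable def ca3 (m : ℕ) [NeZero m] (lam R : ℝ) (p : ℕ → ℝ) (n : ℕ) : Fin m → ℝ :=
  ld (cr3 m lam R) p n

theorem ca3_succ (lam R : ℝ) (p : ℕ → ℝ) (n : ℕ) (j : Fin m) :
    ca3 m lam R p (n + 1) j = ca3 m lam R p n j +
      if cr3 m lam R n p (ca3 m lam R p n) = j then p n else 0 := rfl

/-- `x1 ≤ x2 ≤ x3` are the lowest three loads before job `s`, so the volume is large -/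
structure Low (m : ℕ) (p : ℕ → ℝ) (s : ℕ) (x1 x2 x3 : ℝ) : Prop where
  h0 : 0 ≤ x1
  h1 : x1 ≤ x2
  h2 : x2 ≤ x3
  vl : x1 + x2 + ((m : ℝ) - 2) * x3 ≤ vol p s

/-- What is known about the lowest load `y1` and the second lowest load `y2`: the second one is
zero, or there was an earlier job `s` which did not go to the third lowest machine; it went to the
second lowest machine (first case) or to the lowest machine (second case). -/
def Sec (m : ℕ) [NeZero m] (lam R : ℝ) (p : ℕ → ℝ) (n : ℕ) (y1 y2 : ℝ) : Prop :=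
  y2 ≤ 0 ∨ ∃ s < n, ∃ z1 z2 z3, Low m p s z1 z2 z3 ∧
    ((¬ Safe m lam R (s + 1) p (z3 + p s) ∧ y1 ≤ z1 ∧ y2 ≤ z2 + p s ∧ y2 ≤ z3) ∨
     (¬ Safe m lam R (s + 1) p (z2 + p s) ∧ y1 + y2 ≤ z1 + p s + z2 ∧ y2 ≤ z3))

theorem Sec.mono {lam R : ℝ} {p : ℕ → ℝ} {n n' : ℕ} (hn : n ≤ n') {y1 y2 y1' y2' : ℝ}
    (h1 : y1' ≤ y1) (h2 : y2' ≤ y2) (h : Sec m lam R p n y1 y2) : Sec m lam R p n' y1' y2' := by
  rcases h with h | ⟨s, hs, z1, z2, z3, hL, ⟨h3, h4, h5, h6⟩ | ⟨h3, h4, h5⟩⟩
  · exact Or.inl (h2.trans h)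
  · exact Or.inr ⟨s, by omega, z1, z2, z3, hL,
      Or.inl ⟨h3, h1.trans h4, h2.trans h5, h2.trans h6⟩⟩
  · exact Or.inr ⟨s, by omega, z1, z2, z3, hL, Or.inr ⟨h3, by linarith, h2.trans h5⟩⟩

/-- What is known about the lowest load `y1`: it is zero, or there was an earlier job `s` which
went to the lowest machine. -/
def Fst (m : ℕ) [NeZero m] (lam R : ℝ) (p : ℕ → ℝ) (n : ℕ) (y1 : ℝ) : Prop :=
  y1 ≤ 0 ∨ ∃ s < n, ∃ x1 x2 x3, Low m p s x1 x2 x3 ∧ Sec m lam R p s x1 x2 ∧
    ¬ Safe m lam R (s + 1) p (x2 + p s) ∧ y1 ≤ x1 + p s ∧ y1 ≤ x2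

theorem Fst.mono {lam R : ℝ} {p : ℕ → ℝ} {n n' : ℕ} (hn : n ≤ n') {y1 y1' : ℝ}
    (h1 : y1' ≤ y1) (h : Fst m lam R p n y1) : Fst m lam R p n' y1' := by
  rcases h with h | ⟨s, hs, x1, x2, x3, hL, hS, h2, h3, h4⟩
  · exact Or.inl (h1.trans h)
  · exact Or.inr ⟨s, by omega, x1, x2, x3, hL, hS, h2, h1.trans h3, h1.trans h4⟩

theorem am2_le (hm : 2 ≤ m) (L : Fin m → ℝ) {j k : Fin m} (hjk : j ≠ k) {B : ℝ}
    (hj : L j ≤ B) (hk : L k ≤ B) : L (am2 L) ≤ B := by
  obtain ⟨-, h⟩ := am2_spec hm L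
  by_cases h1 : j = am L
  · exact (h k (by rw [← h1]; exact hjk.symm)).trans hk
  · exact (h j h1).trans hj

theorem am_add_am2_le (hm : 2 ≤ m) (L : Fin m → ℝ) {j k : Fin m} (hjk : j ≠ k) :
    L (am L) + L (am2 L) ≤ L j + L k := by
  obtain ⟨-, h⟩ := am2_spec hm L
  by_cases h1 : j = am L
  · have h2 := h k (by rw [← h1]; exact hjk.symm)
    have h3 : L (am L) = L j := by rw [h1]
    linarith
  · have h2 := h j h1
    have h3 := am_le L k
    linarith

/-- the three lowest loads and the volume -/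
theorem low_ca3 (hm : 3 ≤ m) (lam R : ℝ) {p : ℕ → ℝ} (hp : ∀ i, 0 < p i) (n : ℕ) :
    Low m p n (ca3 m lam R p n (am (ca3 m lam R p n))) (ca3 m lam R p n (am2 (ca3 m lam R p n)))
      (ca3 m lam R p n (am3 (ca3 m lam R p n))) := by
  set L := ca3 m lam R p n with hL
  obtain ⟨hne2, h2⟩ := am2_spec (by omega) L
  obtain ⟨hne3, hne3', h3⟩ := am3_spec hm L
  refine ⟨ld_nonneg hp n _, am_le L _, h2 _ hne3, ?_⟩
  rw [← sum_ld (m := m) (r := cr3 m lam R) (p := p) n]
  have h : ∀ j ∈ (Finset.univ : Finset (Fin m)), L (am3 L) +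
      (if j = am L then L (am L) - L (am3 L) else 0) +
      (if j = am2 L then L (am2 L) - L (am3 L) else 0) ≤ L j := by
    intro j _
    by_cases hj : j = am L
    · rw [if_pos hj, if_neg (by rw [hj]; exact hne2.symm), hj]
      linarith
    · rw [if_neg hj]
      by_cases hj2 : j = am2 L
      · rw [if_pos hj2, hj2]
        linarith
      · rw [if_neg hj2]
        linarith [h3 j hj hj2]
  have h4 := Finset.sum_le_sum h
  rw [Finset.sum_add_distrib, Finset.sum_add_distrib] at h4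
  simp only [Finset.sum_const, Finset.card_univ, Fintype.card_fin, nsmul_eq_mul,
    Finset.sum_ite_eq', Finset.mem_univ, if_true] at h4
  change _ ≤ ∑ j, L j
  linarith

/-- the state of the careful algorithm -/
theorem ca3_inv (hm : 3 ≤ m) (lam R : ℝ) {p : ℕ → ℝ} (hp : ∀ i, 0 < p i) (n : ℕ) :
    Sec m lam R p n (ca3 m lam R p n (am (ca3 m lam R p n)))
      (ca3 m lam R p n (am2 (ca3 m lam R p n))) ∧
    Fst m lam R p n (ca3 m lam R p n (am (ca3 m lam R p n))) := by
  classical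
  induction n with
  | zero => exact ⟨Or.inl le_rfl, Or.inl le_rfl⟩
  | succ n ih =>
    have hlow := low_ca3 hm lam R hp n
    set L := ca3 m lam R p n with hL
    set L' := ca3 m lam R p (n + 1) with hL'
    obtain ⟨hne2, h2⟩ := am2_spec (by omega) L
    obtain ⟨hne3, hne3', h3⟩ := am3_spec hm L
    obtain ⟨ihS, ihF⟩ := ih
    by_cases hsafe3 : Safe m lam R (n + 1) p (L (am3 L) + p n)
    · -- third machine
      have hcr : cr3 m lam R n p L = am3 L := if_pos hsafe3
      have hk1 : L' (am L) = L (am L) := by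
        rw [hL', ca3_succ, ← hL, hcr, if_neg hne3, add_zero]
      have hk2 : L' (am2 L) = L (am2 L) := by
        rw [hL', ca3_succ, ← hL, hcr, if_neg hne3', add_zero]
      have h1 : L' (am L') ≤ L (am L) := by rw [← hk1]; exact am_le _ _
      have h2' : L' (am2 L') ≤ L (am2 L) :=
        am2_le (by omega) L' hne2 hk2.le (hk1.le.trans (am_le L _))
      exact ⟨ihS.mono (Nat.le_succ n) h1 h2', ihF.mono (Nat.le_succ n) h1⟩
    by_cases hsafe2 : Safe m lam R (n + 1) p (L (am2 L) + p n)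
    · -- second machine
      have hcr : cr3 m lam R n p L = am2 L := by
        unfold cr3
        rw [if_neg hsafe3, if_pos hsafe2]
      have hk1 : L' (am L) = L (am L) := by
        rw [hL', ca3_succ, ← hL, hcr, if_neg hne2, add_zero]
      have hk2 : L' (am2 L) = L (am2 L) + p n := by
        rw [hL', ca3_succ, ← hL, hcr, if_pos rfl]
      have hk3 : L' (am3 L) = L (am3 L) := by
        rw [hL', ca3_succ, ← hL, hcr, if_neg hne3'.symm, add_zero]
      have h1 : L' (am L') ≤ L (am L) := by rw [← hk1]; exact am_le _ _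
      have hp0 := hp n
      refine ⟨Or.inr ⟨n, Nat.lt_succ_self n, _, _, _, hlow, Or.inl ⟨hsafe3, h1, ?_, ?_⟩⟩,
        ihF.mono (Nat.le_succ n) h1⟩
      · exact am2_le (by omega) L' hne2 hk2.le (by rw [hk1]; linarith [am_le L (am2 L)])
      · exact am2_le (by omega) L' hne3 hk3.le (by rw [hk1]; exact am_le L _)
    · -- lowest machine
      have hcr : cr3 m lam R n p L = am L := by
        unfold cr3
        rw [if_neg hsafe3, if_neg hsafe2]
      have hk1 : L' (am L) = L (am L) + p n := by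
        rw [hL', ca3_succ, ← hL, hcr, if_pos rfl]
      have hk2 : L' (am2 L) = L (am2 L) := by
        rw [hL', ca3_succ, ← hL, hcr, if_neg hne2.symm, add_zero]
      have hk3 : L' (am3 L) = L (am3 L) := by
        rw [hL', ca3_succ, ← hL, hcr, if_neg hne3.symm, add_zero]
      refine ⟨Or.inr ⟨n, Nat.lt_succ_self n, _, _, _, hlow, Or.inr ⟨hsafe2, ?_, ?_⟩⟩,
        Or.inr ⟨n, Nat.lt_succ_self n, _, _, _, hlow, ihS, hsafe2, ?_, ?_⟩⟩
      · have h1 := am_add_am2_le (by omega) L' hne2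
        rw [hk1, hk2] at h1
        linarith
      · exact am2_le (by omega) L' hne3' hk3.le (by rw [hk2]; exact h2 _ hne3)
      · rw [← hk1]; exact am_le _ _
      · rw [← hk2]; exact am_le _ _

end Pool.Agent.Lib_MP_25a3c1_mix
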