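import Pool.Agent.Lib_MP_25a3c1_mix.Cap

/-!
The careful algorithm which looks at the four lowest machines.
-/

namespace Pool.Agent.Lib_MP_25a3c1_mix

open Pool.Agent.Lib_MP_25a3c1 Finset

variable {m : ℕ} [NeZero m]

open Classical in
/-- a machine of fourth smallest load -/
noncomputable def am4 (L : Fin m → ℝ) : Fin m :=
  if h : ∃ j, j ∉ ({am L, am2 L, am3 L} : Finset (Fin m)) ∧
    ∀ k, k ∉ ({am L, am2 L, am3 L} : Finset (Fin m)) → L j ≤ L k then h.choose else am L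

theorem am4_spec (hm : 4 ≤ m) (L : Fin m → ℝ) :
    am4 L ≠ am L ∧ am4 L ≠ am2 L ∧ am4 L ≠ am3 L ∧
      ∀ k, k ≠ am L → k ≠ am2 L → k ≠ am3 L → L (am4 L) ≤ L k := by
  classical
  have h : ∃ j, j ∉ ({am L, am2 L, am3 L} : Finset (Fin m)) ∧
      ∀ k, k ∉ ({am L, am2 L, am3 L} : Finset (Fin m)) → L j ≤ L k :=
    exists_min_out (by
      have := Finset.card_le_three (a := am L) (b := am2 L) (c := am3 L); omega) L
  have h1 : (am4 L) ∉ ({am L, am2 L, am3 L} : Finset (Fin m)) ∧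
      ∀ k, k ∉ ({am L, am2 L, am3 L} : Finset (Fin m)) → L (am4 L) ≤ L k := by
    unfold am4
    rw [dif_pos h]
    exact h.choose_spec
  obtain ⟨h2, h3⟩ := h1
  simp only [Finset.mem_insert, Finset.mem_singleton, not_or] at h2 h3
  exact ⟨h2.1, h2.2.1, h2.2.2, fun k a b c => h3 k ⟨a, b, c⟩⟩

/-- the four lowest loads -/
noncomputable def lo1 (L : Fin m → ℝ) : ℝ := L (am L)
noncomputable def lo2 (L : Fin m → ℝ) : ℝ := L (am2 L)
noncomputable def lo3 (L : Fin m → ℝ) : ℝ := L (am3 L)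
noncomputable def lo4 (L : Fin m → ℝ) : ℝ := L (am4 L)

theorem lo1_le (L : Fin m → ℝ) (j : Fin m) : lo1 L ≤ L j := am_le L j

theorem lo12 (L : Fin m → ℝ) : lo1 L ≤ lo2 L := am_le L _

theorem lo23 (hm : 4 ≤ m) (L : Fin m → ℝ) : lo2 L ≤ lo3 L :=
  (am2_spec (by omega) L).2 _ (am3_spec (by omega) L).1

theorem lo34 (hm : 4 ≤ m) (L : Fin m → ℝ) : lo3 L ≤ lo4 L :=
  (am3_spec (by omega) L).2.2 _ (am4_spec hm L).1 (am4_spec hm L).2.1

theorem lo2_le (hm : 4 ≤ m) (L : Fin m → ℝ) {i j : Fin m} (hij : i ≠ j) {B : ℝ} (hi : L i ≤ B)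
    (hj : L j ≤ B) : lo2 L ≤ B := am2_le (by omega) L hij hi hj

theorem lo3_le (hm : 4 ≤ m) (L : Fin m → ℝ) {i j k : Fin m} (hij : i ≠ j) (hik : i ≠ k)
    (hjk : j ≠ k) {B : ℝ} (hi : L i ≤ B) (hj : L j ≤ B) (hk : L k ≤ B) : lo3 L ≤ B := by
  classical
  by_contra hcon
  push Not at hcon
  have h : ∀ x, L x ≤ B → x ∈ ({am L, am2 L} : Finset (Fin m)) := by
    intro x hx
    by_contra hx'
    simp only [Finset.mem_insert, Finset.mem_singleton, not_or] at hx'
    have := (am3_spec (by omega) L).2.2 x hx'.1 hx'.2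
    change lo3 L ≤ L x at this
    linarith
  have h1 : ({i, j, k} : Finset (Fin m)) ⊆ {am L, am2 L} := by
    intro x hx
    simp only [Finset.mem_insert, Finset.mem_singleton] at hx
    rcases hx with rfl | rfl | rfl
    · exact h _ hi
    · exact h _ hj
    · exact h _ hk
  have h2 := Finset.card_le_card h1
  rw [Finset.card_eq_three.2 ⟨i, j, k, hij, hik, hjk, rfl⟩] at h2
  have h3 := Finset.card_le_two (a := am L) (b := am2 L)
  omega

theorem le_lo1 (L : Fin m → ℝ) {B : ℝ} (h : ∀ k, B ≤ L k) : B ≤ lo1 L := h _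

theorem le_lo2 (hm : 4 ≤ m) (L : Fin m → ℝ) (i : Fin m) {B : ℝ} (h : ∀ k, k ≠ i → B ≤ L k) :
    B ≤ lo2 L := by
  obtain ⟨h1, -⟩ := am2_spec (by omega : 2 ≤ m) L
  by_cases h2 : am2 L = i
  · exact (h (am L) (by rw [← h2]; exact h1.symm)).trans (lo12 L)
  · exact h _ h2

theorem le_lo3 (hm : 4 ≤ m) (L : Fin m → ℝ) (i j : Fin m) {B : ℝ}
    (h : ∀ k, k ≠ i → k ≠ j → B ≤ L k) : B ≤ lo3 L := by
  classical
  obtain ⟨h1, -⟩ := am2_spec (by omega : 2 ≤ m) L
  obtain ⟨h2, h3, -⟩ := am3_spec (by omega : 3 ≤ m) L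
  have hex : ∃ x ∈ ({am L, am2 L, am3 L} : Finset (Fin m)), x ∉ ({i, j} : Finset (Fin m)) := by
    by_contra hcon
    push Not at hcon
    have h4 := Finset.card_le_card (show ({am L, am2 L, am3 L} : Finset (Fin m)) ⊆ {i, j} from hcon)
    rw [Finset.card_eq_three.2 ⟨am L, am2 L, am3 L, h1.symm, h2.symm, h3.symm, rfl⟩] at h4
    have h5 := Finset.card_le_two (a := i) (b := j)
    omega
  obtain ⟨x, hx, hxn⟩ := hex
  simp only [Finset.mem_insert, Finset.mem_singleton, not_or] at hx hxn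
  have h4 := h x hxn.1 hxn.2
  have h5 := lo12 L
  have h6 := lo23 hm L
  rcases hx with rfl | rfl | rfl
  · change B ≤ lo1 L at h4
    linarith
  · change B ≤ lo2 L at h4
    linarith
  · exact h4

theorem le_lo4 (hm : 4 ≤ m) (L : Fin m → ℝ) (i j l : Fin m) {B : ℝ}
    (h : ∀ k, k ≠ i → k ≠ j → k ≠ l → B ≤ L k) : B ≤ lo4 L := by
  classical
  obtain ⟨h1, -⟩ := am2_spec (by omega : 2 ≤ m) L
  obtain ⟨h2, h3, -⟩ := am3_spec (by omega : 3 ≤ m) L
  obtain ⟨h2', h3', h4', -⟩ := am4_spec hm L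
  have hex : ∃ x ∈ ({am L, am2 L, am3 L, am4 L} : Finset (Fin m)),
      x ∉ ({i, j, l} : Finset (Fin m)) := by
    by_contra hcon
    push Not at hcon
    have h4 := Finset.card_le_card
      (show ({am L, am2 L, am3 L, am4 L} : Finset (Fin m)) ⊆ {i, j, l} from hcon)
    have h6 : ({am L, am2 L, am3 L, am4 L} : Finset (Fin m)).card = 4 := by
      rw [Finset.card_insert_of_notMem, Finset.card_eq_three.2
        ⟨am2 L, am3 L, am4 L, h3.symm, h3'.symm, h4'.symm, rfl⟩]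
      simp only [Finset.mem_insert, Finset.mem_singleton, not_or]
      exact ⟨h1.symm, h2.symm, h2'.symm⟩
    rw [h6] at h4
    have h5 := Finset.card_le_three (a := i) (b := j) (c := l)
    omega
  obtain ⟨x, hx, hxn⟩ := hex
  simp only [Finset.mem_insert, Finset.mem_singleton, not_or] at hx hxn
  have h4 := h x hxn.1 hxn.2.1 hxn.2.2
  have h5 := lo12 L
  have h6 := lo23 hm L
  have h7 := lo34 hm L
  rcases hx with rfl | rfl | rfl | rfl
  · change B ≤ lo1 L at h4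
    linarith
  · change B ≤ lo2 L at h4
    linarith
  · change B ≤ lo3 L at h4
    linarith
  · exact h4

theorem lo_sum2 (hm : 4 ≤ m) (L : Fin m → ℝ) {i j : Fin m} (hij : i ≠ j) :
    lo1 L + lo2 L ≤ L i + L j := am_add_am2_le (by omega) L hij

theorem lo_sum3 (hm : 4 ≤ m) (L : Fin m → ℝ) {i j k : Fin m} (hij : i ≠ j) (hik : i ≠ k)
    (hjk : j ≠ k) : lo1 L + lo2 L + lo3 L ≤ L i + L j + L k := by
  rcases le_total (L i) (L j) with h1 | h1
  · rcases le_total (L j) (L k) with h2 | h2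
    · have h3 := lo_sum2 hm L hij
      have h4 := lo3_le hm L hij hik hjk (h1.trans h2) h2 le_rfl
      linarith
    · have h3 := lo_sum2 hm L hik
      have h4 := lo3_le hm L hij hik hjk h1 le_rfl h2
      linarith
  · rcases le_total (L i) (L k) with h2 | h2
    · have h3 := lo_sum2 hm L hij
      have h4 := lo3_le hm L hij hik hjk h2 (h1.trans h2) le_rfl
      linarith
    · have h3 := lo_sum2 hm L hjk
      have h4 := lo3_le hm L hij hik hjk le_rfl h1 h2
      linarith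

theorem lo1_mono {L L' : Fin m → ℝ} (h : ∀ j, L j ≤ L' j) : lo1 L ≤ lo1 L' :=
  (lo1_le L _).trans (h _)

theorem lo2_mono (hm : 4 ≤ m) {L L' : Fin m → ℝ} (h : ∀ j, L j ≤ L' j) : lo2 L ≤ lo2 L' :=
  le_lo2 hm L' (am L) fun k hk => ((am2_spec (by omega) L).2 k hk).trans (h k)

theorem lo3_mono (hm : 4 ≤ m) {L L' : Fin m → ℝ} (h : ∀ j, L j ≤ L' j) : lo3 L ≤ lo3 L' :=
  le_lo3 hm L' (am L) (am2 L) fun k hk hk' =>
    ((am3_spec (by omega) L).2.2 k hk hk').trans (h k)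

theorem lo4_mono (hm : 4 ≤ m) {L L' : Fin m → ℝ} (h : ∀ j, L j ≤ L' j) : lo4 L ≤ lo4 L' :=
  le_lo4 hm L' (am L) (am2 L) (am3 L) fun k a b c =>
    ((am4_spec hm L).2.2.2 k a b c).trans (h k)

/-! ### one step -/

/-- the loads after job `x` on machine `k` -/
noncomputable def put (L : Fin m → ℝ) (k : Fin m) (x : ℝ) : Fin m → ℝ :=
  fun j => L j + if k = j then x else 0

omit [NeZero m] in
theorem put_self (L : Fin m → ℝ) (k : Fin m) (x : ℝ) : put L k x k = L k + x := by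
  simp [put]

omit [NeZero m] in
theorem put_ne (L : Fin m → ℝ) {k j : Fin m} (h : k ≠ j) (x : ℝ) : put L k x j = L j := by
  simp [put, h]

omit [NeZero m] in
theorem le_put (L : Fin m → ℝ) (k : Fin m) {x : ℝ} (hx : 0 ≤ x) (j : Fin m) :
    L j ≤ put L k x j := by
  unfold put
  split_ifs
  · linarith
  · simp

theorem put_lo1 (L : Fin m → ℝ) {k : Fin m} (hk : k ≠ am L) {x : ℝ} (hx : 0 ≤ x) :
    lo1 (put L k x) = lo1 L := by
  refine le_antisymm ?_ (lo1_mono (le_put L k hx))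
  have h := lo1_le (put L k x) (am L)
  rw [put_ne L hk] at h
  exact h

theorem put_lo2 (hm : 4 ≤ m) (L : Fin m → ℝ) {k : Fin m} (hk : k ≠ am L) (hk2 : k ≠ am2 L)
    {x : ℝ} (hx : 0 ≤ x) : lo2 (put L k x) = lo2 L := by
  refine le_antisymm ?_ (lo2_mono hm (le_put L k hx))
  refine lo2_le hm _ (i := am L) (j := am2 L) (am2_spec (by omega) L).1.symm ?_ ?_
  · rw [put_ne L hk]; exact lo12 L
  · rw [put_ne L hk2]; exact le_rfl

theorem put_lo3 (hm : 4 ≤ m) (L : Fin m → ℝ) {k : Fin m} (hk : k ≠ am L) (hk2 : k ≠ am2 L)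
    (hk3 : k ≠ am3 L) {x : ℝ} (hx : 0 ≤ x) : lo3 (put L k x) = lo3 L := by
  refine le_antisymm ?_ (lo3_mono hm (le_put L k hx))
  refine lo3_le hm _ (i := am L) (j := am2 L) (k := am3 L) (am2_spec (by omega) L).1.symm
    (am3_spec (by omega) L).1.symm (am3_spec (by omega) L).2.1.symm ?_ ?_ ?_
  · rw [put_ne L hk]; exact (lo12 L).trans (lo23 hm L)
  · rw [put_ne L hk2]; exact lo23 hm L
  · rw [put_ne L hk3]; exact le_rfl

theorem sum_lo4 (hm : 4 ≤ m) (L : Fin m → ℝ) :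
    lo1 L + lo2 L + lo3 L + ((m : ℝ) - 3) * lo4 L ≤ ∑ j, L j := by
  obtain ⟨h1, -⟩ := am2_spec (by omega : 2 ≤ m) L
  obtain ⟨h2, h3, -⟩ := am3_spec (by omega : 3 ≤ m) L
  obtain ⟨h2', h3', h4', h4⟩ := am4_spec hm L
  have h : ∀ j ∈ (Finset.univ : Finset (Fin m)), lo4 L +
      (if j = am L then lo1 L - lo4 L else 0) +
      (if j = am2 L then lo2 L - lo4 L else 0) +
      (if j = am3 L then lo3 L - lo4 L else 0) ≤ L j := by
    intro j _
    by_cases e1 : j = am L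
    · rw [if_pos e1, if_neg (by rw [e1]; exact h1.symm), if_neg (by rw [e1]; exact h2.symm), e1]
      change _ ≤ lo1 L
      linarith
    · rw [if_neg e1]
      by_cases e2 : j = am2 L
      · rw [if_pos e2, if_neg (by rw [e2]; exact h3.symm), e2]
        change _ ≤ lo2 L
        linarith
      · rw [if_neg e2]
        by_cases e3 : j = am3 L
        · rw [if_pos e3, e3]
          change _ ≤ lo3 L
          linarith
        · rw [if_neg e3]
          have := h4 j e1 e2 e3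
          change lo4 L ≤ L j at this
          linarith
  have h5 := Finset.sum_le_sum h
  rw [Finset.sum_add_distrib, Finset.sum_add_distrib, Finset.sum_add_distrib] at h5
  simp only [Finset.sum_const, Finset.card_univ, Fintype.card_fin, nsmul_eq_mul,
    Finset.sum_ite_eq', Finset.mem_univ, if_true] at h5
  linarith

/-! ### The rule -/

open Classical in
/-- the careful rule: take the fourth lowest machine if this is safe, else the third lowest if
this is safe, else the second lowest if this is safe, else the lowest -/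
noncomputable def cr4 (m : ℕ) [NeZero m] (lam R : ℝ) :
    ℕ → (ℕ → ℝ) → (Fin m → ℝ) → Fin m := fun n p L =>
  if Safe m lam R (n + 1) p (L (am4 L) + p n) then am4 L
  else if Safe m lam R (n + 1) p (L (am3 L) + p n) then am3 L
  else if Safe m lam R (n + 1) p (L (am2 L) + p n) then am2 L else am L

theorem cr4_congr (lam R : ℝ) (i : ℕ) (p q : ℕ → ℝ) (L : Fin m → ℝ) (h : ∀ k ≤ i, p k = q k) :
    cr4 m lam R i p L = cr4 m lam R i q L := by
  unfold cr4
  have h1 : ∀ y : ℝ, Safe m lam R (i + 1) p (y + p i) ↔ Safe m lam R (i + 1) q (y + q i) := by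
    intro y
    rw [h i le_rfl]
    exact Safe.congr fun k hk => h k (by omega)
  by_cases h2 : Safe m lam R (i + 1) p (L (am4 L) + p i)
  · rw [if_pos h2, if_pos ((h1 _).1 h2)]
  · rw [if_neg h2, if_neg (fun h3 => h2 ((h1 _).2 h3))]
    by_cases h4 : Safe m lam R (i + 1) p (L (am3 L) + p i)
    · rw [if_pos h4, if_pos ((h1 _).1 h4)]
    · rw [if_neg h4, if_neg (fun h3 => h4 ((h1 _).2 h3))]
      by_cases h5 : Safe m lam R (i + 1) p (L (am2 L) + p i)
      · rw [if_pos h5, if_pos ((h1 _).1 h5)]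
      · rw [if_neg h5, if_neg (fun h3 => h5 ((h1 _).2 h3))]

/-- the loads of the careful algorithm -/
noncomputable def ca4 (m : ℕ) [NeZero m] (lam R : ℝ) (p : ℕ → ℝ) (n : ℕ) : Fin m → ℝ :=
  ld (cr4 m lam R) p n

/-- the machine of job `n` -/
noncomputable def bt (m : ℕ) [NeZero m] (lam R : ℝ) (p : ℕ → ℝ) (n : ℕ) : Fin m :=
  cr4 m lam R n p (ca4 m lam R p n)

theorem ca4_succ (lam R : ℝ) (p : ℕ → ℝ) (n : ℕ) :
    ca4 m lam R p (n + 1) = put (ca4 m lam R p n) (bt m lam R p n) (p n) := rfl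

theorem ca4_mono {lam R : ℝ} {p : ℕ → ℝ} (hp : ∀ i, 0 < p i) {n N : ℕ} (h : n ≤ N) (j : Fin m) :
    ca4 m lam R p n j ≤ ca4 m lam R p N j := ld_mono hp h j

theorem ca4_nonneg {lam R : ℝ} {p : ℕ → ℝ} (hp : ∀ i, 0 < p i) (n : ℕ) (j : Fin m) :
    0 ≤ ca4 m lam R p n j := ld_nonneg hp n j

theorem sum_ca4 (lam R : ℝ) (p : ℕ → ℝ) (n : ℕ) : ∑ j, ca4 m lam R p n j = vol p n := sum_ld n

/-- the four possibilities for job `n` -/
theorem bt_cases (lam R : ℝ) (p : ℕ → ℝ) (n : ℕ) :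
    (bt m lam R p n = am4 (ca4 m lam R p n) ∧
      Safe m lam R (n + 1) p (lo4 (ca4 m lam R p n) + p n)) ∨
    (bt m lam R p n = am3 (ca4 m lam R p n) ∧
      Safe m lam R (n + 1) p (lo3 (ca4 m lam R p n) + p n) ∧
      ¬ Safe m lam R (n + 1) p (lo4 (ca4 m lam R p n) + p n)) ∨
    (bt m lam R p n = am2 (ca4 m lam R p n) ∧
      Safe m lam R (n + 1) p (lo2 (ca4 m lam R p n) + p n) ∧
      ¬ Safe m lam R (n + 1) p (lo3 (ca4 m lam R p n) + p n)) ∨
    (bt m lam R p n = am (ca4 m lam R p n) ∧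
      ¬ Safe m lam R (n + 1) p (lo2 (ca4 m lam R p n) + p n)) := by
  unfold bt cr4
  set L := ca4 m lam R p n
  by_cases h4 : Safe m lam R (n + 1) p (L (am4 L) + p n)
  · left
    exact ⟨if_pos h4, h4⟩
  · right
    by_cases h3 : Safe m lam R (n + 1) p (L (am3 L) + p n)
    · left
      exact ⟨by rw [if_neg h4, if_pos h3], h3, h4⟩
    · right
      by_cases h2 : Safe m lam R (n + 1) p (L (am2 L) + p n)
      · left
        exact ⟨by rw [if_neg h4, if_neg h3, if_pos h2], h2, h3⟩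
      · right
        exact ⟨by rw [if_neg h4, if_neg h3, if_neg h2], h2⟩

/-- the last time with a property -/
theorem last_or_none (P : ℕ → Prop) (n : ℕ) :
    (∀ t < n, ¬ P t) ∨ ∃ s < n, P s ∧ ∀ t, s < t → t < n → ¬ P t := by
  classical
  induction n with
  | zero => left; intro t ht; omega
  | succ n ih =>
    by_cases h : P n
    · right
      exact ⟨n, Nat.lt_succ_self n, h, fun t h1 h2 => absurd h1 (by omega)⟩
    · rcases ih with h1 | ⟨s, hs, h1, h2⟩
      · left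
        intro t ht
        rcases Nat.lt_succ_iff_lt_or_eq.1 ht with h3 | h3
        · exact h1 t h3
        · rw [h3]; exact h
      · right
        refine ⟨s, by omega, h1, fun t h3 h4 => ?_⟩
        rcases Nat.lt_succ_iff_lt_or_eq.1 h4 with h5 | h5
        · exact h2 t h3 h5
        · rw [h5]; exact h

/-- job `t` went to the lowest machine -/
def E1 (m : ℕ) [NeZero m] (lam R : ℝ) (p : ℕ → ℝ) (t : ℕ) : Prop :=
  bt m lam R p t = am (ca4 m lam R p t)

/-- job `t` went to one of the two lowest machines -/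
def E2 (m : ℕ) [NeZero m] (lam R : ℝ) (p : ℕ → ℝ) (t : ℕ) : Prop :=
  bt m lam R p t = am (ca4 m lam R p t) ∨ bt m lam R p t = am2 (ca4 m lam R p t)

/-- job `t` went to one of the three lowest machines -/
def E3 (m : ℕ) [NeZero m] (lam R : ℝ) (p : ℕ → ℝ) (t : ℕ) : Prop :=
  bt m lam R p t = am (ca4 m lam R p t) ∨ bt m lam R p t = am2 (ca4 m lam R p t) ∨
    bt m lam R p t = am3 (ca4 m lam R p t)

variable {lam R : ℝ} {p : ℕ → ℝ}

theorem stay1 (hp : ∀ i, 0 < p i) {a b : ℕ} (hab : a ≤ b)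
    (h : ∀ t, a ≤ t → t < b → ¬ E1 m lam R p t) :
    lo1 (ca4 m lam R p b) = lo1 (ca4 m lam R p a) := by
  induction b, hab using Nat.le_induction with
  | base => rfl
  | succ b hab ih =>
    rw [ca4_succ, put_lo1 _ (h b hab (Nat.lt_succ_self b)) (hp b).le]
    exact ih fun t h1 h2 => h t h1 (by omega)

theorem stay2 (hm : 4 ≤ m) (hp : ∀ i, 0 < p i) {a b : ℕ} (hab : a ≤ b)
    (h : ∀ t, a ≤ t → t < b → ¬ E2 m lam R p t) :
    lo1 (ca4 m lam R p b) = lo1 (ca4 m lam R p a) ∧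
      lo2 (ca4 m lam R p b) = lo2 (ca4 m lam R p a) := by
  induction b, hab using Nat.le_induction with
  | base => exact ⟨rfl, rfl⟩
  | succ b hab ih =>
    have hb := h b hab (Nat.lt_succ_self b)
    unfold E2 at hb
    push Not at hb
    obtain ⟨ih1, ih2⟩ := ih fun t h1 h2 => h t h1 (by omega)
    rw [ca4_succ, put_lo1 _ hb.1 (hp b).le, put_lo2 hm _ hb.1 hb.2 (hp b).le]
    exact ⟨ih1, ih2⟩

theorem stay3 (hm : 4 ≤ m) (hp : ∀ i, 0 < p i) {a b : ℕ} (hab : a ≤ b)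
    (h : ∀ t, a ≤ t → t < b → ¬ E3 m lam R p t) :
    lo1 (ca4 m lam R p b) = lo1 (ca4 m lam R p a) ∧
      lo2 (ca4 m lam R p b) = lo2 (ca4 m lam R p a) ∧
      lo3 (ca4 m lam R p b) = lo3 (ca4 m lam R p a) := by
  induction b, hab using Nat.le_induction with
  | base => exact ⟨rfl, rfl, rfl⟩
  | succ b hab ih =>
    have hb := h b hab (Nat.lt_succ_self b)
    unfold E3 at hb
    push Not at hb
    obtain ⟨ih1, ih2, ih3⟩ := ih fun t h1 h2 => h t h1 (by omega)
    rw [ca4_succ, put_lo1 _ hb.1 (hp b).le, put_lo2 hm _ hb.1 hb.2.1 (hp b).le,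
      put_lo3 hm _ hb.1 hb.2.1 hb.2.2 (hp b).le]
    exact ⟨ih1, ih2, ih3⟩

theorem ca4_zero (j : Fin m) : ca4 m lam R p 0 j = 0 := rfl

/-- after a job on the lowest machine -/
theorem step1 (hm : 4 ≤ m) (L : Fin m → ℝ) {x : ℝ} (hx : 0 ≤ x) :
    lo1 (put L (am L) x) ≤ lo1 L + x ∧ lo1 (put L (am L) x) ≤ lo2 L ∧
    lo2 (put L (am L) x) ≤ lo3 L ∧
    lo1 (put L (am L) x) + lo2 (put L (am L) x) ≤ lo1 L + lo2 L + x ∧
    lo3 (put L (am L) x) ≤ lo4 L ∧
    lo1 (put L (am L) x) + lo2 (put L (am L) x) + lo3 (put L (am L) x) ≤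
      lo1 L + lo2 L + lo3 L + x := by
  obtain ⟨h1, -⟩ := am2_spec (by omega : 2 ≤ m) L
  obtain ⟨h2, h3, -⟩ := am3_spec (by omega : 3 ≤ m) L
  obtain ⟨h2', h3', h4', h4⟩ := am4_spec hm L
  have k1 : put L (am L) x (am L) = lo1 L + x := put_self L _ x
  have k2 : put L (am L) x (am2 L) = lo2 L := put_ne L h1.symm x
  have k3 : put L (am L) x (am3 L) = lo3 L := put_ne L h2.symm x
  have k4 : put L (am L) x (am4 L) = lo4 L := put_ne L h2'.symm x
  have g2 := lo23 hm L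
  have g3 := lo34 hm L
  refine ⟨?_, ?_, ?_, ?_, ?_, ?_⟩
  · rw [← k1]; exact lo1_le _ _
  · rw [← k2]; exact lo1_le _ _
  · exact lo2_le hm _ h3.symm (by rw [k2]; exact g2) k3.le
  · have := lo_sum2 hm (put L (am L) x) h1.symm
    rw [k1, k2] at this
    linarith
  · exact lo3_le hm _ h3.symm h3'.symm h4'.symm (by rw [k2]; linarith) (by rw [k3]; exact g3)
      k4.le
  · have := lo_sum3 hm (put L (am L) x) h1.symm h2.symm h3.symm
    rw [k1, k2, k3] at this
    linarith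

/-- after a job on the second lowest machine -/
theorem step2 (hm : 4 ≤ m) (L : Fin m → ℝ) {x : ℝ} (hx : 0 ≤ x) :
    lo1 (put L (am2 L) x) ≤ lo1 L ∧ lo2 (put L (am2 L) x) ≤ lo2 L + x ∧
    lo2 (put L (am2 L) x) ≤ lo3 L ∧ lo3 (put L (am2 L) x) ≤ lo4 L ∧
    lo1 (put L (am2 L) x) + lo2 (put L (am2 L) x) + lo3 (put L (am2 L) x) ≤
      lo1 L + lo2 L + lo3 L + x := by
  obtain ⟨h1, -⟩ := am2_spec (by omega : 2 ≤ m) L
  obtain ⟨h2, h3, -⟩ := am3_spec (by omega : 3 ≤ m) L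
  obtain ⟨h2', h3', h4', h4⟩ := am4_spec hm L
  have k1 : put L (am2 L) x (am L) = lo1 L := put_ne L h1 x
  have k2 : put L (am2 L) x (am2 L) = lo2 L + x := put_self L _ x
  have k3 : put L (am2 L) x (am3 L) = lo3 L := put_ne L h3.symm x
  have k4 : put L (am2 L) x (am4 L) = lo4 L := put_ne L h3'.symm x
  have g1 := lo12 L
  have g2 := lo23 hm L
  have g3 := lo34 hm L
  refine ⟨?_, ?_, ?_, ?_, ?_⟩
  · rw [← k1]; exact lo1_le _ _
  · exact lo2_le hm _ h1.symm (by rw [k1]; linarith) k2.le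
  · exact lo2_le hm _ h2.symm (by rw [k1]; linarith) k3.le
  · exact lo3_le hm _ h2.symm h2'.symm h4'.symm (by rw [k1]; linarith) (by rw [k3]; exact g3)
      k4.le
  · have := lo_sum3 hm (put L (am2 L) x) h1.symm h2.symm h3.symm
    rw [k1, k2, k3] at this
    linarith

/-- after a job on the third lowest machine -/
theorem step3 (hm : 4 ≤ m) (L : Fin m → ℝ) {x : ℝ} (hx : 0 ≤ x) :
    lo1 (put L (am3 L) x) ≤ lo1 L ∧ lo2 (put L (am3 L) x) ≤ lo2 L ∧
    lo3 (put L (am3 L) x) ≤ lo3 L + x ∧ lo3 (put L (am3 L) x) ≤ lo4 L ∧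
    (lo3 L + x ≤ lo3 (put L (am3 L) x) ∨ lo4 L ≤ lo3 (put L (am3 L) x)) := by
  obtain ⟨h1, -⟩ := am2_spec (by omega : 2 ≤ m) L
  obtain ⟨h2, h3, -⟩ := am3_spec (by omega : 3 ≤ m) L
  obtain ⟨h2', h3', h4', h4⟩ := am4_spec hm L
  have k1 : put L (am3 L) x (am L) = lo1 L := put_ne L h2 x
  have k2 : put L (am3 L) x (am2 L) = lo2 L := put_ne L h3 x
  have k3 : put L (am3 L) x (am3 L) = lo3 L + x := put_self L _ x
  have k4 : put L (am3 L) x (am4 L) = lo4 L := put_ne L h4'.symm x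
  have g1 := lo12 L
  have g2 := lo23 hm L
  have g3 := lo34 hm L
  refine ⟨?_, ?_, ?_, ?_, ?_⟩
  · rw [← k1]; exact lo1_le _ _
  · exact lo2_le hm _ h1.symm (by rw [k1]; linarith) k2.le
  · exact lo3_le hm _ h1.symm h2.symm h3.symm (by rw [k1]; linarith) (by rw [k2]; linarith) k3.le
  · exact lo3_le hm _ h1.symm h2'.symm h3'.symm (by rw [k1]; linarith) (by rw [k2]; linarith)
      k4.le
  · rcases le_total (lo3 L + x) (lo4 L) with h | h
    · left
      refine le_lo3 hm _ (am L) (am2 L) fun k a b => ?_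
      by_cases hk : k = am3 L
      · rw [hk, k3]
      · rw [put_ne L (Ne.symm hk)]
        exact h.trans (h4 k a b hk)
    · right
      refine le_lo3 hm _ (am L) (am2 L) fun k a b => ?_
      by_cases hk : k = am3 L
      · rw [hk, k3]; exact h
      · rw [put_ne L (Ne.symm hk)]
        exact h4 k a b hk

end Pool.Agent.Lib_MP_25a3c1_mix
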