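import Pool.Agent.Lib_MP_25a3c1_mix.Alg4

/-!
A pigeonhole argument on the machines of the careful algorithm.
-/

namespace Pool.Agent.Lib_MP_25a3c1_mix

open Pool.Agent.Lib_MP_25a3c1 Finset

variable {m : ℕ} [NeZero m]

theorem sum_lo4' (hm : 4 ≤ m) (L : Fin m → ℝ) {v : Fin m} (hv1 : v ≠ am L) (hv2 : v ≠ am2 L)
    (hv3 : v ≠ am3 L) :
    lo1 L + lo2 L + lo3 L + ((m : ℝ) - 4) * lo4 L + L v ≤ ∑ j, L j := by
  obtain ⟨h1, -⟩ := am2_spec (by omega : 2 ≤ m) L
  obtain ⟨h2, h3, -⟩ := am3_spec (by omega : 3 ≤ m) L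
  obtain ⟨h2', h3', h4', h4⟩ := am4_spec hm L
  have h : ∀ j ∈ (Finset.univ : Finset (Fin m)), lo4 L +
      (if j = am L then lo1 L - lo4 L else 0) +
      (if j = am2 L then lo2 L - lo4 L else 0) +
      (if j = am3 L then lo3 L - lo4 L else 0) +
      (if j = v then L v - lo4 L else 0) ≤ L j := by
    intro j _
    by_cases e1 : j = am L
    · rw [if_pos e1, if_neg (by rw [e1]; exact h1.symm), if_neg (by rw [e1]; exact h2.symm),
        if_neg (by rw [e1]; exact hv1.symm), e1]
      change _ ≤ lo1 L
      linarith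
    · rw [if_neg e1]
      by_cases e2 : j = am2 L
      · rw [if_pos e2, if_neg (by rw [e2]; exact h3.symm), if_neg (by rw [e2]; exact hv2.symm), e2]
        change _ ≤ lo2 L
        linarith
      · rw [if_neg e2]
        by_cases e3 : j = am3 L
        · rw [if_pos e3, if_neg (by rw [e3]; exact hv3.symm), e3]
          change _ ≤ lo3 L
          linarith
        · rw [if_neg e3]
          by_cases e4 : j = v
          · rw [if_pos e4, e4]
            linarith
          · rw [if_neg e4]
            have := h4 j e1 e2 e3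
            change lo4 L ≤ L j at this
            linarith
  have h5 := Finset.sum_le_sum h
  rw [Finset.sum_add_distrib, Finset.sum_add_distrib, Finset.sum_add_distrib,
    Finset.sum_add_distrib] at h5
  simp only [Finset.sum_const, Finset.card_univ, Fintype.card_fin, nsmul_eq_mul,
    Finset.sum_ite_eq', Finset.mem_univ, if_true] at h5
  linarith

theorem bpig (hm : 4 ≤ m) {lam R : ℝ} {p : ℕ → ℝ} (hp : ∀ i, 0 < p i) {s : ℕ}
    {κ i1 i2 i3 : Fin m} (hi1 : κ ≠ i1)
    (hi2 : ∀ k, k ≠ κ → k ≠ i1 → ls m p s i2 ≤ ls m p s k)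
    (hi3 : ∀ k, k ≠ κ → k ≠ i1 → k ≠ i2 → ls m p s i3 ≤ ls m p s k) :
    (ls m p s i2 ≤ mn m p s + lo3 (ca4 m lam R p s)) ∨
    (lo1 (ca4 m lam R p s) + lo2 (ca4 m lam R p s) + 2 * lo3 (ca4 m lam R p s) +
      ((m : ℝ) - 4) * lo4 (ca4 m lam R p s) + ls m p s i2 + ls m p s i3 - 2 * mn m p s
        ≤ vol p s) ∨
    (∃ s4 < s, E3 m lam R p s4 ∧ (∀ t, s4 < t → t < s → ¬ E3 m lam R p t) ∧
      lo1 (ca4 m lam R p s) + lo2 (ca4 m lam R p s) + lo3 (ca4 m lam R p s) +
      ((m : ℝ) - 4) * lo4 (ca4 m lam R p s) + ls m p s i2 + ls m p s i3 - mn m p s4 - mn m p s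
        ≤ vol p s) := by
  classical
  set L := ca4 m lam R p s with hL
  have hL0 : ∀ j, 0 ≤ L j := fun j => ca4_nonneg hp s j
  have hmn0 := mn_nonneg (m := m) hp s
  by_cases hz : ∃ k, k ≠ κ ∧ k ≠ i1 ∧ ls m p s k = 0
  · obtain ⟨k, hk1, hk2, hk3⟩ := hz
    left
    have h1 := hi2 k hk1 hk2
    have h2 : 0 ≤ lo3 L := hL0 _
    linarith
  push Not at hz
  have hlast : ∀ k, ∃ l, (k ≠ κ → k ≠ i1 → l < s ∧ am (ls m p l) = k ∧
      ls m p s k = mn m p l + p l) := by
    intro k
    by_cases h : k ≠ κ ∧ k ≠ i1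
    · rcases ls_last (p := p) s k with h0 | ⟨l, h1, h2, h3⟩
      · exact absurd h0 (hz k h.1 h.2)
      · exact ⟨l, fun _ _ => ⟨h1, h2, h3⟩⟩
    · exact ⟨0, fun a b => absurd ⟨a, b⟩ h⟩
  choose l hl using hlast
  set S : Finset (Fin m) := {κ, i1}ᶜ with hS
  have hSm : ∀ k ∈ S, k ≠ κ ∧ k ≠ i1 := by
    intro k hk
    simpa [hS] using hk
  by_cases hT : ∃ k ∈ S, bt m lam R p (l k) ∈ ({am L, am2 L, am3 L} : Finset (Fin m))
  · obtain ⟨k, hk, hk'⟩ := hT
    left
    obtain ⟨a, b⟩ := hSm k hk
    obtain ⟨h1, h2, h3⟩ := hl k a b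
    have h4 : p (l k) ≤ L (bt m lam R p (l k)) := by
      have h5 := ca4_mono (m := m) (lam := lam) (R := R) hp (show l k + 1 ≤ s from h1)
        (bt m lam R p (l k))
      rw [ca4_succ, put_self] at h5
      have h6 := ca4_nonneg (m := m) (lam := lam) (R := R) hp (l k) (bt m lam R p (l k))
      linarith
    have h5 : L (bt m lam R p (l k)) ≤ lo3 L := by
      simp only [Finset.mem_insert, Finset.mem_singleton] at hk'
      rcases hk' with h6 | h6 | h6
      · rw [h6]; exact (lo12 L).trans (lo23 hm L)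
      · rw [h6]; exact lo23 hm L
      · rw [h6]; exact le_rfl
    have h6 := hi2 k a b
    have h7 := mn_mono (m := m) hp h1.le
    linarith
  · right
    push Not at hT
    have hcard : (({am L, am2 L, am3 L} : Finset (Fin m))ᶜ).card < S.card := by
      rw [Finset.card_compl, Fintype.card_fin, hS, Finset.card_compl, Fintype.card_fin,
        Finset.card_pair hi1, Finset.card_eq_three.2
        ⟨am L, am2 L, am3 L, (am2_spec (by omega) L).1.symm, (am3_spec (by omega) L).1.symm,
          (am3_spec (by omega) L).2.1.symm, rfl⟩]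
      omega
    obtain ⟨k, hk, k', hk', hne, heq⟩ := Finset.exists_ne_map_eq_of_card_lt_of_maps_to hcard
      (f := fun k => bt m lam R p (l k)) (fun k hk => by
        rw [Finset.mem_coe, Finset.mem_compl]
        exact hT k hk)
    -- the earlier one first
    have key : ∀ k k', k ∈ S → k' ∈ S → k ≠ k' → bt m lam R p (l k) = bt m lam R p (l k') →
        l k < l k' →
        (lo1 L + lo2 L + 2 * lo3 L + ((m : ℝ) - 4) * lo4 L + ls m p s i2 + ls m p s i3 -
          2 * mn m p s ≤ vol p s) ∨
        (∃ s4 < s, E3 m lam R p s4 ∧ (∀ t, s4 < t → t < s → ¬ E3 m lam R p t) ∧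
          lo1 L + lo2 L + lo3 L + ((m : ℝ) - 4) * lo4 L + ls m p s i2 + ls m p s i3 -
            mn m p s4 - mn m p s ≤ vol p s) := by
      intro k k' hk hk' hne heq hlt
      obtain ⟨a, b⟩ := hSm k hk
      obtain ⟨a', b'⟩ := hSm k' hk'
      obtain ⟨h1, h2, h3⟩ := hl k a b
      obtain ⟨h1', h2', h3'⟩ := hl k' a' b'
      set v := bt m lam R p (l k) with hv
      have hload : ca4 m lam R p (l k) v + p (l k) + p (l k') ≤ L v := by
        have e1 : ca4 m lam R p (l k + 1) v = ca4 m lam R p (l k) v + p (l k) := by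
          rw [ca4_succ, ← hv, put_self]
        have e2 := ca4_mono (m := m) (lam := lam) (R := R) hp (show l k + 1 ≤ l k' from hlt) v
        have e3 : ca4 m lam R p (l k' + 1) v = ca4 m lam R p (l k') v + p (l k') := by
          rw [ca4_succ, ← heq, put_self]
        have e4 := ca4_mono (m := m) (lam := lam) (R := R) hp (show l k' + 1 ≤ s from h1') v
        linarith
      have hvT := hT k hk
      simp only [← hv, Finset.mem_insert, Finset.mem_singleton, not_or] at hvT
      have hsum := sum_lo4' hm L hvT.1 hvT.2.1 hvT.2.2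
      have hsum2 : ∑ j, L j = vol p s := sum_ca4 lam R p s
      rw [hsum2] at hsum
      have hpair : ls m p s i2 + ls m p s i3 ≤ ls m p s k + ls m p s k' := by
        by_cases h4 : k = i2
        · have h5 := hi3 k' a' b' (by rw [← h4]; exact hne.symm)
          have h6 := hi2 k a b
          linarith
        · have h5 := hi3 k a b h4
          have h6 := hi2 k' a' b'
          linarith
      have hmk' := mn_mono (m := m) hp h1'.le
      have hmk := mn_mono (m := m) hp h1.le
      by_cases hbase : lo3 L ≤ ca4 m lam R p (l k) v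
      · left
        linarith
      · right
        push Not at hbase
        have hbase0 := ca4_nonneg (m := m) (lam := lam) (R := R) hp (l k) v
        have hex : ∃ t, l k ≤ t ∧ t < s ∧ E3 m lam R p t := by
          by_contra hcon
          push Not at hcon
          have e1 := (stay3 (m := m) (lam := lam) (R := R) hm hp h1.le hcon).2.2
          have e2 := hcon (l k) le_rfl h1
          have e3 : v = am4 (ca4 m lam R p (l k)) := by
            unfold E3 at e2
            push Not at e2
            rcases bt_cases (m := m) lam R p (l k) with e | e | e | e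
            · exact e.1
            · exact absurd e.1 e2.2.2
            · exact absurd e.1 e2.2.1
            · exact absurd e.1 e2.1
          have e4 := lo34 hm (ca4 m lam R p (l k))
          have e5 : ca4 m lam R p (l k) v = lo4 (ca4 m lam R p (l k)) := by rw [e3]; rfl
          rw [← hL] at e1
          linarith
        obtain ⟨t, ht1, ht2, ht3⟩ := hex
        rcases last_or_none (E3 m lam R p) s with h4 | ⟨s4, hs4, h4, h5⟩
        · exact absurd ht3 (h4 t ht2)
        · refine ⟨s4, hs4, h4, h5, ?_⟩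
          have h6 : l k ≤ s4 := by
            by_contra h7
            push Not at h7
            exact h5 t (by omega) ht2 ht3
          have h7 := mn_mono (m := m) hp h6
          linarith
    have hllne : l k ≠ l k' := by
      intro h
      obtain ⟨a, b⟩ := hSm k hk
      obtain ⟨a', b'⟩ := hSm k' hk'
      have e1 := (hl k a b).2.1
      have e2 := (hl k' a' b').2.1
      exact hne (by rw [← e1, ← e2, h])
    rcases lt_or_gt_of_ne hllne with h | h
    · exact key k k' hk hk' hne heq h
    · exact key k' k hk' hk hne.symm heq.symm h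

end Pool.Agent.Lib_MP_25a3c1_mix
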