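import Pool.Agent.Lib_MP_25a3c1.Basic

/-!
Online makespan scheduling: further facts about the optimum, and algorithms given by a rule
which looks at the jobs so far and at the current loads.
-/

namespace Pool.Agent.Lib_MP_25a3c1_mix

open Pool.Agent.Lib_MP_25a3c1 Finset

variable {m : ℕ}

/-- The total running time of the jobs `p 0, ..., p (n - 1)`. -/
noncomputable def vol (p : ℕ → ℝ) (n : ℕ) : ℝ := ∑ i ∈ range n, p i

theorem vol_succ (p : ℕ → ℝ) (n : ℕ) : vol p (n + 1) = vol p n + p n := by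
  unfold vol
  exact Finset.sum_range_succ _ _

theorem vol_zero (p : ℕ → ℝ) : vol p 0 = 0 := by simp [vol]

theorem vol_mono {p : ℕ → ℝ} (hp : ∀ i, 0 < p i) {n N : ℕ} (h : n ≤ N) : vol p n ≤ vol p N := by
  unfold vol
  exact Finset.sum_le_sum_of_subset_of_nonneg (Finset.range_mono h) fun i _ _ => (hp i).le

theorem vol_congr {p q : ℕ → ℝ} {n : ℕ} (h : ∀ k < n, q k = p k) : vol q n = vol p n := by
  unfold vol
  exact Finset.sum_congr rfl fun i hi => h i (Finset.mem_range.1 hi)

theorem vol_nonneg {p : ℕ → ℝ} (hp : ∀ i, 0 < p i) (n : ℕ) : 0 ≤ vol p n :=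
  Finset.sum_nonneg fun i _ => (hp i).le

theorem opt_mono (hm : 0 < m) {p : ℕ → ℝ} (hp : ∀ i, 0 < p i) {n N : ℕ} (h : n ≤ N) :
    opt m p n ≤ opt m p N := by
  refine le_opt hm p N _ fun f => (opt_le hm hp n f).trans ?_
  refine makespan_le hm f p n _ fun j => ?_
  refine le_trans ?_ (load_le_makespan f p N j)
  refine Finset.sum_le_sum_of_subset_of_nonneg (Finset.range_mono h) fun i _ _ => ?_
  split_ifs
  · exact (hp i).le
  · exact le_rfl

theorem opt_congr {p q : ℕ → ℝ} {n : ℕ} (h : ∀ k < n, q k = p k) : opt m q n = opt m p n := by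
  unfold opt makespan
  refine congrArg _ (funext fun f => congrArg _ (funext fun j => ?_))
  exact Finset.sum_congr rfl fun i hi => by rw [h i (Finset.mem_range.1 hi)]

theorem vol_le_opt (hm : 0 < m) {p : ℕ → ℝ} (n : ℕ) :
    vol p n ≤ m * opt m p n := by
  have hm' : (0 : ℝ) < m := by exact_mod_cast hm
  have h : vol p n / m ≤ opt m p n := by
    refine le_opt hm p n _ fun f => ?_
    rw [div_le_iff₀ hm']
    have h1 : vol p n = ∑ j : Fin m, ∑ i ∈ range n, (if f i = j then p i else 0) := by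
      rw [Finset.sum_comm]
      unfold vol
      refine Finset.sum_congr rfl fun i _ => ?_
      simp
    rw [h1]
    calc ∑ j : Fin m, ∑ i ∈ range n, (if f i = j then p i else 0)
        ≤ ∑ _j : Fin m, makespan f p n := Finset.sum_le_sum fun j _ => load_le_makespan f p n j
      _ = makespan f p n * m := by simp [mul_comm]
  rw [div_le_iff₀ hm'] at h
  linarith

/-- pigeonhole: among `m + 1` jobs two are together in every assignment -/
theorem exists_pair_le_opt (hm : 0 < m) {p : ℕ → ℝ} (hp : ∀ i, 0 < p i) {N : ℕ}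
    {ι : Type} [Fintype ι] (idx : ι → ℕ) (hinj : Function.Injective idx)
    (hlt : ∀ i, idx i < N) (hcard : m < Fintype.card ι) :
    ∃ i j, i ≠ j ∧ p (idx i) + p (idx j) ≤ opt m p N := by
  classical
  by_contra hcon
  push Not at hcon
  -- the smallest pair sum
  have hne : (Finset.univ.filter fun x : ι × ι => x.1 ≠ x.2).Nonempty := by
    have : 1 < Fintype.card ι := by omega
    obtain ⟨a, b, hab⟩ := Fintype.exists_pair_of_one_lt_card this
    exact ⟨(a, b), by simp [hab]⟩
  obtain ⟨⟨a, b⟩, hab, hmin⟩ := Finset.exists_min_image _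
    (fun x : ι × ι => p (idx x.1) + p (idx x.2)) hne
  have hab' : a ≠ b := by simpa using hab
  have h1 : p (idx a) + p (idx b) ≤ opt m p N := by
    refine le_opt hm p N _ fun f => ?_
    obtain ⟨x, y, hxy, hf⟩ := Fintype.exists_ne_map_eq_of_card_lt (fun i : ι => f (idx i))
      (by simpa using hcard)
    have h2 := hmin (x, y) (by simp [hxy])
    exact h2.trans (pair_le_makespan f hp (fun h => hxy (hinj h)) (hlt x) (hlt y) hf)
  exact absurd h1 (not_le.2 (hcon a b hab'))

/-! ### Rules -/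

/-- The loads of the algorithm which puts job `n` on the machine `r n p L`, where `L` are the
loads before job `n`. -/
noncomputable def ld (r : ℕ → (ℕ → ℝ) → (Fin m → ℝ) → Fin m) (p : ℕ → ℝ) : ℕ → Fin m → ℝ
  | 0 => fun _ => 0
  | n + 1 => fun j => ld r p n j + if r n p (ld r p n) = j then p n else 0

variable {r : ℕ → (ℕ → ℝ) → (Fin m → ℝ) → Fin m} {p : ℕ → ℝ}

theorem ld_succ (n : ℕ) (j : Fin m) :
    ld r p (n + 1) j = ld r p n j + if r n p (ld r p n) = j then p n else 0 := rfl

theorem ld_zero (j : Fin m) : ld r p 0 j = 0 := rfl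

theorem ld_step (hp : ∀ i, 0 < p i) (n : ℕ) (j : Fin m) : ld r p n j ≤ ld r p (n + 1) j := by
  rw [ld_succ]
  split_ifs
  · linarith [hp n]
  · simp

theorem ld_mono (hp : ∀ i, 0 < p i) {n N : ℕ} (h : n ≤ N) (j : Fin m) :
    ld r p n j ≤ ld r p N j :=
  monotone_nat_of_le_succ (f := fun n => ld r p n j) (fun n => ld_step hp n j) h

theorem ld_nonneg (hp : ∀ i, 0 < p i) (n : ℕ) (j : Fin m) : 0 ≤ ld r p n j :=
  ld_mono (r := r) hp (Nat.zero_le n) j

theorem sum_ld (n : ℕ) : ∑ j, ld r p n j = vol p n := by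
  induction n with
  | zero => simp [ld_zero, vol_zero]
  | succ n ih =>
    rw [vol_succ, ← ih]
    simp only [ld_succ, Finset.sum_add_distrib]
    simp

theorem ld_congr {q : ℕ → ℝ}
    (hr : ∀ (i : ℕ) (p q : ℕ → ℝ) (L : Fin m → ℝ), (∀ k ≤ i, p k = q k) → r i p L = r i q L)
    {n : ℕ} (h : ∀ k < n, q k = p k) : ld r q n = ld r p n := by
  induction n with
  | zero => rfl
  | succ n ih =>
    have h1 := ih fun k hk => h k (by omega)
    funext j
    rw [ld_succ, ld_succ, h1, hr n q p _ fun k hk => h k (by omega), h n (by omega)]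

/-- the algorithm of a rule -/
noncomputable def ofRule (r : ℕ → (ℕ → ℝ) → (Fin m → ℝ) → Fin m)
    (hr : ∀ (i : ℕ) (p q : ℕ → ℝ) (L : Fin m → ℝ), (∀ k ≤ i, p k = q k) → r i p L = r i q L) :
    Online m where
  place i p := r i p (ld r p i)
  online i p q h := by
    rw [hr i p q _ h, ld_congr (p := q) (q := p) hr fun k hk => h k (by omega)]

theorem ofRule_load
    (hr : ∀ (i : ℕ) (p q : ℕ → ℝ) (L : Fin m → ℝ), (∀ k ≤ i, p k = q k) → r i p L = r i q L)
    (n : ℕ) (j : Fin m) :
    ∑ i ∈ range n, (if (ofRule r hr).place i p = j then p i else 0) = ld r p n j := by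
  induction n with
  | zero => simp [ld_zero]
  | succ n ih =>
    rw [Finset.sum_range_succ, ih, ld_succ]
    rfl

theorem exists_cost (hm : 0 < m)
    (hr : ∀ (i : ℕ) (p q : ℕ → ℝ) (L : Fin m → ℝ), (∀ k ≤ i, p k = q k) → r i p L = r i q L)
    (n : ℕ) : ∃ j, (ofRule r hr).cost p n = ld r p n j := by
  have : Nonempty (Fin m) := ⟨⟨0, hm⟩⟩
  obtain ⟨j, hj⟩ := Finite.exists_max (ld r p n)
  refine ⟨j, le_antisymm ?_ ?_⟩
  · refine makespan_le hm _ p n _ fun k => ?_
    rw [ofRule_load hr]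
    exact hj k
  · rw [← ofRule_load hr n j]
    exact load_le_makespan _ p n j

end Pool.Agent.Lib_MP_25a3c1_mix
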