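import Pool.Agent.Lib_MP_25a3c1_mix.Fact3

/-!
The volume of List Scheduling: capped loads.
-/

namespace Pool.Agent.Lib_MP_25a3c1_mix

open Pool.Agent.Lib_MP_25a3c1 Finset

variable {m : ℕ} [NeZero m]

/-- the sum of the loads, all raised to the level `a` -/
noncomputable def capF (m : ℕ) [NeZero m] (q : ℕ → ℝ) (a : ℝ) (u : ℕ) : ℝ :=
  ∑ j : Fin m, max (ls m q u j) a

theorem capF_mono {q : ℕ → ℝ} (hq : ∀ i, 0 < q i) (a : ℝ) {u v : ℕ} (h : u ≤ v) :
    capF m q a u ≤ capF m q a v :=
  Finset.sum_le_sum fun j _ => max_le_max (ls_mono hq h j) le_rfl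

theorem capF_step {q : ℕ → ℝ} (a : ℝ) (u : ℕ) (h : mn m q u ≤ a) :
    capF m q a u + (mn m q u + q u - a) ≤ capF m q a (u + 1) := by
  classical
  unfold capF
  have h1 : ∀ j ∈ (Finset.univ : Finset (Fin m)), max (ls m q u j) a +
      (if j = am (ls m q u) then mn m q u + q u - a else 0) ≤ max (ls m q (u + 1) j) a := by
    intro j _
    by_cases hj : j = am (ls m q u)
    · rw [if_pos hj, hj, ls_step_am]
      have h2 : ls m q u (am (ls m q u)) = mn m q u := rfl
      rw [h2, max_eq_right h]
      have := le_max_left (mn m q u + q u) a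
      linarith
    · rw [if_neg hj, ls_step_ne q u (Ne.symm hj), add_zero]
  have h2 := Finset.sum_le_sum h1
  rw [Finset.sum_add_distrib] at h2
  simp only [Finset.sum_ite_eq', Finset.mem_univ, if_true] at h2
  linarith

theorem capF_steps {q : ℕ → ℝ} (hq : ∀ i, 0 < q i) (a : ℝ) {u : ℕ} (X : Finset ℕ)
    (hX : ∀ x ∈ X, u ≤ x) (v : ℕ) (huv : u ≤ v) (hv : ∀ x < v, mn m q x ≤ a) :
    capF m q a u + ∑ x ∈ X.filter (· < v), (mn m q x + q x - a) ≤ capF m q a v := by
  induction v, huv using Nat.le_induction with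
  | base =>
    have : X.filter (· < u) = ∅ := by
      rw [Finset.filter_eq_empty_iff]
      intro x hx h
      exact absurd (hX x hx) (not_le.2 h)
    rw [this, Finset.sum_empty, add_zero]
  | succ v huv ih =>
    have h1 := ih fun x hx => hv x (by omega)
    by_cases hvX : v ∈ X
    · have h2 : X.filter (· < v + 1) = insert v (X.filter (· < v)) := by
        ext x
        simp only [Finset.mem_filter, Finset.mem_insert]
        constructor
        · rintro ⟨h3, h4⟩
          rcases Nat.lt_succ_iff_lt_or_eq.1 h4 with h5 | h5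
          · exact Or.inr ⟨h3, h5⟩
          · exact Or.inl h5
        · rintro (h3 | ⟨h3, h4⟩)
          · rw [h3]; exact ⟨hvX, Nat.lt_succ_self v⟩
          · exact ⟨h3, by omega⟩
      rw [h2, Finset.sum_insert (by simp)]
      have h3 := capF_step (m := m) (q := q) a v (hv v (Nat.lt_succ_self v))
      linarith
    · have h2 : X.filter (· < v + 1) = X.filter (· < v) := by
        ext x
        simp only [Finset.mem_filter]
        constructor
        · rintro ⟨h3, h4⟩
          rcases Nat.lt_succ_iff_lt_or_eq.1 h4 with h5 | h5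
          · exact ⟨h3, h5⟩
          · rw [h5] at h3; exact absurd h3 hvX
        · rintro ⟨h3, h4⟩
          exact ⟨h3, by omega⟩
      rw [h2]
      exact h1.trans (capF_mono hq a (Nat.le_succ v))

theorem capF_end (q : ℕ → ℝ) (l : ℕ) : capF m q (mn m q l) l = vol q l := by
  unfold capF
  rw [← sum_ls (m := m) q l]
  exact Finset.sum_congr rfl fun j _ => max_eq_left (mn_le q l j)

theorem capF_ge (q : ℕ → ℝ) (a : ℝ) (u : ℕ) (T : Finset (Fin m)) :
    vol q u + ∑ i ∈ T, (a - ls m q u i) ≤ capF m q a u := by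
  classical
  unfold capF
  rw [← sum_ls (m := m) q u]
  have h1 : ∑ i ∈ T, (a - ls m q u i) = ∑ i, if i ∈ T then a - ls m q u i else 0 := by
    rw [Finset.sum_ite_mem, Finset.univ_inter]
  rw [h1, ← Finset.sum_add_distrib]
  refine Finset.sum_le_sum fun j _ => ?_
  split_ifs
  · have := le_max_right (ls m q u j) a
    linarith
  · have := le_max_left (ls m q u j) a
    linarith

theorem capF_zero (q : ℕ → ℝ) (a : ℝ) (ha : 0 ≤ a) : capF m q a 0 = m * a := by
  unfold capF
  simp only [ls_zero, max_eq_right ha]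
  simp

/-- the volume at a time `l`, for a sequence which agrees with `p` up to the job `t0` -/
theorem capL {p q : ℕ → ℝ} (hq : ∀ i, 0 < q i) {s t0 l : ℕ} (hqp : ∀ i < t0 + 1, q i = p i)
    (hs : s ≤ t0) (hl : t0 < l) (T : List (Fin m)) (hT : T.Nodup) (X : List ℕ) (hXn : X.Nodup)
    (hX : ∀ x ∈ X, s < x ∧ x ≤ t0) :
    vol p s + p s + (T.map fun i => mn m q l - ls m p (s + 1) i).sum +
      (X.map fun x => mn m p x + p x - mn m q l).sum ≤ vol q l := by
  classical
  have h1 := capF_steps (m := m) hq (mn m q l) (u := s + 1) X.toFinset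
    (fun x hx => (hX x (List.mem_toFinset.1 hx)).1) l (by omega)
    (fun x hx => mn_mono hq hx.le)
  rw [capF_end] at h1
  have h2 := capF_ge (m := m) q (mn m q l) (s + 1) T.toFinset
  have h3 : X.toFinset.filter (· < l) = X.toFinset := by
    rw [Finset.filter_eq_self]
    intro x hx
    have := (hX x (List.mem_toFinset.1 hx)).2
    omega
  rw [h3] at h1
  have h4 : ∑ x ∈ X.toFinset, (mn m q x + q x - mn m q l)
      = (X.map fun x => mn m p x + p x - mn m q l).sum := by
    rw [List.sum_toFinset _ hXn]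
    congr 1
    refine List.map_congr_left fun x hx => ?_
    have h5 := (hX x hx).2
    rw [mn_congr (m := m) (p := p) (q := q) fun k hk => hqp k (by omega), hqp x (by omega)]
  have h5 : ∑ i ∈ T.toFinset, (mn m q l - ls m q (s + 1) i)
      = (T.map fun i => mn m q l - ls m p (s + 1) i).sum := by
    rw [List.sum_toFinset _ hT]
    rw [ls_congr (m := m) (p := p) (q := q) fun k hk => hqp k (by omega)]
  have h6 : vol q (s + 1) = vol p s + p s := by
    rw [vol_congr (p := p) (q := q) fun k hk => hqp k (by omega), vol_succ]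
  rw [h4] at h1
  rw [h5, h6] at h2
  linarith

/-- the volume at a time `l`, for a sequence which agrees with `p` up to the job `t0` -/
theorem capV {p q : ℕ → ℝ} (hq : ∀ i, 0 < q i) {t0 l : ℕ} (hqp : ∀ i < t0 + 1, q i = p i)
    (hl : t0 < l) (X : List ℕ) (hXn : X.Nodup) (hX : ∀ x ∈ X, x ≤ t0) :
    (m : ℝ) * mn m q l + (X.map fun x => mn m p x + p x - mn m q l).sum ≤ vol q l := by
  classical
  have h1 := capF_steps (m := m) hq (mn m q l) (u := 0) X.toFinset
    (fun x hx => Nat.zero_le x) l (Nat.zero_le l) (fun x hx => mn_mono hq hx.le)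
  rw [capF_end, capF_zero q _ (mn_nonneg hq l)] at h1
  have h3 : X.toFinset.filter (· < l) = X.toFinset := by
    rw [Finset.filter_eq_self]
    intro x hx
    have := hX x (List.mem_toFinset.1 hx)
    omega
  rw [h3] at h1
  have h4 : ∑ x ∈ X.toFinset, (mn m q x + q x - mn m q l)
      = (X.map fun x => mn m p x + p x - mn m q l).sum := by
    rw [List.sum_toFinset _ hXn]
    congr 1
    refine List.map_congr_left fun x hx => ?_
    have h5 := hX x hx
    rw [mn_congr (m := m) (p := p) (q := q) fun k hk => hqp k (by omega), hqp x (by omega)]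
  rw [h4] at h1
  exact h1

/-- the machine of the job `s` at a later time: no later job came, or the level is higher -/
theorem last_or_le {p : ℕ → ℝ} (hp : ∀ i, 0 < p i) {s t : ℕ} (hst : s < t) :
    ls m p t (am (ls m p s)) = mn m p s + p s ∨ mn m p s + p s ≤ mn m p t := by
  induction t, hst using Nat.le_induction with
  | base => exact Or.inl (ls_step_am p s)
  | succ t hst ih =>
    rcases ih with h | h
    · by_cases hk : am (ls m p t) = am (ls m p s)
      · right
        have h1 : mn m p t = mn m p s + p s := by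
          rw [← h, ← hk]; rfl
        rw [← h1]
        exact mn_mono hp (Nat.le_succ t)
      · left
        rw [ls_step_ne p t hk]
        exact h
    · exact Or.inr (h.trans (mn_mono hp (Nat.le_succ t)))

/-- pigeonhole, with the two lowest machines of `S` -/
theorem pig {q : ℕ → ℝ} (hq : ∀ i, 0 < q i) {s N : ℕ} (hsN : s ≤ N) (S : Finset (Fin m))
    (X : Finset ℕ) (hX : ∀ x ∈ X, s ≤ x ∧ x < N) (hcard : m < S.card + X.card)
    {i j : Fin m} (hi : ∀ k ∈ S, ls m q s i ≤ ls m q s k)
    (hj : ∀ k ∈ S, k ≠ i → ls m q s j ≤ ls m q s k) :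
    (ls m q s i + ls m q s j ≤ opt m q N + 2 * mn m q s) ∨
    (∃ x ∈ X, ls m q s i + q x ≤ opt m q N + mn m q s) ∨
    (∃ x ∈ X, ∃ y ∈ X, x ≠ y ∧ q x + q y ≤ opt m q N) := by
  rcases pigeon hq hsN S X hX hcard with ⟨k, hk, l, hl, hkl, h⟩ | ⟨k, hk, x, hx, h⟩ | h
  · left
    by_cases h1 : k = i
    · have h2 := hj l hl (by rw [← h1]; exact hkl.symm)
      rw [h1] at h
      linarith
    · have h2 := hj k hk h1
      have h3 := hi l hl
      linarith
  · right; left
    exact ⟨x, hx, by linarith [hi k hk]⟩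
  · exact Or.inr (Or.inr h)

end Pool.Agent.Lib_MP_25a3c1_mix
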