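import Pool.Agent.Lib_MP_25a3c1_mix.Ratio

/-!
The best ratio of deterministic online algorithms for job sequences of any length.
-/

namespace Pool.Agent.Lib_MP_25a3c1_mix

open Pool.Agent.Lib_MP_25a3c1

/-- The best competitive ratio of deterministic online algorithms on `m` machines. -/
noncomputable def detRatio (m : ℕ) : ℝ :=
  sInf {c : ℝ | ∃ A : Online m, CompetitiveAll m A.cost c}

/-- List Scheduling is `2`-competitive -/
theorem LSch_competitive (m : ℕ) [NeZero m] : CompetitiveAll m (LSch m).cost 2 := by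
  intro p n hp
  have hm : 0 < m := mpos
  obtain ⟨j, hj⟩ := exists_cost (p := p) hm (lsr_congr (m := m)) n
  have h1 : (LSch m).cost p n = ls m p n j := hj
  rw [h1]
  rcases ls_last (p := p) n j with h0 | ⟨l, hln, hlj, hl⟩
  · rw [h0]
    have := opt_nonneg hm hp n
    linarith
  · rw [hl]
    have h2 := job_le_opt hm hp hln
    have h3 : (m : ℝ) * mn m p l ≤ m * opt m p n :=
      (card_mul_mn_le (m := m) p l).trans ((vol_mono hp hln.le).trans (vol_le_opt hm _))
    have h4 : mn m p l ≤ opt m p n :=
      le_of_mul_le_mul_left h3 (by exact_mod_cast hm)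
    linarith

theorem le_detRatio {m : ℕ} (hm : 0 < m) {L : ℝ}
    (h : ∀ (A : Online m) (c : ℝ), CompetitiveAll m A.cost c → L ≤ c) : L ≤ detRatio m := by
  have : NeZero m := ⟨hm.ne'⟩
  exact le_csInf ⟨2, LSch m, LSch_competitive m⟩ fun c ⟨A, hc⟩ => h A c hc

end Pool.Agent.Lib_MP_25a3c1_mix
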