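import Pool.Agent.Lib_MP_25a3c1_mix.Alg3

/-!
Further facts about List Scheduling.
-/

namespace Pool.Agent.Lib_MP_25a3c1_mix

open Pool.Agent.Lib_MP_25a3c1 Finset

variable {m : ℕ} [NeZero m]

theorem ls_zero (p : ℕ → ℝ) (j : Fin m) : ls m p 0 j = 0 := rfl

theorem mn_zero (p : ℕ → ℝ) : mn m p 0 = 0 := rfl

theorem ls_mono {p : ℕ → ℝ} (hp : ∀ i, 0 < p i) {n N : ℕ} (h : n ≤ N) (j : Fin m) :
    ls m p n j ≤ ls m p N j := ld_mono hp h j

/-- a witness of unsafety -/
theorem wit {lam R : ℝ} (hl : 0 ≤ lam) (hR : 0 ≤ R) {p : ℕ → ℝ} (hp : ∀ i, 0 < p i) {t : ℕ}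
    {y : ℝ} (h : ¬ Safe m lam R (t + 1) p y) :
    (∃ l ≤ t, R * opt m p (t + 1) < lam * (mn m p l + p l) + (1 - lam) * y) ∨
    ∃ q : ℕ → ℝ, ∃ N l, (∀ i, 0 < q i) ∧ (∀ i < t + 1, q i = p i) ∧ t < l ∧ l < N ∧
      R * opt m q N < lam * (mn m q l + q l) + (1 - lam) * y := by
  have hm : 0 < m := mpos
  unfold Safe at h
  push Not at h
  obtain ⟨q, hq, hqp, N, hN, j, hlt⟩ := h
  have hO : opt m p (t + 1) ≤ opt m q N := by
    rw [← opt_congr (m := m) hqp]
    exact opt_mono hm hq hN
  have hRO : R * opt m p (t + 1) ≤ R * opt m q N := mul_le_mul_of_nonneg_left hO hR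
  rcases ls_last (p := q) N j with h0 | ⟨l, hlN, hlj, hl⟩
  · left
    refine ⟨0, Nat.zero_le _, ?_⟩
    rw [h0] at hlt
    rw [mn_zero]
    have := mul_nonneg hl (hp 0).le
    linarith
  · rw [hl] at hlt
    rcases Nat.lt_or_ge t l with h1 | h1
    · exact Or.inr ⟨q, N, l, hq, hqp, h1, hlN, hlt⟩
    · left
      refine ⟨l, h1, ?_⟩
      rw [← mn_congr (m := m) (p := p) (q := q) fun k hk => hqp k (by omega),
        ← hqp l (by omega)]
      linarith

/-- pigeonhole for last jobs `S` of machines before job `s`, and later jobs `X` -/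
theorem pigeon {q : ℕ → ℝ} (hq : ∀ i, 0 < q i) {s N : ℕ} (hsN : s ≤ N) (S : Finset (Fin m))
    (X : Finset ℕ) (hX : ∀ x ∈ X, s ≤ x ∧ x < N) (hcard : m < S.card + X.card) :
    (∃ i ∈ S, ∃ j ∈ S, i ≠ j ∧ ls m q s i + ls m q s j ≤ opt m q N + 2 * mn m q s) ∨
    (∃ i ∈ S, ∃ x ∈ X, ls m q s i + q x ≤ opt m q N + mn m q s) ∨
    (∃ x ∈ X, ∃ y ∈ X, x ≠ y ∧ q x + q y ≤ opt m q N) := by
  classical
  have hm : 0 < m := mpos
  have hmn := mn_nonneg (m := m) hq s
  by_cases hempty : ∃ i ∈ S, ls m q s i = 0
  · obtain ⟨i, hi, hi0⟩ := hempty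
    have hXne : X.Nonempty := by
      rw [← Finset.card_pos]
      have := Finset.card_le_univ S
      rw [Fintype.card_fin] at this
      omega
    obtain ⟨x, hx⟩ := hXne
    right; left
    refine ⟨i, hi, x, hx, ?_⟩
    have := job_le_opt hm hq (hX x hx).2
    linarith
  push Not at hempty
  have hlast : ∀ i, ∃ l', (i ∈ S → l' < s ∧ am (ls m q l') = i ∧
      ls m q s i ≤ mn m q s + q l') := by
    intro i
    by_cases hi : i ∈ S
    · rcases ls_last (p := q) s i with h0 | ⟨l', h1, h2, h3⟩
      · exact absurd h0 (hempty i hi)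
      · exact ⟨l', fun _ => ⟨h1, h2, by rw [h3]; linarith [mn_mono (m := m) hq h1.le]⟩⟩
    · exact ⟨0, fun h => absurd h hi⟩
  choose lj hlj' using hlast
  have hinj : Function.Injective (fun o : {i // i ∈ S} ⊕ {x // x ∈ X} =>
      (o.elim (fun i => lj i.1) (fun x => x.1) : ℕ)) := by
    rintro (⟨i, hi⟩ | ⟨x, hx⟩) (⟨i', hi'⟩ | ⟨x', hx'⟩) h
    · simp only [Sum.elim_inl] at h
      have e1 := (hlj' i hi).2.1
      have e2 := (hlj' i' hi').2.1
      have e3 : i = i' := by rw [← e1, ← e2, h]
      subst e3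
      rfl
    · exfalso
      simp only [Sum.elim_inl, Sum.elim_inr] at h
      have e1 := (hlj' i hi).1
      have e2 := (hX x' hx').1
      omega
    · exfalso
      simp only [Sum.elim_inl, Sum.elim_inr] at h
      have e1 := (hlj' i' hi').1
      have e2 := (hX x hx).1
      omega
    · simp only [Sum.elim_inr] at h
      subst h
      rfl
  obtain ⟨o, o', hoo, hpair⟩ := exists_pair_le_opt hm hq (N := N) _ hinj (by
    rintro (⟨i, hi⟩ | ⟨x, hx⟩)
    · simp only [Sum.elim_inl]
      have := (hlj' i hi).1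
      omega
    · simp only [Sum.elim_inr]
      exact (hX x hx).2) (by
        rw [Fintype.card_sum, Fintype.card_coe, Fintype.card_coe]
        exact hcard)
  rcases o with ⟨i, hi⟩ | ⟨x, hx⟩ <;> rcases o' with ⟨i', hi'⟩ | ⟨x', hx'⟩
  · simp only [Sum.elim_inl] at hpair
    refine Or.inl ⟨i, hi, i', hi', fun h => hoo (by subst h; rfl), ?_⟩
    linarith [(hlj' i hi).2.2, (hlj' i' hi').2.2]
  · simp only [Sum.elim_inl, Sum.elim_inr] at hpair
    refine Or.inr (Or.inl ⟨i, hi, x', hx', ?_⟩)
    linarith [(hlj' i hi).2.2]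
  · simp only [Sum.elim_inl, Sum.elim_inr] at hpair
    refine Or.inr (Or.inl ⟨i', hi', x, hx, ?_⟩)
    linarith [(hlj' i' hi').2.2]
  · simp only [Sum.elim_inr] at hpair
    exact Or.inr (Or.inr ⟨x, hx, x', hx', fun h => hoo (by subst h; rfl), hpair⟩)

/-- the machines of two earlier jobs -/
theorem vol_ge_ev2 {p : ℕ → ℝ} (hp : ∀ i, 0 < p i) {s s' t : ℕ} (hs : s < s') (ht : s' < t) :
    mn m p s' + p s' + (mn m p s + p s) + ((m : ℝ) - 2) * mn m p t ≤ vol p t := by
  by_cases hk : am (ls m p s) = am (ls m p s')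
  · have h1 := vol_ge_one (m := m) hp ht
    have h2 := ls_mono (m := m) hp (show s + 1 ≤ s' from hs) (am (ls m p s))
    rw [ls_step_am, hk] at h2
    change mn m p s + p s ≤ mn m p s' at h2
    have h3 := mn_mono (m := m) hp ht.le
    linarith
  · rw [← sum_ls (m := m) p t]
    have h : ∀ j ∈ (Finset.univ : Finset (Fin m)), mn m p t +
        (if j = am (ls m p s) then mn m p s + p s - mn m p t else 0) +
        (if j = am (ls m p s') then mn m p s' + p s' - mn m p t else 0) ≤ ls m p t j := by
      intro j _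
      by_cases h1 : j = am (ls m p s)
      · rw [if_pos h1, if_neg (by rw [h1]; exact hk)]
        have h2 := ls_mono (m := m) hp (show s + 1 ≤ t by omega) j
        have h3 := ls_step_am (m := m) p s
        rw [← h1] at h3
        linarith
      · rw [if_neg h1]
        by_cases h2 : j = am (ls m p s')
        · rw [if_pos h2]
          have h4 := ls_mono (m := m) hp (show s' + 1 ≤ t from ht) j
          have h3 := ls_step_am (m := m) p s'
          rw [← h2] at h3
          linarith
        · rw [if_neg h2]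
          linarith [mn_le p t j]
    have h2 := Finset.sum_le_sum h
    rw [Finset.sum_add_distrib, Finset.sum_add_distrib] at h2
    simp only [Finset.sum_const, Finset.card_univ, Fintype.card_fin, nsmul_eq_mul,
      Finset.sum_ite_eq', Finset.mem_univ, if_true] at h2
    linarith

/-- two machines get filled up, and there was a job in between -/
theorem vol_grow_two_ev {p : ℕ → ℝ} (hp : ∀ i, 0 < p i) {s s' t : ℕ} (hs : s < s') (ht : s' < t)
    {i j : Fin m} (hij : i ≠ j) (hi : am (ls m p s) ≠ i) (hj : am (ls m p s) ≠ j) :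
    mn m p s' + p s' + vol p (s + 1) + mn m p t - ls m p s i - ls m p s j ≤ vol p t := by
  rw [← sum_ls (m := m) p t, ← sum_ls (m := m) p (s + 1)]
  have h : ∀ k ∈ (Finset.univ : Finset (Fin m)), ls m p (s + 1) k +
      (if k = i then mn m p t - ls m p s i else 0) +
      (if k = j then mn m p t - ls m p s j else 0) +
      (if k = am (ls m p s') then mn m p s' + p s' - mn m p t else 0) ≤ ls m p t k := by
    intro k _
    have hmono : ls m p (s + 1) k ≤ ls m p t k := ls_mono (m := m) hp (by omega) k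
    by_cases hk : k = am (ls m p s')
    · rw [if_pos hk]
      have h1 : mn m p s' + p s' ≤ ls m p t k := by
        have h4 := ls_mono (m := m) hp (show s' + 1 ≤ t from ht) k
        have h3 := ls_step_am (m := m) p s'
        rw [← hk] at h3
        linarith
      by_cases h2 : k = i
      · rw [if_pos h2, if_neg (by rw [h2]; exact hij), h2, ls_step_ne p s hi]
        rw [h2] at h1
        linarith
      · rw [if_neg h2]
        by_cases h3 : k = j
        · rw [if_pos h3, h3, ls_step_ne p s hj]
          rw [h3] at h1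
          linarith
        · rw [if_neg h3]
          have h4 := ls_mono (m := m) hp (show s + 1 ≤ s' from hs) k
          have h5 : ls m p s' k = mn m p s' := by rw [hk]; rfl
          have h6 := mn_mono (m := m) hp ht.le
          linarith
    · rw [if_neg hk]
      by_cases h2 : k = i
      · rw [if_pos h2, if_neg (by rw [h2]; exact hij), h2, ls_step_ne p s hi]
        linarith [mn_le p t i]
      · rw [if_neg h2]
        by_cases h3 : k = j
        · rw [if_pos h3, h3, ls_step_ne p s hj]
          linarith [mn_le p t j]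
        · rw [if_neg h3]
          linarith
  have h2 := Finset.sum_le_sum h
  rw [Finset.sum_add_distrib, Finset.sum_add_distrib, Finset.sum_add_distrib] at h2
  simp only [Finset.sum_ite_eq', Finset.mem_univ, if_true] at h2
  linarith

/-- three machines get filled up -/
theorem vol_grow_three {p : ℕ → ℝ} (hp : ∀ i, 0 < p i) {s t : ℕ} (hst : s < t) {i j l : Fin m}
    (hij : i ≠ j) (hil : i ≠ l) (hjl : j ≠ l) (hi : am (ls m p s) ≠ i) (hj : am (ls m p s) ≠ j)
    (hl : am (ls m p s) ≠ l) :
    vol p (s + 1) + (mn m p t - ls m p s i) + (mn m p t - ls m p s j) +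
      (mn m p t - ls m p s l) ≤ vol p t := by
  rw [← sum_ls (m := m) p t, ← sum_ls (m := m) p (s + 1)]
  have h : ∀ k ∈ (Finset.univ : Finset (Fin m)), ls m p (s + 1) k +
      (if k = i then mn m p t - ls m p s i else 0) +
      (if k = j then mn m p t - ls m p s j else 0) +
      (if k = l then mn m p t - ls m p s l else 0) ≤ ls m p t k := by
    intro k _
    by_cases h1 : k = i
    · rw [if_pos h1, if_neg (by rw [h1]; exact hij), if_neg (by rw [h1]; exact hil), h1,
        ls_step_ne p s hi]
      linarith [mn_le p t i]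
    · rw [if_neg h1]
      by_cases h2 : k = j
      · rw [if_pos h2, if_neg (by rw [h2]; exact hjl), h2, ls_step_ne p s hj]
        linarith [mn_le p t j]
      · rw [if_neg h2]
        by_cases h3 : k = l
        · rw [if_pos h3, h3, ls_step_ne p s hl]
          linarith [mn_le p t l]
        · rw [if_neg h3]
          linarith [ls_mono (m := m) hp (show s + 1 ≤ t from hst) k]
  have h2 := Finset.sum_le_sum h
  rw [Finset.sum_add_distrib, Finset.sum_add_distrib, Finset.sum_add_distrib] at h2
  simp only [Finset.sum_ite_eq', Finset.mem_univ, if_true] at h2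
  linarith

/-- all loads stay above a bound -/
theorem le_mn_of_forall {p : ℕ → ℝ} (hp : ∀ i, 0 < p i) {s t : ℕ} (hst : s < t) {B : ℝ}
    (h : ∀ j : Fin m, B ≤ ls m p (s + 1) j) : B ≤ mn m p t :=
  (h _).trans (ls_mono hp (show s + 1 ≤ t from hst) _)

/-- all loads but one are above the bound `B`, then one more job comes -/
theorem le_mn_of_two {p : ℕ → ℝ} (hp : ∀ i, 0 < p i) {s s' t : ℕ} (hs : s < s') (ht : s' < t)
    {B C : ℝ} (h : ∀ j k : Fin m, j ≠ k → B ≤ ls m p (s + 1) j ∨ B ≤ ls m p (s + 1) k)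
    (hC : C ≤ B) (hC' : C ≤ mn m p s' + p s') : C ≤ mn m p t := by
  have h1 : C ≤ ls m p (s' + 1) (am (ls m p t)) := by
    by_cases hk : am (ls m p s') = am (ls m p t)
    · rw [← hk, ls_step_am]
      exact hC'
    · rw [ls_step_ne p s' hk]
      rcases h _ _ hk with h2 | h2
      · have h3 := ls_mono (m := m) hp (show s + 1 ≤ s' from hs) (am (ls m p s'))
        have h4 := mn_le (m := m) p s' (am (ls m p t))
        change _ ≤ mn m p s' at h3
        linarith
      · have h3 := ls_mono (m := m) hp (show s + 1 ≤ s' from hs) (am (ls m p t))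
        linarith
  exact h1.trans (ls_mono hp (show s' + 1 ≤ t from ht) _)

end Pool.Agent.Lib_MP_25a3c1_mix
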