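import Pool.Agent.Lib_MP_25a3c1_mix.BPig

/-!
Facts about List Scheduling on 8 machines.
-/

set_option linter.unusedVariables false

namespace Pool.Agent.Lib_MP_25a3c1_mix

open Pool.Agent.Lib_MP_25a3c1 Finset

variable {m : ℕ} [NeZero m]

/-- facts at one time -/
theorem bas8 (hM : (m : ℝ) = 8) {p : ℕ → ℝ} (hp : ∀ i, 0 < p i) (t : ℕ) :
    0 ≤ p t ∧ 0 ≤ mn m p t ∧ 0 ≤ vol p t ∧ 0 ≤ opt m p (t + 1) ∧ p t ≤ opt m p (t + 1) ∧
      vol p t + p t ≤ 8 * opt m p (t + 1) ∧ 8 * mn m p t ≤ vol p t := by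
  have h1 := vol_le_opt (m := m) (p := p) mpos (t + 1)
  have h2 := card_mul_mn_le (m := m) p t
  rw [hM] at h1 h2
  rw [vol_succ] at h1
  exact ⟨(hp t).le, mn_nonneg hp t, vol_nonneg hp t, opt_nonneg mpos hp _,
    job_le_opt mpos hp (Nat.lt_succ_self t), h1, h2⟩

/-- facts at two times -/
theorem stp8 (hM : (m : ℝ) = 8) {p : ℕ → ℝ} (hp : ∀ i, 0 < p i) {t t' : ℕ} (h : t < t') :
    vol p t + p t ≤ vol p t' ∧ opt m p (t + 1) ≤ opt m p (t' + 1) ∧ mn m p t ≤ mn m p t' := by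
  have h2 := vol_mono hp (show t + 1 ≤ t' from h)
  rw [vol_succ] at h2
  exact ⟨h2, opt_mono mpos hp (by omega), mn_mono hp h.le⟩

/-- facts on an old job -/
theorem pas8 (hM : (m : ℝ) = 8) {p : ℕ → ℝ} (hp : ∀ i, 0 < p i) {l t : ℕ} (h : l < t) :
    0 ≤ mn m p l ∧ 0 ≤ p l ∧ 8 * mn m p l + p l ≤ vol p t ∧ p l ≤ opt m p (t + 1) ∧
      mn m p l ≤ mn m p t := by
  have h1 := mn_vol_succ (m := m) (p := p) l
  rw [hM] at h1
  exact ⟨mn_nonneg hp l, (hp l).le, h1.trans (vol_mono hp h), job_le_opt mpos hp (by omega),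
    mn_mono hp h.le⟩

/-- facts on a job between two known jobs -/
theorem mid8 (hM : (m : ℝ) = 8) {p : ℕ → ℝ} (hp : ∀ i, 0 < p i) {s l t : ℕ} (hs : s < l)
    (h : l < t) :
    0 ≤ mn m p l ∧ 0 ≤ p l ∧ 0 ≤ vol p l ∧ p l ≤ opt m p (t + 1) ∧ mn m p s ≤ mn m p l ∧
      mn m p l ≤ mn m p t ∧ vol p s + p s ≤ vol p l ∧ vol p l + p l ≤ vol p t := by
  have h2 := vol_mono hp (show s + 1 ≤ l from hs)
  have h3 := vol_mono hp (show l + 1 ≤ t from h)
  rw [vol_succ] at h2 h3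
  exact ⟨mn_nonneg hp l, (hp l).le, vol_nonneg hp l, job_le_opt mpos hp (by omega),
    mn_mono hp hs.le, mn_mono hp h.le, h2, h3⟩

/-- facts on a job `l` later than the known jobs up to `t` -/
theorem fut8 (hM : (m : ℝ) = 8) {p q : ℕ → ℝ} (hq : ∀ i, 0 < q i) {t l N : ℕ}
    (hqp : ∀ i < t + 1, q i = p i) (h : t < l) (hlN : l < N) :
    0 ≤ mn m q l ∧ 0 ≤ q l ∧ 0 ≤ vol q l ∧ 0 ≤ opt m q N ∧ opt m p (t + 1) ≤ opt m q N ∧
      q l ≤ opt m q N ∧ vol q l + q l ≤ 8 * opt m q N ∧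
      vol p t + p t ≤ vol q l ∧ mn m p t ≤ mn m q l := by
  have hm : 0 < m := mpos
  have h2 := vol_mono hq (show t + 1 ≤ l from h)
  rw [vol_succ] at h2
  have h4 := vol_le_opt (m := m) (p := q) mpos N
  rw [hM] at h4
  have h5 := vol_mono hq (show l + 1 ≤ N from hlN)
  rw [vol_succ] at h5
  have h6 := mn_mono (m := m) hq h.le
  have e1 : vol q t = vol p t := vol_congr fun k hk => hqp k (by omega)
  have e2 : mn m q t = mn m p t := mn_congr fun k hk => hqp k (by omega)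
  have e3 : q t = p t := hqp t (Nat.lt_succ_self t)
  have e4 : opt m q (t + 1) = opt m p (t + 1) := opt_congr hqp
  rw [e1, e3] at h2
  rw [e2] at h6
  have h7 : opt m q (t + 1) ≤ opt m q N := opt_mono hm hq (by omega)
  rw [e4] at h7
  exact ⟨mn_nonneg hq l, (hq l).le, vol_nonneg hq l, opt_nonneg hm hq N, h7,
    job_le_opt hm hq hlN, h5.trans h4, h2, h6⟩

/-! ### volumes -/

theorem cv08 (hM : (m : ℝ) = 8) {p q : ℕ → ℝ} (hq : ∀ i, 0 < q i) {t0 l : ℕ}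
    (hqp : ∀ i < t0 + 1, q i = p i) (hl : t0 < l) : 8 * mn m q l ≤ vol q l := by
  have h := card_mul_mn_le (m := m) q l
  rwa [hM] at h

theorem cv18 (hM : (m : ℝ) = 8) {p q : ℕ → ℝ} (hq : ∀ i, 0 < q i) {t0 l : ℕ}
    (hqp : ∀ i < t0 + 1, q i = p i) (hl : t0 < l) {a1 : ℕ} (h1 : a1 ≤ t0) :
    mn m p a1 + p a1 + 7 * mn m q l ≤ vol q l := by
  have h := capV (m := m) hq hqp hl [a1] (by simp) (by
    intro x hx
    simp only [List.mem_cons, List.not_mem_nil, or_false] at hx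
    omega)
  simp only [List.map_cons, List.map_nil, List.sum_cons, List.sum_nil] at h
  rw [hM] at h
  linarith

theorem cv28 (hM : (m : ℝ) = 8) {p q : ℕ → ℝ} (hq : ∀ i, 0 < q i) {t0 l : ℕ}
    (hqp : ∀ i < t0 + 1, q i = p i) (hl : t0 < l) {a1 a2 : ℕ} (h1 : a1 < a2) (h2 : a2 ≤ t0) :
    mn m p a1 + p a1 + (mn m p a2 + p a2) + 6 * mn m q l ≤ vol q l := by
  have h := capV (m := m) hq hqp hl [a1, a2] (by
    simp only [List.nodup_cons, List.mem_cons, List.not_mem_nil, or_false, not_false_eq_true,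
      List.nodup_nil, and_self, and_true]
    omega) (by
    intro x hx
    simp only [List.mem_cons, List.not_mem_nil, or_false] at hx
    omega)
  simp only [List.map_cons, List.map_nil, List.sum_cons, List.sum_nil] at h
  rw [hM] at h
  linarith

theorem cv38 (hM : (m : ℝ) = 8) {p q : ℕ → ℝ} (hq : ∀ i, 0 < q i) {t0 l : ℕ}
    (hqp : ∀ i < t0 + 1, q i = p i) (hl : t0 < l) {a1 a2 a3 : ℕ} (h1 : a1 < a2) (h2 : a2 < a3)
    (h3 : a3 ≤ t0) :
    mn m p a1 + p a1 + (mn m p a2 + p a2) + (mn m p a3 + p a3) + 5 * mn m q l ≤ vol q l := by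
  have h := capV (m := m) hq hqp hl [a1, a2, a3] (by
    simp only [List.nodup_cons, List.mem_cons, List.not_mem_nil, or_false, not_false_eq_true,
      List.nodup_nil, and_self, and_true]
    omega) (by
    intro x hx
    simp only [List.mem_cons, List.not_mem_nil, or_false] at hx
    omega)
  simp only [List.map_cons, List.map_nil, List.sum_cons, List.sum_nil] at h
  rw [hM] at h
  linarith

theorem cv48 (hM : (m : ℝ) = 8) {p q : ℕ → ℝ} (hq : ∀ i, 0 < q i) {t0 l : ℕ}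
    (hqp : ∀ i < t0 + 1, q i = p i) (hl : t0 < l) {a1 a2 a3 a4 : ℕ} (h1 : a1 < a2) (h2 : a2 < a3)
    (h3 : a3 < a4) (h4 : a4 ≤ t0) :
    mn m p a1 + p a1 + (mn m p a2 + p a2) + (mn m p a3 + p a3) + (mn m p a4 + p a4) +
      4 * mn m q l ≤ vol q l := by
  have h := capV (m := m) hq hqp hl [a1, a2, a3, a4] (by
    simp only [List.nodup_cons, List.mem_cons, List.not_mem_nil, or_false, not_false_eq_true,
      List.nodup_nil, and_self, and_true]
    omega) (by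
    intro x hx
    simp only [List.mem_cons, List.not_mem_nil, or_false] at hx
    omega)
  simp only [List.map_cons, List.map_nil, List.sum_cons, List.sum_nil] at h
  rw [hM] at h
  linarith

/-! ### witnesses -/

theorem wit18 {lam R : ℝ} (hl : 0 ≤ lam) (hR : 0 ≤ R) {p : ℕ → ℝ} (hp : ∀ i, 0 < p i) {s : ℕ}
    {y : ℝ} (h : ¬ Safe m lam R (s + 1) p y) :
    (∃ l < s, R * opt m p (s + 1) < lam * (mn m p l + p l) + (1 - lam) * y) ∨
    (R * opt m p (s + 1) < lam * (mn m p s + p s) + (1 - lam) * y) ∨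
    ∃ q : ℕ → ℝ, ∃ N l, (∀ i, 0 < q i) ∧ (∀ i < s + 1, q i = p i) ∧ s < l ∧ l < N ∧
      R * opt m q N < lam * (mn m q l + q l) + (1 - lam) * y := by
  rcases wit hl hR hp h with ⟨l, h1, h2⟩ | h1
  · rcases Nat.lt_or_ge l s with h3 | h3
    · exact Or.inl ⟨l, h3, h2⟩
    · have h4 : l = s := le_antisymm h1 h3
      rw [h4] at h2
      exact Or.inr (Or.inl h2)
  · exact Or.inr (Or.inr h1)

theorem wit28 {lam R : ℝ} (hl : 0 ≤ lam) (hR : 0 ≤ R) {p : ℕ → ℝ} (hp : ∀ i, 0 < p i)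
    {a s : ℕ} (has : a < s) {y : ℝ} (h : ¬ Safe m lam R (s + 1) p y) :
    (∃ l < a, R * opt m p (s + 1) < lam * (mn m p l + p l) + (1 - lam) * y) ∨
    (R * opt m p (s + 1) < lam * (mn m p a + p a) + (1 - lam) * y) ∨
    (∃ l, a < l ∧ l < s ∧ R * opt m p (s + 1) < lam * (mn m p l + p l) + (1 - lam) * y) ∨
    (R * opt m p (s + 1) < lam * (mn m p s + p s) + (1 - lam) * y) ∨
    ∃ q : ℕ → ℝ, ∃ N l, (∀ i, 0 < q i) ∧ (∀ i < s + 1, q i = p i) ∧ s < l ∧ l < N ∧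
      R * opt m q N < lam * (mn m q l + q l) + (1 - lam) * y := by
  rcases wit18 hl hR hp h with ⟨l, h1, h2⟩ | h1 | h1
  · rcases lt_trichotomy l a with h3 | h3 | h3
    · exact Or.inl ⟨l, h3, h2⟩
    · rw [h3] at h2
      exact Or.inr (Or.inl h2)
    · exact Or.inr (Or.inr (Or.inl ⟨l, h3, h1, h2⟩))
  · exact Or.inr (Or.inr (Or.inr (Or.inl h1)))
  · exact Or.inr (Or.inr (Or.inr (Or.inr h1)))

theorem wit38 {lam R : ℝ} (hl : 0 ≤ lam) (hR : 0 ≤ R) {p : ℕ → ℝ} (hp : ∀ i, 0 < p i)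
    {a b s : ℕ} (hab : a < b) (hbs : b < s) {y : ℝ} (h : ¬ Safe m lam R (s + 1) p y) :
    (∃ l < a, R * opt m p (s + 1) < lam * (mn m p l + p l) + (1 - lam) * y) ∨
    (R * opt m p (s + 1) < lam * (mn m p a + p a) + (1 - lam) * y) ∨
    (∃ l, a < l ∧ l < b ∧ R * opt m p (s + 1) < lam * (mn m p l + p l) + (1 - lam) * y) ∨
    (R * opt m p (s + 1) < lam * (mn m p b + p b) + (1 - lam) * y) ∨
    (∃ l, b < l ∧ l < s ∧ R * opt m p (s + 1) < lam * (mn m p l + p l) + (1 - lam) * y) ∨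
    (R * opt m p (s + 1) < lam * (mn m p s + p s) + (1 - lam) * y) ∨
    ∃ q : ℕ → ℝ, ∃ N l, (∀ i, 0 < q i) ∧ (∀ i < s + 1, q i = p i) ∧ s < l ∧ l < N ∧
      R * opt m q N < lam * (mn m q l + q l) + (1 - lam) * y := by
  rcases wit28 hl hR hp (hab.trans hbs) h with h1 | h1 | ⟨l, h1, h2, h3⟩ | h1 | h1
  · exact Or.inl h1
  · exact Or.inr (Or.inl h1)
  · rcases lt_trichotomy l b with h4 | h4 | h4
    · exact Or.inr (Or.inr (Or.inl ⟨l, h1, h4, h3⟩))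
    · rw [h4] at h3
      exact Or.inr (Or.inr (Or.inr (Or.inl h3)))
    · exact Or.inr (Or.inr (Or.inr (Or.inr (Or.inl ⟨l, h4, h2, h3⟩))))
  · exact Or.inr (Or.inr (Or.inr (Or.inr (Or.inr (Or.inl h1)))))
  · exact Or.inr (Or.inr (Or.inr (Or.inr (Or.inr (Or.inr h1)))))

/-! ### the lowest machines of List Scheduling -/

/-- `κ, i1, i2, i3, i4` are the five lowest machines before job `s` -/
def Mach8 (m : ℕ) [NeZero m] (p : ℕ → ℝ) (s : ℕ) (κ i1 i2 i3 i4 : Fin m) : Prop :=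
  am (ls m p s) = κ ∧ (κ ≠ i1 ∧ ∀ k, k ≠ κ → ls m p s i1 ≤ ls m p s k) ∧
  (κ ≠ i2 ∧ i1 ≠ i2 ∧ ∀ k, k ≠ κ → k ≠ i1 → ls m p s i2 ≤ ls m p s k) ∧
  (κ ≠ i3 ∧ i1 ≠ i3 ∧ i2 ≠ i3 ∧ ∀ k, k ≠ κ → k ≠ i1 → k ≠ i2 → ls m p s i3 ≤ ls m p s k) ∧
  (κ ≠ i4 ∧ i1 ≠ i4 ∧ i2 ≠ i4 ∧ i3 ≠ i4 ∧
    ∀ k, k ≠ κ → k ≠ i1 → k ≠ i2 → k ≠ i3 → ls m p s i4 ≤ ls m p s k)

theorem exists_mach8 (hM : (m : ℝ) = 8) (p : ℕ → ℝ) (s : ℕ) :
    ∃ κ i1 i2 i3 i4 : Fin m, Mach8 m p s κ i1 i2 i3 i4 := by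
  have hm : m = 8 := by exact_mod_cast hM
  set κ := am (ls m p s) with hκ
  obtain ⟨i1, hi1, hi1'⟩ := exists_min_out (T := {κ}) (by rw [Finset.card_singleton]; omega)
    (ls m p s)
  obtain ⟨i2, hi2, hi2'⟩ := exists_min_out (T := {κ, i1}) (by
    have := Finset.card_le_two (a := κ) (b := i1); omega) (ls m p s)
  obtain ⟨i3, hi3, hi3'⟩ := exists_min_out (T := {κ, i1, i2}) (by
    have := Finset.card_le_three (a := κ) (b := i1) (c := i2); omega) (ls m p s)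
  obtain ⟨i4, hi4, hi4'⟩ := exists_min_out (T := {κ, i1, i2, i3}) (by
    have := Finset.card_insert_le κ ({i1, i2, i3} : Finset (Fin m))
    have := Finset.card_le_three (a := i1) (b := i2) (c := i3); omega) (ls m p s)
  simp only [Finset.mem_insert, Finset.mem_singleton, not_or] at hi1 hi1' hi2 hi2' hi3 hi3' hi4 hi4'
  exact ⟨κ, i1, i2, i3, i4, hκ.symm, ⟨Ne.symm hi1, hi1'⟩,
    ⟨Ne.symm hi2.1, Ne.symm hi2.2, fun k a b => hi2' k ⟨a, b⟩⟩,
    ⟨Ne.symm hi3.1, Ne.symm hi3.2.1, Ne.symm hi3.2.2, fun k a b c => hi3' k ⟨a, b, c⟩⟩,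
    ⟨Ne.symm hi4.1, Ne.symm hi4.2.1, Ne.symm hi4.2.2.1, Ne.symm hi4.2.2.2,
      fun k a b c d => hi4' k ⟨a, b, c, d⟩⟩⟩

/-- facts on the loads of the five lowest machines -/
theorem Mach8.facts (hM : (m : ℝ) = 8) {p : ℕ → ℝ} (hp : ∀ i, 0 < p i) {s : ℕ}
    {κ i1 i2 i3 i4 : Fin m} (h : Mach8 m p s κ i1 i2 i3 i4) :
    mn m p s ≤ ls m p s i1 ∧ ls m p s i1 ≤ ls m p s i2 ∧ ls m p s i2 ≤ ls m p s i3 ∧
      ls m p s i3 ≤ ls m p s i4 ∧
      mn m p s + ls m p s i1 + ls m p s i2 + ls m p s i3 + 4 * ls m p s i4 ≤ vol p s ∧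
      0 ≤ ls m p s i1 ∧ 0 ≤ ls m p s i2 ∧ 0 ≤ ls m p s i3 ∧ 0 ≤ ls m p s i4 := by
  obtain ⟨hκ, ⟨hk1, H1⟩, ⟨hk2, h12, H2⟩, ⟨hk3, h13, h23, H3⟩, ⟨hk4, h14, h24, h34, H4⟩⟩ := h
  refine ⟨mn_le p s i1, H1 i2 hk2.symm, H2 i3 hk3.symm h13.symm,
    H3 i4 hk4.symm h14.symm h24.symm, ?_, ld_nonneg hp s _, ld_nonneg hp s _, ld_nonneg hp s _,
    ld_nonneg hp s _⟩
  have hsum : ∀ j ∈ (Finset.univ : Finset (Fin m)), ls m p s i4 +
      (if j = κ then mn m p s - ls m p s i4 else 0) +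
      (if j = i1 then ls m p s i1 - ls m p s i4 else 0) +
      (if j = i2 then ls m p s i2 - ls m p s i4 else 0) +
      (if j = i3 then ls m p s i3 - ls m p s i4 else 0) ≤ ls m p s j := by
    intro j _
    by_cases e0 : j = κ
    · rw [if_pos e0, if_neg (by rw [e0]; exact hk1), if_neg (by rw [e0]; exact hk2),
        if_neg (by rw [e0]; exact hk3)]
      linarith [mn_le (m := m) p s j]
    · rw [if_neg e0]
      by_cases e1 : j = i1
      · rw [if_pos e1, if_neg (by rw [e1]; exact h12), if_neg (by rw [e1]; exact h13), e1]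
        linarith
      · rw [if_neg e1]
        by_cases e2 : j = i2
        · rw [if_pos e2, if_neg (by rw [e2]; exact h23), e2]
          linarith
        · rw [if_neg e2]
          by_cases e3 : j = i3
          · rw [if_pos e3, e3]
            linarith
          · rw [if_neg e3]
            linarith [H4 j e0 e1 e2 e3]
  have h5 := Finset.sum_le_sum hsum
  rw [Finset.sum_add_distrib, Finset.sum_add_distrib, Finset.sum_add_distrib,
    Finset.sum_add_distrib, sum_ls (m := m) p s] at h5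
  simp only [Finset.sum_const, Finset.card_univ, Fintype.card_fin, nsmul_eq_mul,
    Finset.sum_ite_eq', Finset.mem_univ, if_true, hM] at h5
  linarith

/-- the loads after job `s` -/
theorem Mach8.step {p : ℕ → ℝ} {s : ℕ}
    {κ i1 i2 i3 i4 : Fin m} (h : Mach8 m p s κ i1 i2 i3 i4) :
    ls m p (s + 1) κ = mn m p s + p s ∧ ls m p (s + 1) i1 = ls m p s i1 ∧
      ls m p (s + 1) i2 = ls m p s i2 ∧ ls m p (s + 1) i3 = ls m p s i3 ∧
      ls m p (s + 1) i4 = ls m p s i4 := by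
  obtain ⟨hκ, ⟨hk1, H1⟩, ⟨hk2, h12, H2⟩, ⟨hk3, h13, h23, H3⟩, ⟨hk4, h14, h24, h34, H4⟩⟩ := h
  refine ⟨?_, ls_step_ne p s (by rw [hκ]; exact hk1), ls_step_ne p s (by rw [hκ]; exact hk2),
    ls_step_ne p s (by rw [hκ]; exact hk3), ls_step_ne p s (by rw [hκ]; exact hk4)⟩
  rw [← hκ]
  exact ls_step_am p s

/-! ### order -/

theorem od0 {p q : ℕ → ℝ} {κ i1 i2 i3 i4 : Fin m} {s l : ℕ} (h : Mach8 m p s κ i1 i2 i3 i4)
    (hq : ∀ i, 0 < q i) (hqp : ∀ i < s + 1, q i = p i) (hl : s < l) {B : ℝ}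
    (h1 : B ≤ mn m p s + p s) (h2 : B ≤ ls m p s i1) : B ≤ mn m q l := by
  refine le_mn_of_forall hq hl fun j => ?_
  rw [ls_congr (m := m) (p := p) (q := q) hqp]
  by_cases hj : j = κ
  · rw [hj, h.step.1]
    exact h1
  · rw [ls_step_ne p s (by rw [h.1]; exact Ne.symm hj)]
    exact h2.trans (h.2.1.2 j hj)

theorem od1 {p q : ℕ → ℝ} {κ i1 i2 i3 i4 : Fin m} {s s' l : ℕ}
    (h : Mach8 m p s κ i1 i2 i3 i4)
    (hq : ∀ i, 0 < q i) (hqp : ∀ i < s' + 1, q i = p i) (hs : s < s') (hl : s' < l) {B C : ℝ}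
    (h1 : B ≤ mn m p s + p s) (h2 : B ≤ ls m p s i2) (h3 : C ≤ B) (h4 : C ≤ mn m p s' + p s') :
    C ≤ mn m q l := by
  have e1 : ls m q (s + 1) = ls m p (s + 1) := ls_congr fun k hk => hqp k (by omega)
  have e2 : mn m q s' = mn m p s' := mn_congr fun k hk => hqp k (by omega)
  have e3 : q s' = p s' := hqp s' (Nat.lt_succ_self s')
  refine le_mn_of_two hq hs hl ?_ h3 (by rw [e2, e3]; exact h4)
  intro j k hjk
  rw [e1]
  have hone : ∀ j : Fin m, j ≠ i1 → B ≤ ls m p (s + 1) j := fun j hj => by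
    by_cases hj' : j = κ
    · rw [hj', h.step.1]
      exact h1
    · rw [ls_step_ne p s (by rw [h.1]; exact Ne.symm hj')]
      exact h2.trans (h.2.2.1.2.2 j hj' hj)
  by_cases hj : j = i1
  · exact Or.inr (hone k (by rw [← hj]; exact hjk.symm))
  · exact Or.inl (hone j hj)

/-- the machine of an earlier job before job `s` -/
theorem sb8 {p : ℕ → ℝ} (hp : ∀ i, 0 < p i) {κ i1 i2 i3 i4 : Fin m} {r s : ℕ} (hr : r < s)
    (h : Mach8 m p s κ i1 i2 i3 i4) :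
    mn m p r + p r ≤ ls m p s i1 ∨ ls m p s i2 ≤ mn m p r + p r := by
  rcases last_or_le (m := m) hp hr with h1 | h1
  · by_cases h2 : am (ls m p r) = κ
    · left
      rw [← h1, h2, ← h.1]
      exact mn_le p s i1
    · by_cases h3 : am (ls m p r) = i1
      · left
        rw [← h1, h3]
      · right
        rw [← h1]
        exact h.2.2.1.2.2 _ h2 h3
  · left
    exact h1.trans (mn_le p s i1)

/-! ### collisions -/

theorem col28 (hM : (m : ℝ) = 8) {p q : ℕ → ℝ} (hq : ∀ i, 0 < q i) {s N : ℕ}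
    {κ i1 i2 i3 i4 : Fin m} (h : Mach8 m p s κ i1 i2 i3 i4) (hqp : ∀ i < s, q i = p i)
    {b : ℕ} (hb : s < b) (hbN : b < N) {ra rb : ℝ} (hra : q s = ra) (hrb : q b = rb) :
    (ls m p s i1 + ls m p s i2 ≤ opt m q N + 2 * mn m p s) ∨
    (ls m p s i1 + ra ≤ opt m q N + mn m p s) ∨ (ls m p s i1 + rb ≤ opt m q N + mn m p s) ∨
    (ra + rb ≤ opt m q N) := by
  have hm : m = 8 := by exact_mod_cast hM
  have e1 : ls m q s = ls m p s := ls_congr hqp
  have e2 : mn m q s = mn m p s := mn_congr hqp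
  have hp := pig hq (N := N) (s := s) (by omega) ({κ}ᶜ : Finset (Fin m)) {s, b}
    (i := i1) (j := i2)
    (by
      intro x hx
      simp only [Finset.mem_insert, Finset.mem_singleton] at hx
      omega)
    (by
      rw [Finset.card_compl, Fintype.card_fin, Finset.card_singleton,
        Finset.card_pair (by omega)]
      omega)
    (by
      intro k hk
      rw [e1]
      exact h.2.1.2 k (by simpa using hk))
    (by
      intro k hk hk'
      rw [e1]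
      exact h.2.2.1.2.2 k (by simpa using hk) hk')
  rw [e1, e2] at hp
  rcases hp with hp | ⟨x, hx, hp⟩ | ⟨x, hx, x', hx', hxx, hp⟩
  · exact Or.inl hp
  · simp only [Finset.mem_insert, Finset.mem_singleton] at hx
    rcases hx with rfl | rfl
    · rw [hra] at hp
      exact Or.inr (Or.inl hp)
    · rw [hrb] at hp
      exact Or.inr (Or.inr (Or.inl hp))
  · simp only [Finset.mem_insert, Finset.mem_singleton] at hx hx'
    refine Or.inr (Or.inr (Or.inr ?_))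
    rcases hx with rfl | rfl <;> rcases hx' with rfl | rfl
    · exact absurd rfl hxx
    · rw [hra, hrb] at hp; exact hp
    · rw [hra, hrb] at hp; linarith
    · exact absurd rfl hxx

theorem col38 (hM : (m : ℝ) = 8) {p q : ℕ → ℝ} (hq : ∀ i, 0 < q i) {s N : ℕ}
    {κ i1 i2 i3 i4 : Fin m} (h : Mach8 m p s κ i1 i2 i3 i4) (hqp : ∀ i < s, q i = p i)
    {b c : ℕ} (hb : s < b) (hc : b < c) (hcN : c < N) {ra rb rc : ℝ} (hra : q s = ra)
    (hrb : q b = rb) (hrc : q c = rc) :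
    (ls m p s i2 + ls m p s i3 ≤ opt m q N + 2 * mn m p s) ∨
    (ls m p s i2 + ra ≤ opt m q N + mn m p s) ∨ (ls m p s i2 + rb ≤ opt m q N + mn m p s) ∨
    (ls m p s i2 + rc ≤ opt m q N + mn m p s) ∨
    (ra + rb ≤ opt m q N) ∨ (ra + rc ≤ opt m q N) ∨ (rb + rc ≤ opt m q N) := by
  have hm : m = 8 := by exact_mod_cast hM
  have e1 : ls m q s = ls m p s := ls_congr hqp
  have e2 : mn m q s = mn m p s := mn_congr hqp
  have hp := pig hq (N := N) (s := s) (by omega) ({κ, i1}ᶜ : Finset (Fin m)) {s, b, c}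
    (i := i2) (j := i3)
    (by
      intro x hx
      simp only [Finset.mem_insert, Finset.mem_singleton] at hx
      omega)
    (by
      rw [Finset.card_compl, Fintype.card_fin, Finset.card_pair h.2.1.1,
        Finset.card_eq_three.2 ⟨s, b, c, by omega, by omega, by omega, rfl⟩]
      omega)
    (by
      intro k hk
      rw [e1]
      simp only [Finset.mem_compl, Finset.mem_insert, Finset.mem_singleton, not_or] at hk
      exact h.2.2.1.2.2 k hk.1 hk.2)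
    (by
      intro k hk hk'
      rw [e1]
      simp only [Finset.mem_compl, Finset.mem_insert, Finset.mem_singleton, not_or] at hk
      exact h.2.2.2.1.2.2.2 k hk.1 hk.2 hk')
  rw [e1, e2] at hp
  rcases hp with hp | ⟨x, hx, hp⟩ | ⟨x, hx, x', hx', hxx, hp⟩
  · exact Or.inl hp
  · simp only [Finset.mem_insert, Finset.mem_singleton] at hx
    rcases hx with rfl | rfl | rfl
    · rw [hra] at hp
      exact Or.inr (Or.inl hp)
    · rw [hrb] at hp
      exact Or.inr (Or.inr (Or.inl hp))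
    · rw [hrc] at hp
      exact Or.inr (Or.inr (Or.inr (Or.inl hp)))
  · simp only [Finset.mem_insert, Finset.mem_singleton] at hx hx'
    refine Or.inr (Or.inr (Or.inr (Or.inr ?_)))
    rcases hx with rfl | rfl | rfl <;> rcases hx' with rfl | rfl | rfl
    · exact absurd rfl hxx
    · rw [hra, hrb] at hp; exact Or.inl hp
    · rw [hra, hrc] at hp; exact Or.inr (Or.inl hp)
    · rw [hra, hrb] at hp; exact Or.inl (by linarith)
    · exact absurd rfl hxx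
    · rw [hrb, hrc] at hp; exact Or.inr (Or.inr hp)
    · rw [hra, hrc] at hp; exact Or.inr (Or.inl (by linarith))
    · rw [hrb, hrc] at hp; exact Or.inr (Or.inr (by linarith))
    · exact absurd rfl hxx

theorem col48 (hM : (m : ℝ) = 8) {p q : ℕ → ℝ} (hq : ∀ i, 0 < q i) {s N : ℕ}
    {κ i1 i2 i3 i4 : Fin m} (h : Mach8 m p s κ i1 i2 i3 i4) (hqp : ∀ i < s, q i = p i)
    {b c d : ℕ} (hb : s < b) (hc : b < c) (hd : c < d) (hdN : d < N) {ra rb rc rd : ℝ}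
    (hra : q s = ra) (hrb : q b = rb) (hrc : q c = rc) (hrd : q d = rd) :
    (ls m p s i3 + ls m p s i4 ≤ opt m q N + 2 * mn m p s) ∨
    (ls m p s i3 + ra ≤ opt m q N + mn m p s) ∨ (ls m p s i3 + rb ≤ opt m q N + mn m p s) ∨
    (ls m p s i3 + rc ≤ opt m q N + mn m p s) ∨ (ls m p s i3 + rd ≤ opt m q N + mn m p s) ∨
    (ra + rb ≤ opt m q N) ∨ (ra + rc ≤ opt m q N) ∨ (ra + rd ≤ opt m q N) ∨
    (rb + rc ≤ opt m q N) ∨ (rb + rd ≤ opt m q N) ∨ (rc + rd ≤ opt m q N) := by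
  have hm : m = 8 := by exact_mod_cast hM
  have e1 : ls m q s = ls m p s := ls_congr hqp
  have e2 : mn m q s = mn m p s := mn_congr hqp
  have hp := pig hq (N := N) (s := s) (by omega) ({κ, i1, i2}ᶜ : Finset (Fin m)) {s, b, c, d}
    (i := i3) (j := i4)
    (by
      intro x hx
      simp only [Finset.mem_insert, Finset.mem_singleton] at hx
      omega)
    (by
      rw [Finset.card_compl, Fintype.card_fin,
        Finset.card_eq_three.2 ⟨κ, i1, i2, h.2.1.1, h.2.2.1.1, h.2.2.1.2.1, rfl⟩,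
        Finset.card_insert_of_notMem (by
          simp only [Finset.mem_insert, Finset.mem_singleton]
          omega),
        Finset.card_eq_three.2 ⟨b, c, d, by omega, by omega, by omega, rfl⟩]
      omega)
    (by
      intro k hk
      rw [e1]
      simp only [Finset.mem_compl, Finset.mem_insert, Finset.mem_singleton, not_or] at hk
      exact h.2.2.2.1.2.2.2 k hk.1 hk.2.1 hk.2.2)
    (by
      intro k hk hk'
      rw [e1]
      simp only [Finset.mem_compl, Finset.mem_insert, Finset.mem_singleton, not_or] at hk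
      exact h.2.2.2.2.2.2.2.2 k hk.1 hk.2.1 hk.2.2 hk')
  rw [e1, e2] at hp
  rcases hp with hp | ⟨x, hx, hp⟩ | ⟨x, hx, x', hx', hxx, hp⟩
  · exact Or.inl hp
  · simp only [Finset.mem_insert, Finset.mem_singleton] at hx
    rcases hx with rfl | rfl | rfl | rfl
    · rw [hra] at hp
      exact Or.inr (Or.inl hp)
    · rw [hrb] at hp
      exact Or.inr (Or.inr (Or.inl hp))
    · rw [hrc] at hp
      exact Or.inr (Or.inr (Or.inr (Or.inl hp)))
    · rw [hrd] at hp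
      exact Or.inr (Or.inr (Or.inr (Or.inr (Or.inl hp))))
  · simp only [Finset.mem_insert, Finset.mem_singleton] at hx hx'
    refine Or.inr (Or.inr (Or.inr (Or.inr (Or.inr ?_))))
    rcases hx with rfl | rfl | rfl | rfl <;> rcases hx' with rfl | rfl | rfl | rfl
    · exact absurd rfl hxx
    · rw [hra, hrb] at hp; exact Or.inl hp
    · rw [hra, hrc] at hp; exact Or.inr (Or.inl hp)
    · rw [hra, hrd] at hp; exact Or.inr (Or.inr (Or.inl hp))
    · rw [hra, hrb] at hp; exact Or.inl (by linarith)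
    · exact absurd rfl hxx
    · rw [hrb, hrc] at hp; exact Or.inr (Or.inr (Or.inr (Or.inl hp)))
    · rw [hrb, hrd] at hp; exact Or.inr (Or.inr (Or.inr (Or.inr (Or.inl hp))))
    · rw [hra, hrc] at hp; exact Or.inr (Or.inl (by linarith))
    · rw [hrb, hrc] at hp; exact Or.inr (Or.inr (Or.inr (Or.inl (by linarith))))
    · exact absurd rfl hxx
    · rw [hrc, hrd] at hp; exact Or.inr (Or.inr (Or.inr (Or.inr (Or.inr hp))))
    · rw [hra, hrd] at hp; exact Or.inr (Or.inr (Or.inl (by linarith)))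
    · rw [hrb, hrd] at hp; exact Or.inr (Or.inr (Or.inr (Or.inr (Or.inl (by linarith)))))
    · rw [hrc, hrd] at hp; exact Or.inr (Or.inr (Or.inr (Or.inr (Or.inr (by linarith)))))
    · exact absurd rfl hxx

/-! ### the careful algorithm -/

/-- the four lowest loads before a job -/
def B48 (p : ℕ → ℝ) (s : ℕ) (w1 w2 w3 w4 : ℝ) : Prop :=
  0 ≤ w1 ∧ 0 ≤ w2 ∧ 0 ≤ w3 ∧ 0 ≤ w4 ∧ w1 ≤ w2 ∧ w2 ≤ w3 ∧ w3 ≤ w4 ∧
    w1 + w2 + w3 + 5 * w4 ≤ vol p s

/-- the three lowest loads before a job -/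
def B38 (p : ℕ → ℝ) (s : ℕ) (z1 z2 z3 : ℝ) : Prop :=
  0 ≤ z1 ∧ 0 ≤ z2 ∧ 0 ≤ z3 ∧ z1 ≤ z2 ∧ z2 ≤ z3 ∧ z1 + z2 + 6 * z3 ≤ vol p s

/-- the two lowest loads before a job -/
def B28 (p : ℕ → ℝ) (s : ℕ) (x1 x2 : ℝ) : Prop :=
  0 ≤ x1 ∧ 0 ≤ x2 ∧ x1 ≤ x2 ∧ x1 + 7 * x2 ≤ vol p s

/-- job `r` on the lowest machine -/
def T318 (w1 w2 w3 w4 z1 z2 z3 r : ℝ) : Prop :=
  z1 ≤ w2 ∧ z1 ≤ w1 + r ∧ z2 ≤ w3 ∧ z1 + z2 ≤ w1 + w2 + r ∧ z3 ≤ w4 ∧
    z1 + z2 + z3 ≤ w1 + w2 + w3 + r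

/-- job `r` on the second lowest machine -/
def T328 (w1 w2 w3 w4 z1 z2 z3 r : ℝ) : Prop :=
  z1 ≤ w1 ∧ z2 ≤ w3 ∧ z2 ≤ w2 + r ∧ z3 ≤ w4 ∧ z1 + z2 + z3 ≤ w1 + w2 + w3 + r

/-- job `r` on the third lowest machine -/
def T338 (w1 w2 w3 w4 z1 z2 z3 r : ℝ) : Prop :=
  z1 ≤ w1 ∧ z2 ≤ w2 ∧ z3 ≤ w4 ∧ z3 ≤ w3 + r

/-- job `r` on the lowest machine -/
def T218 (z1 z2 z3 x1 x2 r : ℝ) : Prop :=
  x1 ≤ z2 ∧ x1 ≤ z1 + r ∧ x2 ≤ z3 ∧ x1 + x2 ≤ z1 + z2 + r

/-- job `r` on the second lowest machine -/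
def T228 (z1 z2 z3 x1 x2 r : ℝ) : Prop :=
  x1 ≤ z1 ∧ x2 ≤ z3 ∧ x2 ≤ z2 + r

/-- what a pigeonhole argument on the machines of the careful algorithm gives -/
def BP8 (m : ℕ) [NeZero m] (lam R : ℝ) (p : ℕ → ℝ) (s : ℕ) (w1 w2 w3 w4 : ℝ) : Prop :=
  ∀ κ i1 i2 i3 i4, Mach8 m p s κ i1 i2 i3 i4 →
    (ls m p s i2 ≤ mn m p s + w3) ∨
    (w1 + w2 + 2 * w3 + 4 * w4 + ls m p s i2 + ls m p s i3 ≤ vol p s + 2 * mn m p s) ∨
    ∃ s4 < s, ∃ v1 v2 v3 v4, B48 p s4 v1 v2 v3 v4 ∧ v1 ≤ w1 ∧ v2 ≤ w2 ∧ v3 ≤ w3 ∧ v4 ≤ w4 ∧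
      w1 + w2 + w3 + 4 * w4 + ls m p s i2 + ls m p s i3 ≤ vol p s + mn m p s4 + mn m p s ∧
      ((¬ Safe m lam R (s4 + 1) p (v2 + p s4) ∧ T318 v1 v2 v3 v4 w1 w2 w3 (p s4)) ∨
       (¬ Safe m lam R (s4 + 1) p (v3 + p s4) ∧ T328 v1 v2 v3 v4 w1 w2 w3 (p s4)) ∨
       (¬ Safe m lam R (s4 + 1) p (v4 + p s4) ∧ T338 v1 v2 v3 v4 w1 w2 w3 (p s4) ∧
         (v3 + p s4 ≤ w3 ∨ v4 ≤ w3)))

end Pool.Agent.Lib_MP_25a3c1_mix
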