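import Pool.Agent.Lib_MP_25a3c1_mix.Fact8

/-!
Volumes of List Scheduling on 8 machines.
-/

set_option linter.unusedVariables false
set_option linter.unusedSimpArgs false

namespace Pool.Agent.Lib_MP_25a3c1_mix

open Pool.Agent.Lib_MP_25a3c1 Finset

variable {m : ℕ} [NeZero m]

theorem cg8_0_0_0 {p q : ℕ → ℝ} {κ i1 i2 i3 i4 : Fin m} {s : ℕ}
    (h : Mach8 m p s κ i1 i2 i3 i4) (hq : ∀ i, 0 < q i) {t0 l : ℕ}
    (hqp : ∀ i < t0 + 1, q i = p i) (hs : s ≤ t0) (hl : t0 < l)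
    : vol p s + p s ≤ vol q l := by
  obtain ⟨eκ, E1, E2, E3, E4⟩ := h.step
  obtain ⟨hκ, ⟨hk1, H1⟩, ⟨hk2, h12, H2⟩, ⟨hk3, h13, h23, H3⟩, ⟨hk4, h14, h24, h34, H4⟩⟩ := h
  have h := capL (m := m) hq hqp hs hl []
    (by simp [hk1, hk2, hk3, hk4, h12, h13, h14, h23, h24, h34]) []
    (by simp) (by intro x hx; simp at hx)
  simp only [List.map_cons, List.map_nil, List.sum_cons, List.sum_nil, eκ, E1, E2, E3, E4] at h
  linarith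

theorem cg8_0_0_1 {p q : ℕ → ℝ} {κ i1 i2 i3 i4 : Fin m} {s : ℕ}
    (h : Mach8 m p s κ i1 i2 i3 i4) (hq : ∀ i, 0 < q i) {t0 l : ℕ}
    (hqp : ∀ i < t0 + 1, q i = p i) (hs : s ≤ t0) (hl : t0 < l)
    {a1 : ℕ} (h0 : s < a1) (h1 : a1 ≤ t0)
    : vol p s + p s + (mn m p a1 + p a1 - mn m q l) ≤ vol q l := by
  obtain ⟨eκ, E1, E2, E3, E4⟩ := h.step
  obtain ⟨hκ, ⟨hk1, H1⟩, ⟨hk2, h12, H2⟩, ⟨hk3, h13, h23, H3⟩, ⟨hk4, h14, h24, h34, H4⟩⟩ := h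
  have h := capL (m := m) hq hqp hs hl []
    (by simp [hk1, hk2, hk3, hk4, h12, h13, h14, h23, h24, h34]) [a1]
    (by simp) (by intro x hx; simp at hx; omega)
  simp only [List.map_cons, List.map_nil, List.sum_cons, List.sum_nil, eκ, E1, E2, E3, E4] at h
  linarith

theorem cg8_0_0_2 {p q : ℕ → ℝ} {κ i1 i2 i3 i4 : Fin m} {s : ℕ}
    (h : Mach8 m p s κ i1 i2 i3 i4) (hq : ∀ i, 0 < q i) {t0 l : ℕ}
    (hqp : ∀ i < t0 + 1, q i = p i) (hs : s ≤ t0) (hl : t0 < l)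
    {a1 a2 : ℕ} (h0 : s < a1) (h1 : a1 < a2) (h2 : a2 ≤ t0)
    : vol p s + p s + (mn m p a1 + p a1 - mn m q l) + (mn m p a2 + p a2 - mn m q l) ≤ vol q l := by
  obtain ⟨eκ, E1, E2, E3, E4⟩ := h.step
  obtain ⟨hκ, ⟨hk1, H1⟩, ⟨hk2, h12, H2⟩, ⟨hk3, h13, h23, H3⟩, ⟨hk4, h14, h24, h34, H4⟩⟩ := h
  have h := capL (m := m) hq hqp hs hl []
    (by simp [hk1, hk2, hk3, hk4, h12, h13, h14, h23, h24, h34]) [a1, a2]
    (by simp; omega) (by intro x hx; simp at hx; omega)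
  simp only [List.map_cons, List.map_nil, List.sum_cons, List.sum_nil, eκ, E1, E2, E3, E4] at h
  linarith

theorem cg8_0_1_0 {p q : ℕ → ℝ} {κ i1 i2 i3 i4 : Fin m} {s : ℕ}
    (h : Mach8 m p s κ i1 i2 i3 i4) (hq : ∀ i, 0 < q i) {t0 l : ℕ}
    (hqp : ∀ i < t0 + 1, q i = p i) (hs : s ≤ t0) (hl : t0 < l)
    : vol p s + p s + (mn m q l - (mn m p s + p s)) ≤ vol q l := by
  obtain ⟨eκ, E1, E2, E3, E4⟩ := h.step
  obtain ⟨hκ, ⟨hk1, H1⟩, ⟨hk2, h12, H2⟩, ⟨hk3, h13, h23, H3⟩, ⟨hk4, h14, h24, h34, H4⟩⟩ := h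
  have h := capL (m := m) hq hqp hs hl [κ]
    (by simp [hk1, hk2, hk3, hk4, h12, h13, h14, h23, h24, h34]) []
    (by simp) (by intro x hx; simp at hx)
  simp only [List.map_cons, List.map_nil, List.sum_cons, List.sum_nil, eκ, E1, E2, E3, E4] at h
  linarith

theorem cg8_1_0_0 {p q : ℕ → ℝ} {κ i1 i2 i3 i4 : Fin m} {s : ℕ}
    (h : Mach8 m p s κ i1 i2 i3 i4) (hq : ∀ i, 0 < q i) {t0 l : ℕ}
    (hqp : ∀ i < t0 + 1, q i = p i) (hs : s ≤ t0) (hl : t0 < l)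
    : vol p s + p s + (mn m q l - ls m p s i1) ≤ vol q l := by
  obtain ⟨eκ, E1, E2, E3, E4⟩ := h.step
  obtain ⟨hκ, ⟨hk1, H1⟩, ⟨hk2, h12, H2⟩, ⟨hk3, h13, h23, H3⟩, ⟨hk4, h14, h24, h34, H4⟩⟩ := h
  have h := capL (m := m) hq hqp hs hl [i1]
    (by simp [hk1, hk2, hk3, hk4, h12, h13, h14, h23, h24, h34]) []
    (by simp) (by intro x hx; simp at hx)
  simp only [List.map_cons, List.map_nil, List.sum_cons, List.sum_nil, eκ, E1, E2, E3, E4] at h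
  linarith

theorem cg8_1_0_1 {p q : ℕ → ℝ} {κ i1 i2 i3 i4 : Fin m} {s : ℕ}
    (h : Mach8 m p s κ i1 i2 i3 i4) (hq : ∀ i, 0 < q i) {t0 l : ℕ}
    (hqp : ∀ i < t0 + 1, q i = p i) (hs : s ≤ t0) (hl : t0 < l)
    {a1 : ℕ} (h0 : s < a1) (h1 : a1 ≤ t0)
    : vol p s + p s + (mn m q l - ls m p s i1) + (mn m p a1 + p a1 - mn m q l) ≤ vol q l := by
  obtain ⟨eκ, E1, E2, E3, E4⟩ := h.step
  obtain ⟨hκ, ⟨hk1, H1⟩, ⟨hk2, h12, H2⟩, ⟨hk3, h13, h23, H3⟩, ⟨hk4, h14, h24, h34, H4⟩⟩ := h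
  have h := capL (m := m) hq hqp hs hl [i1]
    (by simp [hk1, hk2, hk3, hk4, h12, h13, h14, h23, h24, h34]) [a1]
    (by simp) (by intro x hx; simp at hx; omega)
  simp only [List.map_cons, List.map_nil, List.sum_cons, List.sum_nil, eκ, E1, E2, E3, E4] at h
  linarith

theorem cg8_1_1_0 {p q : ℕ → ℝ} {κ i1 i2 i3 i4 : Fin m} {s : ℕ}
    (h : Mach8 m p s κ i1 i2 i3 i4) (hq : ∀ i, 0 < q i) {t0 l : ℕ}
    (hqp : ∀ i < t0 + 1, q i = p i) (hs : s ≤ t0) (hl : t0 < l)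
    : vol p s + p s + (mn m q l - (mn m p s + p s)) + (mn m q l - ls m p s i1) ≤ vol q l := by
  obtain ⟨eκ, E1, E2, E3, E4⟩ := h.step
  obtain ⟨hκ, ⟨hk1, H1⟩, ⟨hk2, h12, H2⟩, ⟨hk3, h13, h23, H3⟩, ⟨hk4, h14, h24, h34, H4⟩⟩ := h
  have h := capL (m := m) hq hqp hs hl [κ, i1]
    (by simp [hk1, hk2, hk3, hk4, h12, h13, h14, h23, h24, h34]) []
    (by simp) (by intro x hx; simp at hx)
  simp only [List.map_cons, List.map_nil, List.sum_cons, List.sum_nil, eκ, E1, E2, E3, E4] at h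
  linarith

theorem cg8_1_1_1 {p q : ℕ → ℝ} {κ i1 i2 i3 i4 : Fin m} {s : ℕ}
    (h : Mach8 m p s κ i1 i2 i3 i4) (hq : ∀ i, 0 < q i) {t0 l : ℕ}
    (hqp : ∀ i < t0 + 1, q i = p i) (hs : s ≤ t0) (hl : t0 < l)
    {a1 : ℕ} (h0 : s < a1) (h1 : a1 ≤ t0)
    : vol p s + p s + (mn m q l - (mn m p s + p s)) + (mn m q l - ls m p s i1) +
      (mn m p a1 + p a1 - mn m q l) ≤ vol q l := by
  obtain ⟨eκ, E1, E2, E3, E4⟩ := h.step
  obtain ⟨hκ, ⟨hk1, H1⟩, ⟨hk2, h12, H2⟩, ⟨hk3, h13, h23, H3⟩, ⟨hk4, h14, h24, h34, H4⟩⟩ := h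
  have h := capL (m := m) hq hqp hs hl [κ, i1]
    (by simp [hk1, hk2, hk3, hk4, h12, h13, h14, h23, h24, h34]) [a1]
    (by simp) (by intro x hx; simp at hx; omega)
  simp only [List.map_cons, List.map_nil, List.sum_cons, List.sum_nil, eκ, E1, E2, E3, E4] at h
  linarith

theorem cg8_2_0_0 {p q : ℕ → ℝ} {κ i1 i2 i3 i4 : Fin m} {s : ℕ}
    (h : Mach8 m p s κ i1 i2 i3 i4) (hq : ∀ i, 0 < q i) {t0 l : ℕ}
    (hqp : ∀ i < t0 + 1, q i = p i) (hs : s ≤ t0) (hl : t0 < l)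
    : vol p s + p s + (mn m q l - ls m p s i1) + (mn m q l - ls m p s i2) ≤ vol q l := by
  obtain ⟨eκ, E1, E2, E3, E4⟩ := h.step
  obtain ⟨hκ, ⟨hk1, H1⟩, ⟨hk2, h12, H2⟩, ⟨hk3, h13, h23, H3⟩, ⟨hk4, h14, h24, h34, H4⟩⟩ := h
  have h := capL (m := m) hq hqp hs hl [i1, i2]
    (by simp [hk1, hk2, hk3, hk4, h12, h13, h14, h23, h24, h34]) []
    (by simp) (by intro x hx; simp at hx)
  simp only [List.map_cons, List.map_nil, List.sum_cons, List.sum_nil, eκ, E1, E2, E3, E4] at h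
  linarith

theorem cg8_2_0_1 {p q : ℕ → ℝ} {κ i1 i2 i3 i4 : Fin m} {s : ℕ}
    (h : Mach8 m p s κ i1 i2 i3 i4) (hq : ∀ i, 0 < q i) {t0 l : ℕ}
    (hqp : ∀ i < t0 + 1, q i = p i) (hs : s ≤ t0) (hl : t0 < l)
    {a1 : ℕ} (h0 : s < a1) (h1 : a1 ≤ t0)
    : vol p s + p s + (mn m q l - ls m p s i1) + (mn m q l - ls m p s i2) +
      (mn m p a1 + p a1 - mn m q l) ≤ vol q l := by
  obtain ⟨eκ, E1, E2, E3, E4⟩ := h.step
  obtain ⟨hκ, ⟨hk1, H1⟩, ⟨hk2, h12, H2⟩, ⟨hk3, h13, h23, H3⟩, ⟨hk4, h14, h24, h34, H4⟩⟩ := h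
  have h := capL (m := m) hq hqp hs hl [i1, i2]
    (by simp [hk1, hk2, hk3, hk4, h12, h13, h14, h23, h24, h34]) [a1]
    (by simp) (by intro x hx; simp at hx; omega)
  simp only [List.map_cons, List.map_nil, List.sum_cons, List.sum_nil, eκ, E1, E2, E3, E4] at h
  linarith

theorem cg8_2_0_2 {p q : ℕ → ℝ} {κ i1 i2 i3 i4 : Fin m} {s : ℕ}
    (h : Mach8 m p s κ i1 i2 i3 i4) (hq : ∀ i, 0 < q i) {t0 l : ℕ}
    (hqp : ∀ i < t0 + 1, q i = p i) (hs : s ≤ t0) (hl : t0 < l)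
    {a1 a2 : ℕ} (h0 : s < a1) (h1 : a1 < a2) (h2 : a2 ≤ t0)
    : vol p s + p s + (mn m q l - ls m p s i1) + (mn m q l - ls m p s i2) +
      (mn m p a1 + p a1 - mn m q l) + (mn m p a2 + p a2 - mn m q l) ≤ vol q l := by
  obtain ⟨eκ, E1, E2, E3, E4⟩ := h.step
  obtain ⟨hκ, ⟨hk1, H1⟩, ⟨hk2, h12, H2⟩, ⟨hk3, h13, h23, H3⟩, ⟨hk4, h14, h24, h34, H4⟩⟩ := h
  have h := capL (m := m) hq hqp hs hl [i1, i2]
    (by simp [hk1, hk2, hk3, hk4, h12, h13, h14, h23, h24, h34]) [a1, a2]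
    (by simp; omega) (by intro x hx; simp at hx; omega)
  simp only [List.map_cons, List.map_nil, List.sum_cons, List.sum_nil, eκ, E1, E2, E3, E4] at h
  linarith

theorem cg8_2_1_0 {p q : ℕ → ℝ} {κ i1 i2 i3 i4 : Fin m} {s : ℕ}
    (h : Mach8 m p s κ i1 i2 i3 i4) (hq : ∀ i, 0 < q i) {t0 l : ℕ}
    (hqp : ∀ i < t0 + 1, q i = p i) (hs : s ≤ t0) (hl : t0 < l)
    : vol p s + p s + (mn m q l - (mn m p s + p s)) + (mn m q l - ls m p s i1) +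
      (mn m q l - ls m p s i2) ≤ vol q l := by
  obtain ⟨eκ, E1, E2, E3, E4⟩ := h.step
  obtain ⟨hκ, ⟨hk1, H1⟩, ⟨hk2, h12, H2⟩, ⟨hk3, h13, h23, H3⟩, ⟨hk4, h14, h24, h34, H4⟩⟩ := h
  have h := capL (m := m) hq hqp hs hl [κ, i1, i2]
    (by simp [hk1, hk2, hk3, hk4, h12, h13, h14, h23, h24, h34]) []
    (by simp) (by intro x hx; simp at hx)
  simp only [List.map_cons, List.map_nil, List.sum_cons, List.sum_nil, eκ, E1, E2, E3, E4] at h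
  linarith

theorem cg8_2_1_1 {p q : ℕ → ℝ} {κ i1 i2 i3 i4 : Fin m} {s : ℕ}
    (h : Mach8 m p s κ i1 i2 i3 i4) (hq : ∀ i, 0 < q i) {t0 l : ℕ}
    (hqp : ∀ i < t0 + 1, q i = p i) (hs : s ≤ t0) (hl : t0 < l)
    {a1 : ℕ} (h0 : s < a1) (h1 : a1 ≤ t0)
    : vol p s + p s + (mn m q l - (mn m p s + p s)) + (mn m q l - ls m p s i1) +
      (mn m q l - ls m p s i2) + (mn m p a1 + p a1 - mn m q l) ≤ vol q l := by
  obtain ⟨eκ, E1, E2, E3, E4⟩ := h.step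
  obtain ⟨hκ, ⟨hk1, H1⟩, ⟨hk2, h12, H2⟩, ⟨hk3, h13, h23, H3⟩, ⟨hk4, h14, h24, h34, H4⟩⟩ := h
  have h := capL (m := m) hq hqp hs hl [κ, i1, i2]
    (by simp [hk1, hk2, hk3, hk4, h12, h13, h14, h23, h24, h34]) [a1]
    (by simp) (by intro x hx; simp at hx; omega)
  simp only [List.map_cons, List.map_nil, List.sum_cons, List.sum_nil, eκ, E1, E2, E3, E4] at h
  linarith

theorem cg8_3_0_0 {p q : ℕ → ℝ} {κ i1 i2 i3 i4 : Fin m} {s : ℕ}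
    (h : Mach8 m p s κ i1 i2 i3 i4) (hq : ∀ i, 0 < q i) {t0 l : ℕ}
    (hqp : ∀ i < t0 + 1, q i = p i) (hs : s ≤ t0) (hl : t0 < l)
    : vol p s + p s + (mn m q l - ls m p s i1) + (mn m q l - ls m p s i2) +
      (mn m q l - ls m p s i3) ≤ vol q l := by
  obtain ⟨eκ, E1, E2, E3, E4⟩ := h.step
  obtain ⟨hκ, ⟨hk1, H1⟩, ⟨hk2, h12, H2⟩, ⟨hk3, h13, h23, H3⟩, ⟨hk4, h14, h24, h34, H4⟩⟩ := h
  have h := capL (m := m) hq hqp hs hl [i1, i2, i3]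
    (by simp [hk1, hk2, hk3, hk4, h12, h13, h14, h23, h24, h34]) []
    (by simp) (by intro x hx; simp at hx)
  simp only [List.map_cons, List.map_nil, List.sum_cons, List.sum_nil, eκ, E1, E2, E3, E4] at h
  linarith

theorem cg8_3_0_1 {p q : ℕ → ℝ} {κ i1 i2 i3 i4 : Fin m} {s : ℕ}
    (h : Mach8 m p s κ i1 i2 i3 i4) (hq : ∀ i, 0 < q i) {t0 l : ℕ}
    (hqp : ∀ i < t0 + 1, q i = p i) (hs : s ≤ t0) (hl : t0 < l)
    {a1 : ℕ} (h0 : s < a1) (h1 : a1 ≤ t0)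
    : vol p s + p s + (mn m q l - ls m p s i1) + (mn m q l - ls m p s i2) +
      (mn m q l - ls m p s i3) + (mn m p a1 + p a1 - mn m q l) ≤ vol q l := by
  obtain ⟨eκ, E1, E2, E3, E4⟩ := h.step
  obtain ⟨hκ, ⟨hk1, H1⟩, ⟨hk2, h12, H2⟩, ⟨hk3, h13, h23, H3⟩, ⟨hk4, h14, h24, h34, H4⟩⟩ := h
  have h := capL (m := m) hq hqp hs hl [i1, i2, i3]
    (by simp [hk1, hk2, hk3, hk4, h12, h13, h14, h23, h24, h34]) [a1]
    (by simp) (by intro x hx; simp at hx; omega)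
  simp only [List.map_cons, List.map_nil, List.sum_cons, List.sum_nil, eκ, E1, E2, E3, E4] at h
  linarith

theorem cg8_3_0_2 {p q : ℕ → ℝ} {κ i1 i2 i3 i4 : Fin m} {s : ℕ}
    (h : Mach8 m p s κ i1 i2 i3 i4) (hq : ∀ i, 0 < q i) {t0 l : ℕ}
    (hqp : ∀ i < t0 + 1, q i = p i) (hs : s ≤ t0) (hl : t0 < l)
    {a1 a2 : ℕ} (h0 : s < a1) (h1 : a1 < a2) (h2 : a2 ≤ t0)
    : vol p s + p s + (mn m q l - ls m p s i1) + (mn m q l - ls m p s i2) +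
      (mn m q l - ls m p s i3) + (mn m p a1 + p a1 - mn m q l) +
      (mn m p a2 + p a2 - mn m q l) ≤ vol q l := by
  obtain ⟨eκ, E1, E2, E3, E4⟩ := h.step
  obtain ⟨hκ, ⟨hk1, H1⟩, ⟨hk2, h12, H2⟩, ⟨hk3, h13, h23, H3⟩, ⟨hk4, h14, h24, h34, H4⟩⟩ := h
  have h := capL (m := m) hq hqp hs hl [i1, i2, i3]
    (by simp [hk1, hk2, hk3, hk4, h12, h13, h14, h23, h24, h34]) [a1, a2]
    (by simp; omega) (by intro x hx; simp at hx; omega)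
  simp only [List.map_cons, List.map_nil, List.sum_cons, List.sum_nil, eκ, E1, E2, E3, E4] at h
  linarith

theorem cg8_3_1_0 {p q : ℕ → ℝ} {κ i1 i2 i3 i4 : Fin m} {s : ℕ}
    (h : Mach8 m p s κ i1 i2 i3 i4) (hq : ∀ i, 0 < q i) {t0 l : ℕ}
    (hqp : ∀ i < t0 + 1, q i = p i) (hs : s ≤ t0) (hl : t0 < l)
    : vol p s + p s + (mn m q l - (mn m p s + p s)) + (mn m q l - ls m p s i1) +
      (mn m q l - ls m p s i2) + (mn m q l - ls m p s i3) ≤ vol q l := by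
  obtain ⟨eκ, E1, E2, E3, E4⟩ := h.step
  obtain ⟨hκ, ⟨hk1, H1⟩, ⟨hk2, h12, H2⟩, ⟨hk3, h13, h23, H3⟩, ⟨hk4, h14, h24, h34, H4⟩⟩ := h
  have h := capL (m := m) hq hqp hs hl [κ, i1, i2, i3]
    (by simp [hk1, hk2, hk3, hk4, h12, h13, h14, h23, h24, h34]) []
    (by simp) (by intro x hx; simp at hx)
  simp only [List.map_cons, List.map_nil, List.sum_cons, List.sum_nil, eκ, E1, E2, E3, E4] at h
  linarith

theorem cg8_4_0_0 {p q : ℕ → ℝ} {κ i1 i2 i3 i4 : Fin m} {s : ℕ}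
    (h : Mach8 m p s κ i1 i2 i3 i4) (hq : ∀ i, 0 < q i) {t0 l : ℕ}
    (hqp : ∀ i < t0 + 1, q i = p i) (hs : s ≤ t0) (hl : t0 < l)
    : vol p s + p s + (mn m q l - ls m p s i1) + (mn m q l - ls m p s i2) +
      (mn m q l - ls m p s i3) + (mn m q l - ls m p s i4) ≤ vol q l := by
  obtain ⟨eκ, E1, E2, E3, E4⟩ := h.step
  obtain ⟨hκ, ⟨hk1, H1⟩, ⟨hk2, h12, H2⟩, ⟨hk3, h13, h23, H3⟩, ⟨hk4, h14, h24, h34, H4⟩⟩ := h
  have h := capL (m := m) hq hqp hs hl [i1, i2, i3, i4]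
    (by simp [hk1, hk2, hk3, hk4, h12, h13, h14, h23, h24, h34]) []
    (by simp) (by intro x hx; simp at hx)
  simp only [List.map_cons, List.map_nil, List.sum_cons, List.sum_nil, eκ, E1, E2, E3, E4] at h
  linarith

theorem cg8_4_0_1 {p q : ℕ → ℝ} {κ i1 i2 i3 i4 : Fin m} {s : ℕ}
    (h : Mach8 m p s κ i1 i2 i3 i4) (hq : ∀ i, 0 < q i) {t0 l : ℕ}
    (hqp : ∀ i < t0 + 1, q i = p i) (hs : s ≤ t0) (hl : t0 < l)
    {a1 : ℕ} (h0 : s < a1) (h1 : a1 ≤ t0)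
    : vol p s + p s + (mn m q l - ls m p s i1) + (mn m q l - ls m p s i2) +
      (mn m q l - ls m p s i3) + (mn m q l - ls m p s i4) + (mn m p a1 + p a1 - mn m q l) ≤ vol q l := by
  obtain ⟨eκ, E1, E2, E3, E4⟩ := h.step
  obtain ⟨hκ, ⟨hk1, H1⟩, ⟨hk2, h12, H2⟩, ⟨hk3, h13, h23, H3⟩, ⟨hk4, h14, h24, h34, H4⟩⟩ := h
  have h := capL (m := m) hq hqp hs hl [i1, i2, i3, i4]
    (by simp [hk1, hk2, hk3, hk4, h12, h13, h14, h23, h24, h34]) [a1]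
    (by simp) (by intro x hx; simp at hx; omega)
  simp only [List.map_cons, List.map_nil, List.sum_cons, List.sum_nil, eκ, E1, E2, E3, E4] at h
  linarith

theorem cg8_4_0_2 {p q : ℕ → ℝ} {κ i1 i2 i3 i4 : Fin m} {s : ℕ}
    (h : Mach8 m p s κ i1 i2 i3 i4) (hq : ∀ i, 0 < q i) {t0 l : ℕ}
    (hqp : ∀ i < t0 + 1, q i = p i) (hs : s ≤ t0) (hl : t0 < l)
    {a1 a2 : ℕ} (h0 : s < a1) (h1 : a1 < a2) (h2 : a2 ≤ t0)
    : vol p s + p s + (mn m q l - ls m p s i1) + (mn m q l - ls m p s i2) +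
      (mn m q l - ls m p s i3) + (mn m q l - ls m p s i4) + (mn m p a1 + p a1 - mn m q l) +
      (mn m p a2 + p a2 - mn m q l) ≤ vol q l := by
  obtain ⟨eκ, E1, E2, E3, E4⟩ := h.step
  obtain ⟨hκ, ⟨hk1, H1⟩, ⟨hk2, h12, H2⟩, ⟨hk3, h13, h23, H3⟩, ⟨hk4, h14, h24, h34, H4⟩⟩ := h
  have h := capL (m := m) hq hqp hs hl [i1, i2, i3, i4]
    (by simp [hk1, hk2, hk3, hk4, h12, h13, h14, h23, h24, h34]) [a1, a2]
    (by simp; omega) (by intro x hx; simp at hx; omega)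
  simp only [List.map_cons, List.map_nil, List.sum_cons, List.sum_nil, eκ, E1, E2, E3, E4] at h
  linarith

theorem cg8_4_1_2 {p q : ℕ → ℝ} {κ i1 i2 i3 i4 : Fin m} {s : ℕ}
    (h : Mach8 m p s κ i1 i2 i3 i4) (hq : ∀ i, 0 < q i) {t0 l : ℕ}
    (hqp : ∀ i < t0 + 1, q i = p i) (hs : s ≤ t0) (hl : t0 < l)
    {a1 a2 : ℕ} (h0 : s < a1) (h1 : a1 < a2) (h2 : a2 ≤ t0)
    : vol p s + p s + (mn m q l - (mn m p s + p s)) + (mn m q l - ls m p s i1) +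
      (mn m q l - ls m p s i2) + (mn m q l - ls m p s i3) + (mn m q l - ls m p s i4) +
      (mn m p a1 + p a1 - mn m q l) + (mn m p a2 + p a2 - mn m q l) ≤ vol q l := by
  obtain ⟨eκ, E1, E2, E3, E4⟩ := h.step
  obtain ⟨hκ, ⟨hk1, H1⟩, ⟨hk2, h12, H2⟩, ⟨hk3, h13, h23, H3⟩, ⟨hk4, h14, h24, h34, H4⟩⟩ := h
  have h := capL (m := m) hq hqp hs hl [κ, i1, i2, i3, i4]
    (by simp [hk1, hk2, hk3, hk4, h12, h13, h14, h23, h24, h34]) [a1, a2]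
    (by simp; omega) (by intro x hx; simp at hx; omega)
  simp only [List.map_cons, List.map_nil, List.sum_cons, List.sum_nil, eκ, E1, E2, E3, E4] at h
  linarith

end Pool.Agent.Lib_MP_25a3c1_mix
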