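import Pool.Agent.Lib_MP_25a3c1_mix.Alg

/-!
The main lemma.
-/

namespace Pool.Agent.Lib_MP_25a3c1_mix

open Pool.Agent.Lib_MP_25a3c1 Finset

variable {m : ℕ} [NeZero m]

theorem sum_ls (p : ℕ → ℝ) (n : ℕ) : ∑ j, ls m p n j = vol p n := sum_ld n

theorem ls_step_am (p : ℕ → ℝ) (s : ℕ) :
    ls m p (s + 1) (am (ls m p s)) = mn m p s + p s := by
  rw [ls_succ, if_pos rfl, mn]

theorem ls_step_ne (p : ℕ → ℝ) (s : ℕ) {j : Fin m} (hj : am (ls m p s) ≠ j) :
    ls m p (s + 1) j = ls m p s j := by
  rw [ls_succ, if_neg hj, add_zero]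

theorem vol_ge_one {p : ℕ → ℝ} (hp : ∀ i, 0 < p i) {s t : ℕ} (hst : s < t) :
    mn m p s + p s + ((m : ℝ) - 1) * mn m p t ≤ vol p t := by
  rw [← sum_ls (m := m) p t]
  have h : ∀ j ∈ (Finset.univ : Finset (Fin m)), mn m p t +
      (if j = am (ls m p s) then mn m p s + p s - mn m p t else 0) ≤ ls m p t j := by
    intro j _
    split_ifs with hj
    · have h1 := ld_mono (r := lsr (m := m)) hp (show s + 1 ≤ t from hst) j
      have h2 := ls_step_am (m := m) p s
      rw [← hj] at h2
      change ls m p (s + 1) j ≤ ls m p t j at h1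
      linarith
    · linarith [mn_le p t j]
  have h2 := Finset.sum_le_sum h
  rw [Finset.sum_add_distrib] at h2
  simp only [Finset.sum_const, Finset.card_univ, Fintype.card_fin, nsmul_eq_mul,
    Finset.sum_ite_eq', Finset.mem_univ, if_true] at h2
  linarith

/-- the volume after job `s`, two further machines -/
theorem vol_ge_two {p : ℕ → ℝ} {s : ℕ} {i j : Fin m} (hij : i ≠ j) :
    ((m : ℝ) - 2) * mn m p s + ls m p s i + ls m p s j + p s ≤ vol p (s + 1) := by
  rw [vol_succ, ← sum_ls (m := m) p s]
  have h : ∀ k ∈ (Finset.univ : Finset (Fin m)), mn m p s +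
      (if k = i then ls m p s i - mn m p s else 0) +
      (if k = j then ls m p s j - mn m p s else 0) ≤ ls m p s k := by
    intro k _
    by_cases h1 : k = i
    · rw [if_pos h1, if_neg (by rw [h1]; exact hij), h1]
      linarith
    · rw [if_neg h1]
      by_cases h2 : k = j
      · rw [if_pos h2, h2]
        linarith
      · rw [if_neg h2]
        linarith [mn_le p s k]
  have h2 := Finset.sum_le_sum h
  rw [Finset.sum_add_distrib, Finset.sum_add_distrib] at h2
  simp only [Finset.sum_const, Finset.card_univ, Fintype.card_fin, nsmul_eq_mul,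
    Finset.sum_ite_eq', Finset.mem_univ, if_true] at h2
  linarith

theorem vol_ge_single {p : ℕ → ℝ} {s : ℕ} (i : Fin m) :
    ((m : ℝ) - 1) * mn m p s + ls m p s i + p s ≤ vol p (s + 1) := by
  rw [vol_succ, ← sum_ls (m := m) p s]
  have h : ∀ k ∈ (Finset.univ : Finset (Fin m)), mn m p s +
      (if k = i then ls m p s i - mn m p s else 0) ≤ ls m p s k := by
    intro k _
    by_cases h1 : k = i
    · rw [if_pos h1, h1]
      linarith
    · rw [if_neg h1]
      linarith [mn_le p s k]
  have h2 := Finset.sum_le_sum h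
  rw [Finset.sum_add_distrib] at h2
  simp only [Finset.sum_const, Finset.card_univ, Fintype.card_fin, nsmul_eq_mul,
    Finset.sum_ite_eq', Finset.mem_univ, if_true] at h2
  linarith

/-- growth of the volume when the machines `i`, `j` get filled up to the smallest load -/
theorem vol_grow_two {p : ℕ → ℝ} (hp : ∀ i, 0 < p i) {s t : ℕ} (hst : s < t) {i j : Fin m}
    (hij : i ≠ j) (hi : am (ls m p s) ≠ i) (hj : am (ls m p s) ≠ j) :
    vol p (s + 1) + (mn m p t - ls m p s i) + (mn m p t - ls m p s j) ≤ vol p t := by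
  rw [← sum_ls (m := m) p t, ← sum_ls (m := m) p (s + 1)]
  have h : ∀ k ∈ (Finset.univ : Finset (Fin m)), ls m p (s + 1) k +
      (if k = i then mn m p t - ls m p s i else 0) +
      (if k = j then mn m p t - ls m p s j else 0) ≤ ls m p t k := by
    intro k _
    by_cases h1 : k = i
    · rw [if_pos h1, if_neg (by rw [h1]; exact hij), h1, ls_step_ne p s hi]
      linarith [mn_le p t i]
    · rw [if_neg h1]
      by_cases h2 : k = j
      · rw [if_pos h2, h2, ls_step_ne p s hj]
        linarith [mn_le p t j]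
      · rw [if_neg h2]
        have h3 := ld_mono (r := lsr (m := m)) hp (show s + 1 ≤ t from hst) k
        change ls m p (s + 1) k ≤ ls m p t k at h3
        linarith
  have h2 := Finset.sum_le_sum h
  rw [Finset.sum_add_distrib, Finset.sum_add_distrib] at h2
  simp only [Finset.sum_ite_eq', Finset.mem_univ, if_true] at h2
  linarith

theorem vol_grow_one {p : ℕ → ℝ} (hp : ∀ i, 0 < p i) {s t : ℕ} (hst : s < t) {i : Fin m}
    (hi : am (ls m p s) ≠ i) :
    vol p (s + 1) + (mn m p t - ls m p s i) ≤ vol p t := by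
  rw [← sum_ls (m := m) p t, ← sum_ls (m := m) p (s + 1)]
  have h : ∀ k ∈ (Finset.univ : Finset (Fin m)), ls m p (s + 1) k +
      (if k = i then mn m p t - ls m p s i else 0) ≤ ls m p t k := by
    intro k _
    by_cases h1 : k = i
    · rw [if_pos h1, h1, ls_step_ne p s hi]
      linarith [mn_le p t i]
    · rw [if_neg h1]
      have h3 := ld_mono (r := lsr (m := m)) hp (show s + 1 ≤ t from hst) k
      change ls m p (s + 1) k ≤ ls m p t k at h3
      linarith
  have h2 := Finset.sum_le_sum h
  rw [Finset.sum_add_distrib] at h2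
  simp only [Finset.sum_ite_eq', Finset.mem_univ, if_true] at h2
  linarith

theorem mn_vol_succ {p : ℕ → ℝ} (l : ℕ) : (m : ℝ) * mn m p l + p l ≤ vol p (l + 1) := by
  rw [vol_succ]
  linarith [card_mul_mn_le (m := m) p l]

/-- an event: at job `s` the careful algorithm took its lowest machine, with load `x`, although
the second lowest load was `b` -/
structure Ev (m : ℕ) [NeZero m] (lam R : ℝ) (p : ℕ → ℝ) (s : ℕ) (x b : ℝ) : Prop where
  x0 : 0 ≤ x
  xb : x ≤ b
  vl : x + p s + ((m : ℝ) - 1) * b ≤ vol p (s + 1)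
  ns : ¬ Safe m lam R (s + 1) p (b + p s)

theorem mpos : 0 < m := Nat.pos_of_ne_zero (NeZero.ne m)

/-- the witness of an event is the makespan of List Scheduling at the event itself -/
theorem Ev.alpha {lam R : ℝ} (G : Good m lam R) {p : ℕ → ℝ} {s : ℕ}
    {x b : ℝ} (E : Ev m lam R p s x b) :
    R * opt m p (s + 1) < lam * (mn m p s + p s) + (1 - lam) * (b + p s) := by
  classical
  have hm : 0 < m := mpos
  have hns := E.ns
  unfold Safe at hns
  push Not at hns
  obtain ⟨q, hq, hqp, N, hN, j, hlt⟩ := hns
  -- facts at the event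
  have hqp' : ∀ i < s + 1, q i = p i := hqp
  have hO0 : opt m q (s + 1) = opt m p (s + 1) := opt_congr hqp'
  have hOO : opt m q (s + 1) ≤ opt m q N := opt_mono hm hq hN
  have hU : vol q (s + 1) = vol p (s + 1) := vol_congr hqp'
  have hUO : vol q (s + 1) ≤ m * opt m q (s + 1) := vol_le_opt hm _
  have hps : q s = p s := hqp s (Nat.lt_succ_self s)
  have hp0O : q s ≤ opt m q (s + 1) := job_le_opt hm hq (Nat.lt_succ_self s)
  have hE := E.vl
  rw [← hU, ← hps] at hE
  have hx0 := E.x0
  have hxb := E.xb
  have hmn : mn m q s = mn m p s := mn_congr fun k hk => hqp k (by omega)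
  rw [← hO0, ← hmn, ← hps]
  rw [← hps] at hlt
  have hp0 := hq s
  rcases ls_last (p := q) N j with h0 | ⟨l, hlN, hlj, hl⟩
  · exfalso
    have h1 := G.old (vol q (s + 1)) (q s) x b (opt m q (s + 1)) 0 0 (opt m q N) hp0 hp0O hx0 hxb
      hE hUO le_rfl le_rfl (hp0.le.trans hp0O)
      (by have := card_mul_mn_le (m := m) q s
          have h2 := mul_nonneg (Nat.cast_nonneg (α := ℝ) m) (mn_nonneg (m := m) hq s)
          rw [vol_succ]; linarith) hOO
    rw [h0] at hlt
    linarith
  rw [hl] at hlt
  rcases lt_trichotomy l s with h | h | h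
  · -- an older job
    exfalso
    have h1 := G.old (vol q (s + 1)) (q s) x b (opt m q (s + 1)) (mn m q l) (q l) (opt m q N)
      hp0 hp0O hx0 hxb hE hUO (mn_nonneg hq l) (hq l).le
      (job_le_opt hm hq (by omega))
      (by have h2 := mn_vol_succ (m := m) (p := q) l
          have h3 := vol_mono hq (show l + 1 ≤ s from h)
          rw [vol_succ q s]; linarith) hOO
    linarith
  · subst h
    have : R * opt m q (l + 1) ≤ R * opt m q N := mul_le_mul_of_nonneg_left hOO G.R0
    linarith
  · -- a later job
    exfalso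
    have hV'U := vol_mono hq (show s + 1 ≤ l from h)
    have hV'a := vol_ge_one (m := m) hq h
    have hV'O : vol q l + q l ≤ m * opt m q N := by
      rw [← vol_succ]
      exact (vol_mono hq (show l + 1 ≤ N from hlN)).trans (vol_le_opt hm _)
    have haa := mn_mono (m := m) hq h.le
    have ha0 := mn_nonneg (m := m) hq s
    have hP'O : q l ≤ opt m q N := job_le_opt hm hq hlN
    set j0 := am (ls m q s) with hj0
    -- the four kinds of pairs
    have case_zP : q s + q l ≤ opt m q N → False := by
      intro hpair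
      have h1 := G.zP (vol q (s + 1)) (q s) x b (opt m q (s + 1)) (mn m q s) (opt m q N) (q l)
        (vol q l) (mn m q l) hp0 hp0O hx0 hxb hE hUO ha0 hOO (hq l).le hP'O hV'U hV'a hV'O haa
        hpair
      linarith
    have case_qP : ∀ i : Fin m, j0 ≠ i → ls m q s i + q l ≤ opt m q N + mn m q s → False := by
      intro i hi hpair
      have h1 := G.qP (vol q (s + 1)) (q s) x b (opt m q (s + 1)) (mn m q s) (ls m q s i)
        (opt m q N) (q l) (vol q l) (mn m q l) hp0 hp0O hx0 hxb hE hUO ha0 (mn_le q s i)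
        (vol_ge_single i) hOO (hq l).le hP'O hV'U hV'a hV'O haa (vol_grow_one hq h hi) hpair
      linarith
    have case_q0 : ∀ i : Fin m, j0 ≠ i → ls m q s i + q s ≤ opt m q N + mn m q s → False := by
      intro i hi hpair
      have h1 := G.q0 (vol q (s + 1)) (q s) x b (opt m q (s + 1)) (mn m q s) (ls m q s i)
        (opt m q N) (q l) (vol q l) (mn m q l) hp0 hp0O hx0 hxb hE hUO ha0 (mn_le q s i)
        (vol_ge_single i) hOO (hq l).le hP'O hV'U hV'a hV'O haa (vol_grow_one hq h hi) hpair
      linarith
    have case_qq : ∀ i i' : Fin m, i ≠ i' → j0 ≠ i → j0 ≠ i' →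
        ls m q s i + ls m q s i' ≤ opt m q N + 2 * mn m q s → False := by
      intro i i' hii hi hi' hpair
      have h1 := G.qq (vol q (s + 1)) (q s) x b (opt m q (s + 1)) (mn m q s) (ls m q s i)
        (ls m q s i') (opt m q N) (q l) (vol q l) (mn m q l) hp0 hp0O hx0 hxb hE hUO ha0
        (mn_le q s i) (mn_le q s i') (vol_ge_two hii) hOO (hq l).le hP'O hV'U hV'a hV'O
        haa (vol_grow_two hq h hii hi hi') (vol_grow_one hq h hi) (vol_grow_one hq h hi') hpair
      linarith
    by_cases hempty : ∃ i, j0 ≠ i ∧ ls m q s i = 0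
    · obtain ⟨i, hi, hi0⟩ := hempty
      exact case_qP i hi (by linarith)
    push Not at hempty
    have hlast : ∀ i, ∃ l', (j0 ≠ i → l' < s ∧ am (ls m q l') = i ∧
        ls m q s i ≤ mn m q s + q l') := by
      intro i
      by_cases hi : j0 = i
      · exact ⟨0, fun h => absurd hi h⟩
      · rcases ls_last (p := q) s i with h0 | ⟨l', h1, h2, h3⟩
        · exact absurd h0 (hempty i hi)
        · exact ⟨l', fun _ => ⟨h1, h2, by rw [h3]; linarith [mn_mono (m := m) hq h1.le]⟩⟩
    choose lj hlj' using hlast
    -- the m + 1 jobs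
    have hinj : Function.Injective (fun o : Option (Fin m) =>
        (o.elim l (fun i => if j0 = i then s else lj i) : ℕ)) := by
      rintro (_ | i) (_ | i') hii
      · rfl
      · exfalso
        simp only [Option.elim] at hii
        split_ifs at hii with h1
        · omega
        · have := (hlj' i' h1).1
          omega
      · exfalso
        simp only [Option.elim] at hii
        split_ifs at hii with h1
        · omega
        · have := (hlj' i h1).1
          omega
      · simp only [Option.elim] at hii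
        split_ifs at hii with h1 h2 h3
        · rw [← h1, ← h2]
        · have := (hlj' i' h2).1
          omega
        · have := (hlj' i h1).1
          omega
        · have e1 := (hlj' i h1).2.1
          have e2 := (hlj' i' h3).2.1
          rw [← e1, ← e2, hii]
    obtain ⟨o, o', hoo, hpair⟩ := exists_pair_le_opt hm hq (N := N) _ hinj (by
      rintro (_ | i)
      · exact hlN
      · simp only [Option.elim]
        split_ifs with h1
        · omega
        · have := (hlj' i h1).1
          omega) (by simp)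
    rcases o with _ | i <;> rcases o' with _ | i'
    · exact hoo rfl
    · simp only [Option.elim] at hpair
      split_ifs at hpair with h1
      · exact case_zP (by linarith)
      · exact case_qP i' h1 (by linarith [(hlj' i' h1).2.2])
    · simp only [Option.elim] at hpair
      split_ifs at hpair with h1
      · exact case_zP (by linarith)
      · exact case_qP i h1 (by linarith [(hlj' i h1).2.2])
    · have hii : i ≠ i' := fun h => hoo (by rw [h])
      simp only [Option.elim] at hpair
      split_ifs at hpair with h1 h2 h3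
      · exact hii (by rw [← h1, ← h2])
      · exact case_q0 i' h2 (by linarith [(hlj' i' h2).2.2])
      · exact case_q0 i h1 (by linarith [(hlj' i h1).2.2])
      · exact case_qq i i' hii h1 h3 (by linarith [(hlj' i h1).2.2, (hlj' i' h3).2.2])

/-- after an event, the lowest machine stays safe -/
theorem Ev.safe {lam R : ℝ} (G : Good m lam R) {p : ℕ → ℝ} {s n : ℕ}
    (hsn : s < n) {x b c : ℝ} (E : Ev m lam R p s x b) (hc0 : 0 ≤ c) (hcx : c ≤ x + p s)
    (hcb : c ≤ b) : Safe m lam R (n + 1) p (c + p n) := by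
  have hm : 0 < m := mpos
  have hal := E.alpha G
  intro q hq hqp N hN j
  have hqps : ∀ i < s + 1, q i = p i := fun i hi => hqp i (by omega)
  have hO0 : opt m q (s + 1) = opt m p (s + 1) := opt_congr hqps
  have hOO : opt m q (s + 1) ≤ opt m q N := opt_mono hm hq (by omega)
  have hU : vol q (s + 1) = vol p (s + 1) := vol_congr hqps
  have hUO : vol q (s + 1) ≤ m * opt m q (s + 1) := vol_le_opt hm _
  have hps : q s = p s := hqps s (Nat.lt_succ_self s)
  have hpn : q n = p n := hqp n (Nat.lt_succ_self n)
  have hp0O : q s ≤ opt m q (s + 1) := job_le_opt hm hq (Nat.lt_succ_self s)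
  have hE := E.vl
  rw [← hU, ← hps] at hE
  have hx0 := E.x0
  have hxb := E.xb
  have hmn : mn m q s = mn m p s := mn_congr fun k hk => hqp k (by omega)
  have hp0 := hq s
  rw [← hO0, ← hmn, ← hps] at hal
  rw [← hps] at hcx
  rw [← hpn]
  have hnO : q n ≤ opt m q N := job_le_opt hm hq (by omega)
  have hVn : vol q n + q n ≤ m * opt m q N := by
    rw [← vol_succ]
    exact (vol_mono hq hN).trans (vol_le_opt hm _)
  have hUn : vol q (s + 1) ≤ vol q n := vol_mono hq hsn
  have hUa : (m : ℝ) * mn m q s + q s ≤ vol q (s + 1) := mn_vol_succ s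
  have ha0 := mn_nonneg (m := m) hq s
  rcases ls_last (p := q) N j with h0 | ⟨l, hlN, hlj, hl⟩
  · have h1 := G.vi (vol q (s + 1)) (q s) x b (opt m q (s + 1)) c (opt m q N) (q n) 0 0 hp0 hp0O
      hx0 hxb hE hUO hc0 hcx hcb hOO (hq n) hnO (by linarith) le_rfl le_rfl
      ((hq n).le.trans hnO) (by linarith [vol_nonneg hq (s + 1)])
    rw [h0]
    linarith
  rw [hl]
  rcases Nat.lt_or_ge s l with h | h
  · have hV1 := vol_ge_one (m := m) hq h
    have hV0 := vol_mono hq (show s + 1 ≤ l from h)
    rcases lt_trichotomy l n with h2 | h2 | h2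
    · refine G.va (vol q (s + 1)) (q s) x b (opt m q (s + 1)) (mn m q s) c (opt m q N) (q n)
        (vol q l) (mn m q l) (q l) hp0 hp0O hx0 hxb hE hUO ha0 hUa hc0 hcx hcb hOO (hq n) hnO hV0
        hV1 (hq l) (job_le_opt hm hq hlN) ?_ hal
      have h3 := vol_mono hq (show l + 1 ≤ n from h2)
      rw [vol_succ] at h3
      linarith
    · subst h2
      exact G.vb (vol q (s + 1)) (q s) x b (opt m q (s + 1)) (mn m q s) c (opt m q N) (q l)
        (vol q l) (mn m q l) hp0 hp0O hx0 hxb hE hUO ha0 hUa hc0 hcx hcb hOO (hq l) hnO hV0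
        hV1 hVn hal
    · refine G.vc (vol q (s + 1)) (q s) x b (opt m q (s + 1)) (mn m q s) c (opt m q N) (q n)
        (vol q l) (mn m q l) (q l) hp0 hp0O hx0 hxb hE hUO ha0 hUa hc0 hcx hcb hOO (hq n) hnO ?_
        hV1 (hq l) (job_le_opt hm hq hlN) ?_ hal
      · have h3 := vol_mono hq (show n + 1 ≤ l from h2)
        rw [vol_succ] at h3
        linarith
      · rw [← vol_succ]
        exact (vol_mono hq (show l + 1 ≤ N from hlN)).trans (vol_le_opt hm _)
  · exact G.vi (vol q (s + 1)) (q s) x b (opt m q (s + 1)) c (opt m q N) (q n) (mn m q l) (q l)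
      hp0 hp0O hx0 hxb hE hUO hc0 hcx hcb hOO (hq n) hnO (by linarith) (mn_nonneg hq l)
      (hq l).le (job_le_opt hm hq hlN)
      ((mn_vol_succ l).trans (vol_mono hq (by omega)))

/-- a machine which was empty stays safe -/
theorem safe_of_zero {lam R : ℝ} (G : Good m lam R) {p : ℕ → ℝ} (n : ℕ) :
    Safe m lam R (n + 1) p (p n) := by
  have hm : 0 < m := mpos
  intro q hq hqp N hN j
  have hpn : q n = p n := hqp n (Nat.lt_succ_self n)
  have hnO : q n ≤ opt m q N := job_le_opt hm hq (by omega)
  rw [← hpn]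
  rcases ls_last (p := q) N j with h0 | ⟨l, hlN, hlj, hl⟩
  · have h1 := G.base 0 0 (q n) (opt m q N) (by
      have := mul_nonneg (Nat.cast_nonneg (α := ℝ) m) (opt_nonneg hm hq N)
      linarith) ((hq n).le.trans hnO) hnO le_rfl le_rfl (hq n).le
    rw [h0]
    linarith
  · rw [hl]
    exact G.base _ _ _ _ ((mn_vol_succ l).trans ((vol_mono hq (by omega)).trans
      (vol_le_opt hm _))) (job_le_opt hm hq hlN) hnO (mn_nonneg hq l) (hq l).le (hq n).le

end Pool.Agent.Lib_MP_25a3c1_mix
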