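import Pool.Agent.Lib_MP_25a3c1_mix.Fact3

/-!
The key estimate for `m = 7`, `lam = 3 / 5` and `R = 447 / 250`.
-/

set_option linter.unusedVariables false

namespace Pool.Agent.Lib_MP_25a3c1_mix

open Pool.Agent.Lib_MP_25a3c1 Finset

variable {m : ℕ} [NeZero m]

/-- facts at one time -/
theorem bas (hM : (m : ℝ) = 7) {p : ℕ → ℝ} (hp : ∀ i, 0 < p i) (t : ℕ) :
    0 ≤ p t ∧ 0 ≤ mn m p t ∧ 0 ≤ vol p t ∧ 0 ≤ opt m p (t + 1) ∧ p t ≤ opt m p (t + 1) ∧
      vol p t + p t ≤ 7 * opt m p (t + 1) ∧ 7 * mn m p t ≤ vol p t := by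
  have h1 := vol_le_opt (m := m) (p := p) mpos (t + 1)
  have h2 := card_mul_mn_le (m := m) p t
  rw [hM] at h1 h2
  rw [vol_succ] at h1
  exact ⟨(hp t).le, mn_nonneg hp t, vol_nonneg hp t, opt_nonneg mpos hp _,
    job_le_opt mpos hp (Nat.lt_succ_self t), h1, h2⟩

/-- facts at two times -/
theorem stp (hM : (m : ℝ) = 7) {p : ℕ → ℝ} (hp : ∀ i, 0 < p i) {t t' : ℕ} (h : t < t') :
    vol p t + p t ≤ vol p t' ∧ opt m p (t + 1) ≤ opt m p (t' + 1) ∧ mn m p t ≤ mn m p t' ∧
      mn m p t + p t + 6 * mn m p t' ≤ vol p t' := by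
  have h1 := vol_ge_one (m := m) hp h
  rw [hM] at h1
  have h2 := vol_mono hp (show t + 1 ≤ t' from h)
  rw [vol_succ] at h2
  exact ⟨h2, opt_mono mpos hp (by omega), mn_mono hp h.le, by linarith⟩

/-- facts on a job `l` later than the known jobs up to `t` -/
theorem fut (hM : (m : ℝ) = 7) {p q : ℕ → ℝ} (hq : ∀ i, 0 < q i) {t l N : ℕ}
    (hqp : ∀ i < t + 1, q i = p i) (h : t < l) (hlN : l < N) :
    0 ≤ mn m q l ∧ 0 ≤ q l ∧ 0 ≤ vol q l ∧ 0 ≤ opt m q N ∧ opt m p (t + 1) ≤ opt m q N ∧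
      q l ≤ opt m q N ∧ vol q l + q l ≤ 7 * opt m q N ∧ 7 * mn m q l ≤ vol q l ∧
      vol p t + p t ≤ vol q l ∧ mn m p t + p t + 6 * mn m q l ≤ vol q l ∧
      mn m p t ≤ mn m q l := by
  have hm : 0 < m := mpos
  have h1 := vol_ge_one (m := m) hq h
  rw [hM] at h1
  have h2 := vol_mono hq (show t + 1 ≤ l from h)
  rw [vol_succ] at h2
  have h3 := card_mul_mn_le (m := m) q l
  have h4 := vol_le_opt (m := m) (p := q) mpos N
  rw [hM] at h3 h4
  have h5 := vol_mono hq (show l + 1 ≤ N from hlN)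
  rw [vol_succ] at h5
  have h6 := mn_mono (m := m) hq h.le
  have e1 : vol q t = vol p t := vol_congr fun k hk => hqp k (by omega)
  have e2 : mn m q t = mn m p t := mn_congr fun k hk => hqp k (by omega)
  have e3 : q t = p t := hqp t (Nat.lt_succ_self t)
  have e4 : opt m q (t + 1) = opt m p (t + 1) := opt_congr hqp
  rw [e1, e3] at h2
  rw [e2, e3] at h1
  rw [e2] at h6
  have h7 : opt m q (t + 1) ≤ opt m q N := opt_mono hm hq (by omega)
  rw [e4] at h7
  exact ⟨mn_nonneg hq l, (hq l).le, vol_nonneg hq l, opt_nonneg hm hq N, h7,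
    job_le_opt hm hq hlN, h5.trans h4, h3, h2, by linarith, h6⟩

/-- facts on an old job -/
theorem pas (hM : (m : ℝ) = 7) {p : ℕ → ℝ} (hp : ∀ i, 0 < p i) {l t : ℕ} (h : l < t) :
    0 ≤ mn m p l ∧ 0 ≤ p l ∧ 7 * mn m p l + p l ≤ vol p t ∧ p l ≤ opt m p (t + 1) ∧
      mn m p l ≤ mn m p t := by
  have h1 := mn_vol_succ (m := m) (p := p) l
  rw [hM] at h1
  exact ⟨mn_nonneg hp l, (hp l).le, h1.trans (vol_mono hp h), job_le_opt mpos hp (by omega),
    mn_mono hp h.le⟩

/-- after a job on the lowest machine, only the next such job itself can make the lowest machine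
unsafe -/
theorem alpha7 (hM : (m : ℝ) = 7) {p : ℕ → ℝ} (hp : ∀ i, 0 < p i) {s' n : ℕ} (hs : s' < n)
    {x1 x2 x3 y : ℝ} (hx : Low m p s' x1 x2 x3) (hy0 : 0 ≤ y) (hy1 : y ≤ x1 + p s')
    (hy2 : y ≤ x2) (u3 : ¬ Safe m (3 / 5) (447 / 250) (n + 1) p (y + p n)) :
    447 / 250 * opt m p (n + 1) < 3 / 5 * (mn m p n + p n) + (1 - 3 / 5) * (y + p n) := by
  obtain ⟨hx0, hx1, hx2, hxV⟩ := hx
  rw [hM] at hxV
  obtain ⟨r0, f0, Vp0, Op0, rO, VO, fV⟩ := bas hM hp s'
  obtain ⟨p0, g0, Vn0, On0, pO, nO, gV⟩ := bas hM hp n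
  obtain ⟨VV, OO2, fg, F6⟩ := stp hM hp hs
  rcases wit (by norm_num) (by norm_num) hp u3 with ⟨l, hl, w3⟩ | ⟨q, N, l, hq, hqp, hl, hlN, w3⟩
  · rcases Nat.lt_or_ge l n with h1 | h1
    · exfalso
      rcases lt_trichotomy l s' with h2 | h2 | h2
      · obtain ⟨A0, P0, AV, PO, Af⟩ := pas hM hp h2
        linarith only [hx0, hx1, hx2, hxV, hy0, hy1, hy2, w3, r0, f0, Vp0, Op0, rO, VO, fV, p0, g0,
          Vn0, On0, pO, nO, gV, VV, OO2, fg, F6, A0, P0, AV, PO, Af]
      · subst h2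
        linarith only [hx0, hx1, hx2, hxV, hy0, hy1, hy2, w3, r0, f0, Vp0, Op0, rO, VO, fV, p0, g0,
          Vn0, On0, pO, nO, gV, VV, OO2, fg, F6]
      · obtain ⟨A0, P0, AV, PO, Af⟩ := pas hM hp h1
        obtain ⟨VVl, OO2l, fgl, F6l⟩ := stp hM hp h2
        have h3 := card_mul_mn_le (m := m) p l
        rw [hM] at h3
        have h4 := vol_mono hp (show l + 1 ≤ n from h1)
        rw [vol_succ] at h4
        linarith only [hx0, hx1, hx2, hxV, hy0, hy1, hy2, w3, r0, f0, Vp0, Op0, rO, VO, fV, p0, g0,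
          Vn0, On0, pO, nO, gV, VV, OO2, fg, F6, A0, P0, AV, PO, Af, VVl, fgl, F6l, h3, h4]
    · have h2 : l = n := le_antisymm hl h1
      rw [h2] at w3
      exact w3
  · exfalso
    obtain ⟨A0, P0, V0, O0, H3O, P3O, V3O, A3V, V3V, V3F, gA⟩ := fut hM hq hqp hl hlN
    linarith only [hx0, hx1, hx2, hxV, hy0, hy1, hy2, w3, r0, f0, Vp0, Op0, rO, VO, fV, p0, g0,
      Vn0, On0, pO, nO, gV, VV, OO2, fg, F6, A0, P0, V0, O0, H3O, P3O, V3O, A3V, V3V, V3F, gA]

/-- the case of an earlier job on the second lowest machine -/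
theorem caseE3 (hM : (m : ℝ) = 7) {p : ℕ → ℝ} (hp : ∀ i, 0 < p i) {s s' n : ℕ} (hs : s < s')
    (hs' : s' < n) {z1 z2 z3 x1 x2 x3 y : ℝ} (hz : Low m p s z1 z2 z3)
    (hx : Low m p s' x1 x2 x3) (hy0 : 0 ≤ y) (hy1 : y ≤ x1 + p s') (hy2 : y ≤ x2)
    (hs1 : x1 ≤ z1) (hs2 : x2 ≤ z2 + p s) (hs3 : x2 ≤ z3)
    (u1 : ¬ Safe m (3 / 5) (447 / 250) (s + 1) p (z3 + p s))
    (u2 : ¬ Safe m (3 / 5) (447 / 250) (s' + 1) p (x2 + p s'))
    (w3 : 447 / 250 * opt m p (n + 1) < 3 / 5 * (mn m p n + p n) + (1 - 3 / 5) * (y + p n)) :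
    False := by
  have hm7 : m = 7 := by exact_mod_cast hM
  obtain ⟨hz0, hz1, hz2, hzW⟩ := hz
  obtain ⟨hx0, hx1, hx2, hxV⟩ := hx
  rw [hM] at hzW hxV
  obtain ⟨q0, e0, Ws0, Os0, qO, WO, eW⟩ := bas hM hp s
  obtain ⟨r0, f0, Vp0, Op0, rO, VO, fV⟩ := bas hM hp s'
  obtain ⟨p0, g0, Vn0, On0, pO, nO, gV⟩ := bas hM hp n
  obtain ⟨WV, OO1, ef, F7⟩ := stp hM hp hs
  obtain ⟨VV, OO2, fg, F6⟩ := stp hM hp hs'
  have F5 := vol_ge_ev2 (m := m) hp hs hs'
  rw [hM] at F5
  -- the witness for the job `s`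
  rcases wit (by norm_num) (by norm_num) hp u1 with ⟨l, hl, w1⟩ | ⟨q1, N1, l1, hq1, hqp1, hl1, hlN1, w1⟩
  · rcases Nat.lt_or_ge l s with h1 | h1
    · obtain ⟨A10, P10, A1W, P1Os, A1e⟩ := pas hM hp h1
      linarith only [hz1, hzW, WO, WV, ef, VV, F5, fg, nO, pO, hy1, hy2, hs1, hs2, hs3, w1, P1Os,
        A1e, w3, q0, r0, p0, e0, f0, g0, Ws0, hz0, hz2, hx0, hx1, hy0, A10, P10, Os0, Op0, On0,
        Vp0, Vn0]
    · have h2 : l = s := le_antisymm hl h1
      rw [h2] at w1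
      linarith only [hz1, hzW, WO, qO, WV, ef, VV, F5, nO, pO, hy1, hy2, hs1, hs3, w1, w3, q0, r0,
        p0, e0, f0, g0, Ws0, hz0, hz2, hx0, hx1, hy0, Os0, Op0, On0, Vp0, Vn0]
  obtain ⟨A10, P10, V10, O10, H1O, P1O, V1O, A1V, V1W, V1F, eA1⟩ := fut hM hq1 hqp1 hl1 hlN1
  -- the witness for the job `s'`
  have hcase2 : (447 / 250 * opt m p (s' + 1) < 3 / 5 * (mn m p s' + p s') +
      (1 - 3 / 5) * (x2 + p s')) ∨ ∃ q : ℕ → ℝ, ∃ N l, (∀ i, 0 < q i) ∧
      (∀ i < s' + 1, q i = p i) ∧ s' < l ∧ l < N ∧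
      447 / 250 * opt m q N < 3 / 5 * (mn m q l + q l) + (1 - 3 / 5) * (x2 + p s') := by
    rcases wit (by norm_num) (by norm_num) hp u2 with ⟨l, hl, w2⟩ | h2
    · rcases Nat.lt_or_ge l s' with h1 | h1
      · exfalso
        rcases lt_trichotomy l s with h2 | h2 | h2
        · obtain ⟨A20, P20, A2W, P2Os, A2e⟩ := pas hM hp h2
          linarith only [hzW, WV, rO, OO1, VO, gV, nO, pO, hy2, hs2, hs3, H1O, w1, P1O, V1O, A1V,
            w2, A2W, P2Os, w3, q0, r0, p0, e0, f0, g0, Ws0, hz0, hz1, hz2, hx0, hx1, hy0, A10, P10,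
            V10, O10, A20, P20, Os0, Op0, On0, Vp0, Vn0]
        · rw [h2] at w2
          linarith only [qO, hx2, hxV, ef, OO1, VO, F5, nO, pO, OO2, hy2, w2, w3, q0, r0, p0, e0,
            f0, g0, Ws0, hx0, hx1, hy0, Os0, Op0, On0, Vp0, Vn0]
        · obtain ⟨A20, P20, -, P2Osp, A2f⟩ := pas hM hp h1
          have V2W := vol_mono hp (show s + 1 ≤ l from h2)
          rw [vol_succ] at V2W
          have V20 := vol_nonneg hp l
          have A2V := card_mul_mn_le (m := m) p l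
          rw [hM] at A2V
          have V2P := vol_mono hp (show l + 1 ≤ s' from h1)
          rw [vol_succ] at V2P
          linarith only [hzW, rO, VO, gV, nO, pO, hy2, hs2, hs3, w2, P2Osp, V2W, A2V, V2P, w3, q0,
            r0, p0, e0, f0, g0, Ws0, hz0, hz1, hz2, hx0, hx1, hy0, A20, P20, V20, Os0, Op0, On0,
            Vp0, Vn0]
      · have h2 : l = s' := le_antisymm hl h1
        rw [h2] at w2
        exact Or.inl w2
    · exact Or.inr h2
  -- three low machines
  set κ := am (ls m p s) with hκ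
  obtain ⟨i1, hi1, hi1'⟩ := exists_min_out (T := {κ}) (by rw [Finset.card_singleton]; omega)
    (ls m p s)
  obtain ⟨i2, hi2, hi2'⟩ := exists_min_out (T := {κ, i1}) (by
    have := Finset.card_le_two (a := κ) (b := i1); omega) (ls m p s)
  obtain ⟨i3, hi3, hi3'⟩ := exists_min_out (T := {κ, i1, i2}) (by
    have := Finset.card_le_three (a := κ) (b := i1) (c := i2); omega) (ls m p s)
  simp only [Finset.mem_insert, Finset.mem_singleton, not_or] at hi1 hi1' hi2 hi2' hi3 hi3'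
  obtain ⟨hi2a, hi2b⟩ := hi2
  obtain ⟨hi3a, hi3b, hi3c⟩ := hi3
  have eL1 := mn_le (m := m) p s i1
  have L12 : ls m p s i1 ≤ ls m p s i2 := hi1' i2 hi2a
  have L23 : ls m p s i2 ≤ ls m p s i3 := hi2' i3 ⟨hi3a, hi3b⟩
  -- growth, for the sequence `p`
  have G1f := vol_grow_one (m := m) hp hs (i := i1) (Ne.symm hi1)
  have G2g := vol_grow_two_ev (m := m) hp hs hs' (Ne.symm hi2b) (Ne.symm hi1) (Ne.symm hi2a)
  rw [vol_succ] at G1f G2g
  -- growth, for the sequence `q1`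
  have e1 : vol q1 s = vol p s := vol_congr fun k hk => hqp1 k (by omega)
  have e3 : q1 s = p s := hqp1 s (Nat.lt_succ_self s)
  have e5 : ls m q1 s = ls m p s := ls_congr fun k hk => hqp1 k (by omega)
  have e6 : ls m q1 (s + 1) = ls m p (s + 1) := ls_congr hqp1
  have G1A := vol_grow_one (m := m) hq1 hl1 (i := i1) (by rw [e5]; exact Ne.symm hi1)
  have G2A := vol_grow_two (m := m) hq1 hl1 (i := i1) (j := i2) (Ne.symm hi2b)
    (by rw [e5]; exact Ne.symm hi1) (by rw [e5]; exact Ne.symm hi2a)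
  have G3A := vol_grow_three (m := m) hq1 hl1 (i := i1) (j := i2) (l := i3) (Ne.symm hi2b)
    (Ne.symm hi3b) (Ne.symm hi3c)
    (by rw [e5]; exact Ne.symm hi1) (by rw [e5]; exact Ne.symm hi2a)
    (by rw [e5]; exact Ne.symm hi3a)
  rw [vol_succ, e1, e3, e5] at G1A G2A G3A
  rcases hcase2 with w2 | ⟨q2, N2, l2, hq2, hqp2, hl2, hlN2, w2⟩
  · -- pigeonhole after the job `s'`
    have hpig := pigeon hp (N := s' + 1) (s := s) (by omega) ({κ}ᶜ : Finset (Fin m)) {s, s'}
      (by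
        intro x hx
        simp only [Finset.mem_insert, Finset.mem_singleton] at hx
        rcases hx with rfl | rfl <;> omega)
      (by
        rw [Finset.card_compl, Fintype.card_fin, Finset.card_singleton,
          Finset.card_pair (by omega)]
        omega)
    have hcol : (ls m p s i1 + ls m p s i2 ≤ opt m p (s' + 1) + 2 * mn m p s) ∨
        (ls m p s i1 + p s ≤ opt m p (s' + 1) + mn m p s) ∨
        (ls m p s i1 + p s' ≤ opt m p (s' + 1) + mn m p s) ∨
        (p s + p s' ≤ opt m p (s' + 1)) := by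
      rcases hpig with ⟨i, hi, j, hj, hij, h⟩ | ⟨i, hi, x, hx, h⟩ | ⟨x, hx, x', hx', hxx, h⟩
      · left
        simp only [Finset.mem_compl, Finset.mem_singleton] at hi hj
        by_cases h1 : i = i1
        · have h2 : ls m p s i2 ≤ ls m p s j := hi2' j ⟨hj, by rw [← h1]; exact hij.symm⟩
          rw [h1] at h
          linarith
        · have h2 : ls m p s i2 ≤ ls m p s i := hi2' i ⟨hi, h1⟩
          have h3 := hi1' j hj
          linarith
      · simp only [Finset.mem_compl, Finset.mem_insert, Finset.mem_singleton] at hi hx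
        have h3 := hi1' i hi
        rcases hx with rfl | rfl
        · right; left; linarith
        · right; right; left; linarith
      · right; right; right
        simp only [Finset.mem_insert, Finset.mem_singleton] at hx hx'
        rcases hx with rfl | rfl <;> rcases hx' with rfl | rfl
        · exact absurd rfl hxx
        · exact h
        · linarith
        · exact absurd rfl hxx
    rcases hcol with col | col | col | col
    · linarith only [hzW, L12, WV, G1f, rO, VO, G2g, F5, nO, pO, hy2, hs2, hs3, w1, P1O, V1O, G2A,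
        V1F, w2, w3, col, q0, r0, p0, e0, f0, g0, Ws0, hz0, hz1, hz2, hx0, hx1, hy0, eL1, L23, A10,
        P10, V10, O10, Os0, Op0, On0, Vp0, Vn0]
    · linarith only [hzW, G1f, rO, VO, F5, nO, pO, OO2, hy2, hs2, hs3, w1, P1O, V1O, G1A, A1V, eA1,
        w2, w3, col, q0, r0, p0, e0, f0, g0, Ws0, hz0, hz1, hz2, hx0, hx1, hy0, eL1, L12, L23, A10,
        P10, V10, O10, Os0, Op0, On0, Vp0, Vn0]
    · linarith only [hzW, G1f, VO, VV, F5, nO, pO, hy2, hs2, hs3, w1, P1O, V1O, V1W, A1V, w2, w3,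
        col, q0, r0, p0, e0, f0, g0, Ws0, hz0, hz1, hz2, hx0, hx1, hy0, eL1, L12, L23, A10, P10,
        V10, O10, Os0, Op0, On0, Vp0, Vn0]
    · linarith only [hzW, gV, fg, nO, pO, hy2, hs2, hs3, w1, P1O, V1O, V1W, A1V, w2, w3, col, q0,
        r0, p0, e0, f0, g0, Ws0, hz0, hz1, hz2, hx0, hx1, hy0, A10, P10, V10, O10, Os0, Op0, On0,
        Vp0, Vn0]
  · obtain ⟨A20, P20, V20, O20, H2O, P2O, V2O, A2V, V2V, V2F, fA2⟩ := fut hM hq2 hqp2 hl2 hlN2
    have d1 : mn m q2 s = mn m p s := mn_congr fun k hk => hqp2 k (by omega)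
    have d2 : mn m q2 s' = mn m p s' := mn_congr fun k hk => hqp2 k (by omega)
    have d3 : q2 s = p s := hqp2 s (by omega)
    have d4 : q2 s' = p s' := hqp2 s' (by omega)
    have d5 : ls m q2 s = ls m p s := ls_congr fun k hk => hqp2 k (by omega)
    have d6 : ls m q2 (s + 1) = ls m p (s + 1) := ls_congr fun k hk => hqp2 k (by omega)
    have F5b := vol_ge_ev2 (m := m) hq2 hs hl2
    rw [hM, d1, d2, d3, d4] at F5b
    -- the loads after job `s`
    have hk : ls m p (s + 1) κ = mn m p s + p s := ls_step_am p s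
    have hnk : ∀ j, j ≠ κ → ls m p (s + 1) j = ls m p s j := fun j hj =>
      ls_step_ne p s (Ne.symm hj)
    rcases le_total (mn m p s + p s) (ls m p s i1) with eqL1 | L1eq
    · have eqf : mn m p s + p s ≤ mn m p s' := le_mn_of_forall hp hs fun j => by
        by_cases hj : j = κ
        · rw [hj, hk]
        · rw [hnk j hj]
          exact eqL1.trans (hi1' j hj)
      linarith only [hzW, WV, rO, gV, nO, pO, hy2, hs2, hs3, w1, P1O, V1O, V1W, A1V, H2O, w2, P2O,
        V2O, V2V, V2F, w3, eqf, q0, r0, p0, e0, f0, g0, Ws0, hz0, hz1, hz2, hx0, hx1, hy0, A10,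
        P10, V10, O10, A20, P20, V20, O20, Os0, Op0, On0, Vp0, Vn0]
    have hall : ∀ j : Fin m, ls m p s i1 ≤ ls m p (s + 1) j := fun j => by
      by_cases hj : j = κ
      · rw [hj, hk]
        exact L1eq
      · rw [hnk j hj]
        exact hi1' j hj
    have L1f : ls m p s i1 ≤ mn m p s' := le_mn_of_forall hp hs hall
    have L1A1 : ls m p s i1 ≤ mn m q1 l1 := le_mn_of_forall hq1 hl1 (by rw [e6]; exact hall)
    -- pigeonhole after the job `l2`
    have hpig := pigeon hq2 (N := N2) (s := s) (by omega) ({κ, i1}ᶜ : Finset (Fin m)) {s, s', l2}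
      (by
        intro x hx
        simp only [Finset.mem_insert, Finset.mem_singleton] at hx
        rcases hx with rfl | rfl | rfl <;> omega)
      (by
        rw [Finset.card_compl, Fintype.card_fin, Finset.card_pair (Ne.symm hi1),
          Finset.card_eq_three.2 ⟨s, s', l2, by omega, by omega, by omega, rfl⟩]
        omega)
    have hcol : (ls m p s i2 + ls m p s i3 ≤ opt m q2 N2 + 2 * mn m p s) ∨
        (ls m p s i2 + p s ≤ opt m q2 N2 + mn m p s) ∨
        (ls m p s i2 + p s' ≤ opt m q2 N2 + mn m p s) ∨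
        (ls m p s i2 + q2 l2 ≤ opt m q2 N2 + mn m p s) ∨
        (p s + p s' ≤ opt m q2 N2) ∨ (p s + q2 l2 ≤ opt m q2 N2) ∨
        (p s' + q2 l2 ≤ opt m q2 N2) := by
      rw [d5, d1] at hpig
      rcases hpig with ⟨i, hi, j, hj, hij, h⟩ | ⟨i, hi, x, hx, h⟩ | ⟨x, hx, x', hx', hxx, h⟩
      · left
        simp only [Finset.mem_compl, Finset.mem_insert, Finset.mem_singleton, not_or] at hi hj
        by_cases h1 : i = i2
        · have h2 : ls m p s i3 ≤ ls m p s j :=
            hi3' j ⟨hj.1, hj.2, by rw [← h1]; exact hij.symm⟩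
          rw [h1] at h
          linarith
        · have h2 : ls m p s i3 ≤ ls m p s i := hi3' i ⟨hi.1, hi.2, h1⟩
          have h3 := hi2' j hj
          linarith
      · simp only [Finset.mem_compl, Finset.mem_insert, Finset.mem_singleton, not_or] at hi hx
        have h3 := hi2' i hi
        rcases hx with rfl | rfl | rfl
        · rw [d3] at h
          right; left; linarith
        · rw [d4] at h
          right; right; left; linarith
        · right; right; right; left; linarith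
      · right; right; right; right
        simp only [Finset.mem_insert, Finset.mem_singleton] at hx hx'
        rcases hx with rfl | rfl | rfl <;> rcases hx' with rfl | rfl | rfl
        · exact absurd rfl hxx
        · rw [d3, d4] at h; left; linarith
        · rw [d3] at h; right; left; linarith
        · rw [d3, d4] at h; left; linarith
        · exact absurd rfl hxx
        · rw [d4] at h; right; right; linarith
        · rw [d3] at h; right; left; linarith
        · rw [d4] at h; right; right; linarith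
        · exact absurd rfl hxx
    rcases le_total (mn m p s + p s) (ls m p s i2) with eqL2 | L2eq
    · -- the second smallest load after job `s` is `e + q`
      have htwo : ∀ j k : Fin m, j ≠ k → mn m p s + p s ≤ ls m q2 (s + 1) j ∨
          mn m p s + p s ≤ ls m q2 (s + 1) k := by
        intro j k hjk
        rw [d6]
        have hone : ∀ j : Fin m, j ≠ i1 → mn m p s + p s ≤ ls m p (s + 1) j := fun j hj => by
          by_cases hj' : j = κ
          · rw [hj', hk]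
          · rw [hnk j hj']
            exact eqL2.trans (hi2' j ⟨hj', hj⟩)
        by_cases hj : j = i1
        · exact Or.inr (hone k (by rw [← hj]; exact hjk.symm))
        · exact Or.inl (hone j hj)
      rcases le_total (mn m p s + p s) (mn m p s' + p s') with hrb | hrb
      · have eqA2 : mn m p s + p s ≤ mn m q2 l2 :=
          le_mn_of_two hq2 hs hl2 htwo le_rfl (by rw [d2, d4]; exact hrb)
        rcases hcol with col | col | col | col | col | col | col
        · linarith only [hzW, L23, rO, gV, nO, pO, hy2, hs3, w1, P1O, V1O, G1A, A1V, H2O, w2, P2O,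
            V2O, V2F, w3, eqL2, L1f, L1A1, col, q0, r0, p0, e0, f0, g0, Ws0, hz0, hz1, hz2, hx0,
            hx1, hy0, eL1, L12, A10, P10, V10, O10, A20, P20, V20, O20, Os0, Op0, On0, Vp0, Vn0]
        · linarith only [hzW, rO, gV, nO, pO, hy2, hs3, w1, P1O, V1O, G1A, A1V, H2O, w2, P2O, V2O,
            V2F, w3, eqL2, L1f, L1A1, col, q0, r0, p0, e0, f0, g0, Ws0, hz0, hz1, hz2, hx0, hx1,
            hy0, eL1, L12, L23, A10, P10, V10, O10, A20, P20, V20, O20, Os0, Op0, On0, Vp0, Vn0]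
        · linarith only [hzW, gV, nO, pO, hy2, hs3, w1, P1O, V1O, V1W, A1V, w2, P2O, V2O, A2V, w3,
            eqL2, eqA2, col, q0, r0, p0, e0, f0, g0, Ws0, hz0, hz1, hz2, hx0, hx1, hy0, eL1, L12,
            L23, A10, P10, V10, O10, A20, P20, V20, O20, Os0, Op0, On0, Vp0, Vn0]
        · linarith only [hzW, rO, gV, nO, pO, hy2, hs3, w1, P1O, V1O, V1W, A1V, H2O, w2, V2O, A2V,
            w3, eqL2, col, q0, r0, p0, e0, f0, g0, Ws0, hz0, hz1, hz2, hx0, hx1, hy0, eL1, L12,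
            L23, A10, P10, V10, O10, A20, P20, V20, O20, Os0, Op0, On0, Vp0, Vn0]
        · linarith only [hzW, gV, nO, pO, hy2, hs3, w1, P1O, V1O, V1W, A1V, w2, P2O, V2O, A2V, w3,
            eqA2, col, q0, r0, p0, e0, f0, g0, Ws0, hz0, hz1, hz2, hx0, hx1, hy0, A10, P10, V10,
            O10, A20, P20, V20, O20, Os0, Op0, On0, Vp0, Vn0]
        · linarith only [hzW, rO, gV, nO, pO, hy2, hs3, w1, P1O, V1O, V1W, A1V, H2O, w2, V2O, A2V,
            w3, col, q0, r0, p0, e0, f0, g0, Ws0, hz0, hz1, hz2, hx0, hx1, hy0, A10, P10, V10, O10,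
            A20, P20, V20, O20, Os0, Op0, On0, Vp0, Vn0]
        · linarith only [hx2, hxV, gV, nO, pO, hy2, w2, V2O, A2V, V2V, w3, col, q0, r0, p0, e0, f0,
            g0, Ws0, hx0, hx1, hy0, A10, P10, V10, O10, A20, P20, V20, O20, Os0, Op0, On0, Vp0,
            Vn0]
      · have frA2 : mn m p s' + p s' ≤ mn m q2 l2 :=
          le_mn_of_two hq2 hs hl2 htwo hrb (by rw [d2, d4])
        rcases hcol with col | col | col | col | col | col | col
        · linarith only [hzW, L23, gV, nO, pO, hy2, hs2, hs3, w1, P1O, V1O, V1W, A1V, w2, P2O, V2O,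
            A2V, w3, eqL2, frA2, col, q0, r0, p0, e0, f0, g0, Ws0, hz0, hz1, hz2, hx0, hx1, hy0,
            eL1, L12, A10, P10, V10, O10, A20, P20, V20, O20, Os0, Op0, On0, Vp0, Vn0]
        · linarith only [hzW, gV, nO, pO, hy2, hs2, hs3, w1, P1O, V1O, V1W, A1V, w2, P2O, V2O, A2V,
            w3, eqL2, frA2, col, q0, r0, p0, e0, f0, g0, Ws0, hz0, hz1, hz2, hx0, hx1, hy0, eL1,
            L12, L23, A10, P10, V10, O10, A20, P20, V20, O20, Os0, Op0, On0, Vp0, Vn0]
        · linarith only [hzW, gV, nO, pO, hy2, hs2, hs3, w1, P1O, V1O, V1W, A1V, w2, P2O, V2O, A2V,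
            w3, eqL2, col, q0, r0, p0, e0, f0, g0, Ws0, hz0, hz1, hz2, hx0, hx1, hy0, eL1, L12,
            L23, A10, P10, V10, O10, A20, P20, V20, O20, Os0, Op0, On0, Vp0, Vn0]
        · linarith only [hzW, rO, gV, nO, pO, hy2, hs3, w1, P1O, V1O, V1W, A1V, H2O, w2, V2O, A2V,
            w3, eqL2, col, q0, r0, p0, e0, f0, g0, Ws0, hz0, hz1, hz2, hx0, hx1, hy0, eL1, L12,
            L23, A10, P10, V10, O10, A20, P20, V20, O20, Os0, Op0, On0, Vp0, Vn0]
        · linarith only [hzW, gV, nO, pO, hy2, hs2, hs3, w1, P1O, V1O, V1W, A1V, w2, P2O, V2O, A2V,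
            w3, col, q0, r0, p0, e0, f0, g0, Ws0, hz0, hz1, hz2, hx0, hx1, hy0, A10, P10, V10, O10,
            A20, P20, V20, O20, Os0, Op0, On0, Vp0, Vn0]
        · linarith only [hzW, rO, gV, nO, pO, hy2, hs3, w1, P1O, V1O, V1W, A1V, H2O, w2, V2O, A2V,
            w3, col, q0, r0, p0, e0, f0, g0, Ws0, hz0, hz1, hz2, hx0, hx1, hy0, A10, P10, V10, O10,
            A20, P20, V20, O20, Os0, Op0, On0, Vp0, Vn0]
        · linarith only [hx2, hxV, gV, nO, pO, hy2, w2, V2O, A2V, V2V, w3, col, q0, r0, p0, e0, f0,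
            g0, Ws0, hx0, hx1, hy0, A10, P10, V10, O10, A20, P20, V20, O20, Os0, Op0, On0, Vp0,
            Vn0]
    · -- the second smallest load after job `s` is `L2`
      have htwo : ∀ j k : Fin m, j ≠ k → ls m p s i2 ≤ ls m q2 (s + 1) j ∨
          ls m p s i2 ≤ ls m q2 (s + 1) k := by
        intro j k hjk
        rw [d6]
        have hone : ∀ j : Fin m, j ≠ i1 → ls m p s i2 ≤ ls m p (s + 1) j := fun j hj => by
          by_cases hj' : j = κ
          · rw [hj', hk]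
            exact L2eq
          · rw [hnk j hj']
            exact hi2' j ⟨hj', hj⟩
        by_cases hj : j = i1
        · exact Or.inr (hone k (by rw [← hj]; exact hjk.symm))
        · exact Or.inl (hone j hj)
      rcases le_total (ls m p s i2) (mn m p s' + p s') with hrb | hrb
      · have L2A2 : ls m p s i2 ≤ mn m q2 l2 :=
          le_mn_of_two hq2 hs hl2 htwo le_rfl (by rw [d2, d4]; exact hrb)
        rcases hcol with col | col | col | col | col | col | col
        · linarith only [hzW, WV, ef, rO, gV, nO, pO, hy2, hs2, hs3, w1, P1O, V1O, G3A, A1V, H2O,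
            w2, P2O, V2O, V2V, F5b, w3, L1f, col, q0, r0, p0, e0, f0, g0, Ws0, hz0, hz1, hz2, hx0,
            hx1, hy0, eL1, L12, L23, A10, P10, V10, O10, A20, P20, V20, O20, Os0, Op0, On0, Vp0,
            Vn0]
        · linarith only [hzW, rO, gV, nO, pO, hy2, hs3, w1, P1O, V1O, G2A, A1V, H2O, w2, P2O, V2O,
            F5b, fA2, w3, L1f, L1A1, L2A2, col, q0, r0, p0, e0, f0, g0, Ws0, hz0, hz1, hz2, hx0,
            hx1, hy0, eL1, L12, L23, A10, P10, V10, O10, A20, P20, V20, O20, Os0, Op0, On0, Vp0,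
            Vn0]
        · linarith only [hzW, qO, rO, OO1, gV, nO, pO, hy2, hs3, w1, P1O, V1O, G2A, A1V, H2O, w2,
            P2O, V2O, F5b, fA2, w3, L1f, L2A2, col, q0, r0, p0, e0, f0, g0, Ws0, hz0, hz1, hz2,
            hx0, hx1, hy0, eL1, L12, L23, A10, P10, V10, O10, A20, P20, V20, O20, Os0, Op0, On0,
            Vp0, Vn0]
        · linarith only [hzW, qO, rO, OO1, gV, nO, pO, hy2, hs3, w1, P1O, V1O, G2A, A1V, H2O, w2,
            P2O, V2O, F5b, fA2, w3, L1f, L2A2, col, q0, r0, p0, e0, f0, g0, Ws0, hz0, hz1, hz2,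
            hx0, hx1, hy0, eL1, L12, L23, A10, P10, V10, O10, A20, P20, V20, O20, Os0, Op0, On0,
            Vp0, Vn0]
        · linarith only [hzW, gV, nO, pO, hy2, hs2, hs3, w1, P1O, V1O, V1W, A1V, w2, P2O, V2O, A2V,
            w3, col, q0, r0, p0, e0, f0, g0, Ws0, hz0, hz1, hz2, hx0, hx1, hy0, A10, P10, V10, O10,
            A20, P20, V20, O20, Os0, Op0, On0, Vp0, Vn0]
        · linarith only [hzW, rO, gV, nO, pO, hy2, hs3, w1, P1O, V1O, V1W, A1V, H2O, w2, V2O, A2V,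
            w3, col, q0, r0, p0, e0, f0, g0, Ws0, hz0, hz1, hz2, hx0, hx1, hy0, A10, P10, V10, O10,
            A20, P20, V20, O20, Os0, Op0, On0, Vp0, Vn0]
        · linarith only [hx2, hxV, gV, nO, pO, hy2, w2, V2O, A2V, V2V, w3, col, q0, r0, p0, e0, f0,
            g0, Ws0, hx0, hx1, hy0, A10, P10, V10, O10, A20, P20, V20, O20, Os0, Op0, On0, Vp0,
            Vn0]
      · have frA2 : mn m p s' + p s' ≤ mn m q2 l2 :=
          le_mn_of_two hq2 hs hl2 htwo hrb (by rw [d2, d4])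
        rcases hcol with col | col | col | col | col | col | col
        · linarith only [hzW, L23, qO, ef, OO1, gV, nO, pO, hy2, hs3, w1, P1O, V1O, G2A, V1F, H2O,
            w2, P2O, V2O, A2V, w3, L1f, frA2, col, q0, r0, p0, e0, f0, g0, Ws0, hz0, hz1, hz2, hx0,
            hx1, hy0, eL1, L12, A10, P10, V10, O10, A20, P20, V20, O20, Os0, Op0, On0, Vp0, Vn0]
        · linarith only [hzW, ef, gV, nO, pO, hy2, hs3, w1, P1O, V1O, G2A, A1V, w2, P2O, V2O, A2V,
            w3, L1f, frA2, col, q0, r0, p0, e0, f0, g0, Ws0, hz0, hz1, hz2, hx0, hx1, hy0, eL1,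
            L12, L23, A10, P10, V10, O10, A20, P20, V20, O20, Os0, Op0, On0, Vp0, Vn0]
        · linarith only [hzW, qO, ef, OO1, gV, nO, pO, hy2, hs2, hs3, w1, P1O, V1O, G2A, A1V, H2O,
            w2, P2O, V2O, A2V, w3, L1f, frA2, col, q0, r0, p0, e0, f0, g0, Ws0, hz0, hz1, hz2, hx0,
            hx1, hy0, eL1, L12, L23, A10, P10, V10, O10, A20, P20, V20, O20, Os0, Op0, On0, Vp0,
            Vn0]
        · linarith only [hzW, qO, ef, OO1, gV, nO, pO, hy2, hs3, w1, P1O, V1O, G2A, A1V, H2O, w2,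
            P2O, V2O, A2V, w3, L1f, frA2, col, q0, r0, p0, e0, f0, g0, Ws0, hz0, hz1, hz2, hx0,
            hx1, hy0, eL1, L12, L23, A10, P10, V10, O10, A20, P20, V20, O20, Os0, Op0, On0, Vp0,
            Vn0]
        · linarith only [hzW, gV, nO, pO, hy2, hs2, hs3, w1, P1O, V1O, V1W, A1V, w2, P2O, V2O, A2V,
            w3, col, q0, r0, p0, e0, f0, g0, Ws0, hz0, hz1, hz2, hx0, hx1, hy0, A10, P10, V10, O10,
            A20, P20, V20, O20, Os0, Op0, On0, Vp0, Vn0]
        · linarith only [hzW, rO, gV, nO, pO, hy2, hs3, w1, P1O, V1O, V1W, A1V, H2O, w2, V2O, A2V,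
            w3, col, q0, r0, p0, e0, f0, g0, Ws0, hz0, hz1, hz2, hx0, hx1, hy0, A10, P10, V10, O10,
            A20, P20, V20, O20, Os0, Op0, On0, Vp0, Vn0]
        · linarith only [hx2, hxV, gV, nO, pO, hy2, w2, V2O, A2V, V2V, w3, col, q0, r0, p0, e0, f0,
            g0, Ws0, hx0, hx1, hy0, A10, P10, V10, O10, A20, P20, V20, O20, Os0, Op0, On0, Vp0,
            Vn0]

/-- the case of an earlier job on the lowest machine -/
theorem caseE2 (hM : (m : ℝ) = 7) {p : ℕ → ℝ} (hp : ∀ i, 0 < p i) {s s' n : ℕ} (hs : s < s')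
    (hs' : s' < n) {z1 z2 z3 x1 x2 x3 y : ℝ} (hz : Low m p s z1 z2 z3)
    (hx : Low m p s' x1 x2 x3) (hy0 : 0 ≤ y) (hy1 : y ≤ x1 + p s') (hy2 : y ≤ x2)
    (hs4 : x1 + x2 ≤ z1 + p s + z2) (hs3 : x2 ≤ z3)
    (u1 : ¬ Safe m (3 / 5) (447 / 250) (s + 1) p (z2 + p s))
    (u2 : ¬ Safe m (3 / 5) (447 / 250) (s' + 1) p (x2 + p s'))
    (w3 : 447 / 250 * opt m p (n + 1) < 3 / 5 * (mn m p n + p n) + (1 - 3 / 5) * (y + p n)) :
    False := by
  obtain ⟨hz0, hz1, hz2, hzW⟩ := hz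
  obtain ⟨hx0, hx1, hx2, hxV⟩ := hx
  rw [hM] at hzW hxV
  obtain ⟨q0, e0, Ws0, Os0, qO, WO, eW⟩ := bas hM hp s
  obtain ⟨r0, f0, Vp0, Op0, rO, VO, fV⟩ := bas hM hp s'
  obtain ⟨p0, g0, Vn0, On0, pO, nO, gV⟩ := bas hM hp n
  obtain ⟨WV, OO1, ef, F7⟩ := stp hM hp hs
  obtain ⟨VV, OO2, fg, F6⟩ := stp hM hp hs'
  have F5 := vol_ge_ev2 (m := m) hp hs hs'
  rw [hM] at F5
  -- the witness for the job `s'`
  rcases wit (by norm_num) (by norm_num) hp u2 with ⟨l, hl, w2⟩ | ⟨q2, N2, l2, hq2, hqp2, hl2, hlN2, w2⟩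
  · rcases Nat.lt_or_ge l s' with h1 | h1
    · rcases lt_trichotomy l s with h2 | h2 | h2
      · obtain ⟨A20, P20, A2W, P2Os, A2e⟩ := pas hM hp h2
        rcases wit (by norm_num) (by norm_num) hp u1 with
          ⟨k, hk, w1⟩ | ⟨q1, N1, l1, hq1, hqp1, hl1, hlN1, w1⟩
        · rcases Nat.lt_or_ge k s with h3 | h3
          · obtain ⟨A10, P10, A1W, P1Os, A1e⟩ := pas hM hp h3
            linarith only [hz2, hzW, WV, F7, ef, rO, VO, gV, nO, pO, hy2, hs3, w1, P1Os, A1e, w2,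
              P2Os, A2e, w3, q0, r0, p0, e0, f0, g0, Ws0, hz0, hz1, hx0, hx1, hy0, A10, P10, A20,
              P20, Os0, Op0, On0, Vp0, Vn0]
          · rw [le_antisymm hk h3] at w1
            linarith only [hzW, WV, F7, ef, rO, OO1, VO, gV, nO, pO, hy2, hs3, w1, w2, P2Os, A2e,
              w3, q0, r0, p0, e0, f0, g0, Ws0, hz0, hz1, hz2, hx0, hx1, hy0, A20, P20, Os0, Op0,
              On0, Vp0, Vn0]
        · obtain ⟨A10, P10, V10, O10, H1O, P1O, V1O, A1V, V1W, V1F, eA1⟩ :=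
            fut hM hq1 hqp1 hl1 hlN1
          linarith only [hz2, hzW, qO, rO, OO1, gV, nO, pO, hy2, hs3, w1, P1O, V1O, V1W, V1F, eA1,
            w2, P2Os, A2e, w3, q0, r0, p0, e0, f0, g0, Ws0, hz0, hz1, hx0, hx1, hy0, A10, P10, V10,
            O10, A20, P20, Os0, Op0, On0, Vp0, Vn0]
      · rw [h2] at w2
        linarith only [qO, hx2, hxV, ef, OO1, VO, F5, nO, pO, OO2, hy2, w2, w3, q0, r0, p0, e0, f0,
          g0, Ws0, hx0, hx1, hy0, Os0, Op0, On0, Vp0, Vn0]
      · obtain ⟨A20, P20, -, P2Osp, A2f⟩ := pas hM hp h1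
        have V2W := vol_mono hp (show s + 1 ≤ l from h2)
        rw [vol_succ] at V2W
        have V20 := vol_nonneg hp l
        have A2V := card_mul_mn_le (m := m) p l
        rw [hM] at A2V
        have V2P := vol_mono hp (show l + 1 ≤ s' from h1)
        rw [vol_succ] at V2P
        linarith only [hzW, rO, VO, gV, nO, pO, hy2, hs4, hs3, w2, P2Osp, V2W, A2V, V2P, w3, q0,
          r0, p0, e0, f0, g0, Ws0, hz0, hz1, hz2, hx0, hx1, hy0, A20, P20, V20, Os0, Op0, On0, Vp0,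
          Vn0]
    · rw [le_antisymm hl h1] at w2
      rcases wit (by norm_num) (by norm_num) hp u1 with
        ⟨k, hk, w1⟩ | ⟨q1, N1, l1, hq1, hqp1, hl1, hlN1, w1⟩
      · rcases Nat.lt_or_ge k s with h3 | h3
        · obtain ⟨A10, P10, A1W, P1Os, A1e⟩ := pas hM hp h3
          linarith only [hzW, WO, WV, ef, VO, VV, F6, fg, nO, pO, hy2, hs3, w1, P1Os, A1e, w2, w3,
            q0, r0, p0, e0, f0, g0, Ws0, hz0, hz1, hz2, hx0, hx1, hy0, A10, P10, Os0, Op0, On0,
            Vp0, Vn0]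
        · rw [le_antisymm hk h3] at w1
          linarith only [hzW, WO, qO, WV, ef, VO, VV, F6, fg, nO, pO, hy2, hs3, w1, w2, w3, q0, r0,
            p0, e0, f0, g0, Ws0, hz0, hz1, hz2, hx0, hx1, hy0, Os0, Op0, On0, Vp0, Vn0]
      · obtain ⟨A10, P10, V10, O10, H1O, P1O, V1O, A1V, V1W, V1F, eA1⟩ :=
          fut hM hq1 hqp1 hl1 hlN1
        linarith only [hz2, hzW, qO, WV, rO, OO1, VV, F6, nO, pO, hy2, hs3, w1, P1O, V1O, V1W, A1V,
          w2, w3, q0, r0, p0, e0, f0, g0, Ws0, hz0, hz1, hx0, hx1, hy0, A10, P10, V10, O10, Os0,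
          Op0, On0, Vp0, Vn0]
  · obtain ⟨A20, P20, V20, O20, H2O, P2O, V2O, A2V, V2V, V2F, fA2⟩ := fut hM hq2 hqp2 hl2 hlN2
    rcases wit (by norm_num) (by norm_num) hp u1 with
      ⟨k, hk, w1⟩ | ⟨q1, N1, l1, hq1, hqp1, hl1, hlN1, w1⟩
    · rcases Nat.lt_or_ge k s with h3 | h3
      · obtain ⟨A10, P10, A1W, P1Os, A1e⟩ := pas hM hp h3
        linarith only [hzW, WO, WV, ef, rO, gV, nO, pO, hy2, hs3, w1, P1Os, A1e, H2O, w2, P2O, V2O,
          V2V, V2F, w3, q0, r0, p0, e0, f0, g0, Ws0, hz0, hz1, hz2, hx0, hx1, hy0, A10, P10, A20,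
          P20, V20, O20, Os0, Op0, On0, Vp0, Vn0]
      · rw [le_antisymm hk h3] at w1
        linarith only [hzW, WO, qO, WV, ef, rO, gV, nO, pO, hy2, hs3, w1, H2O, w2, P2O, V2O, V2V,
          V2F, w3, q0, r0, p0, e0, f0, g0, Ws0, hz0, hz1, hz2, hx0, hx1, hy0, A20, P20, V20, O20,
          Os0, Op0, On0, Vp0, Vn0]
    · obtain ⟨A10, P10, V10, O10, H1O, P1O, V1O, A1V, V1W, V1F, eA1⟩ :=
        fut hM hq1 hqp1 hl1 hlN1
      linarith only [hzW, WV, rO, gV, nO, pO, hy2, hs3, w1, P1O, V1O, V1W, A1V, H2O, w2, P2O, V2O,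
        V2V, V2F, w3, q0, r0, p0, e0, f0, g0, Ws0, hz0, hz1, hz2, hx0, hx1, hy0, A10, P10, V10,
        O10, A20, P20, V20, O20, Os0, Op0, On0, Vp0, Vn0]

end Pool.Agent.Lib_MP_25a3c1_mix
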