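import Pool.Agent.Lib_MP_25a3c1_mix.Grow8

/-!
The key estimates for `m = 8`, `lam = 23 / 40` and `R = 721 / 400`.
-/

set_option linter.unusedVariables false

namespace Pool.Agent.Lib_MP_25a3c1_mix

open Pool.Agent.Lib_MP_25a3c1 Finset

variable {m : ℕ} [NeZero m]

theorem case8_21 (hM : (m : ℝ) = 8) {p : ℕ → ℝ} (hp : ∀ i, 0 < p i) {s3 s2 s1 n : ℕ}
    (h32 : s3 < s2) (h21 : s2 < s1) (h10 : s1 < n) {w1 w2 w3 w4 z1 z2 z3 x1 x2 y : ℝ}
    (hw : B48 p s3 w1 w2 w3 w4) (hz : B38 p s2 z1 z2 z3) (hx : B28 p s1 x1 x2)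
    (nn_y : 0 ≤ y) (yx1 : y ≤ x1 + p s1) (yx2 : y ≤ x2)
    (t3 : T328 w1 w2 w3 w4 z1 z2 z3 (p s3)) (t2 : T218 z1 z2 z3 x1 x2 (p s2))
    (u3 : ¬ Safe m (23 / 40) (721 / 400) (s3 + 1) p (w3 + p s3))
    (u2 : ¬ Safe m (23 / 40) (721 / 400) (s2 + 1) p (z2 + p s2))
    (u1 : ¬ Safe m (23 / 40) (721 / 400) (s1 + 1) p (x2 + p s1))
    (h0 : (721 / 400 * opt m p (n + 1) < 23 / 40 * (mn m p n + p n) + (1 - 23 / 40) * (y + p n)) ∨
      ∃ q : ℕ → ℝ, ∃ N l, (∀ i, 0 < q i) ∧ (∀ i < n + 1, q i = p i) ∧ n < l ∧ l < N ∧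
      721 / 400 * opt m q N < 23 / 40 * (mn m q l + q l) + (1 - 23 / 40) * (y + p n)) :
    False := by
  obtain ⟨nn_r3, nn_e3, nn_V3, nn_O3, r3O, V3O, e3V⟩ := bas8 hM hp s3
  obtain ⟨nn_r2, nn_e2, nn_V2, nn_O2, r2O, V2O, e2V⟩ := bas8 hM hp s2
  obtain ⟨nn_r1, nn_e1, nn_V1, nn_O1, r1O, V1O, e1V⟩ := bas8 hM hp s1
  obtain ⟨nn_r0, nn_e0, nn_V0, nn_O0, r0O, V0O, e0V⟩ := bas8 hM hp n
  obtain ⟨V3V2, O3O2, e3e2⟩ := stp8 hM hp h32
  obtain ⟨V2V1, O2O1, e2e1⟩ := stp8 hM hp h21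
  obtain ⟨V1V0, O1O0, e1e0⟩ := stp8 hM hp h10
  have O0pos : 0 < opt m p (n + 1) := (hp n).trans_le r0O
  obtain ⟨κ, i1, i2, i3, i4, hmach⟩ := exists_mach8 hM p s3
  obtain ⟨eL1, L12, L23, L34, Lsum, nn_L1, nn_L2, nn_L3, nn_L4⟩ := hmach.facts hM hp
  obtain ⟨nn_w1, nn_w2, nn_w3, nn_w4, w12, w23, w34, wV⟩ := hw
  obtain ⟨nn_z1, nn_z2, nn_z3, z12, z23, zV⟩ := hz
  obtain ⟨nn_x1, nn_x2, x12, xV⟩ := hx
  obtain ⟨zw_1_a, zw_2_b, zw_2_c, zw_3_b, zw_3_s⟩ := t3
  obtain ⟨xz_1_b, xz_1_c, xz_2_b, xz_2_s⟩ := t2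
  rcases h0 with w_0 | ⟨q0, N0, l0, hq0, hqp0, hl0, hlN0, w_0⟩
  · rcases wit38 (by norm_num) (by norm_num) hp h32 h21 u1 with ⟨l1, g1, w_1⟩ | w_1 | ⟨l1, g1,
        gg1, w_1⟩ | w_1 | ⟨l1, g1, gg1, w_1⟩ | w_1 | ⟨q1, N1, l1, hq1, hqp1, hl1, hlN1, w_1⟩
    · obtain ⟨nn_A1, nn_P1, p1_V, p1_O, p1_e⟩ := pas8 hM hp g1
      rcases wit28 (by norm_num) (by norm_num) hp h32 u2 with ⟨l2, g2, w_2⟩ | w_2 | ⟨l2, g2, gg2,
          w_2⟩ | w_2 | ⟨q2, N2, l2, hq2, hqp2, hl2, hlN2, w_2⟩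
      · obtain ⟨nn_A2, nn_P2, p2_V, p2_O, p2_e⟩ := pas8 hM hp g2
        have vg_t1_0_2_0 := cg8_0_0_1 hmach (q := p) hp (t0 := s2) (l := s1) (fun _ _ => rfl) (by
            omega) h21 (a1 := s2) (by omega) (by omega)
        have vf_t0_1 := cv18 hM (p := p) (q := p) hp (t0 := s1) (l := n) (fun _ _ => rfl) h10 (a1
            := s1) (by omega)
        linarith only [V3V2, O3O2, e3e2, V2O, V2V1, r1O, V1O, r0O, V0O, vg_t1_0_2_0, vf_t0_1,
          z23, zV, xz_2_b, yx2, w_2, p2_V, p2_O, w_1, p1_V, p1_O, p1_e, w_0, nn_r3, nn_z1, O0pos]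
      · have vg_t1_0_2_0 := cg8_0_0_1 hmach (q := p) hp (t0 := s2) (l := s1) (fun _ _ => rfl) (by
            omega) h21 (a1 := s2) (by omega) (by omega)
        have vf_t0_1 := cv18 hM (p := p) (q := p) hp (t0 := s1) (l := n) (fun _ _ => rfl) h10 (a1
            := s1) (by omega)
        have vf_t0_31 := cv28 hM (p := p) (q := p) hp (t0 := s1) (l := n) (fun _ _ => rfl) h10 (a1
            := s3) (a2 := s1) (by omega) (by omega)
        linarith only [r3O, e3V, O3O2, e3e2, V2O, V2V1, e2e1, V1O, r0O, V0O, vg_t1_0_2_0,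
          vf_t0_1, vf_t0_31, z23, zV, xz_2_b, yx2, w_2, w_1, p1_V, p1_O, w_0, nn_z1, O0pos]
      · obtain ⟨nn_A2, nn_P2, nn_U2, m2_P, m2_e, m2_f, m2_V, m2_W⟩ := mid8 hM hp g2 gg2
        have vf_t0_1 := cv18 hM (p := p) (q := p) hp (t0 := s1) (l := n) (fun _ _ => rfl) h10 (a1
            := s1) (by omega)
        have vf_m2_ := cv08 hM (p := p) (q := p) hp (t0 := s3) (l := l2) (fun _ _ => rfl) g2
        linarith only [O3O2, V2O, V2V1, e2e1, r1O, V1O, r0O, V0O, vf_t0_1, w34, wV, zw_2_b,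
          zw_3_b, zw_3_s, xz_2_b, yx2, w_2, m2_P, m2_f, m2_V, m2_W, vf_m2_, w_1, p1_V, p1_O, w_0,
          nn_r3, nn_z1, O0pos]
      · have vg_t1_0_2_0 := cg8_0_0_1 hmach (q := p) hp (t0 := s2) (l := s1) (fun _ _ => rfl) (by
            omega) h21 (a1 := s2) (by omega) (by omega)
        have vf_t0_1 := cv18 hM (p := p) (q := p) hp (t0 := s1) (l := n) (fun _ _ => rfl) h10 (a1
            := s1) (by omega)
        have vf_t0_21 := cv28 hM (p := p) (q := p) hp (t0 := s1) (l := n) (fun _ _ => rfl) h10 (a1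
            := s2) (a2 := s1) (by omega) (by omega)
        linarith only [O3O2, r2O, V2O, V2V1, e2e1, r1O, V1O, r0O, V0O, vg_t1_0_2_0, vf_t0_1,
          vf_t0_21, zV, xz_2_b, yx2, w_2, w_1, p1_V, p1_O, w_0, nn_r3, nn_z1, O0pos]
      · obtain ⟨nn_A2, nn_P2, nn_U2, nn_Q2, q2_O, q2_P, q2_U, q2_V, q2_e⟩ := fut8 hM hq2 hqp2 hl2
            hlN2
        have vg_t1_0_2_0 := cg8_0_0_1 hmach (q := p) hp (t0 := s2) (l := s1) (fun _ _ => rfl) (by
            omega) h21 (a1 := s2) (by omega) (by omega)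
        have vf_t0_21 := cv28 hM (p := p) (q := p) hp (t0 := s1) (l := n) (fun _ _ => rfl) h10 (a1
            := s2) (a2 := s1) (by omega) (by omega)
        have vf_q2_2 := cv18 hM (p := p) (q := q2) hq2 (t0 := s2) (l := l2) hqp2 hl2 (a1 := s2)
            (by omega)
        linarith only [O3O2, e3e2, V2V1, e2e1, V1O, V1V0, r0O, V0O, vg_t1_0_2_0, vf_t0_21, z23,
          zV, xz_2_b, yx2, w_2, q2_O, q2_P, q2_U, q2_V, vf_q2_2, w_1, p1_V, p1_O, p1_e, w_0,
          nn_r3, nn_z1, O0pos]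
    · have vf_t0_31 := cv28 hM (p := p) (q := p) hp (t0 := s1) (l := n) (fun _ _ => rfl) h10 (a1
          := s3) (a2 := s1) (by omega) (by omega)
      linarith only [r3O, O3O2, e3e2, O2O1, e2e1, V1O, V1V0, r0O, V0O, vf_t0_31, xV, yx1, yx2,
        w_1, w_0, nn_x1, O0pos]
    · obtain ⟨nn_A1, nn_P1, nn_U1, m1_P, m1_e, m1_f, m1_V, m1_W⟩ := mid8 hM hp g1 gg1
      have vf_t0_1 := cv18 hM (p := p) (q := p) hp (t0 := s1) (l := n) (fun _ _ => rfl) h10 (a1 :=
          s1) (by omega)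
      have vf_m1_ := cv08 hM (p := p) (q := p) hp (t0 := s3) (l := l1) (fun _ _ => rfl) g1
      linarith only [V2V1, O2O1, e2e1, V1O, V1V0, r0O, V0O, vf_t0_1, wV, zw_3_b, zw_3_s, xz_2_b,
        xz_2_s, yx2, w_1, m1_P, m1_f, m1_V, m1_W, vf_m1_, w_0, nn_r2, nn_x1, O0pos]
    · have vf_t0_21 := cv28 hM (p := p) (q := p) hp (t0 := s1) (l := n) (fun _ _ => rfl) h10 (a1
          := s2) (a2 := s1) (by omega) (by omega)
      linarith only [r2O, O2O1, e2e1, V1O, V1V0, r0O, V0O, vf_t0_21, xV, yx1, yx2, w_1, w_0,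
        nn_x1, O0pos]
    · obtain ⟨nn_A1, nn_P1, nn_U1, m1_P, m1_e, m1_f, m1_V, m1_W⟩ := mid8 hM hp g1 gg1
      have vf_t0_1 := cv18 hM (p := p) (q := p) hp (t0 := s1) (l := n) (fun _ _ => rfl) h10 (a1 :=
          s1) (by omega)
      have vf_m1_ := cv08 hM (p := p) (q := p) hp (t0 := s2) (l := l1) (fun _ _ => rfl) g1
      linarith only [V1O, V1V0, r0O, V0O, vf_t0_1, zV, xz_2_b, xz_2_s, yx2, w_1, m1_P, m1_f,
        m1_V, m1_W, vf_m1_, w_0, nn_x1, O0pos]
    · rcases wit28 (by norm_num) (by norm_num) hp h32 u2 with ⟨l2, g2, w_2⟩ | w_2 | ⟨l2, g2, gg2,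
          w_2⟩ | w_2 | ⟨q2, N2, l2, hq2, hqp2, hl2, hlN2, w_2⟩
      · obtain ⟨nn_A2, nn_P2, p2_V, p2_O, p2_e⟩ := pas8 hM hp g2
        have vg_t1_0_2_0 := cg8_0_0_1 hmach (q := p) hp (t0 := s2) (l := s1) (fun _ _ => rfl) (by
            omega) h21 (a1 := s2) (by omega) (by omega)
        have vf_t0_21 := cv28 hM (p := p) (q := p) hp (t0 := s1) (l := n) (fun _ _ => rfl) h10 (a1
            := s2) (a2 := s1) (by omega) (by omega)
        linarith only [V3V2, O3O2, e3e2, V2O, V2V1, V1O, V1V0, r0O, V0O, vg_t1_0_2_0, vf_t0_21,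
          z23, zV, xz_2_b, yx2, w_2, p2_V, p2_O, p2_e, w_1, w_0, nn_r3, nn_z1, O0pos]
      · have vg_t1_0_2_0 := cg8_0_0_1 hmach (q := p) hp (t0 := s2) (l := s1) (fun _ _ => rfl) (by
            omega) h21 (a1 := s2) (by omega) (by omega)
        have vf_t0_31 := cv28 hM (p := p) (q := p) hp (t0 := s1) (l := n) (fun _ _ => rfl) h10 (a1
            := s3) (a2 := s1) (by omega) (by omega)
        have vf_t0_321 := cv38 hM (p := p) (q := p) hp (t0 := s1) (l := n) (fun _ _ => rfl) h10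
            (a1 := s3) (a2 := s2) (a3 := s1) (by omega) (by omega) (by omega)
        linarith only [r3O, e3V, O3O2, e3e2, V2O, V2V1, e2e1, V1O, r0O, V0O, vg_t1_0_2_0,
          vf_t0_31, vf_t0_321, z23, zV, xz_2_b, yx2, w_2, w_1, w_0, nn_z1, O0pos]
      · obtain ⟨nn_A2, nn_P2, nn_U2, m2_P, m2_e, m2_f, m2_V, m2_W⟩ := mid8 hM hp g2 gg2
        have vf_t0_1 := cv18 hM (p := p) (q := p) hp (t0 := s1) (l := n) (fun _ _ => rfl) h10 (a1
            := s1) (by omega)
        have vf_t0_21 := cv28 hM (p := p) (q := p) hp (t0 := s1) (l := n) (fun _ _ => rfl) h10 (a1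
            := s2) (a2 := s1) (by omega) (by omega)
        have vf_m2_ := cv08 hM (p := p) (q := p) hp (t0 := s3) (l := l2) (fun _ _ => rfl) g2
        linarith only [V2O, V2V1, e2e1, V1O, r0O, V0O, vf_t0_1, vf_t0_21, w34, wV, zw_2_b,
          zw_3_b, zw_3_s, xz_2_b, yx2, w_2, m2_P, m2_f, m2_V, m2_W, vf_m2_, w_1, w_0, nn_z1,
          O0pos]
      · have vf_t0_21 := cv28 hM (p := p) (q := p) hp (t0 := s1) (l := n) (fun _ _ => rfl) h10 (a1
            := s2) (a2 := s1) (by omega) (by omega)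
        linarith only [r2O, V2O, V2V1, e2e1, r1O, V1O, V1V0, r0O, V0O, vf_t0_21, zV, xz_2_b, yx2,
          w_2, w_1, w_0, nn_z1, O0pos]
      · obtain ⟨nn_A2, nn_P2, nn_U2, nn_Q2, q2_O, q2_P, q2_U, q2_V, q2_e⟩ := fut8 hM hq2 hqp2 hl2
            hlN2
        have vf_t0_1 := cv18 hM (p := p) (q := p) hp (t0 := s1) (l := n) (fun _ _ => rfl) h10 (a1
            := s1) (by omega)
        have vf_q2_ := cv08 hM (p := p) (q := q2) hq2 (t0 := s2) (l := l2) hqp2 hl2
        linarith only [V2V1, V1O, e1V, V1V0, r0O, V0O, vf_t0_1, zV, xz_2_b, yx2, w_2, q2_P, q2_U,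
          q2_V, vf_q2_, w_1, w_0, nn_z1, O0pos]
    · obtain ⟨nn_A1, nn_P1, nn_U1, nn_Q1, q1_O, q1_P, q1_U, q1_V, q1_e⟩ := fut8 hM hq1 hqp1 hl1
          hlN1
      rcases wit28 (by norm_num) (by norm_num) hp h32 u2 with ⟨l2, g2, w_2⟩ | w_2 | ⟨l2, g2, gg2,
          w_2⟩ | w_2 | ⟨q2, N2, l2, hq2, hqp2, hl2, hlN2, w_2⟩
      · obtain ⟨nn_A2, nn_P2, p2_V, p2_O, p2_e⟩ := pas8 hM hp g2
        have vg_t1_0_2_0 := cg8_0_0_1 hmach (q := p) hp (t0 := s2) (l := s1) (fun _ _ => rfl) (by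
            omega) h21 (a1 := s2) (by omega) (by omega)
        have vf_t0_21 := cv28 hM (p := p) (q := p) hp (t0 := s1) (l := n) (fun _ _ => rfl) h10 (a1
            := s2) (a2 := s1) (by omega) (by omega)
        have vf_q1_21 := cv28 hM (p := p) (q := q1) hq1 (t0 := s1) (l := l1) hqp1 hl1 (a1 := s2)
            (a2 := s1) (by omega) (by omega)
        linarith only [O3O2, e3e2, V2O, V2V1, e2e1, r1O, r0O, V0O, vg_t1_0_2_0, vf_t0_21, z23,
          zV, xz_2_b, yx2, w_2, p2_V, p2_O, p2_e, w_1, q1_O, q1_P, q1_U, q1_V, vf_q1_21, w_0,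
          nn_r3, nn_z1, O0pos]
      · have vf_t0_1 := cv18 hM (p := p) (q := p) hp (t0 := s1) (l := n) (fun _ _ => rfl) h10 (a1
            := s1) (by omega)
        have vf_q1_321 := cv38 hM (p := p) (q := q1) hq1 (t0 := s1) (l := l1) hqp1 hl1 (a1 := s3)
            (a2 := s2) (a3 := s1) (by omega) (by omega) (by omega)
        linarith only [r3O, O3O2, e3e2, r2O, V2O, V2V1, e2e1, r1O, r0O, V0O, vf_t0_1, z23, zV,
          xz_2_b, yx2, w_2, w_1, q1_O, q1_P, q1_U, q1_V, vf_q1_321, w_0, nn_z1, O0pos]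
      · obtain ⟨nn_A2, nn_P2, nn_U2, m2_P, m2_e, m2_f, m2_V, m2_W⟩ := mid8 hM hp g2 gg2
        have vf_t0_1 := cv18 hM (p := p) (q := p) hp (t0 := s1) (l := n) (fun _ _ => rfl) h10 (a1
            := s1) (by omega)
        have vf_t0_21 := cv28 hM (p := p) (q := p) hp (t0 := s1) (l := n) (fun _ _ => rfl) h10 (a1
            := s2) (a2 := s1) (by omega) (by omega)
        have vf_m2_ := cv08 hM (p := p) (q := p) hp (t0 := s3) (l := l2) (fun _ _ => rfl) g2
        have vf_q1_21 := cv28 hM (p := p) (q := q1) hq1 (t0 := s1) (l := l1) hqp1 hl1 (a1 := s2)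
            (a2 := s1) (by omega) (by omega)
        linarith only [V2O, V2V1, e2e1, r0O, V0O, vf_t0_1, vf_t0_21, w34, wV, zw_2_b, zw_3_b,
          zw_3_s, xz_2_b, yx2, w_2, m2_P, m2_f, m2_V, m2_W, vf_m2_, w_1, q1_P, q1_U, q1_V,
          vf_q1_21, w_0, nn_z1, O0pos]
      · have vf_t0_21 := cv28 hM (p := p) (q := p) hp (t0 := s1) (l := n) (fun _ _ => rfl) h10 (a1
            := s2) (a2 := s1) (by omega) (by omega)
        have vf_q1_21 := cv28 hM (p := p) (q := q1) hq1 (t0 := s1) (l := l1) hqp1 hl1 (a1 := s2)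
            (a2 := s1) (by omega) (by omega)
        linarith only [r2O, V2O, V2V1, e2e1, r1O, r0O, V0O, vf_t0_21, z23, zV, xz_2_b, yx2, w_2,
          w_1, q1_O, q1_P, q1_U, q1_V, vf_q1_21, w_0, nn_z1, O0pos]
      · obtain ⟨nn_A2, nn_P2, nn_U2, nn_Q2, q2_O, q2_P, q2_U, q2_V, q2_e⟩ := fut8 hM hq2 hqp2 hl2
            hlN2
        rcases wit18 (by norm_num) (by norm_num) hp u3 with ⟨l3, g3, w_3⟩ | w_3 | ⟨q3, N3, l3,
            hq3, hqp3, hl3, hlN3, w_3⟩
        · obtain ⟨nn_A3, nn_P3, p3_V, p3_O, p3_e⟩ := pas8 hM hp g3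
          have vf_t0_21 := cv28 hM (p := p) (q := p) hp (t0 := s1) (l := n) (fun _ _ => rfl) h10
              (a1 := s2) (a2 := s1) (by omega) (by omega)
          have vf_q2_32 := cv28 hM (p := p) (q := q2) hq2 (t0 := s2) (l := l2) hqp2 hl2 (a1 := s3)
              (a2 := s2) (by omega) (by omega)
          have vf_q1_321 := cv38 hM (p := p) (q := q1) hq1 (t0 := s1) (l := l1) hqp1 hl1 (a1 :=
              s3) (a2 := s2) (a3 := s1) (by omega) (by omega) (by omega)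
          linarith only [r3O, V3O, e3e2, V2V1, e2e1, r1O, r0O, V0O, vf_t0_21, w34, wV, zw_2_b,
            zw_3_b, zw_3_s, zV, xz_2_b, yx2, w_3, p3_O, p3_e, w_2, q2_P, q2_U, q2_V, vf_q2_32,
            w_1, q1_O, q1_P, q1_U, q1_V, vf_q1_321, w_0, nn_z1, O0pos]
        · have vf_t0_1 := cv18 hM (p := p) (q := p) hp (t0 := s1) (l := n) (fun _ _ => rfl) h10
              (a1 := s1) (by omega)
          have vf_q2_32 := cv28 hM (p := p) (q := q2) hq2 (t0 := s2) (l := l2) hqp2 hl2 (a1 := s3)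
              (a2 := s2) (by omega) (by omega)
          have vf_q1_321 := cv38 hM (p := p) (q := q1) hq1 (t0 := s1) (l := l1) hqp1 hl1 (a1 :=
              s3) (a2 := s2) (a3 := s1) (by omega) (by omega) (by omega)
          linarith only [r3O, V3O, e3e2, V2V1, e2e1, r1O, r0O, V0O, vf_t0_1, w34, wV, zw_2_b,
            zw_3_b, zw_3_s, zV, xz_2_b, yx2, w_3, w_2, q2_P, q2_U, q2_V, vf_q2_32, w_1, q1_O,
            q1_P, q1_U, q1_V, vf_q1_321, w_0, nn_z1, O0pos]
        · obtain ⟨nn_A3, nn_P3, nn_U3, nn_Q3, q3_O, q3_P, q3_U, q3_V, q3_e⟩ := fut8 hM hq3 hqp3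
              hl3 hlN3
          rcases le_total (mn m p s3 + p s3) (ls m p s3 i1) with o_a3L1 | o_L1a3
          · have o_a3e2 : mn m p s3 + p s3 ≤ mn m p s2 := od0 hmach hp (fun _ _ => rfl) h32 le_rfl
                o_a3L1
            have vf_t0_1 := cv18 hM (p := p) (q := p) hp (t0 := s1) (l := n) (fun _ _ => rfl) h10
                (a1 := s1) (by omega)
            have vf_t0_21 := cv28 hM (p := p) (q := p) hp (t0 := s1) (l := n) (fun _ _ => rfl) h10
                (a1 := s2) (a2 := s1) (by omega) (by omega)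
            have vf_q3_ := cv08 hM (p := p) (q := q3) hq3 (t0 := s3) (l := l3) hqp3 hl3
            have vg_q3_0__1 := cg8_0_1_0 hmach (q := q3) hq3 (t0 := s3) (l := l3) hqp3 (by omega)
                hl3
            have vf_q2_2 := cv18 hM (p := p) (q := q2) hq2 (t0 := s2) (l := l2) hqp2 hl2 (a1 :=
                s2) (by omega)
            have vf_q1_21 := cv28 hM (p := p) (q := q1) hq1 (t0 := s1) (l := l1) hqp1 hl1 (a1 :=
                s2) (a2 := s1) (by omega) (by omega)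
            linarith only [V2V1, e2e1, r0O, V0O, vf_t0_1, vf_t0_21, w34, wV, zw_2_b, zw_3_s, z23,
              zV, xz_2_b, yx2, w_3, q3_P, q3_U, vf_q3_, vg_q3_0__1, w_2, q2_P, q2_U, q2_V,
              vf_q2_2, w_1, q1_P, q1_U, q1_V, vf_q1_21, w_0, o_a3e2, nn_e3, nn_z1, O0pos]
          · have o_L1e2 : ls m p s3 i1 ≤ mn m p s2 := od0 hmach hp (fun _ _ => rfl) h32 o_L1a3
                le_rfl
            have o_L1A3 : ls m p s3 i1 ≤ mn m q3 l3 := od0 hmach hq3 hqp3 hl3 o_L1a3 le_rfl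
            rcases le_total (mn m p s3 + p s3) (ls m p s3 i2) with o_a3L2 | o_L2a3
            · rcases le_total (mn m p s3 + p s3) (mn m p s2 + p s2) with o_a3a2 | o_a2a3
              · have o_a3e1 : mn m p s3 + p s3 ≤ mn m p s1 := od1 hmach hp (fun _ _ => rfl) h32
                    h21 le_rfl o_a3L2 le_rfl o_a3a2
                have o_a3A2 : mn m p s3 + p s3 ≤ mn m q2 l2 := od1 hmach hq2 hqp2 h32 hl2 le_rfl
                    o_a3L2 le_rfl o_a3a2
                have vf_t0_1 := cv18 hM (p := p) (q := p) hp (t0 := s1) (l := n) (fun _ _ => rfl)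
                    h10 (a1 := s1) (by omega)
                have vf_q3_ := cv08 hM (p := p) (q := q3) hq3 (t0 := s3) (l := l3) hqp3 hl3
                have vg_q3_1__1 := cg8_1_1_0 hmach (q := q3) hq3 (t0 := s3) (l := l3) hqp3 (by
                    omega) hl3
                have vf_q2_ := cv08 hM (p := p) (q := q2) hq2 (t0 := s2) (l := l2) hqp2 hl2
                have vf_q1_1 := cv18 hM (p := p) (q := q1) hq1 (t0 := s1) (l := l1) hqp1 hl1 (a1
                    := s1) (by omega)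
                have vf_q1_21 := cv28 hM (p := p) (q := q1) hq1 (t0 := s1) (l := l1) hqp1 hl1 (a1
                    := s2) (a2 := s1) (by omega) (by omega)
                linarith only [V2V1, r1O, r0O, V0O, vf_t0_1, w34, wV, zw_3_b, zw_3_s, zV, xz_2_b,
                  yx2, w_3, q3_P, q3_U, vf_q3_, vg_q3_1__1, w_2, q2_P, q2_U, q2_V, vf_q2_, w_1,
                  q1_O, q1_P, q1_U, q1_V, vf_q1_1, vf_q1_21, w_0, o_L1e2, o_a3e1, nn_e3, nn_z1,
                  O0pos]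
              · have o_a2e1 : mn m p s2 + p s2 ≤ mn m p s1 := od1 hmach hp (fun _ _ => rfl) h32
                    h21 le_rfl o_a3L2 o_a2a3 le_rfl
                have o_a2A2 : mn m p s2 + p s2 ≤ mn m q2 l2 := od1 hmach hq2 hqp2 h32 hl2 le_rfl
                    o_a3L2 o_a2a3 le_rfl
                have vf_t0_1 := cv18 hM (p := p) (q := p) hp (t0 := s1) (l := n) (fun _ _ => rfl)
                    h10 (a1 := s1) (by omega)
                have vf_q2_ := cv08 hM (p := p) (q := q2) hq2 (t0 := s2) (l := l2) hqp2 hl2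
                have vg_q2_1__0 := cg8_1_0_0 hmach (q := q2) hq2 (t0 := s2) (l := l2) hqp2 (by
                    omega) hl2
                have vf_q1_1 := cv18 hM (p := p) (q := q1) hq1 (t0 := s1) (l := l1) hqp1 hl1 (a1
                    := s1) (by omega)
                linarith only [V2V1, r1O, r0O, V0O, vf_t0_1, w34, wV, zw_2_b, zw_3_s, zV, xz_2_b,
                  yx2, w_2, q2_P, q2_U, q2_V, vf_q2_, vg_q2_1__0, w_1, q1_O, q1_P, q1_U, q1_V,
                  vf_q1_1, w_0, o_L1e2, o_a2e1, nn_e2, nn_z1, O0pos]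
            · rcases le_total (mn m p s2 + p s2) (ls m p s3 i2) with o_a2L2 | o_L2a2
              · have o_a2e1 : mn m p s2 + p s2 ≤ mn m p s1 := od1 hmach hp (fun _ _ => rfl) h32
                    h21 o_L2a3 le_rfl o_a2L2 le_rfl
                have o_a2A2 : mn m p s2 + p s2 ≤ mn m q2 l2 := od1 hmach hq2 hqp2 h32 hl2 o_L2a3
                    le_rfl o_a2L2 le_rfl
                have vf_t0_1 := cv18 hM (p := p) (q := p) hp (t0 := s1) (l := n) (fun _ _ => rfl)
                    h10 (a1 := s1) (by omega)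
                have vf_q2_ := cv08 hM (p := p) (q := q2) hq2 (t0 := s2) (l := l2) hqp2 hl2
                have vg_q2_1__0 := cg8_1_0_0 hmach (q := q2) hq2 (t0 := s2) (l := l2) hqp2 (by
                    omega) hl2
                have vf_q1_1 := cv18 hM (p := p) (q := q1) hq1 (t0 := s1) (l := l1) hqp1 hl1 (a1
                    := s1) (by omega)
                linarith only [V2V1, r1O, r0O, V0O, vf_t0_1, w34, wV, zw_2_b, zw_3_s, zV, xz_2_b,
                  yx2, w_2, q2_P, q2_U, q2_V, vf_q2_, vg_q2_1__0, w_1, q1_O, q1_P, q1_U, q1_V,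
                  vf_q1_1, w_0, o_L1e2, o_a2e1, nn_e2, nn_z1, O0pos]
              · have o_L2e1 : ls m p s3 i2 ≤ mn m p s1 := od1 hmach hp (fun _ _ => rfl) h32 h21
                    o_L2a3 le_rfl le_rfl o_L2a2
                have o_L2A2 : ls m p s3 i2 ≤ mn m q2 l2 := od1 hmach hq2 hqp2 h32 hl2 o_L2a3
                    le_rfl le_rfl o_L2a2
                have vf_t0_1 := cv18 hM (p := p) (q := p) hp (t0 := s1) (l := n) (fun _ _ => rfl)
                    h10 (a1 := s1) (by omega)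
                have vf_q3_3 := cv18 hM (p := p) (q := q3) hq3 (t0 := s3) (l := l3) hqp3 hl3 (a1
                    := s3) (by omega)
                have vg_q3_2__0 := cg8_2_0_0 hmach (q := q3) hq3 (t0 := s3) (l := l3) hqp3 (by
                    omega) hl3
                have vg_q3_2__1 := cg8_2_1_0 hmach (q := q3) hq3 (t0 := s3) (l := l3) hqp3 (by
                    omega) hl3
                have vf_q2_ := cv08 hM (p := p) (q := q2) hq2 (t0 := s2) (l := l2) hqp2 hl2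
                have vg_q2_2_2_0 := cg8_2_0_1 hmach (q := q2) hq2 (t0 := s2) (l := l2) hqp2 (by
                    omega) hl2 (a1 := s2) (by omega) (by omega)
                have vf_q1_321 := cv38 hM (p := p) (q := q1) hq1 (t0 := s1) (l := l1) hqp1 hl1 (a1
                    := s3) (a2 := s2) (a3 := s1) (by omega) (by omega) (by omega)
                have vg_q1_2_1_1 := cg8_2_1_1 hmach (q := q1) hq1 (t0 := s1) (l := l1) hqp1 (by
                    omega) hl1 (a1 := s1) (by omega) (by omega)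
                have vg_q1_2_21_0 := cg8_2_0_2 hmach (q := q1) hq1 (t0 := s1) (l := l1) hqp1 (by
                    omega) hl1 (a1 := s2) (a2 := s1) (by omega) (by omega) (by omega)
                linarith only [r1O, r0O, V0O, vf_t0_1, w34, wV, zw_2_b, zw_3_b, xz_2_b, yx2, w_3,
                  q3_P, q3_U, vf_q3_3, vg_q3_2__0, vg_q3_2__1, w_2, q2_P, q2_U, vf_q2_,
                  vg_q2_2_2_0, w_1, q1_O, q1_P, q1_U, vf_q1_321, vg_q1_2_1_1, vg_q1_2_21_0, w_0,
                  o_L1e2, o_L2e1, nn_e3, nn_w1, nn_w2, O0pos]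
  · obtain ⟨nn_A0, nn_P0, nn_U0, nn_Q0, q0_O, q0_P, q0_U, q0_V, q0_e⟩ := fut8 hM hq0 hqp0 hl0 hlN0
    rcases wit38 (by norm_num) (by norm_num) hp h32 h21 u1 with ⟨l1, g1, w_1⟩ | w_1 | ⟨l1, g1,
        gg1, w_1⟩ | w_1 | ⟨l1, g1, gg1, w_1⟩ | w_1 | ⟨q1, N1, l1, hq1, hqp1, hl1, hlN1, w_1⟩
    · obtain ⟨nn_A1, nn_P1, p1_V, p1_O, p1_e⟩ := pas8 hM hp g1
      have vf_q0_10 := cv28 hM (p := p) (q := q0) hq0 (t0 := n) (l := l0) hqp0 hl0 (a1 := s1) (a2
          := n) (by omega) (by omega)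
      linarith only [O3O2, e3e2, O2O1, e2e1, V1O, V1V0, e1e0, r0O, xV, yx1, yx2, w_1, p1_O, p1_e,
        w_0, q0_O, q0_P, q0_U, q0_V, vf_q0_10, nn_x1, O0pos]
    · have vf_q0_30 := cv28 hM (p := p) (q := q0) hq0 (t0 := n) (l := l0) hqp0 hl0 (a1 := s3) (a2
          := n) (by omega) (by omega)
      have vf_q0_310 := cv38 hM (p := p) (q := q0) hq0 (t0 := n) (l := l0) hqp0 hl0 (a1 := s3) (a2
          := s1) (a3 := n) (by omega) (by omega) (by omega)
      linarith only [r3O, O3O2, e3e2, O2O1, e2e1, r1O, V1O, e1e0, r0O, xV, yx2, w_1, w_0, q0_O,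
        q0_P, q0_U, vf_q0_30, vf_q0_310, nn_x1, O0pos]
    · obtain ⟨nn_A1, nn_P1, nn_U1, m1_P, m1_e, m1_f, m1_V, m1_W⟩ := mid8 hM hp g1 gg1
      have vf_q0_10 := cv28 hM (p := p) (q := q0) hq0 (t0 := n) (l := l0) hqp0 hl0 (a1 := s1) (a2
          := n) (by omega) (by omega)
      linarith only [V2V1, O2O1, e2e1, V1O, V1V0, e1e0, r0O, wV, zw_3_b, zw_3_s, xz_2_b, xz_2_s,
        yx1, yx2, w_1, m1_P, m1_f, m1_V, m1_W, w_0, q0_O, q0_P, q0_U, q0_V, vf_q0_10, nn_x1,
        O0pos]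
    · have vf_q0_20 := cv28 hM (p := p) (q := q0) hq0 (t0 := n) (l := l0) hqp0 hl0 (a1 := s2) (a2
          := n) (by omega) (by omega)
      have vf_q0_210 := cv38 hM (p := p) (q := q0) hq0 (t0 := n) (l := l0) hqp0 hl0 (a1 := s2) (a2
          := s1) (a3 := n) (by omega) (by omega) (by omega)
      linarith only [r2O, O2O1, e2e1, r1O, V1O, e1e0, r0O, xV, yx2, w_1, w_0, q0_O, q0_P, q0_U,
        vf_q0_20, vf_q0_210, nn_x1, O0pos]
    · obtain ⟨nn_A1, nn_P1, nn_U1, m1_P, m1_e, m1_f, m1_V, m1_W⟩ := mid8 hM hp g1 gg1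
      have vf_q0_10 := cv28 hM (p := p) (q := q0) hq0 (t0 := n) (l := l0) hqp0 hl0 (a1 := s1) (a2
          := n) (by omega) (by omega)
      linarith only [V1O, V1V0, e1e0, r0O, zV, xz_2_b, xz_2_s, yx1, yx2, w_1, m1_P, m1_f, m1_V,
        m1_W, w_0, q0_O, q0_P, q0_U, q0_V, vf_q0_10, nn_x1, O0pos]
    · have vf_q0_10 := cv28 hM (p := p) (q := q0) hq0 (t0 := n) (l := l0) hqp0 hl0 (a1 := s1) (a2
          := n) (by omega) (by omega)
      linarith only [r1O, V1O, V1V0, e1e0, r0O, xV, yx2, w_1, w_0, q0_O, q0_P, q0_U, q0_V,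
        vf_q0_10, nn_x1, O0pos]
    · obtain ⟨nn_A1, nn_P1, nn_U1, nn_Q1, q1_O, q1_P, q1_U, q1_V, q1_e⟩ := fut8 hM hq1 hqp1 hl1
          hlN1
      rcases wit28 (by norm_num) (by norm_num) hp h32 u2 with ⟨l2, g2, w_2⟩ | w_2 | ⟨l2, g2, gg2,
          w_2⟩ | w_2 | ⟨q2, N2, l2, hq2, hqp2, hl2, hlN2, w_2⟩
      · obtain ⟨nn_A2, nn_P2, p2_V, p2_O, p2_e⟩ := pas8 hM hp g2
        have vf_q1_21 := cv28 hM (p := p) (q := q1) hq1 (t0 := s1) (l := l1) hqp1 hl1 (a1 := s2)
            (a2 := s1) (by omega) (by omega)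
        have vf_q0_10 := cv28 hM (p := p) (q := q0) hq0 (t0 := n) (l := l0) hqp0 hl0 (a1 := s1)
            (a2 := n) (by omega) (by omega)
        have vf_q0_210 := cv38 hM (p := p) (q := q0) hq0 (t0 := n) (l := l0) hqp0 hl0 (a1 := s2)
            (a2 := s1) (a3 := n) (by omega) (by omega) (by omega)
        linarith only [O3O2, e3e2, r2O, V2O, V2V1, e2e1, e1e0, r0O, z23, zV, xz_2_b, yx2, w_2,
          p2_O, p2_e, w_1, q1_P, q1_U, q1_V, vf_q1_21, w_0, q0_O, q0_P, q0_U, vf_q0_10,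
          vf_q0_210, nn_z1, O0pos]
      · have vf_q1_321 := cv38 hM (p := p) (q := q1) hq1 (t0 := s1) (l := l1) hqp1 hl1 (a1 := s3)
            (a2 := s2) (a3 := s1) (by omega) (by omega) (by omega)
        have vf_q0_10 := cv28 hM (p := p) (q := q0) hq0 (t0 := n) (l := l0) hqp0 hl0 (a1 := s1)
            (a2 := n) (by omega) (by omega)
        have vf_q0_310 := cv38 hM (p := p) (q := q0) hq0 (t0 := n) (l := l0) hqp0 hl0 (a1 := s3)
            (a2 := s1) (a3 := n) (by omega) (by omega) (by omega)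
        linarith only [r3O, O3O2, e3e2, r2O, V2O, V2V1, e2e1, e1e0, r0O, z23, zV, xz_2_b, yx2,
          w_2, w_1, q1_P, q1_U, q1_V, vf_q1_321, w_0, q0_O, q0_P, q0_U, vf_q0_10, vf_q0_310,
          nn_z1, O0pos]
      · obtain ⟨nn_A2, nn_P2, nn_U2, m2_P, m2_e, m2_f, m2_V, m2_W⟩ := mid8 hM hp g2 gg2
        have vf_q1_21 := cv28 hM (p := p) (q := q1) hq1 (t0 := s1) (l := l1) hqp1 hl1 (a1 := s2)
            (a2 := s1) (by omega) (by omega)
        have vf_q0_10 := cv28 hM (p := p) (q := q0) hq0 (t0 := n) (l := l0) hqp0 hl0 (a1 := s1)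
            (a2 := n) (by omega) (by omega)
        have vf_q0_210 := cv38 hM (p := p) (q := q0) hq0 (t0 := n) (l := l0) hqp0 hl0 (a1 := s2)
            (a2 := s1) (a3 := n) (by omega) (by omega) (by omega)
        linarith only [r2O, V2O, V2V1, e2e1, e1e0, r0O, w34, wV, zw_2_b, zw_3_b, zw_3_s, xz_2_b,
          yx2, w_2, m2_P, m2_f, m2_V, m2_W, w_1, q1_P, q1_U, q1_V, vf_q1_21, w_0, q0_O, q0_P,
          q0_U, vf_q0_10, vf_q0_210, nn_z1, O0pos]
      · have vf_q1_21 := cv28 hM (p := p) (q := q1) hq1 (t0 := s1) (l := l1) hqp1 hl1 (a1 := s2)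
            (a2 := s1) (by omega) (by omega)
        have vf_q0_10 := cv28 hM (p := p) (q := q0) hq0 (t0 := n) (l := l0) hqp0 hl0 (a1 := s1)
            (a2 := n) (by omega) (by omega)
        have vf_q0_210 := cv38 hM (p := p) (q := q0) hq0 (t0 := n) (l := l0) hqp0 hl0 (a1 := s2)
            (a2 := s1) (a3 := n) (by omega) (by omega) (by omega)
        linarith only [r2O, V2O, V2V1, e2e1, e1e0, r0O, z23, zV, xz_2_b, yx2, w_2, w_1, q1_P,
          q1_U, q1_V, vf_q1_21, w_0, q0_O, q0_P, q0_U, vf_q0_10, vf_q0_210, nn_z1, O0pos]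
      · obtain ⟨nn_A2, nn_P2, nn_U2, nn_Q2, q2_O, q2_P, q2_U, q2_V, q2_e⟩ := fut8 hM hq2 hqp2 hl2
            hlN2
        have vf_q2_ := cv08 hM (p := p) (q := q2) hq2 (t0 := s2) (l := l2) hqp2 hl2
        have vf_q1_1 := cv18 hM (p := p) (q := q1) hq1 (t0 := s1) (l := l1) hqp1 hl1 (a1 := s1)
            (by omega)
        have vf_q0_0 := cv18 hM (p := p) (q := q0) hq0 (t0 := n) (l := l0) hqp0 hl0 (a1 := n) (by
            omega)
        linarith only [V2V1, V1V0, r0O, zV, xz_2_b, yx2, w_2, q2_P, q2_U, q2_V, vf_q2_, w_1,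
          q1_P, q1_U, q1_V, vf_q1_1, w_0, q0_O, q0_P, q0_U, q0_V, vf_q0_0, nn_e1, nn_e0, nn_z1,
          O0pos]

theorem case8_22 (hM : (m : ℝ) = 8) {p : ℕ → ℝ} (hp : ∀ i, 0 < p i) {s3 s2 s1 n : ℕ}
    (h32 : s3 < s2) (h21 : s2 < s1) (h10 : s1 < n) {w1 w2 w3 w4 z1 z2 z3 x1 x2 y : ℝ}
    (hw : B48 p s3 w1 w2 w3 w4) (hz : B38 p s2 z1 z2 z3) (hx : B28 p s1 x1 x2)
    (nn_y : 0 ≤ y) (yx1 : y ≤ x1 + p s1) (yx2 : y ≤ x2)
    (t3 : T328 w1 w2 w3 w4 z1 z2 z3 (p s3)) (t2 : T228 z1 z2 z3 x1 x2 (p s2))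
    (u3 : ¬ Safe m (23 / 40) (721 / 400) (s3 + 1) p (w3 + p s3))
    (u2 : ¬ Safe m (23 / 40) (721 / 400) (s2 + 1) p (z3 + p s2))
    (u1 : ¬ Safe m (23 / 40) (721 / 400) (s1 + 1) p (x2 + p s1))
    (h0 : (721 / 400 * opt m p (n + 1) < 23 / 40 * (mn m p n + p n) + (1 - 23 / 40) * (y + p n)) ∨
      ∃ q : ℕ → ℝ, ∃ N l, (∀ i, 0 < q i) ∧ (∀ i < n + 1, q i = p i) ∧ n < l ∧ l < N ∧
      721 / 400 * opt m q N < 23 / 40 * (mn m q l + q l) + (1 - 23 / 40) * (y + p n)) :
    False := by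
  obtain ⟨nn_r3, nn_e3, nn_V3, nn_O3, r3O, V3O, e3V⟩ := bas8 hM hp s3
  obtain ⟨nn_r2, nn_e2, nn_V2, nn_O2, r2O, V2O, e2V⟩ := bas8 hM hp s2
  obtain ⟨nn_r1, nn_e1, nn_V1, nn_O1, r1O, V1O, e1V⟩ := bas8 hM hp s1
  obtain ⟨nn_r0, nn_e0, nn_V0, nn_O0, r0O, V0O, e0V⟩ := bas8 hM hp n
  obtain ⟨V3V2, O3O2, e3e2⟩ := stp8 hM hp h32
  obtain ⟨V2V1, O2O1, e2e1⟩ := stp8 hM hp h21
  obtain ⟨V1V0, O1O0, e1e0⟩ := stp8 hM hp h10
  have O0pos : 0 < opt m p (n + 1) := (hp n).trans_le r0O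
  obtain ⟨κ, i1, i2, i3, i4, hmach⟩ := exists_mach8 hM p s3
  obtain ⟨eL1, L12, L23, L34, Lsum, nn_L1, nn_L2, nn_L3, nn_L4⟩ := hmach.facts hM hp
  obtain ⟨nn_w1, nn_w2, nn_w3, nn_w4, w12, w23, w34, wV⟩ := hw
  obtain ⟨nn_z1, nn_z2, nn_z3, z12, z23, zV⟩ := hz
  obtain ⟨nn_x1, nn_x2, x12, xV⟩ := hx
  obtain ⟨zw_1_a, zw_2_b, zw_2_c, zw_3_b, zw_3_s⟩ := t3
  obtain ⟨xz_1_a, xz_2_b, xz_2_c⟩ := t2
  rcases h0 with w_0 | ⟨q0, N0, l0, hq0, hqp0, hl0, hlN0, w_0⟩
  · rcases wit28 (by norm_num) (by norm_num) hp h32 u2 with ⟨l2, g2, w_2⟩ | w_2 | ⟨l2, g2, gg2,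
        w_2⟩ | w_2 | ⟨q2, N2, l2, hq2, hqp2, hl2, hlN2, w_2⟩
    · obtain ⟨nn_A2, nn_P2, p2_V, p2_O, p2_e⟩ := pas8 hM hp g2
      rcases wit18 (by norm_num) (by norm_num) hp u3 with ⟨l3, g3, w_3⟩ | w_3 | ⟨q3, N3, l3, hq3,
          hqp3, hl3, hlN3, w_3⟩
      · obtain ⟨nn_A3, nn_P3, p3_V, p3_O, p3_e⟩ := pas8 hM hp g3
        have vf_t0_21 := cv28 hM (p := p) (q := p) hp (t0 := s1) (l := n) (fun _ _ => rfl) h10 (a1
            := s2) (a2 := s1) (by omega) (by omega)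
        have vf_t0_321 := cv38 hM (p := p) (q := p) hp (t0 := s1) (l := n) (fun _ _ => rfl) h10
            (a1 := s3) (a2 := s2) (a3 := s1) (by omega) (by omega) (by omega)
        linarith only [V3O, V3V2, e3e2, V2O, e2e1, r0O, V0O, vf_t0_21, vf_t0_321, w34, wV,
          zw_1_a, zw_3_b, xz_1_a, xz_2_b, yx1, yx2, w_3, p3_V, p3_O, p3_e, w_2, p2_V, p2_O, w_0,
          nn_w1, nn_w2, O0pos]
      · have vf_t0_1 := cv18 hM (p := p) (q := p) hp (t0 := s1) (l := n) (fun _ _ => rfl) h10 (a1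
            := s1) (by omega)
        have vf_t0_21 := cv28 hM (p := p) (q := p) hp (t0 := s1) (l := n) (fun _ _ => rfl) h10 (a1
            := s2) (a2 := s1) (by omega) (by omega)
        have vf_t0_321 := cv38 hM (p := p) (q := p) hp (t0 := s1) (l := n) (fun _ _ => rfl) h10
            (a1 := s3) (a2 := s2) (a3 := s1) (by omega) (by omega) (by omega)
        linarith only [r3O, V3O, V3V2, e3e2, V2O, e2e1, r0O, V0O, vf_t0_1, vf_t0_21, vf_t0_321,
          wV, zw_1_a, zw_3_b, xz_1_a, xz_2_b, yx1, yx2, w_3, w_2, p2_V, p2_O, p2_e, w_0, nn_w2,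
          O0pos]
      · obtain ⟨nn_A3, nn_P3, nn_U3, nn_Q3, q3_O, q3_P, q3_U, q3_V, q3_e⟩ := fut8 hM hq3 hqp3 hl3
            hlN3
        have vf_t0_21 := cv28 hM (p := p) (q := p) hp (t0 := s1) (l := n) (fun _ _ => rfl) h10 (a1
            := s2) (a2 := s1) (by omega) (by omega)
        have vf_t0_321 := cv38 hM (p := p) (q := p) hp (t0 := s1) (l := n) (fun _ _ => rfl) h10
            (a1 := s3) (a2 := s2) (a3 := s1) (by omega) (by omega) (by omega)
        have vf_q3_3 := cv18 hM (p := p) (q := q3) hq3 (t0 := s3) (l := l3) hqp3 hl3 (a1 := s3)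
            (by omega)
        have vg_q3_0__0 := cg8_0_0_0 hmach (q := q3) hq3 (t0 := s3) (l := l3) hqp3 (by omega) hl3
        linarith only [V3V2, e3e2, r2O, V2O, e2e1, r0O, V0O, vf_t0_21, vf_t0_321, w34, wV,
          zw_1_a, zw_3_b, xz_1_a, xz_2_b, yx1, yx2, w_3, q3_O, q3_P, q3_U, vf_q3_3, vg_q3_0__0,
          w_2, p2_O, p2_e, w_0, nn_w1, nn_w2, O0pos]
    · have vf_t0_32 := cv28 hM (p := p) (q := p) hp (t0 := s1) (l := n) (fun _ _ => rfl) h10 (a1
          := s3) (a2 := s2) (by omega) (by omega)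
      have vf_t0_321 := cv38 hM (p := p) (q := p) hp (t0 := s1) (l := n) (fun _ _ => rfl) h10 (a1
          := s3) (a2 := s2) (a3 := s1) (by omega) (by omega) (by omega)
      linarith only [r3O, O3O2, e3e2, r2O, V2O, e2e1, r0O, V0O, vf_t0_32, vf_t0_321, z12, zV,
        xz_1_a, xz_2_b, xz_2_c, yx1, yx2, w_2, w_0, O0pos]
    · obtain ⟨nn_A2, nn_P2, nn_U2, m2_P, m2_e, m2_f, m2_V, m2_W⟩ := mid8 hM hp g2 gg2
      have vf_t0_21 := cv28 hM (p := p) (q := p) hp (t0 := s1) (l := n) (fun _ _ => rfl) h10 (a1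
          := s2) (a2 := s1) (by omega) (by omega)
      have vg_m2_0__0 := cg8_0_0_0 hmach (q := p) hp (t0 := s3) (l := l2) (fun _ _ => rfl) (by
          omega) g2
      linarith only [r2O, V2O, V2V1, e2e1, V1V0, r0O, V0O, vf_t0_21, wV, zw_3_b, zw_3_s, z12,
        xz_1_a, xz_2_b, xz_2_c, yx1, yx2, w_2, m2_P, m2_f, m2_W, vg_m2_0__0, w_0, O0pos]
    · rcases wit18 (by norm_num) (by norm_num) hp u3 with ⟨l3, g3, w_3⟩ | w_3 | ⟨q3, N3, l3, hq3,
          hqp3, hl3, hlN3, w_3⟩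
      · obtain ⟨nn_A3, nn_P3, p3_V, p3_O, p3_e⟩ := pas8 hM hp g3
        have vf_t0_21 := cv28 hM (p := p) (q := p) hp (t0 := s1) (l := n) (fun _ _ => rfl) h10 (a1
            := s2) (a2 := s1) (by omega) (by omega)
        have vf_t0_321 := cv38 hM (p := p) (q := p) hp (t0 := s1) (l := n) (fun _ _ => rfl) h10
            (a1 := s3) (a2 := s2) (a3 := s1) (by omega) (by omega) (by omega)
        linarith only [V3O, V3V2, e3e2, V2O, e2e1, r0O, V0O, vf_t0_21, vf_t0_321, w12, w34, wV,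
          zw_1_a, zw_3_b, xz_1_a, xz_2_b, yx1, yx2, w_3, p3_V, p3_O, p3_e, w_2, w_0, nn_w2, O0pos]
      · have vf_t0_21 := cv28 hM (p := p) (q := p) hp (t0 := s1) (l := n) (fun _ _ => rfl) h10 (a1
            := s2) (a2 := s1) (by omega) (by omega)
        have vf_t0_321 := cv38 hM (p := p) (q := p) hp (t0 := s1) (l := n) (fun _ _ => rfl) h10
            (a1 := s3) (a2 := s2) (a3 := s1) (by omega) (by omega) (by omega)
        linarith only [r3O, V3O, V3V2, e3e2, r2O, V2O, e2e1, r0O, V0O, vf_t0_21, vf_t0_321, w12,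
          wV, zw_1_a, zw_3_b, xz_1_a, xz_2_b, yx1, yx2, w_3, w_2, w_0, nn_w2, O0pos]
      · obtain ⟨nn_A3, nn_P3, nn_U3, nn_Q3, q3_O, q3_P, q3_U, q3_V, q3_e⟩ := fut8 hM hq3 hqp3 hl3
            hlN3
        have vg_t1_0_2_0 := cg8_0_0_1 hmach (q := p) hp (t0 := s2) (l := s1) (fun _ _ => rfl) (by
            omega) h21 (a1 := s2) (by omega) (by omega)
        have vf_t0_21 := cv28 hM (p := p) (q := p) hp (t0 := s1) (l := n) (fun _ _ => rfl) h10 (a1
            := s2) (a2 := s1) (by omega) (by omega)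
        have vf_q3_ := cv08 hM (p := p) (q := q3) hq3 (t0 := s3) (l := l3) hqp3 hl3
        have vg_q3_0__0 := cg8_0_0_0 hmach (q := q3) hq3 (t0 := s3) (l := l3) hqp3 (by omega) hl3
        linarith only [V3V2, r2O, V2O, e2e1, V1V0, r0O, V0O, vg_t1_0_2_0, vf_t0_21, w12, wV,
          zw_1_a, zw_3_b, xz_1_a, xz_2_b, yx1, yx2, w_3, q3_P, q3_U, vf_q3_, vg_q3_0__0, w_2,
          w_0, nn_w2, O0pos]
    · obtain ⟨nn_A2, nn_P2, nn_U2, nn_Q2, q2_O, q2_P, q2_U, q2_V, q2_e⟩ := fut8 hM hq2 hqp2 hl2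
          hlN2
      rcases wit18 (by norm_num) (by norm_num) hp u3 with ⟨l3, g3, w_3⟩ | w_3 | ⟨q3, N3, l3, hq3,
          hqp3, hl3, hlN3, w_3⟩
      · obtain ⟨nn_A3, nn_P3, p3_V, p3_O, p3_e⟩ := pas8 hM hp g3
        have vf_t0_21 := cv28 hM (p := p) (q := p) hp (t0 := s1) (l := n) (fun _ _ => rfl) h10 (a1
            := s2) (a2 := s1) (by omega) (by omega)
        have vf_t0_321 := cv38 hM (p := p) (q := p) hp (t0 := s1) (l := n) (fun _ _ => rfl) h10
            (a1 := s3) (a2 := s2) (a3 := s1) (by omega) (by omega) (by omega)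
        have vf_q2_32 := cv28 hM (p := p) (q := q2) hq2 (t0 := s2) (l := l2) hqp2 hl2 (a1 := s3)
            (a2 := s2) (by omega) (by omega)
        linarith only [r3O, V3O, V3V2, e3e2, e2e1, r0O, V0O, vf_t0_21, vf_t0_321, w34, wV,
          zw_1_a, zw_3_b, xz_1_a, xz_2_b, yx1, yx2, w_3, p3_O, p3_e, w_2, q2_P, q2_U, q2_V,
          vf_q2_32, w_0, nn_w1, nn_w2, O0pos]
      · have vf_t0_21 := cv28 hM (p := p) (q := p) hp (t0 := s1) (l := n) (fun _ _ => rfl) h10 (a1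
            := s2) (a2 := s1) (by omega) (by omega)
        have vf_t0_321 := cv38 hM (p := p) (q := p) hp (t0 := s1) (l := n) (fun _ _ => rfl) h10
            (a1 := s3) (a2 := s2) (a3 := s1) (by omega) (by omega) (by omega)
        have vf_q2_32 := cv28 hM (p := p) (q := q2) hq2 (t0 := s2) (l := l2) hqp2 hl2 (a1 := s3)
            (a2 := s2) (by omega) (by omega)
        linarith only [r3O, V3O, V3V2, e3e2, e2e1, r0O, V0O, vf_t0_21, vf_t0_321, w34, wV,
          zw_1_a, zw_3_b, xz_1_a, xz_2_b, yx1, yx2, w_3, w_2, q2_P, q2_U, q2_V, vf_q2_32, w_0,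
          nn_w1, nn_w2, O0pos]
      · obtain ⟨nn_A3, nn_P3, nn_U3, nn_Q3, q3_O, q3_P, q3_U, q3_V, q3_e⟩ := fut8 hM hq3 hqp3 hl3
            hlN3
        rcases wit38 (by norm_num) (by norm_num) hp h32 h21 u1 with ⟨l1, g1, w_1⟩ | w_1 | ⟨l1, g1,
            gg1, w_1⟩ | w_1 | ⟨l1, g1, gg1, w_1⟩ | w_1 | ⟨q1, N1, l1, hq1, hqp1, hl1, hlN1, w_1⟩
        · obtain ⟨nn_A1, nn_P1, p1_V, p1_O, p1_e⟩ := pas8 hM hp g1
          have vg_t1_0_2_0 := cg8_0_0_1 hmach (q := p) hp (t0 := s2) (l := s1) (fun _ _ => rfl)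
              (by omega) h21 (a1 := s2) (by omega) (by omega)
          have vf_t0_1 := cv18 hM (p := p) (q := p) hp (t0 := s1) (l := n) (fun _ _ => rfl) h10
              (a1 := s1) (by omega)
          have vf_q3_3 := cv18 hM (p := p) (q := q3) hq3 (t0 := s3) (l := l3) hqp3 hl3 (a1 := s3)
              (by omega)
          have vf_q2_32 := cv28 hM (p := p) (q := q2) hq2 (t0 := s2) (l := l2) hqp2 hl2 (a1 := s3)
              (a2 := s2) (by omega) (by omega)
          linarith only [V3V2, e3e2, V2V1, r1O, V1O, r0O, V0O, vg_t1_0_2_0, vf_t0_1, w34, wV,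
            zw_3_b, xz_2_b, xV, yx2, w_3, q3_O, q3_P, q3_U, vf_q3_3, w_2, q2_P, q2_U, q2_V,
            vf_q2_32, w_1, p1_V, p1_O, p1_e, w_0, nn_w1, nn_w2, nn_x1, O0pos]
        · have vg_t1_0_2_0 := cg8_0_0_1 hmach (q := p) hp (t0 := s2) (l := s1) (fun _ _ => rfl)
              (by omega) h21 (a1 := s2) (by omega) (by omega)
          have vf_t0_31 := cv28 hM (p := p) (q := p) hp (t0 := s1) (l := n) (fun _ _ => rfl) h10
              (a1 := s3) (a2 := s1) (by omega) (by omega)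
          have vf_t0_321 := cv38 hM (p := p) (q := p) hp (t0 := s1) (l := n) (fun _ _ => rfl) h10
              (a1 := s3) (a2 := s2) (a3 := s1) (by omega) (by omega) (by omega)
          have vf_q3_3 := cv18 hM (p := p) (q := q3) hq3 (t0 := s3) (l := l3) hqp3 hl3 (a1 := s3)
              (by omega)
          have vf_q2_32 := cv28 hM (p := p) (q := q2) hq2 (t0 := s2) (l := l2) hqp2 hl2 (a1 := s3)
              (a2 := s2) (by omega) (by omega)
          linarith only [r3O, V3V2, e3e2, e2e1, r1O, V1O, r0O, V0O, vg_t1_0_2_0, vf_t0_31,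
            vf_t0_321, wV, zw_3_b, xz_2_b, xV, yx2, w_3, q3_O, q3_P, q3_U, vf_q3_3, w_2, q2_P,
            q2_U, q2_V, vf_q2_32, w_1, w_0, nn_w1, nn_w2, nn_x1, O0pos]
        · obtain ⟨nn_A1, nn_P1, nn_U1, m1_P, m1_e, m1_f, m1_V, m1_W⟩ := mid8 hM hp g1 gg1
          have vf_t0_1 := cv18 hM (p := p) (q := p) hp (t0 := s1) (l := n) (fun _ _ => rfl) h10
              (a1 := s1) (by omega)
          have vf_t0_21 := cv28 hM (p := p) (q := p) hp (t0 := s1) (l := n) (fun _ _ => rfl) h10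
              (a1 := s2) (a2 := s1) (by omega) (by omega)
          have vf_q3_ := cv08 hM (p := p) (q := q3) hq3 (t0 := s3) (l := l3) hqp3 hl3
          have vg_q3_0__0 := cg8_0_0_0 hmach (q := q3) hq3 (t0 := s3) (l := l3) hqp3 (by omega)
              hl3
          have vg_q3_0__1 := cg8_0_1_0 hmach (q := q3) hq3 (t0 := s3) (l := l3) hqp3 (by omega)
              hl3
          have vf_q2_2 := cv18 hM (p := p) (q := q2) hq2 (t0 := s2) (l := l2) hqp2 hl2 (a1 := s2)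
              (by omega)
          have vf_m1_3 := cv18 hM (p := p) (q := p) hp (t0 := s3) (l := l1) (fun _ _ => rfl) g1
              (a1 := s3) (by omega)
          linarith only [V2V1, O2O1, e2e1, V1O, r0O, V0O, vf_t0_1, vf_t0_21, wV, zw_3_b, xz_2_b,
            yx2, w_3, q3_P, q3_U, vf_q3_, vg_q3_0__0, vg_q3_0__1, w_2, q2_P, q2_U, q2_V, vf_q2_2,
            w_1, m1_P, m1_f, m1_V, m1_W, vf_m1_3, w_0, nn_w1, nn_w2, O0pos]
        · have vg_t1_0_2_0 := cg8_0_0_1 hmach (q := p) hp (t0 := s2) (l := s1) (fun _ _ => rfl)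
              (by omega) h21 (a1 := s2) (by omega) (by omega)
          have vf_t0_21 := cv28 hM (p := p) (q := p) hp (t0 := s1) (l := n) (fun _ _ => rfl) h10
              (a1 := s2) (a2 := s1) (by omega) (by omega)
          have vf_q3_ := cv08 hM (p := p) (q := q3) hq3 (t0 := s3) (l := l3) hqp3 hl3
          have vg_q3_0__0 := cg8_0_0_0 hmach (q := q3) hq3 (t0 := s3) (l := l3) hqp3 (by omega)
              hl3
          linarith only [r2O, O2O1, e2e1, V1O, V1V0, r0O, V0O, vg_t1_0_2_0, vf_t0_21, wV, zw_1_a,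
            zw_3_b, xz_1_a, xz_2_b, yx1, yx2, w_3, q3_P, q3_U, vf_q3_, vg_q3_0__0, w_1, w_0,
            nn_w1, nn_w2, O0pos]
        · obtain ⟨nn_A1, nn_P1, nn_U1, m1_P, m1_e, m1_f, m1_V, m1_W⟩ := mid8 hM hp g1 gg1
          have vf_t0_1 := cv18 hM (p := p) (q := p) hp (t0 := s1) (l := n) (fun _ _ => rfl) h10
              (a1 := s1) (by omega)
          have vf_q3_ := cv08 hM (p := p) (q := q3) hq3 (t0 := s3) (l := l3) hqp3 hl3
          have vg_q3_0__0 := cg8_0_0_0 hmach (q := q3) hq3 (t0 := s3) (l := l3) hqp3 (by omega)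
              hl3
          have vf_q2_ := cv08 hM (p := p) (q := q2) hq2 (t0 := s2) (l := l2) hqp2 hl2
          have vf_m1_ := cv08 hM (p := p) (q := p) hp (t0 := s2) (l := l1) (fun _ _ => rfl) g1
          linarith only [V3V2, V1O, V1V0, r0O, V0O, vf_t0_1, wV, zw_3_b, xz_2_b, yx2, w_3, q3_P,
            q3_U, vf_q3_, vg_q3_0__0, w_2, q2_P, q2_U, q2_V, vf_q2_, w_1, m1_P, m1_f, m1_V, m1_W,
            vf_m1_, w_0, nn_w1, nn_w2, O0pos]
        · rcases col28 hM hq3 hmach (fun i hi => hqp3 i (by omega)) hl3 hlN3 (hqp3 _ (by omega))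
              rfl with col3 | col3 | col3 | col3
          · have vf_t0_1 := cv18 hM (p := p) (q := p) hp (t0 := s1) (l := n) (fun _ _ => rfl) h10
                (a1 := s1) (by omega)
            have vf_t0_21 := cv28 hM (p := p) (q := p) hp (t0 := s1) (l := n) (fun _ _ => rfl) h10
                (a1 := s2) (a2 := s1) (by omega) (by omega)
            have vf_q3_ := cv08 hM (p := p) (q := q3) hq3 (t0 := s3) (l := l3) hqp3 hl3
            have vg_q3_2__0 := cg8_2_0_0 hmach (q := q3) hq3 (t0 := s3) (l := l3) hqp3 (by omega)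
                hl3
            have vf_q2_2 := cv18 hM (p := p) (q := q2) hq2 (t0 := s2) (l := l2) hqp2 hl2 (a1 :=
                s2) (by omega)
            linarith only [V3V2, e3e2, V2V1, r1O, V1O, V1V0, r0O, V0O, vf_t0_1, vf_t0_21, wV,
              zw_3_b, xz_2_b, yx2, w_3, q3_P, q3_U, vf_q3_, vg_q3_2__0, w_2, q2_P, q2_U, q2_V,
              vf_q2_2, w_1, w_0, col3, nn_w1, nn_w2, O0pos]
          · have vf_t0_1 := cv18 hM (p := p) (q := p) hp (t0 := s1) (l := n) (fun _ _ => rfl) h10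
                (a1 := s1) (by omega)
            have vf_t0_21 := cv28 hM (p := p) (q := p) hp (t0 := s1) (l := n) (fun _ _ => rfl) h10
                (a1 := s2) (a2 := s1) (by omega) (by omega)
            have vf_q3_ := cv08 hM (p := p) (q := q3) hq3 (t0 := s3) (l := l3) hqp3 hl3
            have vg_q3_1__1 := cg8_1_1_0 hmach (q := q3) hq3 (t0 := s3) (l := l3) hqp3 (by omega)
                hl3
            have vf_q2_2 := cv18 hM (p := p) (q := q2) hq2 (t0 := s2) (l := l2) hqp2 hl2 (a1 :=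
                s2) (by omega)
            linarith only [V3V2, e3e2, V2V1, r1O, V1O, V1V0, r0O, V0O, vf_t0_1, vf_t0_21, wV,
              zw_3_b, xz_2_b, yx2, w_3, q3_P, q3_U, vf_q3_, vg_q3_1__1, w_2, q2_P, q2_U, q2_V,
              vf_q2_2, w_1, w_0, col3, nn_w1, nn_w2, O0pos]
          · have vf_t0_1 := cv18 hM (p := p) (q := p) hp (t0 := s1) (l := n) (fun _ _ => rfl) h10
                (a1 := s1) (by omega)
            have vf_q3_3 := cv18 hM (p := p) (q := q3) hq3 (t0 := s3) (l := l3) hqp3 hl3 (a1 :=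
                s3) (by omega)
            have vg_q3_1__0 := cg8_1_0_0 hmach (q := q3) hq3 (t0 := s3) (l := l3) hqp3 (by omega)
                hl3
            have vf_q2_3 := cv18 hM (p := p) (q := q2) hq2 (t0 := s2) (l := l2) hqp2 hl2 (a1 :=
                s3) (by omega)
            have vf_q2_32 := cv28 hM (p := p) (q := q2) hq2 (t0 := s2) (l := l2) hqp2 hl2 (a1 :=
                s3) (a2 := s2) (by omega) (by omega)
            linarith only [V3V2, e3e2, V2V1, V1O, V1V0, r0O, V0O, vf_t0_1, w34, wV, zw_1_a,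
              zw_3_b, xz_1_a, xz_2_b, yx1, yx2, w_3, q3_P, q3_U, vf_q3_3, vg_q3_1__0, w_2, q2_P,
              q2_U, q2_V, vf_q2_3, vf_q2_32, w_1, w_0, col3, nn_w1, nn_w2, O0pos]
          · have vf_q3_ := cv08 hM (p := p) (q := q3) hq3 (t0 := s3) (l := l3) hqp3 hl3
            have vg_q3_0__0 := cg8_0_0_0 hmach (q := q3) hq3 (t0 := s3) (l := l3) hqp3 (by omega)
                hl3
            linarith only [r0O, V0O, e0V, w34, wV, zw_3_b, xz_2_b, yx2, w_3, q3_U, vf_q3_,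
              vg_q3_0__0, w_0, col3, nn_r3, nn_w1, nn_w2, O0pos]
        · obtain ⟨nn_A1, nn_P1, nn_U1, nn_Q1, q1_O, q1_P, q1_U, q1_V, q1_e⟩ := fut8 hM hq1 hqp1
              hl1 hlN1
          rcases le_total (mn m p s3 + p s3) (ls m p s3 i1) with o_a3L1 | o_L1a3
          · have o_a3e2 : mn m p s3 + p s3 ≤ mn m p s2 := od0 hmach hp (fun _ _ => rfl) h32 le_rfl
                o_a3L1
            have vg_t1_0_2_0 := cg8_0_0_1 hmach (q := p) hp (t0 := s2) (l := s1) (fun _ _ => rfl)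
                (by omega) h21 (a1 := s2) (by omega) (by omega)
            have vf_t0_21 := cv28 hM (p := p) (q := p) hp (t0 := s1) (l := n) (fun _ _ => rfl) h10
                (a1 := s2) (a2 := s1) (by omega) (by omega)
            have vf_q3_ := cv08 hM (p := p) (q := q3) hq3 (t0 := s3) (l := l3) hqp3 hl3
            have vg_q3_0__1 := cg8_0_1_0 hmach (q := q3) hq3 (t0 := s3) (l := l3) hqp3 (by omega)
                hl3
            have vf_q2_2 := cv18 hM (p := p) (q := q2) hq2 (t0 := s2) (l := l2) hqp2 hl2 (a1 :=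
                s2) (by omega)
            have vf_q1_21 := cv28 hM (p := p) (q := q1) hq1 (t0 := s1) (l := l1) hqp1 hl1 (a1 :=
                s2) (a2 := s1) (by omega) (by omega)
            linarith only [V3V2, e2e1, r1O, r0O, V0O, vg_t1_0_2_0, vf_t0_21, w34, wV, zw_3_b,
              xz_2_b, yx2, w_3, q3_P, q3_U, vf_q3_, vg_q3_0__1, w_2, q2_P, q2_U, q2_V, vf_q2_2,
              w_1, q1_O, q1_P, q1_U, q1_V, vf_q1_21, w_0, o_a3e2, nn_e3, nn_w1, nn_w2, O0pos]
          · have o_L1e2 : ls m p s3 i1 ≤ mn m p s2 := od0 hmach hp (fun _ _ => rfl) h32 o_L1a3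
                le_rfl
            have o_L1A3 : ls m p s3 i1 ≤ mn m q3 l3 := od0 hmach hq3 hqp3 hl3 o_L1a3 le_rfl
            rcases le_total (mn m p s3 + p s3) (ls m p s3 i2) with o_a3L2 | o_L2a3
            · rcases le_total (mn m p s3 + p s3) (mn m p s2 + p s2) with o_a3a2 | o_a2a3
              · have o_a3e1 : mn m p s3 + p s3 ≤ mn m p s1 := od1 hmach hp (fun _ _ => rfl) h32
                    h21 le_rfl o_a3L2 le_rfl o_a3a2
                have o_a3A2 : mn m p s3 + p s3 ≤ mn m q2 l2 := od1 hmach hq2 hqp2 h32 hl2 le_rfl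
                    o_a3L2 le_rfl o_a3a2
                have vf_t0_1 := cv18 hM (p := p) (q := p) hp (t0 := s1) (l := n) (fun _ _ => rfl)
                    h10 (a1 := s1) (by omega)
                have vf_q3_ := cv08 hM (p := p) (q := q3) hq3 (t0 := s3) (l := l3) hqp3 hl3
                have vg_q3_1__1 := cg8_1_1_0 hmach (q := q3) hq3 (t0 := s3) (l := l3) hqp3 (by
                    omega) hl3
                have vf_q2_ := cv08 hM (p := p) (q := q2) hq2 (t0 := s2) (l := l2) hqp2 hl2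
                have vg_q2_1__1 := cg8_1_1_0 hmach (q := q2) hq2 (t0 := s2) (l := l2) hqp2 (by
                    omega) hl2
                have vf_q1_1 := cv18 hM (p := p) (q := q1) hq1 (t0 := s1) (l := l1) hqp1 hl1 (a1
                    := s1) (by omega)
                have vf_q1_21 := cv28 hM (p := p) (q := q1) hq1 (t0 := s1) (l := l1) hqp1 hl1 (a1
                    := s2) (a2 := s1) (by omega) (by omega)
                linarith only [V3V2, V2V1, r1O, r0O, V0O, vf_t0_1, w34, wV, zw_3_b, xz_2_b, yx2,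
                  w_3, q3_P, q3_U, vf_q3_, vg_q3_1__1, w_2, q2_P, q2_U, vf_q2_, vg_q2_1__1, w_1,
                  q1_O, q1_P, q1_U, q1_V, vf_q1_1, vf_q1_21, w_0, o_L1e2, o_a3e1, nn_e3, nn_w1,
                  nn_w2, O0pos]
              · have o_a2e1 : mn m p s2 + p s2 ≤ mn m p s1 := od1 hmach hp (fun _ _ => rfl) h32
                    h21 le_rfl o_a3L2 o_a2a3 le_rfl
                have o_a2A2 : mn m p s2 + p s2 ≤ mn m q2 l2 := od1 hmach hq2 hqp2 h32 hl2 le_rfl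
                    o_a3L2 o_a2a3 le_rfl
                have vf_t0_1 := cv18 hM (p := p) (q := p) hp (t0 := s1) (l := n) (fun _ _ => rfl)
                    h10 (a1 := s1) (by omega)
                have vf_q3_ := cv08 hM (p := p) (q := q3) hq3 (t0 := s3) (l := l3) hqp3 hl3
                have vg_q3_1__1 := cg8_1_1_0 hmach (q := q3) hq3 (t0 := s3) (l := l3) hqp3 (by
                    omega) hl3
                have vf_q2_3 := cv18 hM (p := p) (q := q2) hq2 (t0 := s2) (l := l2) hqp2 hl2 (a1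
                    := s3) (by omega)
                have vg_q2_1__1 := cg8_1_1_0 hmach (q := q2) hq2 (t0 := s2) (l := l2) hqp2 (by
                    omega) hl2
                have vf_q1_1 := cv18 hM (p := p) (q := q1) hq1 (t0 := s1) (l := l1) hqp1 hl1 (a1
                    := s1) (by omega)
                have vf_q1_31 := cv28 hM (p := p) (q := q1) hq1 (t0 := s1) (l := l1) hqp1 hl1 (a1
                    := s3) (a2 := s1) (by omega) (by omega)
                linarith only [V3V2, V2V1, r1O, r0O, V0O, vf_t0_1, wV, zw_3_b, xz_2_b, yx2, w_3,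
                  q3_P, q3_U, vf_q3_, vg_q3_1__1, w_2, q2_P, q2_U, vf_q2_3, vg_q2_1__1, w_1,
                  q1_O, q1_P, q1_U, q1_V, vf_q1_1, vf_q1_31, w_0, o_L1e2, o_a2e1, nn_e2, nn_w1,
                  nn_w2, O0pos]
            · rcases le_total (mn m p s2 + p s2) (ls m p s3 i2) with o_a2L2 | o_L2a2
              · have o_a2e1 : mn m p s2 + p s2 ≤ mn m p s1 := od1 hmach hp (fun _ _ => rfl) h32
                    h21 o_L2a3 le_rfl o_a2L2 le_rfl
                have o_a2A2 : mn m p s2 + p s2 ≤ mn m q2 l2 := od1 hmach hq2 hqp2 h32 hl2 o_L2a3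
                    le_rfl o_a2L2 le_rfl
                have vf_t0_1 := cv18 hM (p := p) (q := p) hp (t0 := s1) (l := n) (fun _ _ => rfl)
                    h10 (a1 := s1) (by omega)
                have vf_q3_ := cv08 hM (p := p) (q := q3) hq3 (t0 := s3) (l := l3) hqp3 hl3
                have vg_q3_1__1 := cg8_1_1_0 hmach (q := q3) hq3 (t0 := s3) (l := l3) hqp3 (by
                    omega) hl3
                have vf_q2_3 := cv18 hM (p := p) (q := q2) hq2 (t0 := s2) (l := l2) hqp2 hl2 (a1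
                    := s3) (by omega)
                have vg_q2_1__1 := cg8_1_1_0 hmach (q := q2) hq2 (t0 := s2) (l := l2) hqp2 (by
                    omega) hl2
                have vf_q1_1 := cv18 hM (p := p) (q := q1) hq1 (t0 := s1) (l := l1) hqp1 hl1 (a1
                    := s1) (by omega)
                have vf_q1_31 := cv28 hM (p := p) (q := q1) hq1 (t0 := s1) (l := l1) hqp1 hl1 (a1
                    := s3) (a2 := s1) (by omega) (by omega)
                linarith only [V3V2, V2V1, r1O, r0O, V0O, vf_t0_1, wV, zw_3_b, xz_2_b, yx2, w_3,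
                  q3_P, q3_U, vf_q3_, vg_q3_1__1, w_2, q2_P, q2_U, vf_q2_3, vg_q2_1__1, w_1,
                  q1_O, q1_P, q1_U, q1_V, vf_q1_1, vf_q1_31, w_0, o_L1e2, o_a2e1, nn_e2, nn_w1,
                  nn_w2, O0pos]
              · have o_L2e1 : ls m p s3 i2 ≤ mn m p s1 := od1 hmach hp (fun _ _ => rfl) h32 h21
                    o_L2a3 le_rfl le_rfl o_L2a2
                have o_L2A2 : ls m p s3 i2 ≤ mn m q2 l2 := od1 hmach hq2 hqp2 h32 hl2 o_L2a3
                    le_rfl le_rfl o_L2a2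
                have vf_t0_1 := cv18 hM (p := p) (q := p) hp (t0 := s1) (l := n) (fun _ _ => rfl)
                    h10 (a1 := s1) (by omega)
                have vf_q3_ := cv08 hM (p := p) (q := q3) hq3 (t0 := s3) (l := l3) hqp3 hl3
                have vg_q3_2__0 := cg8_2_0_0 hmach (q := q3) hq3 (t0 := s3) (l := l3) hqp3 (by
                    omega) hl3
                have vf_q2_3 := cv18 hM (p := p) (q := q2) hq2 (t0 := s2) (l := l2) hqp2 hl2 (a1
                    := s3) (by omega)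
                have vg_q2_2_2_1 := cg8_2_1_1 hmach (q := q2) hq2 (t0 := s2) (l := l2) hqp2 (by
                    omega) hl2 (a1 := s2) (by omega) (by omega)
                have vf_q1_31 := cv28 hM (p := p) (q := q1) hq1 (t0 := s1) (l := l1) hqp1 hl1 (a1
                    := s3) (a2 := s1) (by omega) (by omega)
                have vf_q1_321 := cv38 hM (p := p) (q := q1) hq1 (t0 := s1) (l := l1) hqp1 hl1 (a1
                    := s3) (a2 := s2) (a3 := s1) (by omega) (by omega) (by omega)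
                linarith only [V3V2, V2V1, r1O, r0O, V0O, vf_t0_1, w34, wV, zw_3_b, xz_2_b, yx2,
                  w_3, q3_P, q3_U, vf_q3_, vg_q3_2__0, w_2, q2_P, q2_U, vf_q2_3, vg_q2_2_2_1,
                  w_1, q1_O, q1_P, q1_U, q1_V, vf_q1_31, vf_q1_321, w_0, o_L1e2, o_L2e1, nn_e3,
                  nn_e2, nn_w1, nn_w2, O0pos]
  · obtain ⟨nn_A0, nn_P0, nn_U0, nn_Q0, q0_O, q0_P, q0_U, q0_V, q0_e⟩ := fut8 hM hq0 hqp0 hl0 hlN0
    rcases wit28 (by norm_num) (by norm_num) hp h32 u2 with ⟨l2, g2, w_2⟩ | w_2 | ⟨l2, g2, gg2,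
        w_2⟩ | w_2 | ⟨q2, N2, l2, hq2, hqp2, hl2, hlN2, w_2⟩
    · obtain ⟨nn_A2, nn_P2, p2_V, p2_O, p2_e⟩ := pas8 hM hp g2
      have vf_q0_210 := cv38 hM (p := p) (q := q0) hq0 (t0 := n) (l := l0) hqp0 hl0 (a1 := s2) (a2
          := s1) (a3 := n) (by omega) (by omega) (by omega)
      linarith only [O3O2, e3e2, r2O, V2O, e2e1, V1V0, e1e0, r0O, z12, zV, xz_1_a, xz_2_b,
        xz_2_c, xV, yx1, yx2, w_2, p2_O, p2_e, w_0, q0_O, q0_P, q0_U, q0_V, vf_q0_210, O0pos]
    · have vf_q0_30 := cv28 hM (p := p) (q := q0) hq0 (t0 := n) (l := l0) hqp0 hl0 (a1 := s3) (a2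
          := n) (by omega) (by omega)
      have vf_q0_310 := cv38 hM (p := p) (q := q0) hq0 (t0 := n) (l := l0) hqp0 hl0 (a1 := s3) (a2
          := s1) (a3 := n) (by omega) (by omega) (by omega)
      have vf_q0_3210 := cv48 hM (p := p) (q := q0) hq0 (t0 := n) (l := l0) hqp0 hl0 (a1 := s3)
          (a2 := s2) (a3 := s1) (a4 := n) (by omega) (by omega) (by omega) (by omega)
      linarith only [r3O, O3O2, e3e2, r2O, V2O, e2e1, e1e0, r0O, zV, xz_1_a, xz_2_b, xz_2_c, yx1,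
        yx2, w_2, w_0, q0_O, q0_P, q0_U, vf_q0_30, vf_q0_310, vf_q0_3210, O0pos]
    · obtain ⟨nn_A2, nn_P2, nn_U2, m2_P, m2_e, m2_f, m2_V, m2_W⟩ := mid8 hM hp g2 gg2
      have vg_m2_0__0 := cg8_0_0_0 hmach (q := p) hp (t0 := s3) (l := l2) (fun _ _ => rfl) (by
          omega) g2
      have vf_q0_20 := cv28 hM (p := p) (q := q0) hq0 (t0 := n) (l := l0) hqp0 hl0 (a1 := s2) (a2
          := n) (by omega) (by omega)
      have vf_q0_210 := cv38 hM (p := p) (q := q0) hq0 (t0 := n) (l := l0) hqp0 hl0 (a1 := s2) (a2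
          := s1) (a3 := n) (by omega) (by omega) (by omega)
      linarith only [r2O, V2O, e2e1, e1e0, r0O, wV, zw_3_b, zw_3_s, z12, xz_1_a, xz_2_b, xz_2_c,
        yx1, yx2, w_2, m2_P, m2_f, m2_W, vg_m2_0__0, w_0, q0_O, q0_P, q0_U, vf_q0_20, vf_q0_210,
        O0pos]
    · have vf_q0_210 := cv38 hM (p := p) (q := q0) hq0 (t0 := n) (l := l0) hqp0 hl0 (a1 := s2) (a2
          := s1) (a3 := n) (by omega) (by omega) (by omega)
      linarith only [r2O, V2O, e2e1, V1V0, e1e0, r0O, z12, zV, xz_1_a, xz_2_b, xz_2_c, xV, yx1,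
        yx2, w_2, w_0, q0_O, q0_P, q0_U, q0_V, vf_q0_210, O0pos]
    · obtain ⟨nn_A2, nn_P2, nn_U2, nn_Q2, q2_O, q2_P, q2_U, q2_V, q2_e⟩ := fut8 hM hq2 hqp2 hl2
          hlN2
      rcases wit18 (by norm_num) (by norm_num) hp u3 with ⟨l3, g3, w_3⟩ | w_3 | ⟨q3, N3, l3, hq3,
          hqp3, hl3, hlN3, w_3⟩
      · obtain ⟨nn_A3, nn_P3, p3_V, p3_O, p3_e⟩ := pas8 hM hp g3
        have vf_q2_32 := cv28 hM (p := p) (q := q2) hq2 (t0 := s2) (l := l2) hqp2 hl2 (a1 := s3)
            (a2 := s2) (by omega) (by omega)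
        have vf_q0_10 := cv28 hM (p := p) (q := q0) hq0 (t0 := n) (l := l0) hqp0 hl0 (a1 := s1)
            (a2 := n) (by omega) (by omega)
        have vf_q0_3210 := cv48 hM (p := p) (q := q0) hq0 (t0 := n) (l := l0) hqp0 hl0 (a1 := s3)
            (a2 := s2) (a3 := s1) (a4 := n) (by omega) (by omega) (by omega) (by omega)
        linarith only [r3O, V3O, V3V2, e3e2, e2e1, e1e0, r0O, w34, wV, zw_1_a, zw_3_b, xz_1_a,
          xz_2_b, yx1, yx2, w_3, p3_O, p3_e, w_2, q2_P, q2_U, q2_V, vf_q2_32, w_0, q0_O, q0_P,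
          q0_U, vf_q0_10, vf_q0_3210, nn_w1, nn_w2, O0pos]
      · have vf_q2_32 := cv28 hM (p := p) (q := q2) hq2 (t0 := s2) (l := l2) hqp2 hl2 (a1 := s3)
            (a2 := s2) (by omega) (by omega)
        have vf_q0_210 := cv38 hM (p := p) (q := q0) hq0 (t0 := n) (l := l0) hqp0 hl0 (a1 := s2)
            (a2 := s1) (a3 := n) (by omega) (by omega) (by omega)
        have vf_q0_3210 := cv48 hM (p := p) (q := q0) hq0 (t0 := n) (l := l0) hqp0 hl0 (a1 := s3)
            (a2 := s2) (a3 := s1) (a4 := n) (by omega) (by omega) (by omega) (by omega)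
        linarith only [r3O, V3O, V3V2, e3e2, e2e1, e1e0, r0O, w34, wV, zw_1_a, zw_3_b, xz_1_a,
          xz_2_b, yx1, yx2, w_3, w_2, q2_P, q2_U, q2_V, vf_q2_32, w_0, q0_O, q0_P, q0_U,
          vf_q0_210, vf_q0_3210, nn_w1, nn_w2, O0pos]
      · obtain ⟨nn_A3, nn_P3, nn_U3, nn_Q3, q3_O, q3_P, q3_U, q3_V, q3_e⟩ := fut8 hM hq3 hqp3 hl3
            hlN3
        have vg_t1_0_2_0 := cg8_0_0_1 hmach (q := p) hp (t0 := s2) (l := s1) (fun _ _ => rfl) (by
            omega) h21 (a1 := s2) (by omega) (by omega)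
        have vg_t0_0_21_0 := cg8_0_0_2 hmach (q := p) hp (t0 := s1) (l := n) (fun _ _ => rfl) (by
            omega) h10 (a1 := s2) (a2 := s1) (by omega) (by omega) (by omega)
        have vf_q3_ := cv08 hM (p := p) (q := q3) hq3 (t0 := s3) (l := l3) hqp3 hl3
        have vg_q3_0__0 := cg8_0_0_0 hmach (q := q3) hq3 (t0 := s3) (l := l3) hqp3 (by omega) hl3
        have vf_q2_ := cv08 hM (p := p) (q := q2) hq2 (t0 := s2) (l := l2) hqp2 hl2
        have vf_q0_0 := cv18 hM (p := p) (q := q0) hq0 (t0 := n) (l := l0) hqp0 hl0 (a1 := n) (by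
            omega)
        linarith only [V3V2, V1V0, r0O, vg_t1_0_2_0, vg_t0_0_21_0, wV, zw_1_a, zw_3_b, xz_1_a,
          xz_2_b, yx1, yx2, w_3, q3_P, q3_U, vf_q3_, vg_q3_0__0, w_2, q2_P, q2_U, q2_V, vf_q2_,
          w_0, q0_O, q0_P, q0_U, q0_V, vf_q0_0, nn_e2, nn_e1, nn_w1, nn_w2, O0pos]

end Pool.Agent.Lib_MP_25a3c1_mix
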