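import Pool.Agent.Lib_MP_25a3c1_mix.Grow8

/-!
The key estimates for `m = 8`, `lam = 23 / 40` and `R = 721 / 400`.
-/

set_option linter.unusedVariables false

namespace Pool.Agent.Lib_MP_25a3c1_mix

open Pool.Agent.Lib_MP_25a3c1 Finset

variable {m : ℕ} [NeZero m]

theorem case8_31 (hM : (m : ℝ) = 8) {p : ℕ → ℝ} (hp : ∀ i, 0 < p i) {s3 s2 s1 n : ℕ}
    (h32 : s3 < s2) (h21 : s2 < s1) (h10 : s1 < n) {w1 w2 w3 w4 z1 z2 z3 x1 x2 y : ℝ}
    (hw : B48 p s3 w1 w2 w3 w4) (hz : B38 p s2 z1 z2 z3) (hx : B28 p s1 x1 x2)
    (nn_y : 0 ≤ y) (yx1 : y ≤ x1 + p s1) (yx2 : y ≤ x2)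
    (t3 : T338 w1 w2 w3 w4 z1 z2 z3 (p s3)) (t2 : T218 z1 z2 z3 x1 x2 (p s2))
    (u3 : ¬ Safe m (23 / 40) (721 / 400) (s3 + 1) p (w4 + p s3))
    (u2 : ¬ Safe m (23 / 40) (721 / 400) (s2 + 1) p (z2 + p s2))
    (u1 : ¬ Safe m (23 / 40) (721 / 400) (s1 + 1) p (x2 + p s1))
    (h0 : (721 / 400 * opt m p (n + 1) < 23 / 40 * (mn m p n + p n) + (1 - 23 / 40) * (y + p n)) ∨
      ∃ q : ℕ → ℝ, ∃ N l, (∀ i, 0 < q i) ∧ (∀ i < n + 1, q i = p i) ∧ n < l ∧ l < N ∧
      721 / 400 * opt m q N < 23 / 40 * (mn m q l + q l) + (1 - 23 / 40) * (y + p n)) :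
    False := by
  obtain ⟨nn_r3, nn_e3, nn_V3, nn_O3, r3O, V3O, e3V⟩ := bas8 hM hp s3
  obtain ⟨nn_r2, nn_e2, nn_V2, nn_O2, r2O, V2O, e2V⟩ := bas8 hM hp s2
  obtain ⟨nn_r1, nn_e1, nn_V1, nn_O1, r1O, V1O, e1V⟩ := bas8 hM hp s1
  obtain ⟨nn_r0, nn_e0, nn_V0, nn_O0, r0O, V0O, e0V⟩ := bas8 hM hp n
  obtain ⟨V3V2, O3O2, e3e2⟩ := stp8 hM hp h32
  obtain ⟨V2V1, O2O1, e2e1⟩ := stp8 hM hp h21
  obtain ⟨V1V0, O1O0, e1e0⟩ := stp8 hM hp h10
  have O0pos : 0 < opt m p (n + 1) := (hp n).trans_le r0O
  obtain ⟨κ, i1, i2, i3, i4, hmach⟩ := exists_mach8 hM p s3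
  obtain ⟨eL1, L12, L23, L34, Lsum, nn_L1, nn_L2, nn_L3, nn_L4⟩ := hmach.facts hM hp
  obtain ⟨nn_w1, nn_w2, nn_w3, nn_w4, w12, w23, w34, wV⟩ := hw
  obtain ⟨nn_z1, nn_z2, nn_z3, z12, z23, zV⟩ := hz
  obtain ⟨nn_x1, nn_x2, x12, xV⟩ := hx
  obtain ⟨zw_1_a, zw_2_a, zw_3_b, zw_3_c⟩ := t3
  obtain ⟨xz_1_b, xz_1_c, xz_2_b, xz_2_s⟩ := t2
  rcases h0 with w_0 | ⟨q0, N0, l0, hq0, hqp0, hl0, hlN0, w_0⟩
  · rcases wit28 (by norm_num) (by norm_num) hp h32 u2 with ⟨l2, g2, w_2⟩ | w_2 | ⟨l2, g2, gg2,
        w_2⟩ | w_2 | ⟨q2, N2, l2, hq2, hqp2, hl2, hlN2, w_2⟩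
    · obtain ⟨nn_A2, nn_P2, p2_V, p2_O, p2_e⟩ := pas8 hM hp g2
      rcases wit18 (by norm_num) (by norm_num) hp u3 with ⟨l3, g3, w_3⟩ | w_3 | ⟨q3, N3, l3, hq3,
          hqp3, hl3, hlN3, w_3⟩
      · obtain ⟨nn_A3, nn_P3, p3_V, p3_O, p3_e⟩ := pas8 hM hp g3
        have vf_t0_2 := cv18 hM (p := p) (q := p) hp (t0 := s1) (l := n) (fun _ _ => rfl) h10 (a1
            := s2) (by omega)
        linarith only [V3O, V3V2, e3e2, r2O, V2O, r0O, V0O, vf_t0_2, w23, w34, wV, zw_2_a,
          zw_3_b, xz_2_b, yx2, w_3, p3_V, p3_O, p3_e, w_2, p2_V, p2_O, w_0, nn_w1, O0pos]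
      · have vf_t0_32 := cv28 hM (p := p) (q := p) hp (t0 := s1) (l := n) (fun _ _ => rfl) h10 (a1
            := s3) (a2 := s2) (by omega) (by omega)
        linarith only [V3O, V3V2, e3e2, r2O, V2O, r0O, V0O, vf_t0_32, w23, w34, wV, zw_2_a,
          zw_3_b, xz_2_b, yx2, w_3, w_2, p2_V, p2_O, p2_e, w_0, nn_w1, O0pos]
      · obtain ⟨nn_A3, nn_P3, nn_U3, nn_Q3, q3_O, q3_P, q3_U, q3_V, q3_e⟩ := fut8 hM hq3 hqp3 hl3
            hlN3
        have vf_t0_2 := cv18 hM (p := p) (q := p) hp (t0 := s1) (l := n) (fun _ _ => rfl) h10 (a1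
            := s2) (by omega)
        have vf_t0_32 := cv28 hM (p := p) (q := p) hp (t0 := s1) (l := n) (fun _ _ => rfl) h10 (a1
            := s3) (a2 := s2) (by omega) (by omega)
        have vf_q3_3 := cv18 hM (p := p) (q := q3) hq3 (t0 := s3) (l := l3) hqp3 hl3 (a1 := s3)
            (by omega)
        have vg_q3_0__0 := cg8_0_0_0 hmach (q := q3) hq3 (t0 := s3) (l := l3) hqp3 (by omega) hl3
        linarith only [V3V2, e3e2, r2O, V2O, r0O, V0O, vf_t0_2, vf_t0_32, w23, wV, zw_2_a,
          zw_3_b, xz_2_b, yx2, w_3, q3_O, q3_P, q3_U, vf_q3_3, vg_q3_0__0, w_2, p2_V, p2_O, p2_e,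
          w_0, nn_w1, O0pos]
    · have vg_t1_0_2_0 := cg8_0_0_1 hmach (q := p) hp (t0 := s2) (l := s1) (fun _ _ => rfl) (by
          omega) h21 (a1 := s2) (by omega) (by omega)
      have vf_t0_32 := cv28 hM (p := p) (q := p) hp (t0 := s1) (l := n) (fun _ _ => rfl) h10 (a1
          := s3) (a2 := s2) (by omega) (by omega)
      have vf_t0_321 := cv38 hM (p := p) (q := p) hp (t0 := s1) (l := n) (fun _ _ => rfl) h10 (a1
          := s3) (a2 := s2) (a3 := s1) (by omega) (by omega) (by omega)
      linarith only [r3O, V3V2, O3O2, e3e2, V2O, e2e1, V1V0, r0O, V0O, vg_t1_0_2_0, vf_t0_32,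
        vf_t0_321, w23, w34, wV, zw_1_a, zw_2_a, zw_3_b, xz_2_b, xz_2_s, yx1, yx2, w_2, w_0,
        nn_w1, O0pos]
    · obtain ⟨nn_A2, nn_P2, nn_U2, m2_P, m2_e, m2_f, m2_V, m2_W⟩ := mid8 hM hp g2 gg2
      have vf_t0_2 := cv18 hM (p := p) (q := p) hp (t0 := s1) (l := n) (fun _ _ => rfl) h10 (a1 :=
          s2) (by omega)
      have vf_m2_ := cv08 hM (p := p) (q := p) hp (t0 := s3) (l := l2) (fun _ _ => rfl) g2
      have vg_m2_0__0 := cg8_0_0_0 hmach (q := p) hp (t0 := s3) (l := l2) (fun _ _ => rfl) (by
          omega) g2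
      linarith only [V2O, V2V1, V1V0, r0O, V0O, vf_t0_2, w23, w34, wV, zw_2_a, zw_3_b, xz_2_b,
        yx2, w_2, m2_P, m2_f, m2_W, vf_m2_, vg_m2_0__0, w_0, nn_r3, nn_r1, nn_w1, O0pos]
    · rcases wit18 (by norm_num) (by norm_num) hp u3 with ⟨l3, g3, w_3⟩ | w_3 | ⟨q3, N3, l3, hq3,
          hqp3, hl3, hlN3, w_3⟩
      · obtain ⟨nn_A3, nn_P3, p3_V, p3_O, p3_e⟩ := pas8 hM hp g3
        have vf_t0_32 := cv28 hM (p := p) (q := p) hp (t0 := s1) (l := n) (fun _ _ => rfl) h10 (a1
            := s3) (a2 := s2) (by omega) (by omega)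
        have vf_t0_321 := cv38 hM (p := p) (q := p) hp (t0 := s1) (l := n) (fun _ _ => rfl) h10
            (a1 := s3) (a2 := s2) (a3 := s1) (by omega) (by omega) (by omega)
        linarith only [V3O, V3V2, r2O, V2O, e2e1, r0O, V0O, vf_t0_32, vf_t0_321, w23, wV, zw_1_a,
          zw_2_a, zw_3_b, zV, xz_2_b, xz_2_s, yx1, yx2, w_3, p3_V, p3_O, p3_e, w_2, w_0, nn_w1,
          O0pos]
      · have vf_t0_32 := cv28 hM (p := p) (q := p) hp (t0 := s1) (l := n) (fun _ _ => rfl) h10 (a1
            := s3) (a2 := s2) (by omega) (by omega)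
        have vf_t0_321 := cv38 hM (p := p) (q := p) hp (t0 := s1) (l := n) (fun _ _ => rfl) h10
            (a1 := s3) (a2 := s2) (a3 := s1) (by omega) (by omega) (by omega)
        linarith only [V3O, V3V2, e3e2, r2O, V2O, e2e1, r0O, V0O, vf_t0_32, vf_t0_321, w23, wV,
          zw_1_a, zw_2_a, zw_3_b, xz_1_b, xz_2_b, xz_2_s, yx1, yx2, w_3, w_2, w_0, nn_w1, O0pos]
      · obtain ⟨nn_A3, nn_P3, nn_U3, nn_Q3, q3_O, q3_P, q3_U, q3_V, q3_e⟩ := fut8 hM hq3 hqp3 hl3
            hlN3
        have vg_t1_0_2_0 := cg8_0_0_1 hmach (q := p) hp (t0 := s2) (l := s1) (fun _ _ => rfl) (by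
            omega) h21 (a1 := s2) (by omega) (by omega)
        have vf_t0_2 := cv18 hM (p := p) (q := p) hp (t0 := s1) (l := n) (fun _ _ => rfl) h10 (a1
            := s2) (by omega)
        have vf_t0_21 := cv28 hM (p := p) (q := p) hp (t0 := s1) (l := n) (fun _ _ => rfl) h10 (a1
            := s2) (a2 := s1) (by omega) (by omega)
        have vf_q3_ := cv08 hM (p := p) (q := q3) hq3 (t0 := s3) (l := l3) hqp3 hl3
        have vg_q3_0__0 := cg8_0_0_0 hmach (q := q3) hq3 (t0 := s3) (l := l3) hqp3 (by omega) hl3
        linarith only [V3V2, r2O, V2O, e2e1, V1V0, r0O, V0O, vg_t1_0_2_0, vf_t0_2, vf_t0_21, w23,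
          wV, zw_2_a, zw_3_b, xz_1_b, xz_2_b, yx1, yx2, w_3, q3_P, q3_U, vf_q3_, vg_q3_0__0, w_2,
          w_0, nn_w1, O0pos]
    · obtain ⟨nn_A2, nn_P2, nn_U2, nn_Q2, q2_O, q2_P, q2_U, q2_V, q2_e⟩ := fut8 hM hq2 hqp2 hl2
          hlN2
      rcases wit18 (by norm_num) (by norm_num) hp u3 with ⟨l3, g3, w_3⟩ | w_3 | ⟨q3, N3, l3, hq3,
          hqp3, hl3, hlN3, w_3⟩
      · obtain ⟨nn_A3, nn_P3, p3_V, p3_O, p3_e⟩ := pas8 hM hp g3
        have vf_t0_32 := cv28 hM (p := p) (q := p) hp (t0 := s1) (l := n) (fun _ _ => rfl) h10 (a1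
            := s3) (a2 := s2) (by omega) (by omega)
        have vf_q2_32 := cv28 hM (p := p) (q := q2) hq2 (t0 := s2) (l := l2) hqp2 hl2 (a1 := s3)
            (a2 := s2) (by omega) (by omega)
        linarith only [V3O, V3V2, e3e2, r2O, r0O, V0O, vf_t0_32, w23, w34, wV, zw_2_a, zw_3_b,
          xz_2_b, yx2, w_3, p3_V, p3_O, p3_e, w_2, q2_O, q2_P, q2_U, q2_V, vf_q2_32, w_0, nn_w1,
          O0pos]
      · have vf_t0_32 := cv28 hM (p := p) (q := p) hp (t0 := s1) (l := n) (fun _ _ => rfl) h10 (a1
            := s3) (a2 := s2) (by omega) (by omega)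
        have vf_q2_32 := cv28 hM (p := p) (q := q2) hq2 (t0 := s2) (l := l2) hqp2 hl2 (a1 := s3)
            (a2 := s2) (by omega) (by omega)
        linarith only [r3O, V3O, V3V2, e3e2, r2O, r0O, V0O, vf_t0_32, w23, w34, wV, zw_2_a,
          zw_3_b, xz_2_b, yx2, w_3, w_2, q2_O, q2_P, q2_U, q2_V, vf_q2_32, w_0, nn_w1, O0pos]
      · obtain ⟨nn_A3, nn_P3, nn_U3, nn_Q3, q3_O, q3_P, q3_U, q3_V, q3_e⟩ := fut8 hM hq3 hqp3 hl3
            hlN3
        rcases wit38 (by norm_num) (by norm_num) hp h32 h21 u1 with ⟨l1, g1, w_1⟩ | w_1 | ⟨l1, g1,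
            gg1, w_1⟩ | w_1 | ⟨l1, g1, gg1, w_1⟩ | w_1 | ⟨q1, N1, l1, hq1, hqp1, hl1, hlN1, w_1⟩
        · obtain ⟨nn_A1, nn_P1, p1_V, p1_O, p1_e⟩ := pas8 hM hp g1
          have vg_t1_0_2_0 := cg8_0_0_1 hmach (q := p) hp (t0 := s2) (l := s1) (fun _ _ => rfl)
              (by omega) h21 (a1 := s2) (by omega) (by omega)
          have vf_t0_1 := cv18 hM (p := p) (q := p) hp (t0 := s1) (l := n) (fun _ _ => rfl) h10
              (a1 := s1) (by omega)
          have vf_t0_21 := cv28 hM (p := p) (q := p) hp (t0 := s1) (l := n) (fun _ _ => rfl) h10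
              (a1 := s2) (a2 := s1) (by omega) (by omega)
          have vf_q3_3 := cv18 hM (p := p) (q := q3) hq3 (t0 := s3) (l := l3) hqp3 hl3 (a1 := s3)
              (by omega)
          have vf_q2_32 := cv28 hM (p := p) (q := q2) hq2 (t0 := s2) (l := l2) hqp2 hl2 (a1 := s3)
              (a2 := s2) (by omega) (by omega)
          linarith only [V3V2, e3e2, V2V1, r1O, V1O, r0O, V0O, vg_t1_0_2_0, vf_t0_1, vf_t0_21,
            w23, wV, zw_2_a, zw_3_b, zV, xz_2_b, yx2, w_3, q3_O, q3_P, q3_U, vf_q3_3, w_2, q2_P,
            q2_U, q2_V, vf_q2_32, w_1, p1_V, p1_O, p1_e, w_0, nn_w1, nn_z1, O0pos]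
        · have vg_t1_0_2_0 := cg8_0_0_1 hmach (q := p) hp (t0 := s2) (l := s1) (fun _ _ => rfl)
              (by omega) h21 (a1 := s2) (by omega) (by omega)
          have vf_t0_32 := cv28 hM (p := p) (q := p) hp (t0 := s1) (l := n) (fun _ _ => rfl) h10
              (a1 := s3) (a2 := s2) (by omega) (by omega)
          have vf_t0_321 := cv38 hM (p := p) (q := p) hp (t0 := s1) (l := n) (fun _ _ => rfl) h10
              (a1 := s3) (a2 := s2) (a3 := s1) (by omega) (by omega) (by omega)
          have vf_q2_32 := cv28 hM (p := p) (q := q2) hq2 (t0 := s2) (l := l2) hqp2 hl2 (a1 := s3)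
              (a2 := s2) (by omega) (by omega)
          linarith only [V3V2, e3e2, r2O, V2V1, r1O, V1O, r0O, V0O, e0V, vg_t1_0_2_0, vf_t0_32,
            vf_t0_321, w23, wV, zw_2_a, zw_3_b, xz_2_b, yx2, w_2, q2_O, q2_P, q2_U, q2_V,
            vf_q2_32, w_1, w_0, nn_w1, O0pos]
        · obtain ⟨nn_A1, nn_P1, nn_U1, m1_P, m1_e, m1_f, m1_V, m1_W⟩ := mid8 hM hp g1 gg1
          have vf_t0_2 := cv18 hM (p := p) (q := p) hp (t0 := s1) (l := n) (fun _ _ => rfl) h10
              (a1 := s2) (by omega)
          have vf_t0_1 := cv18 hM (p := p) (q := p) hp (t0 := s1) (l := n) (fun _ _ => rfl) h10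
              (a1 := s1) (by omega)
          have vf_t0_21 := cv28 hM (p := p) (q := p) hp (t0 := s1) (l := n) (fun _ _ => rfl) h10
              (a1 := s2) (a2 := s1) (by omega) (by omega)
          have vf_q3_ := cv08 hM (p := p) (q := q3) hq3 (t0 := s3) (l := l3) hqp3 hl3
          have vg_q3_0__0 := cg8_0_0_0 hmach (q := q3) hq3 (t0 := s3) (l := l3) hqp3 (by omega)
              hl3
          have vf_q2_2 := cv18 hM (p := p) (q := q2) hq2 (t0 := s2) (l := l2) hqp2 hl2 (a1 := s2)
              (by omega)
          linarith only [V2V1, e2e1, V1O, r0O, V0O, vf_t0_2, vf_t0_1, vf_t0_21, w23, wV, zw_2_a,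
            zw_3_b, zw_3_c, xz_2_b, yx2, w_3, q3_P, q3_U, vf_q3_, vg_q3_0__0, w_2, q2_O, q2_P,
            q2_U, q2_V, vf_q2_2, w_1, m1_P, m1_f, m1_V, m1_W, w_0, nn_w1, O0pos]
        · have vg_t1_0_2_0 := cg8_0_0_1 hmach (q := p) hp (t0 := s2) (l := s1) (fun _ _ => rfl)
              (by omega) h21 (a1 := s2) (by omega) (by omega)
          have vf_t0_21 := cv28 hM (p := p) (q := p) hp (t0 := s1) (l := n) (fun _ _ => rfl) h10
              (a1 := s2) (a2 := s1) (by omega) (by omega)
          have vf_q3_ := cv08 hM (p := p) (q := q3) hq3 (t0 := s3) (l := l3) hqp3 hl3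
          have vg_q3_0__0 := cg8_0_0_0 hmach (q := q3) hq3 (t0 := s3) (l := l3) hqp3 (by omega)
              hl3
          have vf_q2_2 := cv18 hM (p := p) (q := q2) hq2 (t0 := s2) (l := l2) hqp2 hl2 (a1 := s2)
              (by omega)
          linarith only [r2O, e2V, V2V1, O2O1, e2e1, V1O, r0O, V0O, vg_t1_0_2_0, vf_t0_21, w23,
            wV, zw_2_a, zw_3_b, zV, xz_2_b, yx2, w_3, q3_P, q3_U, vf_q3_, vg_q3_0__0, w_2, q2_P,
            q2_U, q2_V, vf_q2_2, w_1, w_0, nn_w1, nn_z1, O0pos]
        · obtain ⟨nn_A1, nn_P1, nn_U1, m1_P, m1_e, m1_f, m1_V, m1_W⟩ := mid8 hM hp g1 gg1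
          have vf_t0_1 := cv18 hM (p := p) (q := p) hp (t0 := s1) (l := n) (fun _ _ => rfl) h10
              (a1 := s1) (by omega)
          have vf_q3_ := cv08 hM (p := p) (q := q3) hq3 (t0 := s3) (l := l3) hqp3 hl3
          have vg_q3_0__1 := cg8_0_1_0 hmach (q := q3) hq3 (t0 := s3) (l := l3) hqp3 (by omega)
              hl3
          have vf_q2_2 := cv18 hM (p := p) (q := q2) hq2 (t0 := s2) (l := l2) hqp2 hl2 (a1 := s2)
              (by omega)
          have vf_m1_2 := cv18 hM (p := p) (q := p) hp (t0 := s2) (l := l1) (fun _ _ => rfl) g1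
              (a1 := s2) (by omega)
          linarith only [V3V2, e3e2, r1O, V1O, r0O, V0O, vf_t0_1, w23, wV, zw_2_a, zw_3_b, zV,
            xz_2_b, yx2, w_3, q3_P, q3_U, vf_q3_, vg_q3_0__1, w_2, q2_P, q2_U, q2_V, vf_q2_2,
            w_1, m1_P, m1_f, m1_V, m1_W, vf_m1_2, w_0, nn_e2, nn_w1, nn_z1, O0pos]
        · have vf_t0_21 := cv28 hM (p := p) (q := p) hp (t0 := s1) (l := n) (fun _ _ => rfl) h10
              (a1 := s2) (a2 := s1) (by omega) (by omega)
          have vf_q3_ := cv08 hM (p := p) (q := q3) hq3 (t0 := s3) (l := l3) hqp3 hl3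
          have vg_q3_0__1 := cg8_0_1_0 hmach (q := q3) hq3 (t0 := s3) (l := l3) hqp3 (by omega)
              hl3
          have vf_q2_2 := cv18 hM (p := p) (q := q2) hq2 (t0 := s2) (l := l2) hqp2 hl2 (a1 := s2)
              (by omega)
          linarith only [V3V2, e3e2, r2O, V2V1, r1O, V1O, V1V0, r0O, V0O, vf_t0_21, w23, wV,
            zw_2_a, zw_3_b, xz_2_b, yx2, w_3, q3_P, q3_U, vf_q3_, vg_q3_0__1, w_2, q2_O, q2_P,
            q2_U, q2_V, vf_q2_2, w_1, w_0, nn_e2, nn_w1, O0pos]
        · obtain ⟨nn_A1, nn_P1, nn_U1, nn_Q1, q1_O, q1_P, q1_U, q1_V, q1_e⟩ := fut8 hM hq1 hqp1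
              hl1 hlN1
          have vg_t1_0_2_0 := cg8_0_0_1 hmach (q := p) hp (t0 := s2) (l := s1) (fun _ _ => rfl)
              (by omega) h21 (a1 := s2) (by omega) (by omega)
          have vf_t0_1 := cv18 hM (p := p) (q := p) hp (t0 := s1) (l := n) (fun _ _ => rfl) h10
              (a1 := s1) (by omega)
          have vf_q3_ := cv08 hM (p := p) (q := q3) hq3 (t0 := s3) (l := l3) hqp3 hl3
          have vg_q3_0__1 := cg8_0_1_0 hmach (q := q3) hq3 (t0 := s3) (l := l3) hqp3 (by omega)
              hl3
          have vf_q2_2 := cv18 hM (p := p) (q := q2) hq2 (t0 := s2) (l := l2) hqp2 hl2 (a1 := s2)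
              (by omega)
          have vf_q1_21 := cv28 hM (p := p) (q := q1) hq1 (t0 := s1) (l := l1) hqp1 hl1 (a1 := s2)
              (a2 := s1) (by omega) (by omega)
          linarith only [V3V2, e3e2, r2O, r1O, r0O, V0O, vg_t1_0_2_0, vf_t0_1, w23, wV, zw_2_a,
            zw_3_b, xz_2_b, yx2, w_3, q3_P, q3_U, vf_q3_, vg_q3_0__1, w_2, q2_O, q2_P, q2_U,
            q2_V, vf_q2_2, w_1, q1_O, q1_P, q1_U, q1_V, vf_q1_21, w_0, nn_e2, nn_e1, nn_w1, O0pos]
  · obtain ⟨nn_A0, nn_P0, nn_U0, nn_Q0, q0_O, q0_P, q0_U, q0_V, q0_e⟩ := fut8 hM hq0 hqp0 hl0 hlN0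
    rcases wit28 (by norm_num) (by norm_num) hp h32 u2 with ⟨l2, g2, w_2⟩ | w_2 | ⟨l2, g2, gg2,
        w_2⟩ | w_2 | ⟨q2, N2, l2, hq2, hqp2, hl2, hlN2, w_2⟩
    · obtain ⟨nn_A2, nn_P2, p2_V, p2_O, p2_e⟩ := pas8 hM hp g2
      have vf_q0_20 := cv28 hM (p := p) (q := q0) hq0 (t0 := n) (l := l0) hqp0 hl0 (a1 := s2) (a2
          := n) (by omega) (by omega)
      have vf_q0_210 := cv38 hM (p := p) (q := q0) hq0 (t0 := n) (l := l0) hqp0 hl0 (a1 := s2) (a2
          := s1) (a3 := n) (by omega) (by omega) (by omega)
      linarith only [O3O2, e3e2, V2O, e2e1, V1V0, e1e0, r0O, z23, zV, xz_1_c, xz_2_b, xV, yx1,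
        yx2, w_2, p2_O, p2_e, w_0, q0_O, q0_P, q0_U, q0_V, vf_q0_20, vf_q0_210, nn_z1, O0pos]
    · have vf_q0_30 := cv28 hM (p := p) (q := q0) hq0 (t0 := n) (l := l0) hqp0 hl0 (a1 := s3) (a2
          := n) (by omega) (by omega)
      have vf_q0_320 := cv38 hM (p := p) (q := q0) hq0 (t0 := n) (l := l0) hqp0 hl0 (a1 := s3) (a2
          := s2) (a3 := n) (by omega) (by omega) (by omega)
      linarith only [r3O, V3V2, O3O2, e3e2, r2O, V2O, e2e1, e1e0, r0O, w23, w34, wV, zw_2_a,
        zw_3_b, xz_2_b, yx2, w_2, w_0, q0_O, q0_P, q0_U, vf_q0_30, vf_q0_320, nn_w1, O0pos]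
    · obtain ⟨nn_A2, nn_P2, nn_U2, m2_P, m2_e, m2_f, m2_V, m2_W⟩ := mid8 hM hp g2 gg2
      have vf_m2_ := cv08 hM (p := p) (q := p) hp (t0 := s3) (l := l2) (fun _ _ => rfl) g2
      have vg_m2_0__0 := cg8_0_0_0 hmach (q := p) hp (t0 := s3) (l := l2) (fun _ _ => rfl) (by
          omega) g2
      have vf_q0_20 := cv28 hM (p := p) (q := q0) hq0 (t0 := n) (l := l0) hqp0 hl0 (a1 := s2) (a2
          := n) (by omega) (by omega)
      linarith only [V2O, V2V1, e2e1, V1V0, e1e0, r0O, w23, w34, wV, zw_1_a, zw_2_a, zw_3_b,
        xz_2_b, xz_2_s, yx1, yx2, w_2, m2_P, m2_f, m2_W, vf_m2_, vg_m2_0__0, w_0, q0_O, q0_P,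
        q0_U, q0_V, vf_q0_20, nn_r3, nn_w1, O0pos]
    · have vf_q0_20 := cv28 hM (p := p) (q := q0) hq0 (t0 := n) (l := l0) hqp0 hl0 (a1 := s2) (a2
          := n) (by omega) (by omega)
      linarith only [r2O, V2O, e2e1, V1V0, e1e0, r0O, z23, zV, xz_2_b, xV, yx1, yx2, w_2, w_0,
        q0_O, q0_P, q0_U, q0_V, vf_q0_20, nn_z1, O0pos]
    · obtain ⟨nn_A2, nn_P2, nn_U2, nn_Q2, q2_O, q2_P, q2_U, q2_V, q2_e⟩ := fut8 hM hq2 hqp2 hl2
          hlN2
      rcases wit18 (by norm_num) (by norm_num) hp u3 with ⟨l3, g3, w_3⟩ | w_3 | ⟨q3, N3, l3, hq3,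
          hqp3, hl3, hlN3, w_3⟩
      · obtain ⟨nn_A3, nn_P3, p3_V, p3_O, p3_e⟩ := pas8 hM hp g3
        have vf_q2_32 := cv28 hM (p := p) (q := q2) hq2 (t0 := s2) (l := l2) hqp2 hl2 (a1 := s3)
            (a2 := s2) (by omega) (by omega)
        have vf_q0_20 := cv28 hM (p := p) (q := q0) hq0 (t0 := n) (l := l0) hqp0 hl0 (a1 := s2)
            (a2 := n) (by omega) (by omega)
        have vf_q0_320 := cv38 hM (p := p) (q := q0) hq0 (t0 := n) (l := l0) hqp0 hl0 (a1 := s3)
            (a2 := s2) (a3 := n) (by omega) (by omega) (by omega)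
        linarith only [r3O, V3O, V3V2, e3e2, r2O, e2e1, e1e0, r0O, w23, wV, zw_2_a, zw_3_b,
          xz_2_b, yx2, w_3, p3_O, p3_e, w_2, q2_O, q2_P, q2_U, q2_V, vf_q2_32, w_0, q0_O, q0_P,
          q0_U, vf_q0_20, vf_q0_320, nn_w1, O0pos]
      · have vf_q2_32 := cv28 hM (p := p) (q := q2) hq2 (t0 := s2) (l := l2) hqp2 hl2 (a1 := s3)
            (a2 := s2) (by omega) (by omega)
        have vf_q0_20 := cv28 hM (p := p) (q := q0) hq0 (t0 := n) (l := l0) hqp0 hl0 (a1 := s2)
            (a2 := n) (by omega) (by omega)
        have vf_q0_320 := cv38 hM (p := p) (q := q0) hq0 (t0 := n) (l := l0) hqp0 hl0 (a1 := s3)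
            (a2 := s2) (a3 := n) (by omega) (by omega) (by omega)
        linarith only [r3O, V3O, V3V2, e3e2, r2O, e2e1, e1e0, r0O, w23, wV, zw_2_a, zw_3_b,
          xz_2_b, yx2, w_3, w_2, q2_O, q2_P, q2_U, q2_V, vf_q2_32, w_0, q0_O, q0_P, q0_U,
          vf_q0_20, vf_q0_320, nn_w1, O0pos]
      · obtain ⟨nn_A3, nn_P3, nn_U3, nn_Q3, q3_O, q3_P, q3_U, q3_V, q3_e⟩ := fut8 hM hq3 hqp3 hl3
            hlN3
        have vg_t0_0_21_0 := cg8_0_0_2 hmach (q := p) hp (t0 := s1) (l := n) (fun _ _ => rfl) (by
            omega) h10 (a1 := s2) (a2 := s1) (by omega) (by omega) (by omega)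
        have vf_q3_ := cv08 hM (p := p) (q := q3) hq3 (t0 := s3) (l := l3) hqp3 hl3
        have vg_q3_0__1 := cg8_0_1_0 hmach (q := q3) hq3 (t0 := s3) (l := l3) hqp3 (by omega) hl3
        have vf_q2_2 := cv18 hM (p := p) (q := q2) hq2 (t0 := s2) (l := l2) hqp2 hl2 (a1 := s2)
            (by omega)
        have vf_q0_0 := cv18 hM (p := p) (q := q0) hq0 (t0 := n) (l := l0) hqp0 hl0 (a1 := n) (by
            omega)
        have vf_q0_20 := cv28 hM (p := p) (q := q0) hq0 (t0 := n) (l := l0) hqp0 hl0 (a1 := s2)
            (a2 := n) (by omega) (by omega)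
        linarith only [V3V2, e3e2, r0O, vg_t0_0_21_0, w23, wV, zw_2_a, zw_3_b, xz_1_b, xz_2_b,
          yx1, yx2, w_3, q3_P, q3_U, vf_q3_, vg_q3_0__1, w_2, q2_P, q2_U, q2_V, vf_q2_2, w_0,
          q0_O, q0_P, q0_U, q0_V, vf_q0_0, vf_q0_20, nn_e2, nn_e1, nn_e0, nn_w1, O0pos]

theorem case8_32 (hM : (m : ℝ) = 8) {p : ℕ → ℝ} (hp : ∀ i, 0 < p i) {s3 s2 s1 n : ℕ}
    (h32 : s3 < s2) (h21 : s2 < s1) (h10 : s1 < n) {w1 w2 w3 w4 z1 z2 z3 x1 x2 y : ℝ}
    (hw : B48 p s3 w1 w2 w3 w4) (hz : B38 p s2 z1 z2 z3) (hx : B28 p s1 x1 x2)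
    (nn_y : 0 ≤ y) (yx1 : y ≤ x1 + p s1) (yx2 : y ≤ x2)
    (t3 : T338 w1 w2 w3 w4 z1 z2 z3 (p s3)) (t2 : T228 z1 z2 z3 x1 x2 (p s2))
    (u3 : ¬ Safe m (23 / 40) (721 / 400) (s3 + 1) p (w4 + p s3))
    (u2 : ¬ Safe m (23 / 40) (721 / 400) (s2 + 1) p (z3 + p s2))
    (u1 : ¬ Safe m (23 / 40) (721 / 400) (s1 + 1) p (x2 + p s1))
    (hbp : BP8 m (23 / 40) (721 / 400) p s3 w1 w2 w3 w4)
    (h0 : (721 / 400 * opt m p (n + 1) < 23 / 40 * (mn m p n + p n) + (1 - 23 / 40) * (y + p n)) ∨
      ∃ q : ℕ → ℝ, ∃ N l, (∀ i, 0 < q i) ∧ (∀ i < n + 1, q i = p i) ∧ n < l ∧ l < N ∧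
      721 / 400 * opt m q N < 23 / 40 * (mn m q l + q l) + (1 - 23 / 40) * (y + p n)) :
    False := by
  obtain ⟨nn_r3, nn_e3, nn_V3, nn_O3, r3O, V3O, e3V⟩ := bas8 hM hp s3
  obtain ⟨nn_r2, nn_e2, nn_V2, nn_O2, r2O, V2O, e2V⟩ := bas8 hM hp s2
  obtain ⟨nn_r1, nn_e1, nn_V1, nn_O1, r1O, V1O, e1V⟩ := bas8 hM hp s1
  obtain ⟨nn_r0, nn_e0, nn_V0, nn_O0, r0O, V0O, e0V⟩ := bas8 hM hp n
  obtain ⟨V3V2, O3O2, e3e2⟩ := stp8 hM hp h32
  obtain ⟨V2V1, O2O1, e2e1⟩ := stp8 hM hp h21
  obtain ⟨V1V0, O1O0, e1e0⟩ := stp8 hM hp h10
  have O0pos : 0 < opt m p (n + 1) := (hp n).trans_le r0O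
  obtain ⟨κ, i1, i2, i3, i4, hmach⟩ := exists_mach8 hM p s3
  obtain ⟨eL1, L12, L23, L34, Lsum, nn_L1, nn_L2, nn_L3, nn_L4⟩ := hmach.facts hM hp
  obtain ⟨nn_w1, nn_w2, nn_w3, nn_w4, w12, w23, w34, wV⟩ := hw
  obtain ⟨nn_z1, nn_z2, nn_z3, z12, z23, zV⟩ := hz
  obtain ⟨nn_x1, nn_x2, x12, xV⟩ := hx
  obtain ⟨zw_1_a, zw_2_a, zw_3_b, zw_3_c⟩ := t3
  obtain ⟨xz_1_a, xz_2_b, xz_2_c⟩ := t2
  rcases h0 with w_0 | ⟨q0, N0, l0, hq0, hqp0, hl0, hlN0, w_0⟩
  · rcases wit38 (by norm_num) (by norm_num) hp h32 h21 u1 with ⟨l1, g1, w_1⟩ | w_1 | ⟨l1, g1,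
        gg1, w_1⟩ | w_1 | ⟨l1, g1, gg1, w_1⟩ | w_1 | ⟨q1, N1, l1, hq1, hqp1, hl1, hlN1, w_1⟩
    · obtain ⟨nn_A1, nn_P1, p1_V, p1_O, p1_e⟩ := pas8 hM hp g1
      rcases wit18 (by norm_num) (by norm_num) hp u3 with ⟨l3, g3, w_3⟩ | w_3 | ⟨q3, N3, l3, hq3,
          hqp3, hl3, hlN3, w_3⟩
      · obtain ⟨nn_A3, nn_P3, p3_V, p3_O, p3_e⟩ := pas8 hM hp g3
        have vg_t1_0__0 := cg8_0_0_0 hmach (q := p) hp (t0 := s2) (l := s1) (fun _ _ => rfl) (by
            omega) h21
        have vg_t1_0_2_0 := cg8_0_0_1 hmach (q := p) hp (t0 := s2) (l := s1) (fun _ _ => rfl) (by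
            omega) h21 (a1 := s2) (by omega) (by omega)
        have vf_t0_1 := cv18 hM (p := p) (q := p) hp (t0 := s1) (l := n) (fun _ _ => rfl) h10 (a1
            := s1) (by omega)
        linarith only [V3V2, e3e2, V2V1, r1O, V1O, r0O, V0O, vg_t1_0__0, vg_t1_0_2_0, vf_t0_1,
          w23, wV, zw_2_a, zw_3_b, xz_2_b, xz_2_c, xV, yx2, w_3, p3_V, p3_O, p3_e, w_1, p1_V,
          p1_O, w_0, nn_w1, nn_x1, O0pos]
      · have vg_t1_0_2_0 := cg8_0_0_1 hmach (q := p) hp (t0 := s2) (l := s1) (fun _ _ => rfl) (by
            omega) h21 (a1 := s2) (by omega) (by omega)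
        have vf_t0_31 := cv28 hM (p := p) (q := p) hp (t0 := s1) (l := n) (fun _ _ => rfl) h10 (a1
            := s3) (a2 := s1) (by omega) (by omega)
        have vf_t0_321 := cv38 hM (p := p) (q := p) hp (t0 := s1) (l := n) (fun _ _ => rfl) h10
            (a1 := s3) (a2 := s2) (a3 := s1) (by omega) (by omega) (by omega)
        linarith only [r3O, V3V2, e3e2, V2V1, r1O, V1O, r0O, V0O, vg_t1_0_2_0, vf_t0_31,
          vf_t0_321, w23, wV, zw_2_a, zw_3_b, xz_2_b, xz_2_c, xV, yx2, w_3, w_1, p1_V, p1_O, w_0,
          nn_w1, nn_x1, O0pos]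
      · obtain ⟨nn_A3, nn_P3, nn_U3, nn_Q3, q3_O, q3_P, q3_U, q3_V, q3_e⟩ := fut8 hM hq3 hqp3 hl3
            hlN3
        have vg_t1_0_2_0 := cg8_0_0_1 hmach (q := p) hp (t0 := s2) (l := s1) (fun _ _ => rfl) (by
            omega) h21 (a1 := s2) (by omega) (by omega)
        have vf_t0_31 := cv28 hM (p := p) (q := p) hp (t0 := s1) (l := n) (fun _ _ => rfl) h10 (a1
            := s3) (a2 := s1) (by omega) (by omega)
        have vf_t0_321 := cv38 hM (p := p) (q := p) hp (t0 := s1) (l := n) (fun _ _ => rfl) h10
            (a1 := s3) (a2 := s2) (a3 := s1) (by omega) (by omega) (by omega)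
        have vf_q3_3 := cv18 hM (p := p) (q := q3) hq3 (t0 := s3) (l := l3) hqp3 hl3 (a1 := s3)
            (by omega)
        linarith only [e3e2, e2e1, r1O, V1O, r0O, V0O, vg_t1_0_2_0, vf_t0_31, vf_t0_321, w23, wV,
          zw_2_a, zw_3_b, xz_2_b, xz_2_c, xV, yx2, w_3, q3_O, q3_P, q3_U, vf_q3_3, w_1, p1_V,
          p1_O, p1_e, w_0, nn_w1, nn_x1, O0pos]
    · have vg_t1_0_2_0 := cg8_0_0_1 hmach (q := p) hp (t0 := s2) (l := s1) (fun _ _ => rfl) (by
          omega) h21 (a1 := s2) (by omega) (by omega)
      have vf_t0_31 := cv28 hM (p := p) (q := p) hp (t0 := s1) (l := n) (fun _ _ => rfl) h10 (a1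
          := s3) (a2 := s1) (by omega) (by omega)
      have vf_t0_321 := cv38 hM (p := p) (q := p) hp (t0 := s1) (l := n) (fun _ _ => rfl) h10 (a1
          := s3) (a2 := s2) (a3 := s1) (by omega) (by omega) (by omega)
      linarith only [r3O, O3O2, e3e2, O2O1, e2e1, V1O, r0O, V0O, vg_t1_0_2_0, vf_t0_31,
        vf_t0_321, w23, wV, zw_2_a, zw_3_b, xz_2_b, xz_2_c, xV, yx1, yx2, w_1, w_0, nn_w1, nn_x1,
        O0pos]
    · obtain ⟨nn_A1, nn_P1, nn_U1, m1_P, m1_e, m1_f, m1_V, m1_W⟩ := mid8 hM hp g1 gg1
      have vf_t0_1 := cv18 hM (p := p) (q := p) hp (t0 := s1) (l := n) (fun _ _ => rfl) h10 (a1 :=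
          s1) (by omega)
      have vf_m1_ := cv08 hM (p := p) (q := p) hp (t0 := s3) (l := l1) (fun _ _ => rfl) g1
      linarith only [V2V1, O2O1, e2e1, V1O, V1V0, r0O, V0O, vf_t0_1, wV, zw_2_a, zw_3_b, zw_3_c,
        xz_2_b, xz_2_c, yx2, w_1, m1_P, m1_f, m1_V, m1_W, vf_m1_, w_0, nn_r2, nn_w1, O0pos]
    · have vf_t0_21 := cv28 hM (p := p) (q := p) hp (t0 := s1) (l := n) (fun _ _ => rfl) h10 (a1
          := s2) (a2 := s1) (by omega) (by omega)
      linarith only [r2O, O2O1, e2e1, V1O, V1V0, r0O, V0O, vf_t0_21, xV, yx1, yx2, w_1, w_0,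
        nn_x1, O0pos]
    · obtain ⟨nn_A1, nn_P1, nn_U1, m1_P, m1_e, m1_f, m1_V, m1_W⟩ := mid8 hM hp g1 gg1
      have vf_t0_1 := cv18 hM (p := p) (q := p) hp (t0 := s1) (l := n) (fun _ _ => rfl) h10 (a1 :=
          s1) (by omega)
      have vf_m1_ := cv08 hM (p := p) (q := p) hp (t0 := s2) (l := l1) (fun _ _ => rfl) g1
      linarith only [V1O, V1V0, r0O, V0O, vf_t0_1, zV, xz_2_b, xz_2_c, yx2, w_1, m1_P, m1_f,
        m1_V, m1_W, vf_m1_, w_0, nn_z1, O0pos]
    · rcases wit18 (by norm_num) (by norm_num) hp u3 with ⟨l3, g3, w_3⟩ | w_3 | ⟨q3, N3, l3, hq3,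
          hqp3, hl3, hlN3, w_3⟩
      · obtain ⟨nn_A3, nn_P3, p3_V, p3_O, p3_e⟩ := pas8 hM hp g3
        have vf_t0_31 := cv28 hM (p := p) (q := p) hp (t0 := s1) (l := n) (fun _ _ => rfl) h10 (a1
            := s3) (a2 := s1) (by omega) (by omega)
        have vf_t0_321 := cv38 hM (p := p) (q := p) hp (t0 := s1) (l := n) (fun _ _ => rfl) h10
            (a1 := s3) (a2 := s2) (a3 := s1) (by omega) (by omega) (by omega)
        linarith only [r3O, V3O, e3e2, r1O, V1O, r0O, V0O, vf_t0_31, vf_t0_321, w23, wV, zw_2_a,
          zw_3_b, zw_3_c, xz_2_b, xz_2_c, xV, yx2, w_3, p3_O, p3_e, w_1, w_0, nn_w1, nn_x1, O0pos]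
      · have vf_t0_31 := cv28 hM (p := p) (q := p) hp (t0 := s1) (l := n) (fun _ _ => rfl) h10 (a1
            := s3) (a2 := s1) (by omega) (by omega)
        have vf_t0_321 := cv38 hM (p := p) (q := p) hp (t0 := s1) (l := n) (fun _ _ => rfl) h10
            (a1 := s3) (a2 := s2) (a3 := s1) (by omega) (by omega) (by omega)
        linarith only [r3O, V3O, e3e2, r1O, V1O, r0O, V0O, vf_t0_31, vf_t0_321, w23, wV, zw_2_a,
          zw_3_b, zw_3_c, xz_2_b, xz_2_c, xV, yx2, w_3, w_1, w_0, nn_w1, nn_x1, O0pos]
      · obtain ⟨nn_A3, nn_P3, nn_U3, nn_Q3, q3_O, q3_P, q3_U, q3_V, q3_e⟩ := fut8 hM hq3 hqp3 hl3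
            hlN3
        rcases wit28 (by norm_num) (by norm_num) hp h32 u2 with ⟨l2, g2, w_2⟩ | w_2 | ⟨l2, g2,
            gg2, w_2⟩ | w_2 | ⟨q2, N2, l2, hq2, hqp2, hl2, hlN2, w_2⟩
        · obtain ⟨nn_A2, nn_P2, p2_V, p2_O, p2_e⟩ := pas8 hM hp g2
          have vf_t0_21 := cv28 hM (p := p) (q := p) hp (t0 := s1) (l := n) (fun _ _ => rfl) h10
              (a1 := s2) (a2 := s1) (by omega) (by omega)
          have vf_t0_321 := cv38 hM (p := p) (q := p) hp (t0 := s1) (l := n) (fun _ _ => rfl) h10
              (a1 := s3) (a2 := s2) (a3 := s1) (by omega) (by omega) (by omega)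
          have vf_q3_3 := cv18 hM (p := p) (q := q3) hq3 (t0 := s3) (l := l3) hqp3 hl3 (a1 := s3)
              (by omega)
          linarith only [O3O2, e3e2, r2O, V2O, r1O, V1O, r0O, V0O, vf_t0_21, vf_t0_321, wV,
            zw_2_a, zw_3_c, zV, xz_2_b, xz_2_c, xV, yx2, w_3, q3_O, q3_P, q3_U, q3_V, vf_q3_3,
            w_2, p2_O, p2_e, w_1, w_0, nn_w1, nn_z1, nn_x1, O0pos]
        · have vf_t0_31 := cv28 hM (p := p) (q := p) hp (t0 := s1) (l := n) (fun _ _ => rfl) h10
              (a1 := s3) (a2 := s1) (by omega) (by omega)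
          have vf_t0_321 := cv38 hM (p := p) (q := p) hp (t0 := s1) (l := n) (fun _ _ => rfl) h10
              (a1 := s3) (a2 := s2) (a3 := s1) (by omega) (by omega) (by omega)
          linarith only [r3O, O3O2, e3e2, r2O, V2O, r1O, V1O, r0O, V0O, vf_t0_31, vf_t0_321, zV,
            xz_2_b, xz_2_c, xV, yx2, w_2, w_1, w_0, nn_z1, nn_x1, O0pos]
        · obtain ⟨nn_A2, nn_P2, nn_U2, m2_P, m2_e, m2_f, m2_V, m2_W⟩ := mid8 hM hp g2 gg2
          have vf_t0_21 := cv28 hM (p := p) (q := p) hp (t0 := s1) (l := n) (fun _ _ => rfl) h10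
              (a1 := s2) (a2 := s1) (by omega) (by omega)
          have vf_m2_ := cv08 hM (p := p) (q := p) hp (t0 := s3) (l := l2) (fun _ _ => rfl) g2
          linarith only [V2O, V2V1, r1O, V1O, V1V0, r0O, V0O, vf_t0_21, wV, zw_2_a, zw_3_b,
            zw_3_c, xz_2_b, xz_2_c, yx2, w_2, m2_P, m2_f, m2_V, m2_W, vf_m2_, w_1, w_0, nn_w1,
            O0pos]
        · have vf_t0_21 := cv28 hM (p := p) (q := p) hp (t0 := s1) (l := n) (fun _ _ => rfl) h10
              (a1 := s2) (a2 := s1) (by omega) (by omega)
          linarith only [r2O, V2O, r1O, V1O, V1V0, r0O, V0O, vf_t0_21, zV, xz_2_b, xz_2_c, xV,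
            yx2, w_2, w_1, w_0, nn_z1, nn_x1, O0pos]
        · obtain ⟨nn_A2, nn_P2, nn_U2, nn_Q2, q2_O, q2_P, q2_U, q2_V, q2_e⟩ := fut8 hM hq2 hqp2
              hl2 hlN2
          rcases le_total (mn m p s3 + p s3) (ls m p s3 i1) with o_a3L1 | o_L1a3
          · have o_a3e2 : mn m p s3 + p s3 ≤ mn m p s2 := od0 hmach hp (fun _ _ => rfl) h32 le_rfl
                o_a3L1
            have vf_t0_21 := cv28 hM (p := p) (q := p) hp (t0 := s1) (l := n) (fun _ _ => rfl) h10
                (a1 := s2) (a2 := s1) (by omega) (by omega)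
            have vf_q3_ := cv08 hM (p := p) (q := q3) hq3 (t0 := s3) (l := l3) hqp3 hl3
            have vg_q3_0__1 := cg8_0_1_0 hmach (q := q3) hq3 (t0 := s3) (l := l3) hqp3 (by omega)
                hl3
            have vf_q2_2 := cv18 hM (p := p) (q := q2) hq2 (t0 := s2) (l := l2) hqp2 hl2 (a1 :=
                s2) (by omega)
            linarith only [r1O, V1O, V1V0, r0O, V0O, vf_t0_21, wV, zw_2_a, zw_3_b, zw_3_c, zV,
              xz_2_b, xz_2_c, xV, yx2, w_3, q3_P, q3_U, vf_q3_, vg_q3_0__1, w_2, q2_P, q2_U,
              q2_V, vf_q2_2, w_1, w_0, o_a3e2, nn_e3, nn_w1, nn_z1, nn_x1, O0pos]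
          · have o_L1e2 : ls m p s3 i1 ≤ mn m p s2 := od0 hmach hp (fun _ _ => rfl) h32 o_L1a3
                le_rfl
            have o_L1A3 : ls m p s3 i1 ≤ mn m q3 l3 := od0 hmach hq3 hqp3 hl3 o_L1a3 le_rfl
            rcases le_total (mn m p s3 + p s3) (ls m p s3 i2) with o_a3L2 | o_L2a3
            · rcases le_total (mn m p s3 + p s3) (mn m p s2 + p s2) with o_a3a2 | o_a2a3
              · have o_a3e1 : mn m p s3 + p s3 ≤ mn m p s1 := od1 hmach hp (fun _ _ => rfl) h32
                    h21 le_rfl o_a3L2 le_rfl o_a3a2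
                have o_a3A2 : mn m p s3 + p s3 ≤ mn m q2 l2 := od1 hmach hq2 hqp2 h32 hl2 le_rfl
                    o_a3L2 le_rfl o_a3a2
                rcases col38 hM hq2 hmach (fun i hi => hqp2 i (by omega)) h32 hl2 hlN2 (hqp2 _ (by
                    omega)) (hqp2 _ (by omega)) rfl with col2 | col2 | col2 | col2 | col2 | col2 |
                    col2
                · have vf_t0_21 := cv28 hM (p := p) (q := p) hp (t0 := s1) (l := n) (fun _ _ =>
                      rfl) h10 (a1 := s2) (a2 := s1) (by omega) (by omega)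
                  have vf_q3_3 := cv18 hM (p := p) (q := q3) hq3 (t0 := s3) (l := l3) hqp3 hl3 (a1
                      := s3) (by omega)
                  have vg_q3_3__0 := cg8_3_0_0 hmach (q := q3) hq3 (t0 := s3) (l := l3) hqp3 (by
                      omega) hl3
                  have vf_q2_2 := cv18 hM (p := p) (q := q2) hq2 (t0 := s2) (l := l2) hqp2 hl2 (a1
                      := s2) (by omega)
                  linarith only [e3e2, V1V0, r0O, V0O, vf_t0_21, L23, w12, wV, zw_1_a, zw_2_a,
                    zw_3_b, zw_3_c, xz_1_a, xz_2_b, xz_2_c, xV, yx1, yx2, w_3, q3_P, q3_U,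
                    vf_q3_3, vg_q3_3__0, w_2, q2_P, q2_U, vf_q2_2, w_0, o_L1e2, o_a3L2, o_a3e1,
                    col2, nn_w2, O0pos]
                · have vf_t0_21 := cv28 hM (p := p) (q := p) hp (t0 := s1) (l := n) (fun _ _ =>
                      rfl) h10 (a1 := s2) (a2 := s1) (by omega) (by omega)
                  have vf_q3_ := cv08 hM (p := p) (q := q3) hq3 (t0 := s3) (l := l3) hqp3 hl3
                  have vf_q3_3 := cv18 hM (p := p) (q := q3) hq3 (t0 := s3) (l := l3) hqp3 hl3 (a1
                      := s3) (by omega)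
                  have vg_q3_2__0 := cg8_2_0_0 hmach (q := q3) hq3 (t0 := s3) (l := l3) hqp3 (by
                      omega) hl3
                  have vf_q2_2 := cv18 hM (p := p) (q := q2) hq2 (t0 := s2) (l := l2) hqp2 hl2 (a1
                      := s2) (by omega)
                  linarith only [e3e2, V1V0, r0O, V0O, vf_t0_21, wV, zw_1_a, zw_3_b, zw_3_c,
                    xz_1_a, xz_2_b, xV, yx1, yx2, w_3, q3_P, q3_U, vf_q3_, vf_q3_3, vg_q3_2__0,
                    w_2, q2_P, q2_U, vf_q2_2, w_0, o_L1e2, o_a3L2, o_a3e1, col2, nn_w1, nn_w2,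
                    O0pos]
                · have vf_t0_1 := cv18 hM (p := p) (q := p) hp (t0 := s1) (l := n) (fun _ _ =>
                      rfl) h10 (a1 := s1) (by omega)
                  have vf_q3_3 := cv18 hM (p := p) (q := q3) hq3 (t0 := s3) (l := l3) hqp3 hl3 (a1
                      := s3) (by omega)
                  have vg_q3_2__0 := cg8_2_0_0 hmach (q := q3) hq3 (t0 := s3) (l := l3) hqp3 (by
                      omega) hl3
                  have vf_q2_2 := cv18 hM (p := p) (q := q2) hq2 (t0 := s2) (l := l2) hqp2 hl2 (a1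
                      := s2) (by omega)
                  linarith only [e2e1, V1O, r0O, V0O, vf_t0_1, wV, zw_2_a, zw_3_b, zw_3_c, zV,
                    xz_1_a, xz_2_b, xz_2_c, xV, yx1, yx2, w_3, q3_P, q3_U, q3_V, vf_q3_3,
                    vg_q3_2__0, w_2, q2_P, q2_U, q2_V, vf_q2_2, w_1, w_0, o_L1e2, o_a3L2, o_a3e1,
                    col2, nn_w1, O0pos]
                · have vf_t0_1 := cv18 hM (p := p) (q := p) hp (t0 := s1) (l := n) (fun _ _ =>
                      rfl) h10 (a1 := s1) (by omega)
                  have vf_t0_21 := cv28 hM (p := p) (q := p) hp (t0 := s1) (l := n) (fun _ _ =>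
                      rfl) h10 (a1 := s2) (a2 := s1) (by omega) (by omega)
                  have vf_q3_3 := cv18 hM (p := p) (q := q3) hq3 (t0 := s3) (l := l3) hqp3 hl3 (a1
                      := s3) (by omega)
                  have vg_q3_1__0 := cg8_1_0_0 hmach (q := q3) hq3 (t0 := s3) (l := l3) hqp3 (by
                      omega) hl3
                  have vg_q3_2__0 := cg8_2_0_0 hmach (q := q3) hq3 (t0 := s3) (l := l3) hqp3 (by
                      omega) hl3
                  have vf_q2_2 := cv18 hM (p := p) (q := q2) hq2 (t0 := s2) (l := l2) hqp2 hl2 (a1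
                      := s2) (by omega)
                  linarith only [r2O, V1O, r0O, V0O, vf_t0_1, vf_t0_21, wV, zw_3_b, zw_3_c, zV,
                    xz_2_b, xz_2_c, xV, yx1, yx2, w_3, q3_P, q3_U, vf_q3_3, vg_q3_1__0,
                    vg_q3_2__0, w_2, q2_O, q2_U, q2_V, vf_q2_2, w_1, w_0, o_L1e2, o_a3L2, o_a3e1,
                    col2, nn_w1, nn_w2, nn_z1, O0pos]
                · have vf_t0_1 := cv18 hM (p := p) (q := p) hp (t0 := s1) (l := n) (fun _ _ =>
                      rfl) h10 (a1 := s1) (by omega)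
                  have vf_q3_ := cv08 hM (p := p) (q := q3) hq3 (t0 := s3) (l := l3) hqp3 hl3
                  have vg_q3_1__0 := cg8_1_0_0 hmach (q := q3) hq3 (t0 := s3) (l := l3) hqp3 (by
                      omega) hl3
                  have vf_q2_2 := cv18 hM (p := p) (q := q2) hq2 (t0 := s2) (l := l2) hqp2 hl2 (a1
                      := s2) (by omega)
                  linarith only [e2e1, V1O, r0O, V0O, vf_t0_1, wV, zw_2_a, zw_3_b, zw_3_c, zV,
                    xz_2_b, xz_2_c, xV, yx1, yx2, w_3, q3_P, q3_U, q3_V, vf_q3_, vg_q3_1__0, w_2,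
                    q2_P, q2_U, q2_V, vf_q2_2, w_1, w_0, o_L1e2, col2, nn_w1, nn_z1, O0pos]
                · have vf_t0_1 := cv18 hM (p := p) (q := p) hp (t0 := s1) (l := n) (fun _ _ =>
                      rfl) h10 (a1 := s1) (by omega)
                  have vf_t0_21 := cv28 hM (p := p) (q := p) hp (t0 := s1) (l := n) (fun _ _ =>
                      rfl) h10 (a1 := s2) (a2 := s1) (by omega) (by omega)
                  have vf_q3_ := cv08 hM (p := p) (q := q3) hq3 (t0 := s3) (l := l3) hqp3 hl3
                  have vg_q3_1__0 := cg8_1_0_0 hmach (q := q3) hq3 (t0 := s3) (l := l3) hqp3 (by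
                      omega) hl3
                  have vg_q3_1__1 := cg8_1_1_0 hmach (q := q3) hq3 (t0 := s3) (l := l3) hqp3 (by
                      omega) hl3
                  have vf_q2_2 := cv18 hM (p := p) (q := q2) hq2 (t0 := s2) (l := l2) hqp2 hl2 (a1
                      := s2) (by omega)
                  linarith only [r2O, V1O, r0O, V0O, vf_t0_1, vf_t0_21, wV, zw_3_b, zw_3_c, zV,
                    xz_2_b, xz_2_c, xV, yx1, yx2, w_3, q3_P, q3_U, vf_q3_, vg_q3_1__0,
                    vg_q3_1__1, w_2, q2_O, q2_U, q2_V, vf_q2_2, w_1, w_0, o_L1e2, o_a3e1, col2,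
                    nn_w1, nn_w2, nn_z1, O0pos]
                · have vf_q2_ := cv08 hM (p := p) (q := q2) hq2 (t0 := s2) (l := l2) hqp2 hl2
                  have vf_q2_2 := cv18 hM (p := p) (q := q2) hq2 (t0 := s2) (l := l2) hqp2 hl2 (a1
                      := s2) (by omega)
                  linarith only [r0O, V0O, e0V, zV, xz_2_b, xz_2_c, yx2, w_2, q2_U, q2_V, vf_q2_,
                    vf_q2_2, w_0, col2, nn_e2, nn_z1, O0pos]
              · have o_a2e1 : mn m p s2 + p s2 ≤ mn m p s1 := od1 hmach hp (fun _ _ => rfl) h32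
                    h21 le_rfl o_a3L2 o_a2a3 le_rfl
                have o_a2A2 : mn m p s2 + p s2 ≤ mn m q2 l2 := od1 hmach hq2 hqp2 h32 hl2 le_rfl
                    o_a3L2 o_a2a3 le_rfl
                rcases col38 hM hq2 hmach (fun i hi => hqp2 i (by omega)) h32 hl2 hlN2 (hqp2 _ (by
                    omega)) (hqp2 _ (by omega)) rfl with col2 | col2 | col2 | col2 | col2 | col2 |
                    col2
                · have vf_t0_1 := cv18 hM (p := p) (q := p) hp (t0 := s1) (l := n) (fun _ _ =>
                      rfl) h10 (a1 := s1) (by omega)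
                  have vf_q3_3 := cv18 hM (p := p) (q := q3) hq3 (t0 := s3) (l := l3) hqp3 hl3 (a1
                      := s3) (by omega)
                  have vg_q3_1__0 := cg8_1_0_0 hmach (q := q3) hq3 (t0 := s3) (l := l3) hqp3 (by
                      omega) hl3
                  have vf_q2_ := cv08 hM (p := p) (q := q2) hq2 (t0 := s2) (l := l2) hqp2 hl2
                  have vf_q2_2 := cv18 hM (p := p) (q := q2) hq2 (t0 := s2) (l := l2) hqp2 hl2 (a1
                      := s2) (by omega)
                  linarith only [e3e2, r0O, V0O, vf_t0_1, L23, wV, zw_1_a, zw_2_a, zw_3_b,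
                    zw_3_c, xz_1_a, xz_2_b, xz_2_c, yx1, yx2, w_3, q3_P, q3_U, vf_q3_3,
                    vg_q3_1__0, w_2, q2_P, q2_U, vf_q2_, vf_q2_2, w_0, o_L1e2, o_a3L2, o_a2a3,
                    o_a2e1, col2, nn_w1, O0pos]
                · have vf_t0_1 := cv18 hM (p := p) (q := p) hp (t0 := s1) (l := n) (fun _ _ =>
                      rfl) h10 (a1 := s1) (by omega)
                  have vf_q3_3 := cv18 hM (p := p) (q := q3) hq3 (t0 := s3) (l := l3) hqp3 hl3 (a1
                      := s3) (by omega)
                  have vg_q3_1__0 := cg8_1_0_0 hmach (q := q3) hq3 (t0 := s3) (l := l3) hqp3 (by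
                      omega) hl3
                  have vf_q2_ := cv08 hM (p := p) (q := q2) hq2 (t0 := s2) (l := l2) hqp2 hl2
                  have vf_q2_2 := cv18 hM (p := p) (q := q2) hq2 (t0 := s2) (l := l2) hqp2 hl2 (a1
                      := s2) (by omega)
                  linarith only [e3e2, r0O, V0O, vf_t0_1, wV, zw_1_a, zw_2_a, zw_3_b, zw_3_c,
                    xz_1_a, xz_2_b, xz_2_c, yx1, yx2, w_3, q3_P, q3_U, vf_q3_3, vg_q3_1__0, w_2,
                    q2_P, q2_U, vf_q2_, vf_q2_2, w_0, o_L1e2, o_a3L2, o_a2a3, o_a2e1, col2,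
                    nn_w1, O0pos]
                · have vf_t0_1 := cv18 hM (p := p) (q := p) hp (t0 := s1) (l := n) (fun _ _ =>
                      rfl) h10 (a1 := s1) (by omega)
                  have vf_q3_3 := cv18 hM (p := p) (q := q3) hq3 (t0 := s3) (l := l3) hqp3 hl3 (a1
                      := s3) (by omega)
                  have vg_q3_1__0 := cg8_1_0_0 hmach (q := q3) hq3 (t0 := s3) (l := l3) hqp3 (by
                      omega) hl3
                  have vg_q3_2__0 := cg8_2_0_0 hmach (q := q3) hq3 (t0 := s3) (l := l3) hqp3 (by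
                      omega) hl3
                  have vf_q2_ := cv08 hM (p := p) (q := q2) hq2 (t0 := s2) (l := l2) hqp2 hl2
                  have vf_q2_2 := cv18 hM (p := p) (q := q2) hq2 (t0 := s2) (l := l2) hqp2 hl2 (a1
                      := s2) (by omega)
                  linarith only [r0O, V0O, vf_t0_1, wV, zw_1_a, zw_2_a, zw_3_b, zw_3_c, zV,
                    xz_1_a, xz_2_b, xz_2_c, yx1, yx2, w_3, q3_P, q3_U, vf_q3_3, vg_q3_1__0,
                    vg_q3_2__0, w_2, q2_P, q2_U, q2_V, vf_q2_, vf_q2_2, w_0, o_L1e2, o_a3L2,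
                    o_a2e1, col2, nn_w1, O0pos]
                · have vf_q2_ := cv08 hM (p := p) (q := q2) hq2 (t0 := s2) (l := l2) hqp2 hl2
                  have vf_q2_2 := cv18 hM (p := p) (q := q2) hq2 (t0 := s2) (l := l2) hqp2 hl2 (a1
                      := s2) (by omega)
                  linarith only [e3e2, r0O, V0O, e0V, zV, xz_2_b, xz_2_c, yx2, w_2, q2_U, q2_V,
                    vf_q2_, vf_q2_2, w_0, o_a3L2, o_a2a3, col2, nn_e2, nn_z1, O0pos]
                · have vf_t0_1 := cv18 hM (p := p) (q := p) hp (t0 := s1) (l := n) (fun _ _ =>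
                      rfl) h10 (a1 := s1) (by omega)
                  have vf_q3_ := cv08 hM (p := p) (q := q3) hq3 (t0 := s3) (l := l3) hqp3 hl3
                  have vf_q3_3 := cv18 hM (p := p) (q := q3) hq3 (t0 := s3) (l := l3) hqp3 hl3 (a1
                      := s3) (by omega)
                  have vg_q3_1__0 := cg8_1_0_0 hmach (q := q3) hq3 (t0 := s3) (l := l3) hqp3 (by
                      omega) hl3
                  have vf_q2_ := cv08 hM (p := p) (q := q2) hq2 (t0 := s2) (l := l2) hqp2 hl2
                  linarith only [r0O, V0O, vf_t0_1, wV, zw_1_a, zw_2_a, zw_3_b, zw_3_c, zV,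
                    xz_1_a, xz_2_b, xz_2_c, yx1, yx2, w_3, q3_P, q3_U, vf_q3_, vf_q3_3,
                    vg_q3_1__0, w_2, q2_P, q2_U, q2_V, vf_q2_, w_0, o_L1e2, o_a2a3, o_a2e1, col2,
                    nn_w1, O0pos]
                · have vf_q2_ := cv08 hM (p := p) (q := q2) hq2 (t0 := s2) (l := l2) hqp2 hl2
                  have vf_q2_2 := cv18 hM (p := p) (q := q2) hq2 (t0 := s2) (l := l2) hqp2 hl2 (a1
                      := s2) (by omega)
                  linarith only [e3e2, r0O, V0O, e0V, zV, xz_2_b, xz_2_c, yx2, w_2, q2_U, q2_V,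
                    vf_q2_, vf_q2_2, w_0, o_a2a3, col2, nn_e2, nn_z1, O0pos]
                · have vf_q2_ := cv08 hM (p := p) (q := q2) hq2 (t0 := s2) (l := l2) hqp2 hl2
                  have vf_q2_2 := cv18 hM (p := p) (q := q2) hq2 (t0 := s2) (l := l2) hqp2 hl2 (a1
                      := s2) (by omega)
                  linarith only [r0O, V0O, e0V, zV, xz_2_b, xz_2_c, yx2, w_2, q2_U, q2_V, vf_q2_,
                    vf_q2_2, w_0, col2, nn_e2, nn_z1, O0pos]
            · rcases le_total (mn m p s2 + p s2) (ls m p s3 i2) with o_a2L2 | o_L2a2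
              · have o_a2e1 : mn m p s2 + p s2 ≤ mn m p s1 := od1 hmach hp (fun _ _ => rfl) h32
                    h21 o_L2a3 le_rfl o_a2L2 le_rfl
                have o_a2A2 : mn m p s2 + p s2 ≤ mn m q2 l2 := od1 hmach hq2 hqp2 h32 hl2 o_L2a3
                    le_rfl o_a2L2 le_rfl
                rcases col38 hM hq2 hmach (fun i hi => hqp2 i (by omega)) h32 hl2 hlN2 (hqp2 _ (by
                    omega)) (hqp2 _ (by omega)) rfl with col2 | col2 | col2 | col2 | col2 | col2 |
                    col2
                · have vf_t0_1 := cv18 hM (p := p) (q := p) hp (t0 := s1) (l := n) (fun _ _ =>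
                      rfl) h10 (a1 := s1) (by omega)
                  have vf_q3_3 := cv18 hM (p := p) (q := q3) hq3 (t0 := s3) (l := l3) hqp3 hl3 (a1
                      := s3) (by omega)
                  have vg_q3_1__0 := cg8_1_0_0 hmach (q := q3) hq3 (t0 := s3) (l := l3) hqp3 (by
                      omega) hl3
                  have vg_q3_3__0 := cg8_3_0_0 hmach (q := q3) hq3 (t0 := s3) (l := l3) hqp3 (by
                      omega) hl3
                  have vf_q2_3 := cv18 hM (p := p) (q := q2) hq2 (t0 := s2) (l := l2) hqp2 hl2 (a1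
                      := s3) (by omega)
                  linarith only [e3e2, r0O, V0O, vf_t0_1, L23, w23, wV, zw_2_a, zw_3_b, zw_3_c,
                    zV, xz_1_a, xz_2_c, yx1, yx2, w_3, q3_P, q3_U, vf_q3_3, vg_q3_1__0,
                    vg_q3_3__0, w_2, q2_P, q2_U, q2_V, vf_q2_3, w_0, o_L1e2, o_a2L2, o_a2e1,
                    col2, nn_w1, nn_z1, O0pos]
                · have vf_t0_1 := cv18 hM (p := p) (q := p) hp (t0 := s1) (l := n) (fun _ _ =>
                      rfl) h10 (a1 := s1) (by omega)
                  have vf_q3_3 := cv18 hM (p := p) (q := q3) hq3 (t0 := s3) (l := l3) hqp3 hl3 (a1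
                      := s3) (by omega)
                  have vg_q3_1__0 := cg8_1_0_0 hmach (q := q3) hq3 (t0 := s3) (l := l3) hqp3 (by
                      omega) hl3
                  have vg_q3_2__0 := cg8_2_0_0 hmach (q := q3) hq3 (t0 := s3) (l := l3) hqp3 (by
                      omega) hl3
                  have vf_q2_3 := cv18 hM (p := p) (q := q2) hq2 (t0 := s2) (l := l2) hqp2 hl2 (a1
                      := s3) (by omega)
                  linarith only [e3e2, r0O, V0O, vf_t0_1, w23, wV, zw_1_a, zw_2_a, zw_3_b,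
                    zw_3_c, xz_1_a, xz_2_b, xz_2_c, yx1, yx2, w_3, q3_P, q3_U, vf_q3_3,
                    vg_q3_1__0, vg_q3_2__0, w_2, q2_P, q2_U, vf_q2_3, w_0, o_L1e2, o_a2L2,
                    o_a2e1, col2, nn_w1, O0pos]
                · have vf_t0_1 := cv18 hM (p := p) (q := p) hp (t0 := s1) (l := n) (fun _ _ =>
                      rfl) h10 (a1 := s1) (by omega)
                  have vf_q3_3 := cv18 hM (p := p) (q := q3) hq3 (t0 := s3) (l := l3) hqp3 hl3 (a1
                      := s3) (by omega)
                  have vg_q3_2__0 := cg8_2_0_0 hmach (q := q3) hq3 (t0 := s3) (l := l3) hqp3 (by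
                      omega) hl3
                  have vf_q2_ := cv08 hM (p := p) (q := q2) hq2 (t0 := s2) (l := l2) hqp2 hl2
                  have vf_q2_3 := cv18 hM (p := p) (q := q2) hq2 (t0 := s2) (l := l2) hqp2 hl2 (a1
                      := s3) (by omega)
                  have vg_q2_2__0 := cg8_2_0_0 hmach (q := q2) hq2 (t0 := s2) (l := l2) hqp2 (by
                      omega) hl2
                  linarith only [e3e2, r0O, V0O, vf_t0_1, w23, wV, zw_2_a, zw_3_b, zV, xz_1_a,
                    xz_2_c, yx1, yx2, w_3, q3_P, q3_U, vf_q3_3, vg_q3_2__0, w_2, q2_P, q2_U,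
                    q2_V, vf_q2_, vf_q2_3, vg_q2_2__0, w_0, o_L1e2, o_a2L2, o_a2e1, col2, nn_w1,
                    nn_z1, O0pos]
                · have vf_q2_ := cv08 hM (p := p) (q := q2) hq2 (t0 := s2) (l := l2) hqp2 hl2
                  have vf_q2_2 := cv18 hM (p := p) (q := q2) hq2 (t0 := s2) (l := l2) hqp2 hl2 (a1
                      := s2) (by omega)
                  linarith only [e3e2, r0O, V0O, e0V, zV, xz_2_b, xz_2_c, yx2, w_2, q2_U, q2_V,
                    vf_q2_, vf_q2_2, w_0, o_a2L2, col2, nn_e2, nn_z1, O0pos]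
                · have vf_t0_1 := cv18 hM (p := p) (q := p) hp (t0 := s1) (l := n) (fun _ _ =>
                      rfl) h10 (a1 := s1) (by omega)
                  have vf_q3_ := cv08 hM (p := p) (q := q3) hq3 (t0 := s3) (l := l3) hqp3 hl3
                  have vg_q3_1__0 := cg8_1_0_0 hmach (q := q3) hq3 (t0 := s3) (l := l3) hqp3 (by
                      omega) hl3
                  have vf_q2_ := cv08 hM (p := p) (q := q2) hq2 (t0 := s2) (l := l2) hqp2 hl2
                  have vf_q2_2 := cv18 hM (p := p) (q := q2) hq2 (t0 := s2) (l := l2) hqp2 hl2 (a1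
                      := s2) (by omega)
                  linarith only [r0O, V0O, vf_t0_1, wV, zw_1_a, zw_2_a, zw_3_b, zw_3_c, zV,
                    xz_1_a, xz_2_b, xz_2_c, yx1, yx2, w_3, q3_P, q3_U, vf_q3_, vg_q3_1__0, w_2,
                    q2_P, q2_U, q2_V, vf_q2_, vf_q2_2, w_0, o_L1e2, o_a2e1, col2, nn_w1, O0pos]
                · have vf_q2_ := cv08 hM (p := p) (q := q2) hq2 (t0 := s2) (l := l2) hqp2 hl2
                  have vf_q2_2 := cv18 hM (p := p) (q := q2) hq2 (t0 := s2) (l := l2) hqp2 hl2 (a1
                      := s2) (by omega)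
                  linarith only [e3e2, r0O, V0O, e0V, zV, xz_2_b, xz_2_c, yx2, w_2, q2_U, q2_V,
                    vf_q2_, vf_q2_2, w_0, o_L2a3, o_a2L2, col2, nn_e2, nn_z1, O0pos]
                · have vf_q2_ := cv08 hM (p := p) (q := q2) hq2 (t0 := s2) (l := l2) hqp2 hl2
                  have vf_q2_2 := cv18 hM (p := p) (q := q2) hq2 (t0 := s2) (l := l2) hqp2 hl2 (a1
                      := s2) (by omega)
                  linarith only [r0O, V0O, e0V, zV, xz_2_b, xz_2_c, yx2, w_2, q2_U, q2_V, vf_q2_,
                    vf_q2_2, w_0, col2, nn_e2, nn_z1, O0pos]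
              · have o_L2e1 : ls m p s3 i2 ≤ mn m p s1 := od1 hmach hp (fun _ _ => rfl) h32 h21
                    o_L2a3 le_rfl le_rfl o_L2a2
                have o_L2A2 : ls m p s3 i2 ≤ mn m q2 l2 := od1 hmach hq2 hqp2 h32 hl2 o_L2a3
                    le_rfl le_rfl o_L2a2
                rcases hbp κ i1 i2 i3 i4 hmach with b_low | b_base | ⟨s4, h43, v1, v2, v3, v4, hv,
                    vw1, vw2, vw3, vw4, b_ev, hrank⟩
                · have vg_t1_2_2_0 := cg8_2_0_1 hmach (q := p) hp (t0 := s2) (l := s1) (fun _ _ =>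
                      rfl) (by omega) h21 (a1 := s2) (by omega) (by omega)
                  have vf_t0_1 := cv18 hM (p := p) (q := p) hp (t0 := s1) (l := n) (fun _ _ =>
                      rfl) h10 (a1 := s1) (by omega)
                  have vf_t0_31 := cv28 hM (p := p) (q := p) hp (t0 := s1) (l := n) (fun _ _ =>
                      rfl) h10 (a1 := s3) (a2 := s1) (by omega) (by omega)
                  have vf_t0_321 := cv38 hM (p := p) (q := p) hp (t0 := s1) (l := n) (fun _ _ =>
                      rfl) h10 (a1 := s3) (a2 := s2) (a3 := s1) (by omega) (by omega) (by omega)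
                  have vg_t0_2_21_0 := cg8_2_0_2 hmach (q := p) hp (t0 := s1) (l := n) (fun _ _ =>
                      rfl) (by omega) h10 (a1 := s2) (a2 := s1) (by omega) (by omega) (by omega)
                  have vf_q3_3 := cv18 hM (p := p) (q := q3) hq3 (t0 := s3) (l := l3) hqp3 hl3 (a1
                      := s3) (by omega)
                  have vg_q3_2__0 := cg8_2_0_0 hmach (q := q3) hq3 (t0 := s3) (l := l3) hqp3 (by
                      omega) hl3
                  linarith only [r1O, V1O, r0O, V0O, vg_t1_2_2_0, vf_t0_1, vf_t0_31, vf_t0_321,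
                    vg_t0_2_21_0, wV, zw_2_a, zw_3_b, xz_2_b, xz_2_c, yx2, w_3, q3_P, q3_U,
                    vf_q3_3, vg_q3_2__0, w_1, w_0, o_L1e2, b_low, nn_w1, O0pos]
                · have vg_t1_3_2_0 := cg8_3_0_1 hmach (q := p) hp (t0 := s2) (l := s1) (fun _ _ =>
                      rfl) (by omega) h21 (a1 := s2) (by omega) (by omega)
                  have vf_t0_31 := cv28 hM (p := p) (q := p) hp (t0 := s1) (l := n) (fun _ _ =>
                      rfl) h10 (a1 := s3) (a2 := s1) (by omega) (by omega)
                  have vf_t0_321 := cv38 hM (p := p) (q := p) hp (t0 := s1) (l := n) (fun _ _ =>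
                      rfl) h10 (a1 := s3) (a2 := s2) (a3 := s1) (by omega) (by omega) (by omega)
                  have vf_q3_3 := cv18 hM (p := p) (q := q3) hq3 (t0 := s3) (l := l3) hqp3 hl3 (a1
                      := s3) (by omega)
                  have vg_q3_3__0 := cg8_3_0_0 hmach (q := q3) hq3 (t0 := s3) (l := l3) hqp3 (by
                      omega) hl3
                  have vf_q2_32 := cv28 hM (p := p) (q := q2) hq2 (t0 := s2) (l := l2) hqp2 hl2
                      (a1 := s3) (a2 := s2) (by omega) (by omega)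
                  have vg_q2_4_2_0 := cg8_4_0_1 hmach (q := q2) hq2 (t0 := s2) (l := l2) hqp2 (by
                      omega) hl2 (a1 := s2) (by omega) (by omega)
                  linarith only [e3e2, r1O, V1O, r0O, V0O, vg_t1_3_2_0, vf_t0_31, vf_t0_321,
                    Lsum, w23, zw_2_a, zw_3_b, zw_3_c, xz_2_b, xz_2_c, yx2, w_3, q3_P, q3_U,
                    vf_q3_3, vg_q3_3__0, w_2, q2_P, q2_U, vf_q2_32, vg_q2_4_2_0, w_1, w_0,
                    o_L1e2, b_base, nn_w1, O0pos]
                · obtain ⟨nn_r4, nn_e4, nn_V4, nn_O4, r4O, V4O, e4V⟩ := bas8 hM hp s4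
                  obtain ⟨V4V3, O4O3, e4e3⟩ := stp8 hM hp h43
                  obtain ⟨nn_v1, nn_v2, nn_v3, nn_v4, v12, v23, v34, vV⟩ := hv
                  rcases hrank with ⟨u4, wv_1_b, wv_1_c, wv_2_b, wv_2_s, wv_3_b, wv_3_s⟩ | ⟨u4,
                      wv_1_a, wv_2_b, wv_2_c, wv_3_b, wv_3_s⟩ | ⟨u4, ⟨wv_1_a, wv_2_a, wv_3_b,
                      wv_3_c⟩, b_alt⟩
                  · rcases wit18 (by norm_num) (by norm_num) hp u4 with ⟨l4, g4, w_4⟩ | w_4 | ⟨q4,
                        N4, l4, hq4, hqp4, hl4, hlN4, w_4⟩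
                    · obtain ⟨nn_A4, nn_P4, p4_V, p4_O, p4_e⟩ := pas8 hM hp g4
                      rcases sb8 hp h43 hmach with b_small | b_big
                      · have vg_t1_3_2_0 := cg8_3_0_1 hmach (q := p) hp (t0 := s2) (l := s1) (fun
                            _ _ => rfl) (by omega) h21 (a1 := s2) (by omega) (by omega)
                        have vf_t0_21 := cv28 hM (p := p) (q := p) hp (t0 := s1) (l := n) (fun _ _
                            => rfl) h10 (a1 := s2) (a2 := s1) (by omega) (by omega)
                        have vf_t0_321 := cv38 hM (p := p) (q := p) hp (t0 := s1) (l := n) (fun _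
                            _ => rfl) h10 (a1 := s3) (a2 := s2) (a3 := s1) (by omega) (by omega)
                            (by omega)
                        have vf_q2_32 := cv28 hM (p := p) (q := q2) hq2 (t0 := s2) (l := l2) hqp2
                            hl2 (a1 := s3) (a2 := s2) (by omega) (by omega)
                        have vg_q2_4_2_0 := cg8_4_0_1 hmach (q := q2) hq2 (t0 := s2) (l := l2)
                            hqp2 (by omega) hl2 (a1 := s2) (by omega) (by omega)
                        linarith only [V4O, e4e3, r1O, V1O, r0O, V0O, vg_t1_3_2_0, vf_t0_21,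
                          vf_t0_321, Lsum, v23, v34, vV, wv_3_b, w23, zw_2_a, zw_3_b, zw_3_c,
                          xz_2_b, xz_2_c, yx2, w_4, p4_V, p4_O, p4_e, w_2, q2_P, q2_U, vf_q2_32,
                          vg_q2_4_2_0, w_1, w_0, o_L1e2, b_small, b_ev, nn_w1, nn_v1, O0pos]
                      · have vg_t1_2_2_0 := cg8_2_0_1 hmach (q := p) hp (t0 := s2) (l := s1) (fun
                            _ _ => rfl) (by omega) h21 (a1 := s2) (by omega) (by omega)
                        have vf_t0_21 := cv28 hM (p := p) (q := p) hp (t0 := s1) (l := n) (fun _ _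
                            => rfl) h10 (a1 := s2) (a2 := s1) (by omega) (by omega)
                        have vf_t0_321 := cv38 hM (p := p) (q := p) hp (t0 := s1) (l := n) (fun _
                            _ => rfl) h10 (a1 := s3) (a2 := s2) (a3 := s1) (by omega) (by omega)
                            (by omega)
                        have vf_q3_3 := cv18 hM (p := p) (q := q3) hq3 (t0 := s3) (l := l3) hqp3
                            hl3 (a1 := s3) (by omega)
                        have vg_q3_2__0 := cg8_2_0_0 hmach (q := q3) hq3 (t0 := s3) (l := l3) hqp3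
                            (by omega) hl3
                        have vf_q2_32 := cv28 hM (p := p) (q := q2) hq2 (t0 := s2) (l := l2) hqp2
                            hl2 (a1 := s3) (a2 := s2) (by omega) (by omega)
                        have vg_q2_2_2_0 := cg8_2_0_1 hmach (q := q2) hq2 (t0 := s2) (l := l2)
                            hqp2 (by omega) hl2 (a1 := s2) (by omega) (by omega)
                        have vg_q2_4_2_0 := cg8_4_0_1 hmach (q := q2) hq2 (t0 := s2) (l := l2)
                            hqp2 (by omega) hl2 (a1 := s2) (by omega) (by omega)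
                        linarith only [r4O, e4e3, e3e2, r1O, V1O, r0O, V0O, vg_t1_2_2_0,
                          vf_t0_21, vf_t0_321, Lsum, vw2, wV, zw_2_a, zw_3_b, zw_3_c, xz_2_b,
                          xz_2_c, yx2, w_4, p4_O, p4_e, w_3, q3_P, q3_U, vf_q3_3, vg_q3_2__0,
                          w_2, q2_P, q2_U, vf_q2_32, vg_q2_2_2_0, vg_q2_4_2_0, w_1, w_0, o_L1e2,
                          b_big, b_ev, nn_w1, O0pos]
                    · rcases sb8 hp h43 hmach with b_small | b_big
                      · have vg_t1_3_2_0 := cg8_3_0_1 hmach (q := p) hp (t0 := s2) (l := s1) (fun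
                            _ _ => rfl) (by omega) h21 (a1 := s2) (by omega) (by omega)
                        have vf_t0_21 := cv28 hM (p := p) (q := p) hp (t0 := s1) (l := n) (fun _ _
                            => rfl) h10 (a1 := s2) (a2 := s1) (by omega) (by omega)
                        have vf_t0_321 := cv38 hM (p := p) (q := p) hp (t0 := s1) (l := n) (fun _
                            _ => rfl) h10 (a1 := s3) (a2 := s2) (a3 := s1) (by omega) (by omega)
                            (by omega)
                        have vf_q2_32 := cv28 hM (p := p) (q := q2) hq2 (t0 := s2) (l := l2) hqp2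
                            hl2 (a1 := s3) (a2 := s2) (by omega) (by omega)
                        have vg_q2_3_2_0 := cg8_3_0_1 hmach (q := q2) hq2 (t0 := s2) (l := l2)
                            hqp2 (by omega) hl2 (a1 := s2) (by omega) (by omega)
                        linarith only [V4O, e4V, e4e3, r1O, V1O, r0O, V0O, vg_t1_3_2_0, vf_t0_21,
                          vf_t0_321, v23, v34, vV, wv_3_b, w23, zw_2_a, zw_3_b, zw_3_c, xz_2_b,
                          xz_2_c, yx2, w_4, w_2, q2_P, q2_U, vf_q2_32, vg_q2_3_2_0, w_1, w_0,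
                          o_L1e2, b_small, b_ev, nn_w1, nn_v1, O0pos]
                      · have vg_t1_2_2_0 := cg8_2_0_1 hmach (q := p) hp (t0 := s2) (l := s1) (fun
                            _ _ => rfl) (by omega) h21 (a1 := s2) (by omega) (by omega)
                        have vf_t0_21 := cv28 hM (p := p) (q := p) hp (t0 := s1) (l := n) (fun _ _
                            => rfl) h10 (a1 := s2) (a2 := s1) (by omega) (by omega)
                        have vf_t0_321 := cv38 hM (p := p) (q := p) hp (t0 := s1) (l := n) (fun _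
                            _ => rfl) h10 (a1 := s3) (a2 := s2) (a3 := s1) (by omega) (by omega)
                            (by omega)
                        have vf_q3_3 := cv18 hM (p := p) (q := q3) hq3 (t0 := s3) (l := l3) hqp3
                            hl3 (a1 := s3) (by omega)
                        have vg_q3_2__0 := cg8_2_0_0 hmach (q := q3) hq3 (t0 := s3) (l := l3) hqp3
                            (by omega) hl3
                        have vg_q3_3__0 := cg8_3_0_0 hmach (q := q3) hq3 (t0 := s3) (l := l3) hqp3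
                            (by omega) hl3
                        have vf_q2_32 := cv28 hM (p := p) (q := q2) hq2 (t0 := s2) (l := l2) hqp2
                            hl2 (a1 := s3) (a2 := s2) (by omega) (by omega)
                        have vg_q2_2_2_0 := cg8_2_0_1 hmach (q := q2) hq2 (t0 := s2) (l := l2)
                            hqp2 (by omega) hl2 (a1 := s2) (by omega) (by omega)
                        linarith only [r4O, e4e3, e3e2, r1O, V1O, r0O, V0O, vg_t1_2_2_0,
                          vf_t0_21, vf_t0_321, vw2, wV, zw_2_a, zw_3_b, zw_3_c, xz_2_b, xz_2_c,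
                          yx2, w_4, w_3, q3_P, q3_U, vf_q3_3, vg_q3_2__0, vg_q3_3__0, w_2, q2_P,
                          q2_U, vf_q2_32, vg_q2_2_2_0, w_1, w_0, o_L1e2, b_big, b_ev, nn_w1,
                          O0pos]
                    · obtain ⟨nn_A4, nn_P4, nn_U4, nn_Q4, q4_O, q4_P, q4_U, q4_V, q4_e⟩ := fut8 hM
                          hq4 hqp4 hl4 hlN4
                      rcases sb8 hp h43 hmach with b_small | b_big
                      · have vg_t1_3_2_0 := cg8_3_0_1 hmach (q := p) hp (t0 := s2) (l := s1) (fun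
                            _ _ => rfl) (by omega) h21 (a1 := s2) (by omega) (by omega)
                        have vf_t0_31 := cv28 hM (p := p) (q := p) hp (t0 := s1) (l := n) (fun _ _
                            => rfl) h10 (a1 := s3) (a2 := s1) (by omega) (by omega)
                        have vf_t0_21 := cv28 hM (p := p) (q := p) hp (t0 := s1) (l := n) (fun _ _
                            => rfl) h10 (a1 := s2) (a2 := s1) (by omega) (by omega)
                        have vf_t0_321 := cv38 hM (p := p) (q := p) hp (t0 := s1) (l := n) (fun _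
                            _ => rfl) h10 (a1 := s3) (a2 := s2) (a3 := s1) (by omega) (by omega)
                            (by omega)
                        have vg_t0_4_21_0 := cg8_4_0_2 hmach (q := p) hp (t0 := s1) (l := n) (fun
                            _ _ => rfl) (by omega) h10 (a1 := s2) (a2 := s1) (by omega) (by omega)
                            (by omega)
                        have vf_q4_ := cv08 hM (p := p) (q := q4) hq4 (t0 := s4) (l := l4) hqp4
                            hl4
                        have vf_q2_32 := cv28 hM (p := p) (q := q2) hq2 (t0 := s2) (l := l2) hqp2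
                            hl2 (a1 := s3) (a2 := s2) (by omega) (by omega)
                        have vg_q2_3_2_0 := cg8_3_0_1 hmach (q := q2) hq2 (t0 := s2) (l := l2)
                            hqp2 (by omega) hl2 (a1 := s2) (by omega) (by omega)
                        linarith only [r1O, V1O, r0O, V0O, vg_t1_3_2_0, vf_t0_31, vf_t0_21,
                          vf_t0_321, vg_t0_4_21_0, Lsum, v23, v34, vV, vw2, wv_3_b, zw_2_a,
                          zw_3_b, zw_3_c, xz_2_b, xz_2_c, yx2, w_4, q4_P, q4_U, q4_V, vf_q4_,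
                          w_2, q2_P, q2_U, vf_q2_32, vg_q2_3_2_0, w_1, w_0, o_L1e2, b_small,
                          b_ev, nn_w1, nn_v1, O0pos]
                      · have vg_t1_2_2_0 := cg8_2_0_1 hmach (q := p) hp (t0 := s2) (l := s1) (fun
                            _ _ => rfl) (by omega) h21 (a1 := s2) (by omega) (by omega)
                        have vf_t0_21 := cv28 hM (p := p) (q := p) hp (t0 := s1) (l := n) (fun _ _
                            => rfl) h10 (a1 := s2) (a2 := s1) (by omega) (by omega)
                        have vf_t0_321 := cv38 hM (p := p) (q := p) hp (t0 := s1) (l := n) (fun _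
                            _ => rfl) h10 (a1 := s3) (a2 := s2) (a3 := s1) (by omega) (by omega)
                            (by omega)
                        have vf_q4_4 := cv18 hM (p := p) (q := q4) hq4 (t0 := s4) (l := l4) hqp4
                            hl4 (a1 := s4) (by omega)
                        have vg_q3_3__0 := cg8_3_0_0 hmach (q := q3) hq3 (t0 := s3) (l := l3) hqp3
                            (by omega) hl3
                        have vg_q3_4__0 := cg8_4_0_0 hmach (q := q3) hq3 (t0 := s3) (l := l3) hqp3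
                            (by omega) hl3
                        have vf_q2_32 := cv28 hM (p := p) (q := q2) hq2 (t0 := s2) (l := l2) hqp2
                            hl2 (a1 := s3) (a2 := s2) (by omega) (by omega)
                        have vg_q2_3_2_0 := cg8_3_0_1 hmach (q := q2) hq2 (t0 := s2) (l := l2)
                            hqp2 (by omega) hl2 (a1 := s2) (by omega) (by omega)
                        linarith only [r4O, e4e3, e3e2, r1O, V1O, r0O, V0O, vg_t1_2_2_0,
                          vf_t0_21, vf_t0_321, Lsum, v23, vV, vw2, wv_3_b, wV, zw_2_a, zw_3_b,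
                          zw_3_c, xz_2_b, xz_2_c, yx2, w_4, q4_O, q4_P, q4_U, q4_V, vf_q4_4, w_3,
                          q3_P, q3_U, vg_q3_3__0, vg_q3_4__0, w_2, q2_P, q2_U, vf_q2_32,
                          vg_q2_3_2_0, w_1, w_0, o_L1e2, b_big, b_ev, nn_w1, nn_v1, O0pos]
                  · rcases wit18 (by norm_num) (by norm_num) hp u4 with ⟨l4, g4, w_4⟩ | w_4 | ⟨q4,
                        N4, l4, hq4, hqp4, hl4, hlN4, w_4⟩
                    · obtain ⟨nn_A4, nn_P4, p4_V, p4_O, p4_e⟩ := pas8 hM hp g4
                      rcases sb8 hp h43 hmach with b_small | b_big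
                      · rcases col48 (N := n + 1) hM hp hmach (fun _ _ => rfl) h32 h21 h10 (by
                            omega) rfl rfl rfl rfl with col0 | col0 | col0 | col0 | col0 | col0 |
                            col0 | col0 | col0 | col0 | col0
                        · have vg_t1_3_2_0 := cg8_3_0_1 hmach (q := p) hp (t0 := s2) (l := s1)
                              (fun _ _ => rfl) (by omega) h21 (a1 := s2) (by omega) (by omega)
                          have vf_t0_21 := cv28 hM (p := p) (q := p) hp (t0 := s1) (l := n) (fun _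
                              _ => rfl) h10 (a1 := s2) (a2 := s1) (by omega) (by omega)
                          have vf_t0_321 := cv38 hM (p := p) (q := p) hp (t0 := s1) (l := n) (fun
                              _ _ => rfl) h10 (a1 := s3) (a2 := s2) (a3 := s1) (by omega) (by
                              omega) (by omega)
                          have vg_q3_3__0 := cg8_3_0_0 hmach (q := q3) hq3 (t0 := s3) (l := l3)
                              hqp3 (by omega) hl3
                          have vg_q3_4__0 := cg8_4_0_0 hmach (q := q3) hq3 (t0 := s3) (l := l3)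
                              hqp3 (by omega) hl3
                          have vf_q2_32 := cv28 hM (p := p) (q := q2) hq2 (t0 := s2) (l := l2)
                              hqp2 hl2 (a1 := s3) (a2 := s2) (by omega) (by omega)
                          have vg_q2_4_2_0 := cg8_4_0_1 hmach (q := q2) hq2 (t0 := s2) (l := l2)
                              hqp2 (by omega) hl2 (a1 := s2) (by omega) (by omega)
                          linarith only [V4O, r1O, V1O, r0O, V0O, vg_t1_3_2_0, vf_t0_21,
                            vf_t0_321, L23, v34, vV, wv_3_b, wv_3_s, wV, zw_2_a, zw_3_b, zw_3_c,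
                            xz_2_b, xz_2_c, xV, yx2, w_4, p4_V, p4_O, p4_e, w_3, q3_P, q3_U,
                            vg_q3_3__0, vg_q3_4__0, w_2, q2_P, q2_U, vf_q2_32, vg_q2_4_2_0, w_1,
                            w_0, o_L1e2, b_small, b_ev, col0, nn_w1, nn_x1, O0pos]
                        · have vg_t1_3_2_0 := cg8_3_0_1 hmach (q := p) hp (t0 := s2) (l := s1)
                              (fun _ _ => rfl) (by omega) h21 (a1 := s2) (by omega) (by omega)
                          have vf_t0_21 := cv28 hM (p := p) (q := p) hp (t0 := s1) (l := n) (fun _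
                              _ => rfl) h10 (a1 := s2) (a2 := s1) (by omega) (by omega)
                          have vf_t0_321 := cv38 hM (p := p) (q := p) hp (t0 := s1) (l := n) (fun
                              _ _ => rfl) h10 (a1 := s3) (a2 := s2) (a3 := s1) (by omega) (by
                              omega) (by omega)
                          have vg_q3_3__0 := cg8_3_0_0 hmach (q := q3) hq3 (t0 := s3) (l := l3)
                              hqp3 (by omega) hl3
                          have vg_q3_4__0 := cg8_4_0_0 hmach (q := q3) hq3 (t0 := s3) (l := l3)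
                              hqp3 (by omega) hl3
                          have vf_q2_32 := cv28 hM (p := p) (q := q2) hq2 (t0 := s2) (l := l2)
                              hqp2 hl2 (a1 := s3) (a2 := s2) (by omega) (by omega)
                          have vg_q2_3_2_0 := cg8_3_0_1 hmach (q := q2) hq2 (t0 := s2) (l := l2)
                              hqp2 (by omega) hl2 (a1 := s2) (by omega) (by omega)
                          linarith only [V4O, r1O, V1O, r0O, V0O, vg_t1_3_2_0, vf_t0_21,
                            vf_t0_321, L23, Lsum, v34, vV, wv_3_b, wv_3_s, wV, zw_2_a, zw_3_b,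
                            zw_3_c, xz_2_b, xz_2_c, xV, yx2, w_4, p4_V, p4_O, p4_e, w_3, q3_P,
                            q3_U, vg_q3_3__0, vg_q3_4__0, w_2, q2_P, q2_U, vf_q2_32, vg_q2_3_2_0,
                            w_1, w_0, o_L1e2, b_small, col0, nn_w1, nn_x1, O0pos]
                        · have vf_t0_1 := cv18 hM (p := p) (q := p) hp (t0 := s1) (l := n) (fun _
                              _ => rfl) h10 (a1 := s1) (by omega)
                          have vf_t0_21 := cv28 hM (p := p) (q := p) hp (t0 := s1) (l := n) (fun _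
                              _ => rfl) h10 (a1 := s2) (a2 := s1) (by omega) (by omega)
                          have vf_q2_32 := cv28 hM (p := p) (q := q2) hq2 (t0 := s2) (l := l2)
                              hqp2 hl2 (a1 := s3) (a2 := s2) (by omega) (by omega)
                          have vg_q2_3_2_0 := cg8_3_0_1 hmach (q := q2) hq2 (t0 := s2) (l := l2)
                              hqp2 (by omega) hl2 (a1 := s2) (by omega) (by omega)
                          linarith only [V4O, e3e2, r1O, V1O, r0O, V0O, vf_t0_1, vf_t0_21, L23,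
                            v34, vV, wv_3_b, wv_3_s, wV, zw_2_a, zw_3_b, zw_3_c, xz_2_b, xz_2_c,
                            xV, yx2, w_4, p4_V, p4_O, p4_e, w_2, q2_P, q2_U, vf_q2_32,
                            vg_q2_3_2_0, w_1, w_0, o_L1e2, o_L2e1, b_small, col0, nn_w1, nn_x1,
                            O0pos]
                        · have vg_t1_3_2_0 := cg8_3_0_1 hmach (q := p) hp (t0 := s2) (l := s1)
                              (fun _ _ => rfl) (by omega) h21 (a1 := s2) (by omega) (by omega)
                          have vf_t0_1 := cv18 hM (p := p) (q := p) hp (t0 := s1) (l := n) (fun _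
                              _ => rfl) h10 (a1 := s1) (by omega)
                          have vf_t0_21 := cv28 hM (p := p) (q := p) hp (t0 := s1) (l := n) (fun _
                              _ => rfl) h10 (a1 := s2) (a2 := s1) (by omega) (by omega)
                          have vg_q3_3__0 := cg8_3_0_0 hmach (q := q3) hq3 (t0 := s3) (l := l3)
                              hqp3 (by omega) hl3
                          have vg_q3_4__0 := cg8_4_0_0 hmach (q := q3) hq3 (t0 := s3) (l := l3)
                              hqp3 (by omega) hl3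
                          have vf_q2_32 := cv28 hM (p := p) (q := q2) hq2 (t0 := s2) (l := l2)
                              hqp2 hl2 (a1 := s3) (a2 := s2) (by omega) (by omega)
                          have vg_q2_3_2_0 := cg8_3_0_1 hmach (q := q2) hq2 (t0 := s2) (l := l2)
                              hqp2 (by omega) hl2 (a1 := s2) (by omega) (by omega)
                          linarith only [e3e2, V1O, r0O, V0O, vg_t1_3_2_0, vf_t0_1, vf_t0_21,
                            L23, Lsum, wV, zw_2_a, zw_3_b, zw_3_c, xz_2_b, xz_2_c, xV, yx1, yx2,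
                            w_3, q3_P, q3_U, vg_q3_3__0, vg_q3_4__0, w_2, q2_P, q2_U, vf_q2_32,
                            vg_q2_3_2_0, w_1, w_0, o_L1e2, col0, nn_w1, nn_x1, O0pos]
                        · have vg_t1_3_2_0 := cg8_3_0_1 hmach (q := p) hp (t0 := s2) (l := s1)
                              (fun _ _ => rfl) (by omega) h21 (a1 := s2) (by omega) (by omega)
                          have vf_t0_21 := cv28 hM (p := p) (q := p) hp (t0 := s1) (l := n) (fun _
                              _ => rfl) h10 (a1 := s2) (a2 := s1) (by omega) (by omega)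
                          have vf_t0_321 := cv38 hM (p := p) (q := p) hp (t0 := s1) (l := n) (fun
                              _ _ => rfl) h10 (a1 := s3) (a2 := s2) (a3 := s1) (by omega) (by
                              omega) (by omega)
                          have vg_q3_3__0 := cg8_3_0_0 hmach (q := q3) hq3 (t0 := s3) (l := l3)
                              hqp3 (by omega) hl3
                          have vg_q3_4__0 := cg8_4_0_0 hmach (q := q3) hq3 (t0 := s3) (l := l3)
                              hqp3 (by omega) hl3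
                          have vf_q2_32 := cv28 hM (p := p) (q := q2) hq2 (t0 := s2) (l := l2)
                              hqp2 hl2 (a1 := s3) (a2 := s2) (by omega) (by omega)
                          have vg_q2_3_2_0 := cg8_3_0_1 hmach (q := q2) hq2 (t0 := s2) (l := l2)
                              hqp2 (by omega) hl2 (a1 := s2) (by omega) (by omega)
                          linarith only [e3e2, r1O, V1O, r0O, V0O, vg_t1_3_2_0, vf_t0_21,
                            vf_t0_321, L23, Lsum, wV, zw_2_a, zw_3_b, zw_3_c, xz_2_b, xz_2_c, xV,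
                            yx2, w_3, q3_P, q3_U, vg_q3_3__0, vg_q3_4__0, w_2, q2_P, q2_U,
                            vf_q2_32, vg_q2_3_2_0, w_1, w_0, o_L1e2, col0, nn_w1, nn_x1, O0pos]
                        · have vf_t0_1 := cv18 hM (p := p) (q := p) hp (t0 := s1) (l := n) (fun _
                              _ => rfl) h10 (a1 := s1) (by omega)
                          have vf_t0_21 := cv28 hM (p := p) (q := p) hp (t0 := s1) (l := n) (fun _
                              _ => rfl) h10 (a1 := s2) (a2 := s1) (by omega) (by omega)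
                          have vf_q3_3 := cv18 hM (p := p) (q := q3) hq3 (t0 := s3) (l := l3) hqp3
                              hl3 (a1 := s3) (by omega)
                          have vg_q3_2__0 := cg8_2_0_0 hmach (q := q3) hq3 (t0 := s3) (l := l3)
                              hqp3 (by omega) hl3
                          have vg_q3_4__0 := cg8_4_0_0 hmach (q := q3) hq3 (t0 := s3) (l := l3)
                              hqp3 (by omega) hl3
                          have vf_q2_32 := cv28 hM (p := p) (q := q2) hq2 (t0 := s2) (l := l2)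
                              hqp2 hl2 (a1 := s3) (a2 := s2) (by omega) (by omega)
                          have vg_q2_2_2_0 := cg8_2_0_1 hmach (q := q2) hq2 (t0 := s2) (l := l2)
                              hqp2 (by omega) hl2 (a1 := s2) (by omega) (by omega)
                          linarith only [e4e3, V1O, r0O, V0O, vf_t0_1, vf_t0_21, Lsum, wV,
                            zw_1_a, zw_2_a, zw_3_b, zw_3_c, xz_1_a, xz_2_b, xz_2_c, xV, yx1, yx2,
                            w_3, q3_P, q3_U, vf_q3_3, vg_q3_2__0, vg_q3_4__0, w_2, q2_P, q2_U,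
                            vf_q2_32, vg_q2_2_2_0, w_1, w_0, o_L1e2, o_L2e1, b_ev, col0, nn_w1,
                            O0pos]
                        · have vf_t1_32 := cv28 hM (p := p) (q := p) hp (t0 := s2) (l := s1) (fun
                              _ _ => rfl) h21 (a1 := s3) (a2 := s2) (by omega) (by omega)
                          have vf_t0_1 := cv18 hM (p := p) (q := p) hp (t0 := s1) (l := n) (fun _
                              _ => rfl) h10 (a1 := s1) (by omega)
                          have vf_t0_21 := cv28 hM (p := p) (q := p) hp (t0 := s1) (l := n) (fun _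
                              _ => rfl) h10 (a1 := s2) (a2 := s1) (by omega) (by omega)
                          have vf_q3_3 := cv18 hM (p := p) (q := q3) hq3 (t0 := s3) (l := l3) hqp3
                              hl3 (a1 := s3) (by omega)
                          have vg_q3_1__0 := cg8_1_0_0 hmach (q := q3) hq3 (t0 := s3) (l := l3)
                              hqp3 (by omega) hl3
                          have vg_q3_4__0 := cg8_4_0_0 hmach (q := q3) hq3 (t0 := s3) (l := l3)
                              hqp3 (by omega) hl3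
                          linarith only [e4e3, V1O, r0O, V0O, vf_t1_32, vf_t0_1, vf_t0_21, Lsum,
                            wV, zw_1_a, zw_2_a, zw_3_b, zw_3_c, xz_1_a, xz_2_b, xz_2_c, xV, yx1,
                            yx2, w_3, q3_P, q3_U, vf_q3_3, vg_q3_1__0, vg_q3_4__0, w_1, w_0,
                            o_L1e2, b_ev, col0, O0pos]
                        · have vf_q3_3 := cv18 hM (p := p) (q := q3) hq3 (t0 := s3) (l := l3) hqp3
                              hl3 (a1 := s3) (by omega)
                          have vg_q3_0__0 := cg8_0_0_0 hmach (q := q3) hq3 (t0 := s3) (l := l3)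
                              hqp3 (by omega) hl3
                          have vg_q3_0__1 := cg8_0_1_0 hmach (q := q3) hq3 (t0 := s3) (l := l3)
                              hqp3 (by omega) hl3
                          linarith only [r0O, V0O, e0V, wV, zw_3_b, zw_3_c, xz_2_b, yx2, w_3,
                            q3_P, q3_U, vf_q3_3, vg_q3_0__0, vg_q3_0__1, w_0, col0, nn_w1, nn_w2,
                            O0pos]
                        · have vf_t1_32 := cv28 hM (p := p) (q := p) hp (t0 := s2) (l := s1) (fun
                              _ _ => rfl) h21 (a1 := s3) (a2 := s2) (by omega) (by omega)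
                          have vf_t0_1 := cv18 hM (p := p) (q := p) hp (t0 := s1) (l := n) (fun _
                              _ => rfl) h10 (a1 := s1) (by omega)
                          have vg_q3_3__0 := cg8_3_0_0 hmach (q := q3) hq3 (t0 := s3) (l := l3)
                              hqp3 (by omega) hl3
                          have vg_q3_4__0 := cg8_4_0_0 hmach (q := q3) hq3 (t0 := s3) (l := l3)
                              hqp3 (by omega) hl3
                          have vf_q2_32 := cv28 hM (p := p) (q := q2) hq2 (t0 := s2) (l := l2)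
                              hqp2 hl2 (a1 := s3) (a2 := s2) (by omega) (by omega)
                          have vg_q2_3_2_0 := cg8_3_0_1 hmach (q := q2) hq2 (t0 := s2) (l := l2)
                              hqp2 (by omega) hl2 (a1 := s2) (by omega) (by omega)
                          linarith only [V4O, e4V, e4e3, V1O, r0O, V0O, vf_t1_32, vf_t0_1, Lsum,
                            v34, vV, wv_3_s, zw_1_a, zw_2_a, zw_3_b, zw_3_c, zV, xz_1_a, xz_2_b,
                            xz_2_c, xV, yx1, yx2, w_4, p4_V, p4_O, w_3, q3_P, q3_U, vg_q3_3__0,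
                            vg_q3_4__0, w_2, q2_P, q2_U, q2_V, vf_q2_32, vg_q2_3_2_0, w_1, w_0,
                            o_L1e2, b_small, b_ev, col0, O0pos]
                        · have vf_q2_ := cv08 hM (p := p) (q := q2) hq2 (t0 := s2) (l := l2) hqp2
                              hl2
                          linarith only [r0O, V0O, e0V, zV, xz_2_b, xz_2_c, yx2, w_2, q2_P, q2_U,
                            q2_V, vf_q2_, w_0, col0, nn_z1, O0pos]
                        · linarith only [V1O, e1V, r0O, V0O, e0V, xV, yx1, yx2, w_1, w_0, col0,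
                            O0pos]
                      · have vg_t1_2_2_0 := cg8_2_0_1 hmach (q := p) hp (t0 := s2) (l := s1) (fun
                            _ _ => rfl) (by omega) h21 (a1 := s2) (by omega) (by omega)
                        have vf_t0_21 := cv28 hM (p := p) (q := p) hp (t0 := s1) (l := n) (fun _ _
                            => rfl) h10 (a1 := s2) (a2 := s1) (by omega) (by omega)
                        have vf_t0_321 := cv38 hM (p := p) (q := p) hp (t0 := s1) (l := n) (fun _
                            _ => rfl) h10 (a1 := s3) (a2 := s2) (a3 := s1) (by omega) (by omega)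
                            (by omega)
                        have vf_q3_3 := cv18 hM (p := p) (q := q3) hq3 (t0 := s3) (l := l3) hqp3
                            hl3 (a1 := s3) (by omega)
                        have vg_q3_2__0 := cg8_2_0_0 hmach (q := q3) hq3 (t0 := s3) (l := l3) hqp3
                            (by omega) hl3
                        have vf_q2_32 := cv28 hM (p := p) (q := q2) hq2 (t0 := s2) (l := l2) hqp2
                            hl2 (a1 := s3) (a2 := s2) (by omega) (by omega)
                        have vg_q2_2_2_0 := cg8_2_0_1 hmach (q := q2) hq2 (t0 := s2) (l := l2)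
                            hqp2 (by omega) hl2 (a1 := s2) (by omega) (by omega)
                        linarith only [r4O, V4O, e4e3, e3e2, r1O, V1O, r0O, V0O, vg_t1_2_2_0,
                          vf_t0_21, vf_t0_321, vw3, wV, zw_2_a, zw_3_b, zw_3_c, xz_2_b, xz_2_c,
                          yx2, w_4, p4_V, p4_O, p4_e, w_3, q3_P, q3_U, vf_q3_3, vg_q3_2__0, w_2,
                          q2_P, q2_U, vf_q2_32, vg_q2_2_2_0, w_1, w_0, o_L1e2, b_big, nn_w1,
                          O0pos]
                    · rcases sb8 hp h43 hmach with b_small | b_big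
                      · have vg_t1_3_2_0 := cg8_3_0_1 hmach (q := p) hp (t0 := s2) (l := s1) (fun
                            _ _ => rfl) (by omega) h21 (a1 := s2) (by omega) (by omega)
                        have vf_t0_21 := cv28 hM (p := p) (q := p) hp (t0 := s1) (l := n) (fun _ _
                            => rfl) h10 (a1 := s2) (a2 := s1) (by omega) (by omega)
                        have vf_t0_321 := cv38 hM (p := p) (q := p) hp (t0 := s1) (l := n) (fun _
                            _ => rfl) h10 (a1 := s3) (a2 := s2) (a3 := s1) (by omega) (by omega)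
                            (by omega)
                        have vf_q2_32 := cv28 hM (p := p) (q := q2) hq2 (t0 := s2) (l := l2) hqp2
                            hl2 (a1 := s3) (a2 := s2) (by omega) (by omega)
                        have vg_q2_4_2_0 := cg8_4_0_1 hmach (q := q2) hq2 (t0 := s2) (l := l2)
                            hqp2 (by omega) hl2 (a1 := s2) (by omega) (by omega)
                        linarith only [V4O, e4e3, r1O, V1O, r0O, V0O, vg_t1_3_2_0, vf_t0_21,
                          vf_t0_321, Lsum, v34, vV, wv_3_b, wv_3_s, zw_2_a, zw_3_b, zw_3_c,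
                          xz_2_b, xz_2_c, xV, yx2, w_4, w_2, q2_P, q2_U, vf_q2_32, vg_q2_4_2_0,
                          w_1, w_0, o_L1e2, b_small, b_ev, nn_w1, nn_v1, nn_v2, nn_x1, O0pos]
                      · have vg_t1_2_2_0 := cg8_2_0_1 hmach (q := p) hp (t0 := s2) (l := s1) (fun
                            _ _ => rfl) (by omega) h21 (a1 := s2) (by omega) (by omega)
                        have vf_t0_21 := cv28 hM (p := p) (q := p) hp (t0 := s1) (l := n) (fun _ _
                            => rfl) h10 (a1 := s2) (a2 := s1) (by omega) (by omega)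
                        have vf_t0_321 := cv38 hM (p := p) (q := p) hp (t0 := s1) (l := n) (fun _
                            _ => rfl) h10 (a1 := s3) (a2 := s2) (a3 := s1) (by omega) (by omega)
                            (by omega)
                        have vf_q3_3 := cv18 hM (p := p) (q := q3) hq3 (t0 := s3) (l := l3) hqp3
                            hl3 (a1 := s3) (by omega)
                        have vg_q3_2__0 := cg8_2_0_0 hmach (q := q3) hq3 (t0 := s3) (l := l3) hqp3
                            (by omega) hl3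
                        have vf_q2_32 := cv28 hM (p := p) (q := q2) hq2 (t0 := s2) (l := l2) hqp2
                            hl2 (a1 := s3) (a2 := s2) (by omega) (by omega)
                        have vg_q2_2_2_0 := cg8_2_0_1 hmach (q := q2) hq2 (t0 := s2) (l := l2)
                            hqp2 (by omega) hl2 (a1 := s2) (by omega) (by omega)
                        linarith only [r4O, e4e3, e3e2, r1O, V1O, r0O, V0O, vg_t1_2_2_0,
                          vf_t0_21, vf_t0_321, vw3, wV, zw_2_a, zw_3_b, zw_3_c, xz_2_b, xz_2_c,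
                          xV, yx2, w_4, w_3, q3_P, q3_U, vf_q3_3, vg_q3_2__0, w_2, q2_P, q2_U,
                          vf_q2_32, vg_q2_2_2_0, w_1, w_0, o_L1e2, b_big, nn_w1, nn_x1, O0pos]
                    · obtain ⟨nn_A4, nn_P4, nn_U4, nn_Q4, q4_O, q4_P, q4_U, q4_V, q4_e⟩ := fut8 hM
                          hq4 hqp4 hl4 hlN4
                      rcases sb8 hp h43 hmach with b_small | b_big
                      · have vg_t1_3_2_0 := cg8_3_0_1 hmach (q := p) hp (t0 := s2) (l := s1) (fun
                            _ _ => rfl) (by omega) h21 (a1 := s2) (by omega) (by omega)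
                        have vf_t0_21 := cv28 hM (p := p) (q := p) hp (t0 := s1) (l := n) (fun _ _
                            => rfl) h10 (a1 := s2) (a2 := s1) (by omega) (by omega)
                        have vf_t0_321 := cv38 hM (p := p) (q := p) hp (t0 := s1) (l := n) (fun _
                            _ => rfl) h10 (a1 := s3) (a2 := s2) (a3 := s1) (by omega) (by omega)
                            (by omega)
                        have vg_t0_4_21_0 := cg8_4_0_2 hmach (q := p) hp (t0 := s1) (l := n) (fun
                            _ _ => rfl) (by omega) h10 (a1 := s2) (a2 := s1) (by omega) (by omega)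
                            (by omega)
                        have vf_q4_4 := cv18 hM (p := p) (q := q4) hq4 (t0 := s4) (l := l4) hqp4
                            hl4 (a1 := s4) (by omega)
                        have vg_q3_3__0 := cg8_3_0_0 hmach (q := q3) hq3 (t0 := s3) (l := l3) hqp3
                            (by omega) hl3
                        have vg_q3_4__0 := cg8_4_0_0 hmach (q := q3) hq3 (t0 := s3) (l := l3) hqp3
                            (by omega) hl3
                        have vf_q2_32 := cv28 hM (p := p) (q := q2) hq2 (t0 := s2) (l := l2) hqp2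
                            hl2 (a1 := s3) (a2 := s2) (by omega) (by omega)
                        have vg_q2_4_2_0 := cg8_4_0_1 hmach (q := q2) hq2 (t0 := s2) (l := l2)
                            hqp2 (by omega) hl2 (a1 := s2) (by omega) (by omega)
                        linarith only [r1O, V1O, r0O, V0O, vg_t1_3_2_0, vf_t0_21, vf_t0_321,
                          vg_t0_4_21_0, Lsum, v34, vV, wv_3_b, wv_3_s, zw_2_a, zw_3_b, zw_3_c,
                          xz_2_b, xz_2_c, yx2, w_4, q4_P, q4_U, q4_V, vf_q4_4, w_3, q3_P, q3_U,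
                          vg_q3_3__0, vg_q3_4__0, w_2, q2_P, q2_U, vf_q2_32, vg_q2_4_2_0, w_1,
                          w_0, o_L1e2, b_small, b_ev, nn_w1, nn_v1, nn_v2, O0pos]
                      · have vg_t1_1_2_0 := cg8_1_0_1 hmach (q := p) hp (t0 := s2) (l := s1) (fun
                            _ _ => rfl) (by omega) h21 (a1 := s2) (by omega) (by omega)
                        have vg_t1_2_2_0 := cg8_2_0_1 hmach (q := p) hp (t0 := s2) (l := s1) (fun
                            _ _ => rfl) (by omega) h21 (a1 := s2) (by omega) (by omega)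
                        have vf_t0_21 := cv28 hM (p := p) (q := p) hp (t0 := s1) (l := n) (fun _ _
                            => rfl) h10 (a1 := s2) (a2 := s1) (by omega) (by omega)
                        have vf_t0_321 := cv38 hM (p := p) (q := p) hp (t0 := s1) (l := n) (fun _
                            _ => rfl) h10 (a1 := s3) (a2 := s2) (a3 := s1) (by omega) (by omega)
                            (by omega)
                        have vf_q4_4 := cv18 hM (p := p) (q := q4) hq4 (t0 := s4) (l := l4) hqp4
                            hl4 (a1 := s4) (by omega)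
                        have vf_q3_3 := cv18 hM (p := p) (q := q3) hq3 (t0 := s3) (l := l3) hqp3
                            hl3 (a1 := s3) (by omega)
                        have vg_q3_2__0 := cg8_2_0_0 hmach (q := q3) hq3 (t0 := s3) (l := l3) hqp3
                            (by omega) hl3
                        have vg_q3_4__0 := cg8_4_0_0 hmach (q := q3) hq3 (t0 := s3) (l := l3) hqp3
                            (by omega) hl3
                        have vf_q2_32 := cv28 hM (p := p) (q := q2) hq2 (t0 := s2) (l := l2) hqp2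
                            hl2 (a1 := s3) (a2 := s2) (by omega) (by omega)
                        have vg_q2_4_2_0 := cg8_4_0_1 hmach (q := q2) hq2 (t0 := s2) (l := l2)
                            hqp2 (by omega) hl2 (a1 := s2) (by omega) (by omega)
                        linarith only [r4O, e4e3, e3e2, r1O, V1O, r0O, V0O, vg_t1_1_2_0,
                          vg_t1_2_2_0, vf_t0_21, vf_t0_321, Lsum, vw3, wV, zw_2_a, zw_3_b,
                          xz_2_b, xz_2_c, yx2, w_4, q4_O, q4_P, q4_U, vf_q4_4, w_3, q3_P, q3_U,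
                          vf_q3_3, vg_q3_2__0, vg_q3_4__0, w_2, q2_P, q2_U, vf_q2_32,
                          vg_q2_4_2_0, w_1, w_0, o_L1e2, b_big, b_ev, nn_w1, O0pos]
                  · rcases wit18 (by norm_num) (by norm_num) hp u4 with ⟨l4, g4, w_4⟩ | w_4 | ⟨q4,
                        N4, l4, hq4, hqp4, hl4, hlN4, w_4⟩
                    · obtain ⟨nn_A4, nn_P4, p4_V, p4_O, p4_e⟩ := pas8 hM hp g4
                      rcases sb8 hp h43 hmach with b_small | b_big
                      · have vg_t1_3_2_0 := cg8_3_0_1 hmach (q := p) hp (t0 := s2) (l := s1) (fun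
                            _ _ => rfl) (by omega) h21 (a1 := s2) (by omega) (by omega)
                        have vf_t0_21 := cv28 hM (p := p) (q := p) hp (t0 := s1) (l := n) (fun _ _
                            => rfl) h10 (a1 := s2) (a2 := s1) (by omega) (by omega)
                        have vf_t0_321 := cv38 hM (p := p) (q := p) hp (t0 := s1) (l := n) (fun _
                            _ => rfl) h10 (a1 := s3) (a2 := s2) (a3 := s1) (by omega) (by omega)
                            (by omega)
                        have vf_q3_3 := cv18 hM (p := p) (q := q3) hq3 (t0 := s3) (l := l3) hqp3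
                            hl3 (a1 := s3) (by omega)
                        have vg_q3_3__0 := cg8_3_0_0 hmach (q := q3) hq3 (t0 := s3) (l := l3) hqp3
                            (by omega) hl3
                        have vf_q2_32 := cv28 hM (p := p) (q := q2) hq2 (t0 := s2) (l := l2) hqp2
                            hl2 (a1 := s3) (a2 := s2) (by omega) (by omega)
                        have vg_q2_4_2_0 := cg8_4_0_1 hmach (q := q2) hq2 (t0 := s2) (l := l2)
                            hqp2 (by omega) hl2 (a1 := s2) (by omega) (by omega)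
                        linarith only [V4O, e4e3, r1O, V1O, r0O, V0O, vg_t1_3_2_0, vf_t0_21,
                          vf_t0_321, Lsum, v23, vV, wv_2_a, wv_3_b, zw_2_a, zw_3_b, zw_3_c,
                          xz_2_b, xz_2_c, xV, yx2, w_4, p4_V, p4_O, w_3, q3_P, q3_U, vf_q3_3,
                          vg_q3_3__0, w_2, q2_P, q2_U, vf_q2_32, vg_q2_4_2_0, w_1, w_0, o_L1e2,
                          b_small, b_ev, nn_w1, nn_v1, nn_x1, O0pos]
                      · rcases b_alt with b_alt | b_alt
                        · have vg_t1_2_2_0 := cg8_2_0_1 hmach (q := p) hp (t0 := s2) (l := s1)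
                              (fun _ _ => rfl) (by omega) h21 (a1 := s2) (by omega) (by omega)
                          have vf_t0_21 := cv28 hM (p := p) (q := p) hp (t0 := s1) (l := n) (fun _
                              _ => rfl) h10 (a1 := s2) (a2 := s1) (by omega) (by omega)
                          have vf_t0_321 := cv38 hM (p := p) (q := p) hp (t0 := s1) (l := n) (fun
                              _ _ => rfl) h10 (a1 := s3) (a2 := s2) (a3 := s1) (by omega) (by
                              omega) (by omega)
                          have vf_q3_3 := cv18 hM (p := p) (q := q3) hq3 (t0 := s3) (l := l3) hqp3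
                              hl3 (a1 := s3) (by omega)
                          have vg_q3_2__0 := cg8_2_0_0 hmach (q := q3) hq3 (t0 := s3) (l := l3)
                              hqp3 (by omega) hl3
                          have vg_q3_3__0 := cg8_3_0_0 hmach (q := q3) hq3 (t0 := s3) (l := l3)
                              hqp3 (by omega) hl3
                          linarith only [e4e3, e3e2, r1O, V1O, r0O, V0O, vg_t1_2_2_0, vf_t0_21,
                            vf_t0_321, v23, wv_2_a, wV, zw_2_a, zw_3_b, zw_3_c, xz_2_b, xz_2_c,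
                            yx2, w_3, q3_P, q3_U, vf_q3_3, vg_q3_2__0, vg_q3_3__0, w_1, w_0,
                            o_L1e2, b_big, b_ev, b_alt, nn_w1, nn_v3, O0pos]
                        · have vg_t1_2_2_0 := cg8_2_0_1 hmach (q := p) hp (t0 := s2) (l := s1)
                              (fun _ _ => rfl) (by omega) h21 (a1 := s2) (by omega) (by omega)
                          have vf_t0_21 := cv28 hM (p := p) (q := p) hp (t0 := s1) (l := n) (fun _
                              _ => rfl) h10 (a1 := s2) (a2 := s1) (by omega) (by omega)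
                          have vf_t0_321 := cv38 hM (p := p) (q := p) hp (t0 := s1) (l := n) (fun
                              _ _ => rfl) h10 (a1 := s3) (a2 := s2) (a3 := s1) (by omega) (by
                              omega) (by omega)
                          have vf_q3_3 := cv18 hM (p := p) (q := q3) hq3 (t0 := s3) (l := l3) hqp3
                              hl3 (a1 := s3) (by omega)
                          have vg_q3_2__0 := cg8_2_0_0 hmach (q := q3) hq3 (t0 := s3) (l := l3)
                              hqp3 (by omega) hl3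
                          have vf_q2_32 := cv28 hM (p := p) (q := q2) hq2 (t0 := s2) (l := l2)
                              hqp2 hl2 (a1 := s3) (a2 := s2) (by omega) (by omega)
                          have vg_q2_2_2_0 := cg8_2_0_1 hmach (q := q2) hq2 (t0 := s2) (l := l2)
                              hqp2 (by omega) hl2 (a1 := s2) (by omega) (by omega)
                          linarith only [r4O, V4O, e4e3, e3e2, r1O, V1O, r0O, V0O, vg_t1_2_2_0,
                            vf_t0_21, vf_t0_321, wV, zw_2_a, zw_3_b, zw_3_c, xz_2_b, xz_2_c, yx2,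
                            w_4, p4_V, p4_O, p4_e, w_3, q3_P, q3_U, vf_q3_3, vg_q3_2__0, w_2,
                            q2_P, q2_U, vf_q2_32, vg_q2_2_2_0, w_1, w_0, o_L1e2, b_big, b_alt,
                            nn_w1, O0pos]
                    · rcases sb8 hp h43 hmach with b_small | b_big
                      · have vg_t1_3_2_0 := cg8_3_0_1 hmach (q := p) hp (t0 := s2) (l := s1) (fun
                            _ _ => rfl) (by omega) h21 (a1 := s2) (by omega) (by omega)
                        have vf_t0_21 := cv28 hM (p := p) (q := p) hp (t0 := s1) (l := n) (fun _ _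
                            => rfl) h10 (a1 := s2) (a2 := s1) (by omega) (by omega)
                        have vf_t0_321 := cv38 hM (p := p) (q := p) hp (t0 := s1) (l := n) (fun _
                            _ => rfl) h10 (a1 := s3) (a2 := s2) (a3 := s1) (by omega) (by omega)
                            (by omega)
                        have vg_t0_4_21_0 := cg8_4_0_2 hmach (q := p) hp (t0 := s1) (l := n) (fun
                            _ _ => rfl) (by omega) h10 (a1 := s2) (a2 := s1) (by omega) (by omega)
                            (by omega)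
                        have vf_q2_32 := cv28 hM (p := p) (q := q2) hq2 (t0 := s2) (l := l2) hqp2
                            hl2 (a1 := s3) (a2 := s2) (by omega) (by omega)
                        have vg_q2_3_2_0 := cg8_3_0_1 hmach (q := q2) hq2 (t0 := s2) (l := l2)
                            hqp2 (by omega) hl2 (a1 := s2) (by omega) (by omega)
                        linarith only [V4O, e4e3, r1O, V1O, r0O, V0O, vg_t1_3_2_0, vf_t0_21,
                          vf_t0_321, vg_t0_4_21_0, Lsum, v23, vV, wv_2_a, wv_3_b, zw_2_a, zw_3_b,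
                          zw_3_c, xz_2_b, xz_2_c, xV, yx2, w_4, w_2, q2_P, q2_U, vf_q2_32,
                          vg_q2_3_2_0, w_1, w_0, o_L1e2, b_small, b_ev, nn_w1, nn_v1, nn_x1,
                          O0pos]
                      · rcases b_alt with b_alt | b_alt
                        · have vg_t1_2_2_0 := cg8_2_0_1 hmach (q := p) hp (t0 := s2) (l := s1)
                              (fun _ _ => rfl) (by omega) h21 (a1 := s2) (by omega) (by omega)
                          have vf_t0_21 := cv28 hM (p := p) (q := p) hp (t0 := s1) (l := n) (fun _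
                              _ => rfl) h10 (a1 := s2) (a2 := s1) (by omega) (by omega)
                          have vf_t0_321 := cv38 hM (p := p) (q := p) hp (t0 := s1) (l := n) (fun
                              _ _ => rfl) h10 (a1 := s3) (a2 := s2) (a3 := s1) (by omega) (by
                              omega) (by omega)
                          have vg_q3_2__0 := cg8_2_0_0 hmach (q := q3) hq3 (t0 := s3) (l := l3)
                              hqp3 (by omega) hl3
                          have vg_q3_3__0 := cg8_3_0_0 hmach (q := q3) hq3 (t0 := s3) (l := l3)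
                              hqp3 (by omega) hl3
                          have vg_q3_4__0 := cg8_4_0_0 hmach (q := q3) hq3 (t0 := s3) (l := l3)
                              hqp3 (by omega) hl3
                          linarith only [e4e3, e3e2, r1O, V1O, r0O, V0O, vg_t1_2_2_0, vf_t0_21,
                            vf_t0_321, Lsum, v23, wv_2_a, wV, zw_2_a, zw_3_b, zw_3_c, xz_2_b,
                            xz_2_c, yx2, w_3, q3_P, q3_U, vg_q3_2__0, vg_q3_3__0, vg_q3_4__0,
                            w_1, w_0, o_L1e2, b_big, b_ev, b_alt, nn_w1, nn_v3, O0pos]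
                        · have vg_t1_2_2_0 := cg8_2_0_1 hmach (q := p) hp (t0 := s2) (l := s1)
                              (fun _ _ => rfl) (by omega) h21 (a1 := s2) (by omega) (by omega)
                          have vf_t0_21 := cv28 hM (p := p) (q := p) hp (t0 := s1) (l := n) (fun _
                              _ => rfl) h10 (a1 := s2) (a2 := s1) (by omega) (by omega)
                          have vf_t0_321 := cv38 hM (p := p) (q := p) hp (t0 := s1) (l := n) (fun
                              _ _ => rfl) h10 (a1 := s3) (a2 := s2) (a3 := s1) (by omega) (by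
                              omega) (by omega)
                          have vf_q3_3 := cv18 hM (p := p) (q := q3) hq3 (t0 := s3) (l := l3) hqp3
                              hl3 (a1 := s3) (by omega)
                          have vg_q3_2__0 := cg8_2_0_0 hmach (q := q3) hq3 (t0 := s3) (l := l3)
                              hqp3 (by omega) hl3
                          have vf_q2_32 := cv28 hM (p := p) (q := q2) hq2 (t0 := s2) (l := l2)
                              hqp2 hl2 (a1 := s3) (a2 := s2) (by omega) (by omega)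
                          have vg_q2_2_2_0 := cg8_2_0_1 hmach (q := q2) hq2 (t0 := s2) (l := l2)
                              hqp2 (by omega) hl2 (a1 := s2) (by omega) (by omega)
                          linarith only [r4O, e4e3, e3e2, r1O, V1O, r0O, V0O, vg_t1_2_2_0,
                            vf_t0_21, vf_t0_321, wV, zw_2_a, zw_3_b, zw_3_c, xz_2_b, xz_2_c, xV,
                            yx2, w_4, w_3, q3_P, q3_U, vf_q3_3, vg_q3_2__0, w_2, q2_P, q2_U,
                            vf_q2_32, vg_q2_2_2_0, w_1, w_0, o_L1e2, b_big, b_alt, nn_w1, nn_x1,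
                            O0pos]
                    · obtain ⟨nn_A4, nn_P4, nn_U4, nn_Q4, q4_O, q4_P, q4_U, q4_V, q4_e⟩ := fut8 hM
                          hq4 hqp4 hl4 hlN4
                      rcases sb8 hp h43 hmach with b_small | b_big
                      · have vg_t1_3_2_0 := cg8_3_0_1 hmach (q := p) hp (t0 := s2) (l := s1) (fun
                            _ _ => rfl) (by omega) h21 (a1 := s2) (by omega) (by omega)
                        have vf_t0_21 := cv28 hM (p := p) (q := p) hp (t0 := s1) (l := n) (fun _ _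
                            => rfl) h10 (a1 := s2) (a2 := s1) (by omega) (by omega)
                        have vf_t0_321 := cv38 hM (p := p) (q := p) hp (t0 := s1) (l := n) (fun _
                            _ => rfl) h10 (a1 := s3) (a2 := s2) (a3 := s1) (by omega) (by omega)
                            (by omega)
                        have vg_t0_4_21_0 := cg8_4_0_2 hmach (q := p) hp (t0 := s1) (l := n) (fun
                            _ _ => rfl) (by omega) h10 (a1 := s2) (a2 := s1) (by omega) (by omega)
                            (by omega)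
                        have vf_q4_4 := cv18 hM (p := p) (q := q4) hq4 (t0 := s4) (l := l4) hqp4
                            hl4 (a1 := s4) (by omega)
                        have vf_q3_3 := cv18 hM (p := p) (q := q3) hq3 (t0 := s3) (l := l3) hqp3
                            hl3 (a1 := s3) (by omega)
                        have vg_q3_3__0 := cg8_3_0_0 hmach (q := q3) hq3 (t0 := s3) (l := l3) hqp3
                            (by omega) hl3
                        have vf_q2_32 := cv28 hM (p := p) (q := q2) hq2 (t0 := s2) (l := l2) hqp2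
                            hl2 (a1 := s3) (a2 := s2) (by omega) (by omega)
                        have vg_q2_3_2_0 := cg8_3_0_1 hmach (q := q2) hq2 (t0 := s2) (l := l2)
                            hqp2 (by omega) hl2 (a1 := s2) (by omega) (by omega)
                        linarith only [r1O, V1O, r0O, V0O, vg_t1_3_2_0, vf_t0_21, vf_t0_321,
                          vg_t0_4_21_0, Lsum, v23, vV, wv_2_a, wv_3_b, zw_2_a, zw_3_b, zw_3_c,
                          xz_2_b, xz_2_c, xV, yx2, w_4, q4_P, q4_U, q4_V, vf_q4_4, w_3, q3_P,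
                          q3_U, vf_q3_3, vg_q3_3__0, w_2, q2_P, q2_U, vf_q2_32, vg_q2_3_2_0, w_1,
                          w_0, o_L1e2, b_small, b_ev, nn_w1, nn_v1, nn_x1, O0pos]
                      · rcases b_alt with b_alt | b_alt
                        · have vg_t1_2_2_0 := cg8_2_0_1 hmach (q := p) hp (t0 := s2) (l := s1)
                              (fun _ _ => rfl) (by omega) h21 (a1 := s2) (by omega) (by omega)
                          have vf_t0_21 := cv28 hM (p := p) (q := p) hp (t0 := s1) (l := n) (fun _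
                              _ => rfl) h10 (a1 := s2) (a2 := s1) (by omega) (by omega)
                          have vf_t0_321 := cv38 hM (p := p) (q := p) hp (t0 := s1) (l := n) (fun
                              _ _ => rfl) h10 (a1 := s3) (a2 := s2) (a3 := s1) (by omega) (by
                              omega) (by omega)
                          have vf_q3_3 := cv18 hM (p := p) (q := q3) hq3 (t0 := s3) (l := l3) hqp3
                              hl3 (a1 := s3) (by omega)
                          have vg_q3_2__0 := cg8_2_0_0 hmach (q := q3) hq3 (t0 := s3) (l := l3)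
                              hqp3 (by omega) hl3
                          have vg_q3_3__0 := cg8_3_0_0 hmach (q := q3) hq3 (t0 := s3) (l := l3)
                              hqp3 (by omega) hl3
                          linarith only [e4e3, e3e2, r1O, V1O, r0O, V0O, vg_t1_2_2_0, vf_t0_21,
                            vf_t0_321, v23, wv_2_a, wV, zw_2_a, zw_3_b, zw_3_c, xz_2_b, xz_2_c,
                            yx2, w_3, q3_P, q3_U, vf_q3_3, vg_q3_2__0, vg_q3_3__0, w_1, w_0,
                            o_L1e2, b_big, b_ev, b_alt, nn_w1, nn_v3, O0pos]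
                        · have vg_t1_1_2_0 := cg8_1_0_1 hmach (q := p) hp (t0 := s2) (l := s1)
                              (fun _ _ => rfl) (by omega) h21 (a1 := s2) (by omega) (by omega)
                          have vg_t1_2_2_0 := cg8_2_0_1 hmach (q := p) hp (t0 := s2) (l := s1)
                              (fun _ _ => rfl) (by omega) h21 (a1 := s2) (by omega) (by omega)
                          have vf_t0_21 := cv28 hM (p := p) (q := p) hp (t0 := s1) (l := n) (fun _
                              _ => rfl) h10 (a1 := s2) (a2 := s1) (by omega) (by omega)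
                          have vf_t0_321 := cv38 hM (p := p) (q := p) hp (t0 := s1) (l := n) (fun
                              _ _ => rfl) h10 (a1 := s3) (a2 := s2) (a3 := s1) (by omega) (by
                              omega) (by omega)
                          have vf_q4_4 := cv18 hM (p := p) (q := q4) hq4 (t0 := s4) (l := l4) hqp4
                              hl4 (a1 := s4) (by omega)
                          have vf_q3_3 := cv18 hM (p := p) (q := q3) hq3 (t0 := s3) (l := l3) hqp3
                              hl3 (a1 := s3) (by omega)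
                          have vg_q3_2__0 := cg8_2_0_0 hmach (q := q3) hq3 (t0 := s3) (l := l3)
                              hqp3 (by omega) hl3
                          have vg_q3_3__0 := cg8_3_0_0 hmach (q := q3) hq3 (t0 := s3) (l := l3)
                              hqp3 (by omega) hl3
                          have vf_q2_32 := cv28 hM (p := p) (q := q2) hq2 (t0 := s2) (l := l2)
                              hqp2 hl2 (a1 := s3) (a2 := s2) (by omega) (by omega)
                          have vg_q2_3_2_0 := cg8_3_0_1 hmach (q := q2) hq2 (t0 := s2) (l := l2)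
                              hqp2 (by omega) hl2 (a1 := s2) (by omega) (by omega)
                          linarith only [r4O, e4e3, e3e2, r1O, V1O, r0O, V0O, vg_t1_1_2_0,
                            vg_t1_2_2_0, vf_t0_21, vf_t0_321, wV, zw_2_a, zw_3_b, xz_2_b, xz_2_c,
                            yx2, w_4, q4_O, q4_P, q4_U, vf_q4_4, w_3, q3_P, q3_U, vf_q3_3,
                            vg_q3_2__0, vg_q3_3__0, w_2, q2_P, q2_U, vf_q2_32, vg_q2_3_2_0, w_1,
                            w_0, o_L1e2, b_big, b_ev, b_alt, nn_w1, O0pos]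
    · obtain ⟨nn_A1, nn_P1, nn_U1, nn_Q1, q1_O, q1_P, q1_U, q1_V, q1_e⟩ := fut8 hM hq1 hqp1 hl1
          hlN1
      rcases wit18 (by norm_num) (by norm_num) hp u3 with ⟨l3, g3, w_3⟩ | w_3 | ⟨q3, N3, l3, hq3,
          hqp3, hl3, hlN3, w_3⟩
      · obtain ⟨nn_A3, nn_P3, p3_V, p3_O, p3_e⟩ := pas8 hM hp g3
        have vf_t0_1 := cv18 hM (p := p) (q := p) hp (t0 := s1) (l := n) (fun _ _ => rfl) h10 (a1
            := s1) (by omega)
        have vf_q1_321 := cv38 hM (p := p) (q := q1) hq1 (t0 := s1) (l := l1) hqp1 hl1 (a1 := s3)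
            (a2 := s2) (a3 := s1) (by omega) (by omega) (by omega)
        linarith only [r3O, V3O, e3e2, e2e1, r1O, r0O, V0O, vf_t0_1, w23, wV, zw_2_a, zw_3_b,
          zw_3_c, xz_2_b, xz_2_c, xV, yx2, w_3, p3_O, p3_e, w_1, q1_O, q1_P, q1_U, q1_V,
          vf_q1_321, w_0, nn_w1, nn_x1, O0pos]
      · have vf_t0_1 := cv18 hM (p := p) (q := p) hp (t0 := s1) (l := n) (fun _ _ => rfl) h10 (a1
            := s1) (by omega)
        have vf_q1_321 := cv38 hM (p := p) (q := q1) hq1 (t0 := s1) (l := l1) hqp1 hl1 (a1 := s3)
            (a2 := s2) (a3 := s1) (by omega) (by omega) (by omega)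
        linarith only [r3O, V3O, e3e2, e2e1, r1O, r0O, V0O, vf_t0_1, w23, wV, zw_2_a, zw_3_b,
          zw_3_c, xz_2_b, xz_2_c, xV, yx2, w_3, w_1, q1_O, q1_P, q1_U, q1_V, vf_q1_321, w_0,
          nn_w1, nn_x1, O0pos]
      · obtain ⟨nn_A3, nn_P3, nn_U3, nn_Q3, q3_O, q3_P, q3_U, q3_V, q3_e⟩ := fut8 hM hq3 hqp3 hl3
            hlN3
        rcases wit28 (by norm_num) (by norm_num) hp h32 u2 with ⟨l2, g2, w_2⟩ | w_2 | ⟨l2, g2,
            gg2, w_2⟩ | w_2 | ⟨q2, N2, l2, hq2, hqp2, hl2, hlN2, w_2⟩
        · obtain ⟨nn_A2, nn_P2, p2_V, p2_O, p2_e⟩ := pas8 hM hp g2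
          have vf_t0_21 := cv28 hM (p := p) (q := p) hp (t0 := s1) (l := n) (fun _ _ => rfl) h10
              (a1 := s2) (a2 := s1) (by omega) (by omega)
          have vf_q3_3 := cv18 hM (p := p) (q := q3) hq3 (t0 := s3) (l := l3) hqp3 hl3 (a1 := s3)
              (by omega)
          have vf_q1_321 := cv38 hM (p := p) (q := q1) hq1 (t0 := s1) (l := l1) hqp1 hl1 (a1 :=
              s3) (a2 := s2) (a3 := s1) (by omega) (by omega) (by omega)
          linarith only [O3O2, e3e2, r2O, V2O, e2e1, r1O, r0O, V0O, vf_t0_21, wV, zw_2_a, zw_3_c,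
            zV, xz_2_b, xz_2_c, xV, yx2, w_3, q3_O, q3_P, q3_U, q3_V, vf_q3_3, w_2, p2_O, p2_e,
            w_1, q1_O, q1_P, q1_U, q1_V, vf_q1_321, w_0, nn_w1, nn_z1, nn_x1, O0pos]
        · have vf_t0_1 := cv18 hM (p := p) (q := p) hp (t0 := s1) (l := n) (fun _ _ => rfl) h10
              (a1 := s1) (by omega)
          have vf_q1_321 := cv38 hM (p := p) (q := q1) hq1 (t0 := s1) (l := l1) hqp1 hl1 (a1 :=
              s3) (a2 := s2) (a3 := s1) (by omega) (by omega) (by omega)
          linarith only [r3O, O3O2, e3e2, r2O, V2O, e2e1, r1O, r0O, V0O, vf_t0_1, zV, xz_2_b,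
            xz_2_c, xV, yx2, w_2, w_1, q1_O, q1_P, q1_U, q1_V, vf_q1_321, w_0, nn_z1, nn_x1,
            O0pos]
        · obtain ⟨nn_A2, nn_P2, nn_U2, m2_P, m2_e, m2_f, m2_V, m2_W⟩ := mid8 hM hp g2 gg2
          have vf_t0_21 := cv28 hM (p := p) (q := p) hp (t0 := s1) (l := n) (fun _ _ => rfl) h10
              (a1 := s2) (a2 := s1) (by omega) (by omega)
          have vf_q1_21 := cv28 hM (p := p) (q := q1) hq1 (t0 := s1) (l := l1) hqp1 hl1 (a1 := s2)
              (a2 := s1) (by omega) (by omega)
          linarith only [V2O, V2V1, e2e1, r1O, O1O0, r0O, V0O, vf_t0_21, wV, zw_2_a, zw_3_b,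
            zw_3_c, xz_2_b, xz_2_c, yx2, w_2, m2_P, m2_f, m2_V, m2_W, w_1, q1_P, q1_U, q1_V,
            vf_q1_21, w_0, nn_w1, nn_w2, O0pos]
        · have vf_t0_21 := cv28 hM (p := p) (q := p) hp (t0 := s1) (l := n) (fun _ _ => rfl) h10
              (a1 := s2) (a2 := s1) (by omega) (by omega)
          have vf_q1_21 := cv28 hM (p := p) (q := q1) hq1 (t0 := s1) (l := l1) hqp1 hl1 (a1 := s2)
              (a2 := s1) (by omega) (by omega)
          linarith only [r2O, V2O, e2e1, r1O, r0O, V0O, vf_t0_21, zV, xz_2_b, xz_2_c, xV, yx2,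
            w_2, w_1, q1_O, q1_P, q1_U, q1_V, vf_q1_21, w_0, nn_z1, nn_x1, O0pos]
        · obtain ⟨nn_A2, nn_P2, nn_U2, nn_Q2, q2_O, q2_P, q2_U, q2_V, q2_e⟩ := fut8 hM hq2 hqp2
              hl2 hlN2
          rcases le_total (mn m p s3 + p s3) (ls m p s3 i1) with o_a3L1 | o_L1a3
          · have o_a3e2 : mn m p s3 + p s3 ≤ mn m p s2 := od0 hmach hp (fun _ _ => rfl) h32 le_rfl
                o_a3L1
            have vf_t0_21 := cv28 hM (p := p) (q := p) hp (t0 := s1) (l := n) (fun _ _ => rfl) h10
                (a1 := s2) (a2 := s1) (by omega) (by omega)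
            have vf_q3_ := cv08 hM (p := p) (q := q3) hq3 (t0 := s3) (l := l3) hqp3 hl3
            have vg_q3_0__1 := cg8_0_1_0 hmach (q := q3) hq3 (t0 := s3) (l := l3) hqp3 (by omega)
                hl3
            have vf_q2_2 := cv18 hM (p := p) (q := q2) hq2 (t0 := s2) (l := l2) hqp2 hl2 (a1 :=
                s2) (by omega)
            have vf_q1_21 := cv28 hM (p := p) (q := q1) hq1 (t0 := s1) (l := l1) hqp1 hl1 (a1 :=
                s2) (a2 := s1) (by omega) (by omega)
            linarith only [e2e1, r1O, r0O, V0O, vf_t0_21, wV, zw_2_a, zw_3_b, zw_3_c, zV, xz_2_b,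
              xz_2_c, xV, yx2, w_3, q3_P, q3_U, vf_q3_, vg_q3_0__1, w_2, q2_P, q2_U, q2_V,
              vf_q2_2, w_1, q1_O, q1_P, q1_U, q1_V, vf_q1_21, w_0, o_a3e2, nn_e3, nn_w1, nn_z1,
              nn_x1, O0pos]
          · have o_L1e2 : ls m p s3 i1 ≤ mn m p s2 := od0 hmach hp (fun _ _ => rfl) h32 o_L1a3
                le_rfl
            have o_L1A3 : ls m p s3 i1 ≤ mn m q3 l3 := od0 hmach hq3 hqp3 hl3 o_L1a3 le_rfl
            rcases le_total (mn m p s3 + p s3) (ls m p s3 i2) with o_a3L2 | o_L2a3
            · rcases le_total (mn m p s3 + p s3) (mn m p s2 + p s2) with o_a3a2 | o_a2a3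
              · have o_a3e1 : mn m p s3 + p s3 ≤ mn m p s1 := od1 hmach hp (fun _ _ => rfl) h32
                    h21 le_rfl o_a3L2 le_rfl o_a3a2
                have o_a3A2 : mn m p s3 + p s3 ≤ mn m q2 l2 := od1 hmach hq2 hqp2 h32 hl2 le_rfl
                    o_a3L2 le_rfl o_a3a2
                rcases col38 hM hq2 hmach (fun i hi => hqp2 i (by omega)) h32 hl2 hlN2 (hqp2 _ (by
                    omega)) (hqp2 _ (by omega)) rfl with col2 | col2 | col2 | col2 | col2 | col2 |
                    col2
                · have vf_t0_21 := cv28 hM (p := p) (q := p) hp (t0 := s1) (l := n) (fun _ _ =>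
                      rfl) h10 (a1 := s2) (a2 := s1) (by omega) (by omega)
                  have vg_q3_3__0 := cg8_3_0_0 hmach (q := q3) hq3 (t0 := s3) (l := l3) hqp3 (by
                      omega) hl3
                  have vg_q3_3__1 := cg8_3_1_0 hmach (q := q3) hq3 (t0 := s3) (l := l3) hqp3 (by
                      omega) hl3
                  have vf_q2_2 := cv18 hM (p := p) (q := q2) hq2 (t0 := s2) (l := l2) hqp2 hl2 (a1
                      := s2) (by omega)
                  have vf_q1_21 := cv28 hM (p := p) (q := q1) hq1 (t0 := s1) (l := l1) hqp1 hl1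
                      (a1 := s2) (a2 := s1) (by omega) (by omega)
                  linarith only [e3e2, r1O, r0O, V0O, vf_t0_21, L23, wV, zw_2_a, zw_3_b, zw_3_c,
                    xz_2_b, xz_2_c, xV, yx2, w_3, q3_P, q3_U, vg_q3_3__0, vg_q3_3__1, w_2, q2_P,
                    q2_U, vf_q2_2, w_1, q1_O, q1_P, q1_U, q1_V, vf_q1_21, w_0, o_L1e2, o_a3L2,
                    o_a3e1, col2, nn_w1, nn_w2, nn_x1, O0pos]
                · have vf_t0_21 := cv28 hM (p := p) (q := p) hp (t0 := s1) (l := n) (fun _ _ =>
                      rfl) h10 (a1 := s2) (a2 := s1) (by omega) (by omega)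
                  have vf_q3_ := cv08 hM (p := p) (q := q3) hq3 (t0 := s3) (l := l3) hqp3 hl3
                  have vg_q3_2__1 := cg8_2_1_0 hmach (q := q3) hq3 (t0 := s3) (l := l3) hqp3 (by
                      omega) hl3
                  have vf_q2_2 := cv18 hM (p := p) (q := q2) hq2 (t0 := s2) (l := l2) hqp2 hl2 (a1
                      := s2) (by omega)
                  have vf_q1_21 := cv28 hM (p := p) (q := q1) hq1 (t0 := s1) (l := l1) hqp1 hl1
                      (a1 := s2) (a2 := s1) (by omega) (by omega)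
                  linarith only [e3e2, r1O, r0O, V0O, vf_t0_21, wV, zw_2_a, zw_3_b, zw_3_c,
                    xz_2_b, xz_2_c, xV, yx2, w_3, q3_P, q3_U, vf_q3_, vg_q3_2__1, w_2, q2_P,
                    q2_U, vf_q2_2, w_1, q1_O, q1_P, q1_U, q1_V, vf_q1_21, w_0, o_L1e2, o_a3L2,
                    o_a3e1, col2, nn_w1, nn_w2, nn_x1, O0pos]
                · have vf_t0_1 := cv18 hM (p := p) (q := p) hp (t0 := s1) (l := n) (fun _ _ =>
                      rfl) h10 (a1 := s1) (by omega)
                  have vf_q3_3 := cv18 hM (p := p) (q := q3) hq3 (t0 := s3) (l := l3) hqp3 hl3 (a1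
                      := s3) (by omega)
                  have vg_q3_2__0 := cg8_2_0_0 hmach (q := q3) hq3 (t0 := s3) (l := l3) hqp3 (by
                      omega) hl3
                  have vf_q2_2 := cv18 hM (p := p) (q := q2) hq2 (t0 := s2) (l := l2) hqp2 hl2 (a1
                      := s2) (by omega)
                  have vf_q1_21 := cv28 hM (p := p) (q := q1) hq1 (t0 := s1) (l := l1) hqp1 hl1
                      (a1 := s2) (a2 := s1) (by omega) (by omega)
                  linarith only [r0O, V0O, vf_t0_1, L12, wV, zw_2_a, zw_3_b, zw_3_c, zV, xz_2_b,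
                    xz_2_c, xV, yx2, w_3, q3_P, q3_U, q3_V, vf_q3_3, vg_q3_2__0, w_2, q2_P, q2_U,
                    q2_V, vf_q2_2, w_1, q1_P, q1_U, q1_V, vf_q1_21, w_0, o_L1e2, o_a3L2, o_a3e1,
                    col2, nn_w1, nn_z1, nn_x1, O0pos]
                · have vf_t0_1 := cv18 hM (p := p) (q := p) hp (t0 := s1) (l := n) (fun _ _ =>
                      rfl) h10 (a1 := s1) (by omega)
                  have vf_t0_21 := cv28 hM (p := p) (q := p) hp (t0 := s1) (l := n) (fun _ _ =>
                      rfl) h10 (a1 := s2) (a2 := s1) (by omega) (by omega)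
                  have vf_q3_ := cv08 hM (p := p) (q := q3) hq3 (t0 := s3) (l := l3) hqp3 hl3
                  have vf_q3_3 := cv18 hM (p := p) (q := q3) hq3 (t0 := s3) (l := l3) hqp3 hl3 (a1
                      := s3) (by omega)
                  have vg_q3_2__0 := cg8_2_0_0 hmach (q := q3) hq3 (t0 := s3) (l := l3) hqp3 (by
                      omega) hl3
                  have vf_q2_2 := cv18 hM (p := p) (q := q2) hq2 (t0 := s2) (l := l2) hqp2 hl2 (a1
                      := s2) (by omega)
                  have vf_q1_21 := cv28 hM (p := p) (q := q1) hq1 (t0 := s1) (l := l1) hqp1 hl1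
                      (a1 := s2) (a2 := s1) (by omega) (by omega)
                  linarith only [r2O, r0O, V0O, vf_t0_1, vf_t0_21, wV, zw_3_b, zw_3_c, zV,
                    xz_2_b, xz_2_c, xV, yx2, w_3, q3_P, q3_U, vf_q3_, vf_q3_3, vg_q3_2__0, w_2,
                    q2_O, q2_U, q2_V, vf_q2_2, w_1, q1_P, q1_U, q1_V, vf_q1_21, w_0, o_L1e2,
                    o_a3L2, o_a3e1, col2, nn_w1, nn_w2, nn_z1, nn_x1, O0pos]
                · have vf_t0_1 := cv18 hM (p := p) (q := p) hp (t0 := s1) (l := n) (fun _ _ =>
                      rfl) h10 (a1 := s1) (by omega)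
                  have vf_q3_ := cv08 hM (p := p) (q := q3) hq3 (t0 := s3) (l := l3) hqp3 hl3
                  have vg_q3_1__0 := cg8_1_0_0 hmach (q := q3) hq3 (t0 := s3) (l := l3) hqp3 (by
                      omega) hl3
                  have vg_q3_1__1 := cg8_1_1_0 hmach (q := q3) hq3 (t0 := s3) (l := l3) hqp3 (by
                      omega) hl3
                  have vf_q2_2 := cv18 hM (p := p) (q := q2) hq2 (t0 := s2) (l := l2) hqp2 hl2 (a1
                      := s2) (by omega)
                  have vf_q1_21 := cv28 hM (p := p) (q := q1) hq1 (t0 := s1) (l := l1) hqp1 hl1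
                      (a1 := s2) (a2 := s1) (by omega) (by omega)
                  linarith only [r0O, V0O, vf_t0_1, wV, zw_2_a, zw_3_b, zw_3_c, zV, xz_2_b,
                    xz_2_c, xV, yx1, yx2, w_3, q3_P, q3_U, q3_V, vf_q3_, vg_q3_1__0, vg_q3_1__1,
                    w_2, q2_P, q2_U, q2_V, vf_q2_2, w_1, q1_P, q1_U, q1_V, vf_q1_21, w_0, o_L1e2,
                    o_a3e1, col2, nn_w1, nn_z1, O0pos]
                · have vf_t0_1 := cv18 hM (p := p) (q := p) hp (t0 := s1) (l := n) (fun _ _ =>
                      rfl) h10 (a1 := s1) (by omega)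
                  have vf_t0_21 := cv28 hM (p := p) (q := p) hp (t0 := s1) (l := n) (fun _ _ =>
                      rfl) h10 (a1 := s2) (a2 := s1) (by omega) (by omega)
                  have vf_q3_ := cv08 hM (p := p) (q := q3) hq3 (t0 := s3) (l := l3) hqp3 hl3
                  have vg_q3_1__0 := cg8_1_0_0 hmach (q := q3) hq3 (t0 := s3) (l := l3) hqp3 (by
                      omega) hl3
                  have vg_q3_1__1 := cg8_1_1_0 hmach (q := q3) hq3 (t0 := s3) (l := l3) hqp3 (by
                      omega) hl3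
                  have vf_q2_2 := cv18 hM (p := p) (q := q2) hq2 (t0 := s2) (l := l2) hqp2 hl2 (a1
                      := s2) (by omega)
                  have vf_q1_21 := cv28 hM (p := p) (q := q1) hq1 (t0 := s1) (l := l1) hqp1 hl1
                      (a1 := s2) (a2 := s1) (by omega) (by omega)
                  linarith only [r2O, r0O, V0O, vf_t0_1, vf_t0_21, wV, zw_3_b, zw_3_c, zV,
                    xz_2_b, xz_2_c, xV, yx2, w_3, q3_P, q3_U, vf_q3_, vg_q3_1__0, vg_q3_1__1,
                    w_2, q2_O, q2_U, q2_V, vf_q2_2, w_1, q1_P, q1_U, q1_V, vf_q1_21, w_0, o_L1e2,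
                    o_a3e1, col2, nn_w1, nn_w2, nn_z1, nn_x1, O0pos]
                · have vf_q2_ := cv08 hM (p := p) (q := q2) hq2 (t0 := s2) (l := l2) hqp2 hl2
                  have vf_q2_2 := cv18 hM (p := p) (q := q2) hq2 (t0 := s2) (l := l2) hqp2 hl2 (a1
                      := s2) (by omega)
                  linarith only [r0O, V0O, e0V, zV, xz_2_b, xz_2_c, yx2, w_2, q2_U, q2_V, vf_q2_,
                    vf_q2_2, w_0, col2, nn_e2, nn_z1, O0pos]
              · have o_a2e1 : mn m p s2 + p s2 ≤ mn m p s1 := od1 hmach hp (fun _ _ => rfl) h32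
                    h21 le_rfl o_a3L2 o_a2a3 le_rfl
                have o_a2A2 : mn m p s2 + p s2 ≤ mn m q2 l2 := od1 hmach hq2 hqp2 h32 hl2 le_rfl
                    o_a3L2 o_a2a3 le_rfl
                have vf_t0_1 := cv18 hM (p := p) (q := p) hp (t0 := s1) (l := n) (fun _ _ => rfl)
                    h10 (a1 := s1) (by omega)
                have vf_q2_ := cv08 hM (p := p) (q := q2) hq2 (t0 := s2) (l := l2) hqp2 hl2
                have vg_q2_1__1 := cg8_1_1_0 hmach (q := q2) hq2 (t0 := s2) (l := l2) hqp2 (by
                    omega) hl2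
                have vf_q1_1 := cv18 hM (p := p) (q := q1) hq1 (t0 := s1) (l := l1) hqp1 hl1 (a1
                    := s1) (by omega)
                have vg_q1_1_1_1 := cg8_1_1_1 hmach (q := q1) hq1 (t0 := s1) (l := l1) hqp1 (by
                    omega) hl1 (a1 := s1) (by omega) (by omega)
                linarith only [e3e2, r1O, r0O, V0O, vf_t0_1, w23, wV, zw_2_a, zw_3_b, xz_2_b,
                  xz_2_c, yx2, w_2, q2_P, q2_U, vf_q2_, vg_q2_1__1, w_1, q1_O, q1_P, q1_U,
                  vf_q1_1, vg_q1_1_1_1, w_0, o_L1e2, o_a2e1, nn_e2, nn_w1, O0pos]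
            · rcases le_total (mn m p s2 + p s2) (ls m p s3 i2) with o_a2L2 | o_L2a2
              · have o_a2e1 : mn m p s2 + p s2 ≤ mn m p s1 := od1 hmach hp (fun _ _ => rfl) h32
                    h21 o_L2a3 le_rfl o_a2L2 le_rfl
                have o_a2A2 : mn m p s2 + p s2 ≤ mn m q2 l2 := od1 hmach hq2 hqp2 h32 hl2 o_L2a3
                    le_rfl o_a2L2 le_rfl
                have vf_t0_1 := cv18 hM (p := p) (q := p) hp (t0 := s1) (l := n) (fun _ _ => rfl)
                    h10 (a1 := s1) (by omega)
                have vf_q2_ := cv08 hM (p := p) (q := q2) hq2 (t0 := s2) (l := l2) hqp2 hl2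
                have vg_q2_1__1 := cg8_1_1_0 hmach (q := q2) hq2 (t0 := s2) (l := l2) hqp2 (by
                    omega) hl2
                have vf_q1_1 := cv18 hM (p := p) (q := q1) hq1 (t0 := s1) (l := l1) hqp1 hl1 (a1
                    := s1) (by omega)
                have vg_q1_1_1_1 := cg8_1_1_1 hmach (q := q1) hq1 (t0 := s1) (l := l1) hqp1 (by
                    omega) hl1 (a1 := s1) (by omega) (by omega)
                linarith only [e3e2, r1O, r0O, V0O, vf_t0_1, w23, wV, zw_2_a, zw_3_b, xz_2_b,
                  xz_2_c, yx2, w_2, q2_P, q2_U, vf_q2_, vg_q2_1__1, w_1, q1_O, q1_P, q1_U,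
                  vf_q1_1, vg_q1_1_1_1, w_0, o_L1e2, o_a2e1, nn_e2, nn_w1, O0pos]
              · have o_L2e1 : ls m p s3 i2 ≤ mn m p s1 := od1 hmach hp (fun _ _ => rfl) h32 h21
                    o_L2a3 le_rfl le_rfl o_L2a2
                have o_L2A2 : ls m p s3 i2 ≤ mn m q2 l2 := od1 hmach hq2 hqp2 h32 hl2 o_L2a3
                    le_rfl le_rfl o_L2a2
                rcases col48 hM hq1 hmach (fun i hi => hqp1 i (by omega)) h32 h21 hl1 hlN1 (hqp1 _
                    (by omega)) (hqp1 _ (by omega)) (hqp1 _ (by omega)) rfl with col1 | col1 |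
                    col1 | col1 | col1 | col1 | col1 | col1 | col1 | col1 | col1
                · have vf_t0_21 := cv28 hM (p := p) (q := p) hp (t0 := s1) (l := n) (fun _ _ =>
                      rfl) h10 (a1 := s2) (a2 := s1) (by omega) (by omega)
                  have vg_q3_2__0 := cg8_2_0_0 hmach (q := q3) hq3 (t0 := s3) (l := l3) hqp3 (by
                      omega) hl3
                  have vg_q3_4__0 := cg8_4_0_0 hmach (q := q3) hq3 (t0 := s3) (l := l3) hqp3 (by
                      omega) hl3
                  have vf_q2_32 := cv28 hM (p := p) (q := q2) hq2 (t0 := s2) (l := l2) hqp2 hl2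
                      (a1 := s3) (a2 := s2) (by omega) (by omega)
                  have vg_q2_4_2_0 := cg8_4_0_1 hmach (q := q2) hq2 (t0 := s2) (l := l2) hqp2 (by
                      omega) hl2 (a1 := s2) (by omega) (by omega)
                  have vf_q1_321 := cv38 hM (p := p) (q := q1) hq1 (t0 := s1) (l := l1) hqp1 hl1
                      (a1 := s3) (a2 := s2) (a3 := s1) (by omega) (by omega) (by omega)
                  have vg_q1_4_21_0 := cg8_4_0_2 hmach (q := q1) hq1 (t0 := s1) (l := l1) hqp1 (by
                      omega) hl1 (a1 := s2) (a2 := s1) (by omega) (by omega) (by omega)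
                  linarith only [e3e2, r1O, r0O, V0O, vf_t0_21, L12, wV, zw_2_a, zw_3_b, zw_3_c,
                    xz_2_b, xz_2_c, yx2, w_3, q3_P, q3_U, vg_q3_2__0, vg_q3_4__0, w_2, q2_P,
                    q2_U, vf_q2_32, vg_q2_4_2_0, w_1, q1_O, q1_P, q1_U, vf_q1_321, vg_q1_4_21_0,
                    w_0, o_L1e2, o_L2e1, col1, nn_w1, nn_w2, O0pos]
                · have vf_t0_1 := cv18 hM (p := p) (q := p) hp (t0 := s1) (l := n) (fun _ _ =>
                      rfl) h10 (a1 := s1) (by omega)
                  have vf_q3_3 := cv18 hM (p := p) (q := q3) hq3 (t0 := s3) (l := l3) hqp3 hl3 (a1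
                      := s3) (by omega)
                  have vg_q3_3__0 := cg8_3_0_0 hmach (q := q3) hq3 (t0 := s3) (l := l3) hqp3 (by
                      omega) hl3
                  have vf_q2_32 := cv28 hM (p := p) (q := q2) hq2 (t0 := s2) (l := l2) hqp2 hl2
                      (a1 := s3) (a2 := s2) (by omega) (by omega)
                  have vg_q2_4_2_0 := cg8_4_0_1 hmach (q := q2) hq2 (t0 := s2) (l := l2) hqp2 (by
                      omega) hl2 (a1 := s2) (by omega) (by omega)
                  have vf_q1_21 := cv28 hM (p := p) (q := q1) hq1 (t0 := s1) (l := l1) hqp1 hl1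
                      (a1 := s2) (a2 := s1) (by omega) (by omega)
                  have vf_q1_321 := cv38 hM (p := p) (q := q1) hq1 (t0 := s1) (l := l1) hqp1 hl1
                      (a1 := s3) (a2 := s2) (a3 := s1) (by omega) (by omega) (by omega)
                  linarith only [e3e2, r1O, r0O, V0O, vf_t0_1, L23, Lsum, wV, zw_2_a, zw_3_b,
                    zw_3_c, xz_2_b, xz_2_c, yx2, w_3, q3_P, q3_U, vf_q3_3, vg_q3_3__0, w_2, q2_P,
                    q2_U, vf_q2_32, vg_q2_4_2_0, w_1, q1_O, q1_P, q1_U, vf_q1_21, vf_q1_321, w_0,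
                    o_L1e2, o_L2e1, col1, nn_w1, nn_w2, O0pos]
                · have vf_t0_1 := cv18 hM (p := p) (q := p) hp (t0 := s1) (l := n) (fun _ _ =>
                      rfl) h10 (a1 := s1) (by omega)
                  have vf_q3_3 := cv18 hM (p := p) (q := q3) hq3 (t0 := s3) (l := l3) hqp3 hl3 (a1
                      := s3) (by omega)
                  have vg_q3_3__0 := cg8_3_0_0 hmach (q := q3) hq3 (t0 := s3) (l := l3) hqp3 (by
                      omega) hl3
                  have vf_q2_32 := cv28 hM (p := p) (q := q2) hq2 (t0 := s2) (l := l2) hqp2 hl2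
                      (a1 := s3) (a2 := s2) (by omega) (by omega)
                  have vg_q2_4_2_0 := cg8_4_0_1 hmach (q := q2) hq2 (t0 := s2) (l := l2) hqp2 (by
                      omega) hl2 (a1 := s2) (by omega) (by omega)
                  have vf_q1_21 := cv28 hM (p := p) (q := q1) hq1 (t0 := s1) (l := l1) hqp1 hl1
                      (a1 := s2) (a2 := s1) (by omega) (by omega)
                  have vf_q1_321 := cv38 hM (p := p) (q := q1) hq1 (t0 := s1) (l := l1) hqp1 hl1
                      (a1 := s3) (a2 := s2) (a3 := s1) (by omega) (by omega) (by omega)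
                  linarith only [e3e2, r1O, r0O, V0O, vf_t0_1, L23, Lsum, wV, zw_2_a, zw_3_b,
                    zw_3_c, xz_2_b, xz_2_c, yx2, w_3, q3_P, q3_U, vf_q3_3, vg_q3_3__0, w_2, q2_P,
                    q2_U, vf_q2_32, vg_q2_4_2_0, w_1, q1_O, q1_P, q1_U, vf_q1_21, vf_q1_321, w_0,
                    o_L1e2, o_L2e1, col1, nn_w1, nn_w2, O0pos]
                · have vf_t0_1 := cv18 hM (p := p) (q := p) hp (t0 := s1) (l := n) (fun _ _ =>
                      rfl) h10 (a1 := s1) (by omega)
                  have vf_q3_3 := cv18 hM (p := p) (q := q3) hq3 (t0 := s3) (l := l3) hqp3 hl3 (a1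
                      := s3) (by omega)
                  have vg_q3_3__0 := cg8_3_0_0 hmach (q := q3) hq3 (t0 := s3) (l := l3) hqp3 (by
                      omega) hl3
                  have vf_q2_32 := cv28 hM (p := p) (q := q2) hq2 (t0 := s2) (l := l2) hqp2 hl2
                      (a1 := s3) (a2 := s2) (by omega) (by omega)
                  have vg_q2_4_2_0 := cg8_4_0_1 hmach (q := q2) hq2 (t0 := s2) (l := l2) hqp2 (by
                      omega) hl2 (a1 := s2) (by omega) (by omega)
                  have vf_q1_321 := cv38 hM (p := p) (q := q1) hq1 (t0 := s1) (l := l1) hqp1 hl1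
                      (a1 := s3) (a2 := s2) (a3 := s1) (by omega) (by omega) (by omega)
                  have vg_q1_3_21_0 := cg8_3_0_2 hmach (q := q1) hq1 (t0 := s1) (l := l1) hqp1 (by
                      omega) hl1 (a1 := s2) (a2 := s1) (by omega) (by omega) (by omega)
                  linarith only [e3e2, r0O, V0O, vf_t0_1, L12, L23, Lsum, wV, zw_3_b, zw_3_c,
                    xz_2_b, yx2, w_3, q3_P, q3_U, vf_q3_3, vg_q3_3__0, w_2, q2_P, q2_U, vf_q2_32,
                    vg_q2_4_2_0, w_1, q1_P, q1_U, vf_q1_321, vg_q1_3_21_0, w_0, o_L1e2, o_L2e1,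
                    col1, nn_w1, nn_w2, nn_w3, O0pos]
                · have vf_t0_21 := cv28 hM (p := p) (q := p) hp (t0 := s1) (l := n) (fun _ _ =>
                      rfl) h10 (a1 := s2) (a2 := s1) (by omega) (by omega)
                  have vf_q3_3 := cv18 hM (p := p) (q := q3) hq3 (t0 := s3) (l := l3) hqp3 hl3 (a1
                      := s3) (by omega)
                  have vg_q3_3__0 := cg8_3_0_0 hmach (q := q3) hq3 (t0 := s3) (l := l3) hqp3 (by
                      omega) hl3
                  have vf_q2_32 := cv28 hM (p := p) (q := q2) hq2 (t0 := s2) (l := l2) hqp2 hl2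
                      (a1 := s3) (a2 := s2) (by omega) (by omega)
                  have vg_q2_4_2_0 := cg8_4_0_1 hmach (q := q2) hq2 (t0 := s2) (l := l2) hqp2 (by
                      omega) hl2 (a1 := s2) (by omega) (by omega)
                  have vf_q1_321 := cv38 hM (p := p) (q := q1) hq1 (t0 := s1) (l := l1) hqp1 hl1
                      (a1 := s3) (a2 := s2) (a3 := s1) (by omega) (by omega) (by omega)
                  have vg_q1_3_21_0 := cg8_3_0_2 hmach (q := q1) hq1 (t0 := s1) (l := l1) hqp1 (by
                      omega) hl1 (a1 := s2) (a2 := s1) (by omega) (by omega) (by omega)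
                  linarith only [e3e2, r1O, r0O, V0O, vf_t0_21, L23, Lsum, wV, zw_3_b, zw_3_c,
                    xz_2_b, yx2, w_3, q3_P, q3_U, vf_q3_3, vg_q3_3__0, w_2, q2_P, q2_U, vf_q2_32,
                    vg_q2_4_2_0, w_1, q1_O, q1_P, q1_U, vf_q1_321, vg_q1_3_21_0, w_0, o_L1e2,
                    o_L2e1, col1, nn_w1, nn_w2, nn_w3, O0pos]
                · have vf_t0_1 := cv18 hM (p := p) (q := p) hp (t0 := s1) (l := n) (fun _ _ =>
                      rfl) h10 (a1 := s1) (by omega)
                  have vf_q3_ := cv08 hM (p := p) (q := q3) hq3 (t0 := s3) (l := l3) hqp3 hl3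
                  have vg_q3_2__0 := cg8_2_0_0 hmach (q := q3) hq3 (t0 := s3) (l := l3) hqp3 (by
                      omega) hl3
                  have vf_q2_2 := cv18 hM (p := p) (q := q2) hq2 (t0 := s2) (l := l2) hqp2 hl2 (a1
                      := s2) (by omega)
                  have vg_q2_2_2_0 := cg8_2_0_1 hmach (q := q2) hq2 (t0 := s2) (l := l2) hqp2 (by
                      omega) hl2 (a1 := s2) (by omega) (by omega)
                  have vf_q1_1 := cv18 hM (p := p) (q := q1) hq1 (t0 := s1) (l := l1) hqp1 hl1 (a1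
                      := s1) (by omega)
                  have vf_q1_21 := cv28 hM (p := p) (q := q1) hq1 (t0 := s1) (l := l1) hqp1 hl1
                      (a1 := s2) (a2 := s1) (by omega) (by omega)
                  linarith only [r1O, r0O, V0O, vf_t0_1, wV, zw_2_a, zw_3_b, zw_3_c, zV, xz_2_b,
                    xz_2_c, yx2, w_3, q3_P, q3_U, vf_q3_, vg_q3_2__0, w_2, q2_P, q2_U, q2_V,
                    vf_q2_2, vg_q2_2_2_0, w_1, q1_O, q1_P, q1_U, vf_q1_1, vf_q1_21, w_0, o_L1e2,
                    o_L2e1, col1, nn_w1, nn_z1, O0pos]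
                · have vf_q3_ := cv08 hM (p := p) (q := q3) hq3 (t0 := s3) (l := l3) hqp3 hl3
                  have vg_q3_2__0 := cg8_2_0_0 hmach (q := q3) hq3 (t0 := s3) (l := l3) hqp3 (by
                      omega) hl3
                  have vf_q1_21 := cv28 hM (p := p) (q := q1) hq1 (t0 := s1) (l := l1) hqp1 hl1
                      (a1 := s2) (a2 := s1) (by omega) (by omega)
                  linarith only [r0O, V0O, e0V, wV, zw_2_a, zw_3_b, zw_3_c, xz_2_b, xz_2_c, xV,
                    yx1, yx2, w_3, q3_P, q3_U, q3_V, vf_q3_, vg_q3_2__0, w_1, q1_P, q1_U, q1_V,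
                    vf_q1_21, w_0, o_L1e2, o_L2e1, col1, nn_w1, nn_w2, O0pos]
                · have vf_t0_1 := cv18 hM (p := p) (q := p) hp (t0 := s1) (l := n) (fun _ _ =>
                      rfl) h10 (a1 := s1) (by omega)
                  have vf_q3_ := cv08 hM (p := p) (q := q3) hq3 (t0 := s3) (l := l3) hqp3 hl3
                  have vg_q3_2__0 := cg8_2_0_0 hmach (q := q3) hq3 (t0 := s3) (l := l3) hqp3 (by
                      omega) hl3
                  have vf_q1_21 := cv28 hM (p := p) (q := q1) hq1 (t0 := s1) (l := l1) hqp1 hl1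
                      (a1 := s2) (a2 := s1) (by omega) (by omega)
                  linarith only [r1O, r0O, V0O, vf_t0_1, L12, wV, zw_2_a, zw_3_b, zw_3_c, xz_2_b,
                    xz_2_c, xV, yx2, w_3, q3_P, q3_U, q3_V, vf_q3_, vg_q3_2__0, w_1, q1_O, q1_U,
                    q1_V, vf_q1_21, w_0, o_L1e2, o_L2e1, col1, nn_w1, nn_w2, nn_x1, O0pos]
                · have vf_q3_ := cv08 hM (p := p) (q := q3) hq3 (t0 := s3) (l := l3) hqp3 hl3
                  have vg_q3_2__0 := cg8_2_0_0 hmach (q := q3) hq3 (t0 := s3) (l := l3) hqp3 (by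
                      omega) hl3
                  have vf_q2_ := cv08 hM (p := p) (q := q2) hq2 (t0 := s2) (l := l2) hqp2 hl2
                  have vg_q2_2__0 := cg8_2_0_0 hmach (q := q2) hq2 (t0 := s2) (l := l2) hqp2 (by
                      omega) hl2
                  have vf_q1_1 := cv18 hM (p := p) (q := q1) hq1 (t0 := s1) (l := l1) hqp1 hl1 (a1
                      := s1) (by omega)
                  linarith only [r0O, V0O, e0V, L12, w23, wV, zw_1_a, zw_2_a, zw_3_b, zV, xz_1_a,
                    xz_2_b, xz_2_c, xV, yx1, yx2, w_3, q3_P, q3_U, vf_q3_, vg_q3_2__0, w_2, q2_P,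
                    q2_U, q2_V, vf_q2_, vg_q2_2__0, w_1, q1_P, q1_U, q1_V, vf_q1_1, w_0, o_L2e1,
                    col1, O0pos]
                · have vf_q3_ := cv08 hM (p := p) (q := q3) hq3 (t0 := s3) (l := l3) hqp3 hl3
                  have vg_q3_2__0 := cg8_2_0_0 hmach (q := q3) hq3 (t0 := s3) (l := l3) hqp3 (by
                      omega) hl3
                  have vf_q2_ := cv08 hM (p := p) (q := q2) hq2 (t0 := s2) (l := l2) hqp2 hl2
                  have vg_q2_2__0 := cg8_2_0_0 hmach (q := q2) hq2 (t0 := s2) (l := l2) hqp2 (by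
                      omega) hl2
                  have vf_q1_1 := cv18 hM (p := p) (q := q1) hq1 (t0 := s1) (l := l1) hqp1 hl1 (a1
                      := s1) (by omega)
                  linarith only [r1O, r0O, V0O, e0V, L12, w23, wV, zw_2_a, zw_3_b, zV, xz_2_b,
                    xz_2_c, xV, yx2, w_3, q3_P, q3_U, vf_q3_, vg_q3_2__0, w_2, q2_P, q2_U, q2_V,
                    vf_q2_, vg_q2_2__0, w_1, q1_O, q1_U, q1_V, vf_q1_1, w_0, o_L2e1, col1, nn_w1,
                    nn_z1, nn_x1, O0pos]
                · have vf_q1_ := cv08 hM (p := p) (q := q1) hq1 (t0 := s1) (l := l1) hqp1 hl1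
                  have vf_q1_1 := cv18 hM (p := p) (q := q1) hq1 (t0 := s1) (l := l1) hqp1 hl1 (a1
                      := s1) (by omega)
                  linarith only [r0O, V0O, e0V, xV, yx1, yx2, w_1, q1_U, q1_V, vf_q1_, vf_q1_1,
                    w_0, col1, nn_e1, O0pos]
  · obtain ⟨nn_A0, nn_P0, nn_U0, nn_Q0, q0_O, q0_P, q0_U, q0_V, q0_e⟩ := fut8 hM hq0 hqp0 hl0 hlN0
    rcases wit38 (by norm_num) (by norm_num) hp h32 h21 u1 with ⟨l1, g1, w_1⟩ | w_1 | ⟨l1, g1,
        gg1, w_1⟩ | w_1 | ⟨l1, g1, gg1, w_1⟩ | w_1 | ⟨q1, N1, l1, hq1, hqp1, hl1, hlN1, w_1⟩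
    · obtain ⟨nn_A1, nn_P1, p1_V, p1_O, p1_e⟩ := pas8 hM hp g1
      have vf_q0_10 := cv28 hM (p := p) (q := q0) hq0 (t0 := n) (l := l0) hqp0 hl0 (a1 := s1) (a2
          := n) (by omega) (by omega)
      linarith only [O3O2, e3e2, O2O1, e2e1, V1O, V1V0, e1e0, r0O, xV, yx1, yx2, w_1, p1_O, p1_e,
        w_0, q0_O, q0_P, q0_U, q0_V, vf_q0_10, nn_x1, O0pos]
    · have vf_q0_30 := cv28 hM (p := p) (q := q0) hq0 (t0 := n) (l := l0) hqp0 hl0 (a1 := s3) (a2
          := n) (by omega) (by omega)
      have vf_q0_310 := cv38 hM (p := p) (q := q0) hq0 (t0 := n) (l := l0) hqp0 hl0 (a1 := s3) (a2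
          := s1) (a3 := n) (by omega) (by omega) (by omega)
      linarith only [r3O, O3O2, e3e2, O2O1, e2e1, r1O, V1O, e1e0, r0O, xV, yx2, w_1, w_0, q0_O,
        q0_P, q0_U, vf_q0_30, vf_q0_310, nn_x1, O0pos]
    · obtain ⟨nn_A1, nn_P1, nn_U1, m1_P, m1_e, m1_f, m1_V, m1_W⟩ := mid8 hM hp g1 gg1
      have vf_q0_10 := cv28 hM (p := p) (q := q0) hq0 (t0 := n) (l := l0) hqp0 hl0 (a1 := s1) (a2
          := n) (by omega) (by omega)
      linarith only [V2V1, O2O1, e2e1, V1O, V1V0, e1e0, r0O, wV, zw_1_a, zw_2_a, zw_3_b, zw_3_c,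
        xz_1_a, xz_2_b, xz_2_c, yx1, yx2, w_1, m1_P, m1_f, m1_V, m1_W, w_0, q0_O, q0_P, q0_U,
        q0_V, vf_q0_10, nn_w1, O0pos]
    · have vf_q0_20 := cv28 hM (p := p) (q := q0) hq0 (t0 := n) (l := l0) hqp0 hl0 (a1 := s2) (a2
          := n) (by omega) (by omega)
      have vf_q0_210 := cv38 hM (p := p) (q := q0) hq0 (t0 := n) (l := l0) hqp0 hl0 (a1 := s2) (a2
          := s1) (a3 := n) (by omega) (by omega) (by omega)
      linarith only [r2O, O2O1, e2e1, r1O, V1O, e1e0, r0O, xV, yx2, w_1, w_0, q0_O, q0_P, q0_U,
        vf_q0_20, vf_q0_210, nn_x1, O0pos]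
    · obtain ⟨nn_A1, nn_P1, nn_U1, m1_P, m1_e, m1_f, m1_V, m1_W⟩ := mid8 hM hp g1 gg1
      have vf_q0_10 := cv28 hM (p := p) (q := q0) hq0 (t0 := n) (l := l0) hqp0 hl0 (a1 := s1) (a2
          := n) (by omega) (by omega)
      linarith only [V1O, V1V0, e1e0, r0O, zV, xz_1_a, xz_2_b, xz_2_c, yx1, yx2, w_1, m1_P, m1_f,
        m1_V, m1_W, w_0, q0_O, q0_P, q0_U, q0_V, vf_q0_10, nn_z1, O0pos]
    · have vf_q0_10 := cv28 hM (p := p) (q := q0) hq0 (t0 := n) (l := l0) hqp0 hl0 (a1 := s1) (a2
          := n) (by omega) (by omega)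
      linarith only [r1O, V1O, V1V0, e1e0, r0O, xV, yx2, w_1, w_0, q0_O, q0_P, q0_U, q0_V,
        vf_q0_10, nn_x1, O0pos]
    · obtain ⟨nn_A1, nn_P1, nn_U1, nn_Q1, q1_O, q1_P, q1_U, q1_V, q1_e⟩ := fut8 hM hq1 hqp1 hl1
          hlN1
      rcases wit28 (by norm_num) (by norm_num) hp h32 u2 with ⟨l2, g2, w_2⟩ | w_2 | ⟨l2, g2, gg2,
          w_2⟩ | w_2 | ⟨q2, N2, l2, hq2, hqp2, hl2, hlN2, w_2⟩
      · obtain ⟨nn_A2, nn_P2, p2_V, p2_O, p2_e⟩ := pas8 hM hp g2
        have vf_q1_21 := cv28 hM (p := p) (q := q1) hq1 (t0 := s1) (l := l1) hqp1 hl1 (a1 := s2)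
            (a2 := s1) (by omega) (by omega)
        have vf_q0_210 := cv38 hM (p := p) (q := q0) hq0 (t0 := n) (l := l0) hqp0 hl0 (a1 := s2)
            (a2 := s1) (a3 := n) (by omega) (by omega) (by omega)
        linarith only [O3O2, e3e2, r2O, V2O, e2e1, V1V0, e1e0, r0O, zV, xz_2_b, xz_2_c, xV, yx2,
          w_2, p2_O, p2_e, w_1, q1_P, q1_U, q1_V, vf_q1_21, w_0, q0_O, q0_P, q0_U, q0_V,
          vf_q0_210, nn_z1, nn_x1, O0pos]
      · have vf_q1_321 := cv38 hM (p := p) (q := q1) hq1 (t0 := s1) (l := l1) hqp1 hl1 (a1 := s3)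
            (a2 := s2) (a3 := s1) (by omega) (by omega) (by omega)
        have vf_q0_10 := cv28 hM (p := p) (q := q0) hq0 (t0 := n) (l := l0) hqp0 hl0 (a1 := s1)
            (a2 := n) (by omega) (by omega)
        have vf_q0_310 := cv38 hM (p := p) (q := q0) hq0 (t0 := n) (l := l0) hqp0 hl0 (a1 := s3)
            (a2 := s1) (a3 := n) (by omega) (by omega) (by omega)
        linarith only [r3O, O3O2, e3e2, r2O, V2O, e2e1, e1e0, r0O, zV, xz_2_b, xz_2_c, xV, yx2,
          w_2, w_1, q1_P, q1_U, q1_V, vf_q1_321, w_0, q0_O, q0_P, q0_U, vf_q0_10, vf_q0_310,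
          nn_z1, nn_x1, O0pos]
      · obtain ⟨nn_A2, nn_P2, nn_U2, m2_P, m2_e, m2_f, m2_V, m2_W⟩ := mid8 hM hp g2 gg2
        have vf_q1_21 := cv28 hM (p := p) (q := q1) hq1 (t0 := s1) (l := l1) hqp1 hl1 (a1 := s2)
            (a2 := s1) (by omega) (by omega)
        have vf_q0_0 := cv18 hM (p := p) (q := q0) hq0 (t0 := n) (l := l0) hqp0 hl0 (a1 := n) (by
            omega)
        have vf_q0_210 := cv38 hM (p := p) (q := q0) hq0 (t0 := n) (l := l0) hqp0 hl0 (a1 := s2)
            (a2 := s1) (a3 := n) (by omega) (by omega) (by omega)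
        linarith only [V2O, V2V1, e2e1, e1e0, r0O, wV, zw_2_a, zw_3_b, zw_3_c, xz_2_b, xz_2_c,
          yx2, w_2, m2_P, m2_f, m2_V, m2_W, w_1, q1_P, q1_U, q1_V, vf_q1_21, w_0, q0_O, q0_P,
          q0_U, vf_q0_0, vf_q0_210, nn_w1, nn_w2, O0pos]
      · have vf_q1_21 := cv28 hM (p := p) (q := q1) hq1 (t0 := s1) (l := l1) hqp1 hl1 (a1 := s2)
            (a2 := s1) (by omega) (by omega)
        have vf_q0_210 := cv38 hM (p := p) (q := q0) hq0 (t0 := n) (l := l0) hqp0 hl0 (a1 := s2)
            (a2 := s1) (a3 := n) (by omega) (by omega) (by omega)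
        linarith only [r2O, V2O, e2e1, V1V0, e1e0, r0O, zV, xz_2_b, xz_2_c, xV, yx2, w_2, w_1,
          q1_P, q1_U, q1_V, vf_q1_21, w_0, q0_O, q0_P, q0_U, q0_V, vf_q0_210, nn_z1, nn_x1, O0pos]
      · obtain ⟨nn_A2, nn_P2, nn_U2, nn_Q2, q2_O, q2_P, q2_U, q2_V, q2_e⟩ := fut8 hM hq2 hqp2 hl2
            hlN2
        rcases wit18 (by norm_num) (by norm_num) hp u3 with ⟨l3, g3, w_3⟩ | w_3 | ⟨q3, N3, l3,
            hq3, hqp3, hl3, hlN3, w_3⟩
        · obtain ⟨nn_A3, nn_P3, p3_V, p3_O, p3_e⟩ := pas8 hM hp g3
          have vf_q1_321 := cv38 hM (p := p) (q := q1) hq1 (t0 := s1) (l := l1) hqp1 hl1 (a1 :=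
              s3) (a2 := s2) (a3 := s1) (by omega) (by omega) (by omega)
          have vf_q0_10 := cv28 hM (p := p) (q := q0) hq0 (t0 := n) (l := l0) hqp0 hl0 (a1 := s1)
              (a2 := n) (by omega) (by omega)
          have vf_q0_210 := cv38 hM (p := p) (q := q0) hq0 (t0 := n) (l := l0) hqp0 hl0 (a1 := s2)
              (a2 := s1) (a3 := n) (by omega) (by omega) (by omega)
          linarith only [r3O, V3O, e3e2, e2e1, V1V0, e1e0, r0O, wV, zw_2_a, zw_3_b, zw_3_c,
            xz_2_b, xz_2_c, xV, yx2, w_3, p3_O, p3_e, w_1, q1_P, q1_U, q1_V, vf_q1_321, w_0,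
            q0_O, q0_P, q0_U, q0_V, vf_q0_10, vf_q0_210, nn_w1, nn_x1, O0pos]
        · have vf_q1_321 := cv38 hM (p := p) (q := q1) hq1 (t0 := s1) (l := l1) hqp1 hl1 (a1 :=
              s3) (a2 := s2) (a3 := s1) (by omega) (by omega) (by omega)
          have vf_q0_10 := cv28 hM (p := p) (q := q0) hq0 (t0 := n) (l := l0) hqp0 hl0 (a1 := s1)
              (a2 := n) (by omega) (by omega)
          have vf_q0_3210 := cv48 hM (p := p) (q := q0) hq0 (t0 := n) (l := l0) hqp0 hl0 (a1 :=
              s3) (a2 := s2) (a3 := s1) (a4 := n) (by omega) (by omega) (by omega) (by omega)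
          linarith only [r3O, V3O, e3e2, e2e1, V1V0, e1e0, r0O, wV, zw_2_a, zw_3_b, zw_3_c,
            xz_2_b, xz_2_c, xV, yx2, w_3, w_1, q1_P, q1_U, q1_V, vf_q1_321, w_0, q0_O, q0_P,
            q0_U, q0_V, vf_q0_10, vf_q0_3210, nn_w1, nn_x1, O0pos]
        · obtain ⟨nn_A3, nn_P3, nn_U3, nn_Q3, q3_O, q3_P, q3_U, q3_V, q3_e⟩ := fut8 hM hq3 hqp3
              hl3 hlN3
          rcases le_total (mn m p s3 + p s3) (ls m p s3 i1) with o_a3L1 | o_L1a3
          · have o_a3e2 : mn m p s3 + p s3 ≤ mn m p s2 := od0 hmach hp (fun _ _ => rfl) h32 le_rfl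
                o_a3L1
            have vf_q3_ := cv08 hM (p := p) (q := q3) hq3 (t0 := s3) (l := l3) hqp3 hl3
            have vg_q3_0__1 := cg8_0_1_0 hmach (q := q3) hq3 (t0 := s3) (l := l3) hqp3 (by omega)
                hl3
            have vf_q2_2 := cv18 hM (p := p) (q := q2) hq2 (t0 := s2) (l := l2) hqp2 hl2 (a1 :=
                s2) (by omega)
            have vf_q1_21 := cv28 hM (p := p) (q := q1) hq1 (t0 := s1) (l := l1) hqp1 hl1 (a1 :=
                s2) (a2 := s1) (by omega) (by omega)
            have vf_q0_10 := cv28 hM (p := p) (q := q0) hq0 (t0 := n) (l := l0) hqp0 hl0 (a1 :=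
                s1) (a2 := n) (by omega) (by omega)
            have vf_q0_210 := cv38 hM (p := p) (q := q0) hq0 (t0 := n) (l := l0) hqp0 hl0 (a1 :=
                s2) (a2 := s1) (a3 := n) (by omega) (by omega) (by omega)
            linarith only [e2e1, e1e0, r0O, wV, zw_2_a, zw_3_b, zw_3_c, zV, xz_2_b, xz_2_c, xV,
              yx1, yx2, w_3, q3_P, q3_U, vf_q3_, vg_q3_0__1, w_2, q2_P, q2_U, q2_V, vf_q2_2, w_1,
              q1_P, q1_U, q1_V, vf_q1_21, w_0, q0_O, q0_P, q0_U, vf_q0_10, vf_q0_210, o_a3e2,
              nn_e3, nn_w1, nn_z1, O0pos]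
          · have o_L1e2 : ls m p s3 i1 ≤ mn m p s2 := od0 hmach hp (fun _ _ => rfl) h32 o_L1a3
                le_rfl
            have o_L1A3 : ls m p s3 i1 ≤ mn m q3 l3 := od0 hmach hq3 hqp3 hl3 o_L1a3 le_rfl
            rcases le_total (mn m p s3 + p s3) (ls m p s3 i2) with o_a3L2 | o_L2a3
            · rcases le_total (mn m p s3 + p s3) (mn m p s2 + p s2) with o_a3a2 | o_a2a3
              · have o_a3e1 : mn m p s3 + p s3 ≤ mn m p s1 := od1 hmach hp (fun _ _ => rfl) h32
                    h21 le_rfl o_a3L2 le_rfl o_a3a2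
                have o_a3A2 : mn m p s3 + p s3 ≤ mn m q2 l2 := od1 hmach hq2 hqp2 h32 hl2 le_rfl
                    o_a3L2 le_rfl o_a3a2
                have vf_q3_ := cv08 hM (p := p) (q := q3) hq3 (t0 := s3) (l := l3) hqp3 hl3
                have vg_q3_1__1 := cg8_1_1_0 hmach (q := q3) hq3 (t0 := s3) (l := l3) hqp3 (by
                    omega) hl3
                have vf_q1_21 := cv28 hM (p := p) (q := q1) hq1 (t0 := s1) (l := l1) hqp1 hl1 (a1
                    := s2) (a2 := s1) (by omega) (by omega)
                have vf_q0_10 := cv28 hM (p := p) (q := q0) hq0 (t0 := n) (l := l0) hqp0 hl0 (a1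
                    := s1) (a2 := n) (by omega) (by omega)
                have vf_q0_210 := cv38 hM (p := p) (q := q0) hq0 (t0 := n) (l := l0) hqp0 hl0 (a1
                    := s2) (a2 := s1) (a3 := n) (by omega) (by omega) (by omega)
                linarith only [V1V0, e1e0, r0O, wV, zw_2_a, zw_3_b, zw_3_c, xz_2_b, xz_2_c, xV,
                  yx1, yx2, w_3, q3_P, q3_U, vf_q3_, vg_q3_1__1, w_1, q1_P, q1_U, q1_V, vf_q1_21,
                  w_0, q0_O, q0_P, q0_U, q0_V, vf_q0_10, vf_q0_210, o_L1e2, o_a3e1, nn_e3, nn_w1,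
                  O0pos]
              · have o_a2e1 : mn m p s2 + p s2 ≤ mn m p s1 := od1 hmach hp (fun _ _ => rfl) h32
                    h21 le_rfl o_a3L2 o_a2a3 le_rfl
                have o_a2A2 : mn m p s2 + p s2 ≤ mn m q2 l2 := od1 hmach hq2 hqp2 h32 hl2 le_rfl
                    o_a3L2 o_a2a3 le_rfl
                have vf_q2_ := cv08 hM (p := p) (q := q2) hq2 (t0 := s2) (l := l2) hqp2 hl2
                have vg_q2_1__1 := cg8_1_1_0 hmach (q := q2) hq2 (t0 := s2) (l := l2) hqp2 (by
                    omega) hl2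
                have vf_q1_1 := cv18 hM (p := p) (q := q1) hq1 (t0 := s1) (l := l1) hqp1 hl1 (a1
                    := s1) (by omega)
                have vf_q0_10 := cv28 hM (p := p) (q := q0) hq0 (t0 := n) (l := l0) hqp0 hl0 (a1
                    := s1) (a2 := n) (by omega) (by omega)
                linarith only [e3e2, V1V0, e1e0, r0O, w23, wV, zw_2_a, zw_3_b, xz_2_b, xz_2_c,
                  xV, yx1, yx2, w_2, q2_P, q2_U, vf_q2_, vg_q2_1__1, w_1, q1_P, q1_U, q1_V,
                  vf_q1_1, w_0, q0_O, q0_P, q0_U, q0_V, vf_q0_10, o_L1e2, o_a2e1, nn_e2, nn_w1,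
                  O0pos]
            · rcases le_total (mn m p s2 + p s2) (ls m p s3 i2) with o_a2L2 | o_L2a2
              · have o_a2e1 : mn m p s2 + p s2 ≤ mn m p s1 := od1 hmach hp (fun _ _ => rfl) h32
                    h21 o_L2a3 le_rfl o_a2L2 le_rfl
                have o_a2A2 : mn m p s2 + p s2 ≤ mn m q2 l2 := od1 hmach hq2 hqp2 h32 hl2 o_L2a3
                    le_rfl o_a2L2 le_rfl
                have vf_q2_ := cv08 hM (p := p) (q := q2) hq2 (t0 := s2) (l := l2) hqp2 hl2
                have vg_q2_1__1 := cg8_1_1_0 hmach (q := q2) hq2 (t0 := s2) (l := l2) hqp2 (by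
                    omega) hl2
                have vf_q1_1 := cv18 hM (p := p) (q := q1) hq1 (t0 := s1) (l := l1) hqp1 hl1 (a1
                    := s1) (by omega)
                have vf_q0_10 := cv28 hM (p := p) (q := q0) hq0 (t0 := n) (l := l0) hqp0 hl0 (a1
                    := s1) (a2 := n) (by omega) (by omega)
                linarith only [e3e2, V1V0, e1e0, r0O, w23, wV, zw_2_a, zw_3_b, xz_2_b, xz_2_c,
                  xV, yx1, yx2, w_2, q2_P, q2_U, vf_q2_, vg_q2_1__1, w_1, q1_P, q1_U, q1_V,
                  vf_q1_1, w_0, q0_O, q0_P, q0_U, q0_V, vf_q0_10, o_L1e2, o_a2e1, nn_e2, nn_w1,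
                  O0pos]
              · have o_L2e1 : ls m p s3 i2 ≤ mn m p s1 := od1 hmach hp (fun _ _ => rfl) h32 h21
                    o_L2a3 le_rfl le_rfl o_L2a2
                have o_L2A2 : ls m p s3 i2 ≤ mn m q2 l2 := od1 hmach hq2 hqp2 h32 hl2 o_L2a3
                    le_rfl le_rfl o_L2a2
                rcases col48 hM hq1 hmach (fun i hi => hqp1 i (by omega)) h32 h21 hl1 hlN1 (hqp1 _
                    (by omega)) (hqp1 _ (by omega)) (hqp1 _ (by omega)) rfl with col1 | col1 |
                    col1 | col1 | col1 | col1 | col1 | col1 | col1 | col1 | col1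
                · have vf_q2_2 := cv18 hM (p := p) (q := q2) hq2 (t0 := s2) (l := l2) hqp2 hl2 (a1
                      := s2) (by omega)
                  have vg_q2_4_2_0 := cg8_4_0_1 hmach (q := q2) hq2 (t0 := s2) (l := l2) hqp2 (by
                      omega) hl2 (a1 := s2) (by omega) (by omega)
                  have vf_q1_21 := cv28 hM (p := p) (q := q1) hq1 (t0 := s1) (l := l1) hqp1 hl1
                      (a1 := s2) (a2 := s1) (by omega) (by omega)
                  have vf_q1_321 := cv38 hM (p := p) (q := q1) hq1 (t0 := s1) (l := l1) hqp1 hl1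
                      (a1 := s3) (a2 := s2) (a3 := s1) (by omega) (by omega) (by omega)
                  have vg_q1_4_21_1 := cg8_4_1_2 hmach (q := q1) hq1 (t0 := s1) (l := l1) hqp1 (by
                      omega) hl1 (a1 := s2) (a2 := s1) (by omega) (by omega) (by omega)
                  have vf_q0_210 := cv38 hM (p := p) (q := q0) hq0 (t0 := n) (l := l0) hqp0 hl0
                      (a1 := s2) (a2 := s1) (a3 := n) (by omega) (by omega) (by omega)
                  linarith only [e3e2, V2V1, V1V0, e1e0, r0O, L12, wV, zw_3_b, zw_3_c, zV,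
                    xz_2_b, yx2, w_2, q2_P, q2_U, vf_q2_2, vg_q2_4_2_0, w_1, q1_P, q1_U,
                    vf_q1_21, vf_q1_321, vg_q1_4_21_1, w_0, q0_O, q0_P, q0_U, q0_V, vf_q0_210,
                    o_L1e2, o_L2e1, col1, nn_w1, nn_w2, nn_w3, nn_z1, nn_z2, O0pos]
                · have vf_q3_3 := cv18 hM (p := p) (q := q3) hq3 (t0 := s3) (l := l3) hqp3 hl3 (a1
                      := s3) (by omega)
                  have vg_q3_3__0 := cg8_3_0_0 hmach (q := q3) hq3 (t0 := s3) (l := l3) hqp3 (by
                      omega) hl3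
                  have vf_q2_32 := cv28 hM (p := p) (q := q2) hq2 (t0 := s2) (l := l2) hqp2 hl2
                      (a1 := s3) (a2 := s2) (by omega) (by omega)
                  have vg_q2_4_2_0 := cg8_4_0_1 hmach (q := q2) hq2 (t0 := s2) (l := l2) hqp2 (by
                      omega) hl2 (a1 := s2) (by omega) (by omega)
                  have vf_q1_21 := cv28 hM (p := p) (q := q1) hq1 (t0 := s1) (l := l1) hqp1 hl1
                      (a1 := s2) (a2 := s1) (by omega) (by omega)
                  have vf_q1_321 := cv38 hM (p := p) (q := q1) hq1 (t0 := s1) (l := l1) hqp1 hl1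
                      (a1 := s3) (a2 := s2) (a3 := s1) (by omega) (by omega) (by omega)
                  have vf_q0_210 := cv38 hM (p := p) (q := q0) hq0 (t0 := n) (l := l0) hqp0 hl0
                      (a1 := s2) (a2 := s1) (a3 := n) (by omega) (by omega) (by omega)
                  linarith only [e3e2, V1V0, e1e0, r0O, L12, Lsum, wV, zw_3_b, zw_3_c, xz_2_b,
                    xV, yx2, w_3, q3_P, q3_U, vf_q3_3, vg_q3_3__0, w_2, q2_P, q2_U, vf_q2_32,
                    vg_q2_4_2_0, w_1, q1_P, q1_U, vf_q1_21, vf_q1_321, w_0, q0_O, q0_P, q0_U,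
                    q0_V, vf_q0_210, o_L1e2, o_L2e1, col1, nn_w1, nn_w2, nn_w3, nn_x1, O0pos]
                · have vf_q3_3 := cv18 hM (p := p) (q := q3) hq3 (t0 := s3) (l := l3) hqp3 hl3 (a1
                      := s3) (by omega)
                  have vg_q3_3__0 := cg8_3_0_0 hmach (q := q3) hq3 (t0 := s3) (l := l3) hqp3 (by
                      omega) hl3
                  have vf_q2_32 := cv28 hM (p := p) (q := q2) hq2 (t0 := s2) (l := l2) hqp2 hl2
                      (a1 := s3) (a2 := s2) (by omega) (by omega)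
                  have vg_q2_4_2_0 := cg8_4_0_1 hmach (q := q2) hq2 (t0 := s2) (l := l2) hqp2 (by
                      omega) hl2 (a1 := s2) (by omega) (by omega)
                  have vf_q1_1 := cv18 hM (p := p) (q := q1) hq1 (t0 := s1) (l := l1) hqp1 hl1 (a1
                      := s1) (by omega)
                  have vf_q0_10 := cv28 hM (p := p) (q := q0) hq0 (t0 := n) (l := l0) hqp0 hl0 (a1
                      := s1) (a2 := n) (by omega) (by omega)
                  have vf_q0_210 := cv38 hM (p := p) (q := q0) hq0 (t0 := n) (l := l0) hqp0 hl0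
                      (a1 := s2) (a2 := s1) (a3 := n) (by omega) (by omega) (by omega)
                  linarith only [e3e2, V1V0, e1e0, r0O, L12, Lsum, wV, zw_3_b, zw_3_c, xz_2_b,
                    xV, yx2, w_3, q3_P, q3_U, vf_q3_3, vg_q3_3__0, w_2, q2_P, q2_U, vf_q2_32,
                    vg_q2_4_2_0, w_1, q1_P, q1_U, vf_q1_1, w_0, q0_O, q0_P, q0_U, q0_V, vf_q0_10,
                    vf_q0_210, o_L1e2, o_L2e1, col1, nn_w1, nn_w2, nn_w3, nn_x1, O0pos]
                · have vf_q3_3 := cv18 hM (p := p) (q := q3) hq3 (t0 := s3) (l := l3) hqp3 hl3 (a1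
                      := s3) (by omega)
                  have vg_q3_3__0 := cg8_3_0_0 hmach (q := q3) hq3 (t0 := s3) (l := l3) hqp3 (by
                      omega) hl3
                  have vf_q2_32 := cv28 hM (p := p) (q := q2) hq2 (t0 := s2) (l := l2) hqp2 hl2
                      (a1 := s3) (a2 := s2) (by omega) (by omega)
                  have vg_q2_4_2_0 := cg8_4_0_1 hmach (q := q2) hq2 (t0 := s2) (l := l2) hqp2 (by
                      omega) hl2 (a1 := s2) (by omega) (by omega)
                  have vf_q1_321 := cv38 hM (p := p) (q := q1) hq1 (t0 := s1) (l := l1) hqp1 hl1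
                      (a1 := s3) (a2 := s2) (a3 := s1) (by omega) (by omega) (by omega)
                  have vg_q1_3_21_0 := cg8_3_0_2 hmach (q := q1) hq1 (t0 := s1) (l := l1) hqp1 (by
                      omega) hl1 (a1 := s2) (a2 := s1) (by omega) (by omega) (by omega)
                  have vf_q0_10 := cv28 hM (p := p) (q := q0) hq0 (t0 := n) (l := l0) hqp0 hl0 (a1
                      := s1) (a2 := n) (by omega) (by omega)
                  have vf_q0_210 := cv38 hM (p := p) (q := q0) hq0 (t0 := n) (l := l0) hqp0 hl0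
                      (a1 := s2) (a2 := s1) (a3 := n) (by omega) (by omega) (by omega)
                  linarith only [e3e2, e1e0, r0O, L12, Lsum, wV, zw_3_b, zw_3_c, xz_2_b, yx2,
                    w_3, q3_P, q3_U, vf_q3_3, vg_q3_3__0, w_2, q2_P, q2_U, vf_q2_32, vg_q2_4_2_0,
                    w_1, q1_P, q1_U, vf_q1_321, vg_q1_3_21_0, w_0, q0_O, q0_P, q0_U, vf_q0_10,
                    vf_q0_210, o_L1e2, o_L2e1, col1, nn_w1, nn_w2, nn_w3, O0pos]
                · have vf_q3_3 := cv18 hM (p := p) (q := q3) hq3 (t0 := s3) (l := l3) hqp3 hl3 (a1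
                      := s3) (by omega)
                  have vg_q3_3__0 := cg8_3_0_0 hmach (q := q3) hq3 (t0 := s3) (l := l3) hqp3 (by
                      omega) hl3
                  have vf_q2_32 := cv28 hM (p := p) (q := q2) hq2 (t0 := s2) (l := l2) hqp2 hl2
                      (a1 := s3) (a2 := s2) (by omega) (by omega)
                  have vg_q2_4_2_0 := cg8_4_0_1 hmach (q := q2) hq2 (t0 := s2) (l := l2) hqp2 (by
                      omega) hl2 (a1 := s2) (by omega) (by omega)
                  have vf_q1_321 := cv38 hM (p := p) (q := q1) hq1 (t0 := s1) (l := l1) hqp1 hl1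
                      (a1 := s3) (a2 := s2) (a3 := s1) (by omega) (by omega) (by omega)
                  have vg_q1_3_21_0 := cg8_3_0_2 hmach (q := q1) hq1 (t0 := s1) (l := l1) hqp1 (by
                      omega) hl1 (a1 := s2) (a2 := s1) (by omega) (by omega) (by omega)
                  have vf_q0_10 := cv28 hM (p := p) (q := q0) hq0 (t0 := n) (l := l0) hqp0 hl0 (a1
                      := s1) (a2 := n) (by omega) (by omega)
                  have vf_q0_210 := cv38 hM (p := p) (q := q0) hq0 (t0 := n) (l := l0) hqp0 hl0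
                      (a1 := s2) (a2 := s1) (a3 := n) (by omega) (by omega) (by omega)
                  linarith only [e3e2, r1O, e1e0, r0O, L12, Lsum, wV, zw_3_b, zw_3_c, xz_2_b,
                    yx2, w_3, q3_P, q3_U, vf_q3_3, vg_q3_3__0, w_2, q2_P, q2_U, vf_q2_32,
                    vg_q2_4_2_0, w_1, q1_O, q1_U, vf_q1_321, vg_q1_3_21_0, w_0, q0_O, q0_P, q0_U,
                    vf_q0_10, vf_q0_210, o_L1e2, o_L2e1, col1, nn_w1, nn_w2, nn_w3, O0pos]
                · have vf_q3_ := cv08 hM (p := p) (q := q3) hq3 (t0 := s3) (l := l3) hqp3 hl3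
                  have vg_q3_2__0 := cg8_2_0_0 hmach (q := q3) hq3 (t0 := s3) (l := l3) hqp3 (by
                      omega) hl3
                  have vf_q2_2 := cv18 hM (p := p) (q := q2) hq2 (t0 := s2) (l := l2) hqp2 hl2 (a1
                      := s2) (by omega)
                  have vg_q2_2_2_0 := cg8_2_0_1 hmach (q := q2) hq2 (t0 := s2) (l := l2) hqp2 (by
                      omega) hl2 (a1 := s2) (by omega) (by omega)
                  have vf_q1_1 := cv18 hM (p := p) (q := q1) hq1 (t0 := s1) (l := l1) hqp1 hl1 (a1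
                      := s1) (by omega)
                  have vf_q0_10 := cv28 hM (p := p) (q := q0) hq0 (t0 := n) (l := l0) hqp0 hl0 (a1
                      := s1) (a2 := n) (by omega) (by omega)
                  linarith only [r1O, V1V0, O1O0, e1e0, r0O, L12, w23, wV, zw_2_a, zw_3_b,
                    xz_2_b, xz_2_c, xV, yx2, w_3, q3_P, q3_U, vf_q3_, vg_q3_2__0, w_2, q2_P,
                    q2_U, vf_q2_2, vg_q2_2_2_0, w_1, q1_P, q1_U, vf_q1_1, w_0, q0_O, q0_P, q0_U,
                    q0_V, vf_q0_10, o_L1e2, o_L2e1, col1, nn_w1, nn_x1, O0pos]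
                · have vf_q3_ := cv08 hM (p := p) (q := q3) hq3 (t0 := s3) (l := l3) hqp3 hl3
                  have vg_q3_2__0 := cg8_2_0_0 hmach (q := q3) hq3 (t0 := s3) (l := l3) hqp3 (by
                      omega) hl3
                  have vf_q1_21 := cv28 hM (p := p) (q := q1) hq1 (t0 := s1) (l := l1) hqp1 hl1
                      (a1 := s2) (a2 := s1) (by omega) (by omega)
                  have vf_q0_0 := cv18 hM (p := p) (q := q0) hq0 (t0 := n) (l := l0) hqp0 hl0 (a1
                      := n) (by omega)
                  linarith only [e1e0, r0O, L12, wV, zw_1_a, zw_2_a, zw_3_b, zw_3_c, xz_1_a,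
                    xz_2_b, xz_2_c, xV, yx1, yx2, w_3, q3_P, q3_U, vf_q3_, vg_q3_2__0, w_1, q1_P,
                    q1_U, q1_V, vf_q1_21, w_0, q0_O, q0_P, q0_U, vf_q0_0, o_L1e2, o_L2e1, col1,
                    nn_w1, nn_w2, O0pos]
                · have vf_q3_ := cv08 hM (p := p) (q := q3) hq3 (t0 := s3) (l := l3) hqp3 hl3
                  have vg_q3_2__0 := cg8_2_0_0 hmach (q := q3) hq3 (t0 := s3) (l := l3) hqp3 (by
                      omega) hl3
                  have vf_q1_21 := cv28 hM (p := p) (q := q1) hq1 (t0 := s1) (l := l1) hqp1 hl1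
                      (a1 := s2) (a2 := s1) (by omega) (by omega)
                  have vf_q0_0 := cv18 hM (p := p) (q := q0) hq0 (t0 := n) (l := l0) hqp0 hl0 (a1
                      := n) (by omega)
                  have vf_q0_10 := cv28 hM (p := p) (q := q0) hq0 (t0 := n) (l := l0) hqp0 hl0 (a1
                      := s1) (a2 := n) (by omega) (by omega)
                  linarith only [r1O, e1e0, r0O, L12, wV, zw_2_a, zw_3_b, zw_3_c, xz_2_b, xz_2_c,
                    xV, yx2, w_3, q3_P, q3_U, vf_q3_, vg_q3_2__0, w_1, q1_O, q1_U, q1_V,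
                    vf_q1_21, w_0, q0_O, q0_P, q0_U, vf_q0_0, vf_q0_10, o_L1e2, o_L2e1, col1,
                    nn_w1, nn_w2, nn_x1, O0pos]
                · have vf_q3_ := cv08 hM (p := p) (q := q3) hq3 (t0 := s3) (l := l3) hqp3 hl3
                  have vg_q3_2__0 := cg8_2_0_0 hmach (q := q3) hq3 (t0 := s3) (l := l3) hqp3 (by
                      omega) hl3
                  have vf_q2_ := cv08 hM (p := p) (q := q2) hq2 (t0 := s2) (l := l2) hqp2 hl2
                  have vf_q2_2 := cv18 hM (p := p) (q := q2) hq2 (t0 := s2) (l := l2) hqp2 hl2 (a1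
                      := s2) (by omega)
                  have vg_q2_2_2_0 := cg8_2_0_1 hmach (q := q2) hq2 (t0 := s2) (l := l2) hqp2 (by
                      omega) hl2 (a1 := s2) (by omega) (by omega)
                  have vf_q1_1 := cv18 hM (p := p) (q := q1) hq1 (t0 := s1) (l := l1) hqp1 hl1 (a1
                      := s1) (by omega)
                  have vf_q0_0 := cv18 hM (p := p) (q := q0) hq0 (t0 := n) (l := l0) hqp0 hl0 (a1
                      := n) (by omega)
                  linarith only [e1e0, r0O, L12, w23, wV, zw_1_a, zw_2_a, zw_3_b, xz_1_a, xz_2_b,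
                    xz_2_c, xV, yx1, yx2, w_3, q3_P, q3_U, vf_q3_, vg_q3_2__0, w_2, q2_P, q2_U,
                    vf_q2_, vf_q2_2, vg_q2_2_2_0, w_1, q1_P, q1_U, q1_V, vf_q1_1, w_0, q0_O,
                    q0_P, q0_U, vf_q0_0, o_L1e2, o_L2e1, col1, O0pos]
                · have vf_q3_ := cv08 hM (p := p) (q := q3) hq3 (t0 := s3) (l := l3) hqp3 hl3
                  have vg_q3_2__0 := cg8_2_0_0 hmach (q := q3) hq3 (t0 := s3) (l := l3) hqp3 (by
                      omega) hl3
                  have vf_q2_ := cv08 hM (p := p) (q := q2) hq2 (t0 := s2) (l := l2) hqp2 hl2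
                  have vg_q2_2__0 := cg8_2_0_0 hmach (q := q2) hq2 (t0 := s2) (l := l2) hqp2 (by
                      omega) hl2
                  have vf_q1_1 := cv18 hM (p := p) (q := q1) hq1 (t0 := s1) (l := l1) hqp1 hl1 (a1
                      := s1) (by omega)
                  have vf_q0_0 := cv18 hM (p := p) (q := q0) hq0 (t0 := n) (l := l0) hqp0 hl0 (a1
                      := n) (by omega)
                  have vf_q0_10 := cv28 hM (p := p) (q := q0) hq0 (t0 := n) (l := l0) hqp0 hl0 (a1
                      := s1) (a2 := n) (by omega) (by omega)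
                  linarith only [r1O, e1e0, r0O, L12, w23, wV, zw_2_a, zw_3_b, xz_2_b, xz_2_c,
                    xV, yx2, w_3, q3_P, q3_U, vf_q3_, vg_q3_2__0, w_2, q2_P, q2_U, vf_q2_,
                    vg_q2_2__0, w_1, q1_O, q1_U, q1_V, vf_q1_1, w_0, q0_O, q0_P, q0_U, vf_q0_0,
                    vf_q0_10, o_L2e1, col1, nn_w1, nn_x1, O0pos]
                · have vf_q1_ := cv08 hM (p := p) (q := q1) hq1 (t0 := s1) (l := l1) hqp1 hl1
                  have vf_q1_1 := cv18 hM (p := p) (q := q1) hq1 (t0 := s1) (l := l1) hqp1 hl1 (a1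
                      := s1) (by omega)
                  have vf_q0_0 := cv18 hM (p := p) (q := q0) hq0 (t0 := n) (l := l0) hqp0 hl0 (a1
                      := n) (by omega)
                  linarith only [r0O, xV, yx1, yx2, w_1, q1_U, q1_V, vf_q1_, vf_q1_1, w_0, q0_O,
                    q0_P, q0_U, vf_q0_0, col1, nn_e1, nn_e0, O0pos]

end Pool.Agent.Lib_MP_25a3c1_mix
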