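import Pool.Agent.Lib_MP_25a3c1_mix.Key

/-!
The mixture of List Scheduling and the careful algorithm is `R`-competitive.
-/

namespace Pool.Agent.Lib_MP_25a3c1_mix

open Pool.Agent.Lib_MP_25a3c1 Finset MeasureTheory

variable {m : ℕ} [NeZero m]

/-- the loads of the careful algorithm -/
noncomputable def ca (m : ℕ) [NeZero m] (lam R : ℝ) (p : ℕ → ℝ) (n : ℕ) : Fin m → ℝ :=
  ld (cr m lam R) p n

theorem ca_succ (lam R : ℝ) (p : ℕ → ℝ) (n : ℕ) (j : Fin m) :
    ca m lam R p (n + 1) j = ca m lam R p n j +
      if cr m lam R n p (ca m lam R p n) = j then p n else 0 := rfl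

/-- the state of the careful algorithm: some machine is empty, or there was an event, and the
lowest load is bounded by the two relevant loads at that event -/
theorem ca_inv (hm : 2 ≤ m) (lam R : ℝ) {p : ℕ → ℝ} (hp : ∀ i, 0 < p i) (n : ℕ) :
    (∃ j, ca m lam R p n j = 0) ∨ ∃ s < n, ∃ x b, Ev m lam R p s x b ∧
      ∃ j, ca m lam R p n j ≤ x + p s ∧ ca m lam R p n j ≤ b := by
  classical
  induction n with
  | zero => exact Or.inl ⟨⟨0, by omega⟩, rfl⟩
  | succ n ih =>
    set L := ca m lam R p n with hL
    obtain ⟨hne, h2⟩ := am2_spec hm L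
    by_cases hsafe : Safe m lam R (n + 1) p (L (am2 L) + p n)
    · -- no event: the lowest machine keeps its load
      have hcr : cr m lam R n p L = am2 L := if_pos hsafe
      have hkeep : ca m lam R p (n + 1) (am L) = L (am L) := by
        rw [ca_succ, ← hL, hcr, if_neg hne, add_zero]
      rcases ih with ⟨j, hj⟩ | ⟨s, hs, x, b, E, j, hj1, hj2⟩
      · left
        refine ⟨am L, ?_⟩
        rw [hkeep]
        exact le_antisymm ((am_le L j).trans hj.le) (ld_nonneg hp n _)
      · right
        refine ⟨s, by omega, x, b, E, am L, ?_, ?_⟩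
        · rw [hkeep]; exact (am_le L j).trans hj1
        · rw [hkeep]; exact (am_le L j).trans hj2
    · -- an event
      have hcr : cr m lam R n p L = am L := if_neg hsafe
      right
      refine ⟨n, Nat.lt_succ_self n, L (am L), L (am2 L), ⟨ld_nonneg hp n _, am_le L _, ?_, hsafe⟩,
        ?_⟩
      · rw [vol_succ, ← sum_ld (m := m) (r := cr m lam R) (p := p) n]
        have h : ∀ j ∈ (Finset.univ : Finset (Fin m)), L (am2 L) +
            (if j = am L then L (am L) - L (am2 L) else 0) ≤ L j := by
          intro j _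
          split_ifs with hj
          · rw [hj]; linarith
          · linarith [h2 j hj]
        have h3 := Finset.sum_le_sum h
        rw [Finset.sum_add_distrib] at h3
        simp only [Finset.sum_const, Finset.card_univ, Fintype.card_fin, nsmul_eq_mul,
          Finset.sum_ite_eq', Finset.mem_univ, if_true] at h3
        change _ ≤ ∑ j, L j + p n
        linarith
      · rcases le_total (L (am L) + p n) (L (am2 L)) with h | h
        · refine ⟨am L, ?_, ?_⟩
          · rw [ca_succ, ← hL, hcr, if_pos rfl]
          · rw [ca_succ, ← hL, hcr, if_pos rfl]; exact h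
        · refine ⟨am2 L, ?_, ?_⟩
          · rw [ca_succ, ← hL, hcr, if_neg hne.symm, add_zero]; exact h
          · rw [ca_succ, ← hL, hcr, if_neg hne.symm, add_zero]

theorem ca_safe (hm : 2 ≤ m) {lam R : ℝ} (G : Good m lam R) {p : ℕ → ℝ} (hp : ∀ i, 0 < p i)
    (n : ℕ) (j : Fin m) : Safe m lam R n p (ca m lam R p n j) := by
  classical
  induction n generalizing j with
  | zero =>
    intro q hq _ N _ j'
    change lam * ls m q N j' + (1 - lam) * 0 ≤ _
    have hm' : 0 < m := by omega
    rcases ls_last (p := q) N j' with h0 | ⟨l, hlN, hlj, hl⟩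
    · rw [h0]
      have := mul_nonneg G.R0 (opt_nonneg hm' hq N)
      linarith
    · rw [hl]
      exact G.base _ _ _ _ ((mn_vol_succ l).trans ((vol_mono hq (by omega)).trans
        (vol_le_opt hm' _))) (job_le_opt hm' hq hlN) (opt_nonneg hm' hq N) (mn_nonneg hq l)
        (hq l).le le_rfl
  | succ n ih =>
    set L := ca m lam R p n with hL
    rw [ca_succ, ← hL]
    by_cases hj : cr m lam R n p L = j
    · rw [if_pos hj]
      by_cases hsafe : Safe m lam R (n + 1) p (L (am2 L) + p n)
      · have hcr : cr m lam R n p L = am2 L := if_pos hsafe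
        rw [← hj, hcr]
        exact hsafe
      · have hcr : cr m lam R n p L = am L := if_neg hsafe
        rw [← hj, hcr]
        have hc0 : 0 ≤ L (am L) := ld_nonneg hp n _
        rcases ca_inv hm lam R hp n with ⟨j', hj'⟩ | ⟨s, hs, x, b, E, j', hj1, hj2⟩
        · have h0 : L (am L) = 0 := le_antisymm ((am_le L j').trans hj'.le) hc0
          rw [h0, zero_add]
          exact safe_of_zero G n
        · exact E.safe G hs hc0 ((am_le L j').trans hj1) ((am_le L j').trans hj2)
    · rw [if_neg hj, add_zero]
      exact (ih j).step (Nat.le_succ n)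

/-- List Scheduling -/
noncomputable def LSch (m : ℕ) [NeZero m] : Online m := ofRule lsr lsr_congr

/-- the careful algorithm -/
noncomputable def Careful (m : ℕ) [NeZero m] (lam R : ℝ) : Online m :=
  ofRule (cr m lam R) (cr_congr lam R)

/-- List Scheduling with probability `lam`, else the careful algorithm -/
noncomputable def mixed (m : ℕ) [NeZero m] (lam R : ℝ) (h0 : 0 ≤ lam) (h1 : lam ≤ 1) :
    Randomized m where
  Ω := Bool
  mΩ := ⊤
  μ := ENNReal.ofReal lam • (@Measure.dirac Bool ⊤ true) +
    ENNReal.ofReal (1 - lam) • (@Measure.dirac Bool ⊤ false)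
  prob := by
    constructor
    simp only [Measure.coe_add, Pi.add_apply, Measure.smul_apply, smul_eq_mul, measure_univ,
      mul_one]
    rw [← ENNReal.ofReal_add h0 (by linarith)]
    simp
  alg t := if t then LSch m else Careful m lam R
  meas _ _ _ := trivial

theorem mixed_cost (lam R : ℝ) (h0 : 0 ≤ lam) (h1 : lam ≤ 1) (p : ℕ → ℝ) (n : ℕ) :
    (mixed m lam R h0 h1).cost p n
      = lam * (LSch m).cost p n + (1 - lam) * (Careful m lam R).cost p n := by
  unfold Randomized.cost mixed
  dsimp only
  rw [integral_add_measure, integral_smul_measure, integral_smul_measure, integral_dirac,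
    integral_dirac, ENNReal.toReal_ofReal h0, ENNReal.toReal_ofReal (by linarith)]
  · rfl
  · exact Integrable.smul_measure (integrable_dirac (by simp)) ENNReal.ofReal_ne_top
  · exact Integrable.smul_measure (integrable_dirac (by simp)) ENNReal.ofReal_ne_top

/-- The cost is at most `c` times the optimum for every job sequence. -/
def CompetitiveAll (m : ℕ) (cost : (ℕ → ℝ) → ℕ → ℝ) (c : ℝ) : Prop :=
  ∀ (p : ℕ → ℝ) (n : ℕ), (∀ i, 0 < p i) → cost p n ≤ c * opt m p n

theorem mixed_competitive (hm : 2 ≤ m) {lam R : ℝ} (G : Good m lam R) :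
    CompetitiveAll m (mixed m lam R G.lam0 G.lam1).cost R := by
  intro p n hp
  rw [mixed_cost]
  obtain ⟨j, hj⟩ := exists_cost (p := p) (by omega) (lsr_congr (m := m)) n
  obtain ⟨j', hj'⟩ := exists_cost (p := p) (by omega) (cr_congr (m := m) lam R) n
  have h1 : (LSch m).cost p n = ls m p n j := hj
  have h2 : (Careful m lam R).cost p n = ca m lam R p n j' := hj'
  rw [h1, h2]
  exact ca_safe hm G hp n j' p hp (fun _ _ => rfl) n le_rfl j

end Pool.Agent.Lib_MP_25a3c1_mix
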