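import Pool.Agent.Lib_MP_25a3c1_mix.Num
import Pool.Agent.Lib_MP_25a3c1.Lower2

/-!
The best ratio of randomized online algorithms for job sequences of any length.
-/

namespace Pool.Agent.Lib_MP_25a3c1_mix

open Pool.Agent.Lib_MP_25a3c1

/-- The best competitive ratio of randomized online algorithms on `m` machines. -/
noncomputable def randRatio (m : ℕ) : ℝ :=
  sInf {c : ℝ | ∃ A : Randomized m, CompetitiveAll m A.cost c}

theorem four_thirds_le {m : ℕ} (hm : 2 ≤ m) (A : Randomized m) {c : ℝ}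
    (h : CompetitiveAll m A.cost c) : 4 / 3 ≤ c :=
  rand_lower_W hm A c fun p n hp _ => h p n hp

theorem exists_mixed {m : ℕ} (hm : 5 ≤ m) :
    ∃ A : Randomized m, CompetitiveAll m A.cost (2 - 4 / (3 * m - 1)) := by
  have : NeZero m := ⟨by omega⟩
  have hM : (5 : ℝ) ≤ m := by exact_mod_cast hm
  have G := good hM
  refine ⟨mixed m _ (6 * ((m : ℝ) - 1) / (3 * m - 1)) G.lam0 G.lam1, ?_⟩
  have h := mixed_competitive (by omega) G
  have e : 6 * ((m : ℝ) - 1) / (3 * m - 1) = 2 - 4 / (3 * m - 1) := by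
    have h0 : (3 * (m : ℝ) - 1) ≠ 0 := by
      have : 0 < 3 * (m : ℝ) - 1 := by linarith
      exact this.ne'
    rw [div_eq_iff h0, sub_mul, div_mul_cancel₀ _ h0]
    ring
  rw [← e]
  exact h

theorem randRatio_le {m : ℕ} (hm : 5 ≤ m) : randRatio m ≤ 2 - 4 / (3 * m - 1) :=
  csInf_le ⟨4 / 3, fun _ ⟨A, hc⟩ => four_thirds_le (by omega) A hc⟩ (exists_mixed hm)

theorem le_randRatio {m : ℕ} (hm : 5 ≤ m) : 4 / 3 ≤ randRatio m :=
  le_csInf ⟨_, exists_mixed hm⟩ fun _ ⟨A, hc⟩ => four_thirds_le (by omega) A hc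

end Pool.Agent.Lib_MP_25a3c1_mix
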