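import Pool.Agent.Lib_MP_25a3c1_mix.Key7
import Pool.Agent.Lib_MP_25a3c1_mix.Ratio

/-!
The mixture of List Scheduling and the careful algorithm for `m = 7`.
-/

namespace Pool.Agent.Lib_MP_25a3c1_mix

open Pool.Agent.Lib_MP_25a3c1 Finset MeasureTheory

variable {m : ℕ} [NeZero m]

/-- the trivial bound: one job on an empty machine -/
theorem base7 (hM : (m : ℝ) = 7) {q : ℕ → ℝ} (hq : ∀ i, 0 < q i) {N : ℕ} (j : Fin m) {y : ℝ}
    (hy : y ≤ opt m q N) : 3 / 5 * ls m q N j + (1 - 3 / 5) * y ≤ 447 / 250 * opt m q N := by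
  have hm : 0 < m := mpos
  have hO := opt_nonneg hm hq N
  rcases ls_last (p := q) N j with h0 | ⟨l, hlN, -, hl⟩
  · rw [h0]
    linarith
  · rw [hl]
    have h1 := (mn_vol_succ (m := m) (p := q) l).trans
      ((vol_mono hq (show l + 1 ≤ N from hlN)).trans (vol_le_opt hm _))
    have h2 := job_le_opt hm hq hlN
    rw [hM] at h1
    linarith

/-- a machine which was empty stays safe -/
theorem safe7_of_nonpos (hM : (m : ℝ) = 7) {p : ℕ → ℝ} (n : ℕ) {y : ℝ} (hy : y ≤ p n) :
    Safe m (3 / 5) (447 / 250) (n + 1) p y := by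
  intro q hq hqp N hN j
  have hpn : q n = p n := hqp n (Nat.lt_succ_self n)
  have hnO : q n ≤ opt m q N := job_le_opt mpos hq (by omega)
  exact base7 hM hq j (by rw [hpn] at hnO; exact hy.trans hnO)

/-- the lowest machine is always safe -/
theorem key7 (hM : (m : ℝ) = 7) {p : ℕ → ℝ} (hp : ∀ i, 0 < p i) {n : ℕ} {y : ℝ} (hy : 0 ≤ y)
    (h : Fst m (3 / 5) (447 / 250) p n y) :
    Safe m (3 / 5) (447 / 250) (n + 1) p (y + p n) := by
  rcases h with h | ⟨s', hs', x1, x2, x3, hx, hS, u2, hy1, hy2⟩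
  · exact safe7_of_nonpos hM n (by linarith)
  · by_contra u3
    have w3 := alpha7 hM hp hs' hx hy hy1 hy2 u3
    rcases hS with h | ⟨s, hs, z1, z2, z3, hz, ⟨u1, h1, h2, h3⟩ | ⟨u1, h1, h2⟩⟩
    · exact u2 (safe7_of_nonpos hM s' (by linarith))
    · exact caseE3 hM hp hs hs' hz hx hy hy1 hy2 h1 h2 h3 u1 u2 w3
    · exact caseE2 hM hp hs hs' hz hx hy hy1 hy2 h1 h2 u1 u2 w3

theorem ca3_safe (hM : (m : ℝ) = 7) {p : ℕ → ℝ} (hp : ∀ i, 0 < p i) (n : ℕ) (j : Fin m) :
    Safe m (3 / 5) (447 / 250) n p (ca3 m (3 / 5) (447 / 250) p n j) := by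
  classical
  have hm7 : m = 7 := by exact_mod_cast hM
  induction n generalizing j with
  | zero =>
    intro q hq _ N _ j'
    change 3 / 5 * ls m q N j' + (1 - 3 / 5) * 0 ≤ _
    exact base7 hM hq j' (opt_nonneg mpos hq N)
  | succ n ih =>
    set L := ca3 m (3 / 5) (447 / 250) p n with hL
    rw [ca3_succ, ← hL]
    by_cases hj : cr3 m (3 / 5) (447 / 250) n p L = j
    · rw [if_pos hj]
      by_cases hsafe3 : Safe m (3 / 5) (447 / 250) (n + 1) p (L (am3 L) + p n)
      · have hcr : cr3 m (3 / 5) (447 / 250) n p L = am3 L := if_pos hsafe3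
        rw [← hj, hcr]
        exact hsafe3
      by_cases hsafe2 : Safe m (3 / 5) (447 / 250) (n + 1) p (L (am2 L) + p n)
      · have hcr : cr3 m (3 / 5) (447 / 250) n p L = am2 L := by
          unfold cr3
          rw [if_neg hsafe3, if_pos hsafe2]
        rw [← hj, hcr]
        exact hsafe2
      · have hcr : cr3 m (3 / 5) (447 / 250) n p L = am L := by
          unfold cr3
          rw [if_neg hsafe3, if_neg hsafe2]
        rw [← hj, hcr]
        exact key7 hM hp (ld_nonneg hp n _) (ca3_inv (by omega) _ _ hp n).2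
    · rw [if_neg hj, add_zero]
      exact (ih j).step (Nat.le_succ n)

/-- the careful algorithm which looks at three machines -/
noncomputable def Careful3 (m : ℕ) [NeZero m] (lam R : ℝ) : Online m :=
  ofRule (cr3 m lam R) (cr3_congr lam R)

/-- List Scheduling with probability `lam`, else the careful algorithm -/
noncomputable def mixed3 (m : ℕ) [NeZero m] (lam R : ℝ) (h0 : 0 ≤ lam) (h1 : lam ≤ 1) :
    Randomized m where
  Ω := Bool
  mΩ := ⊤
  μ := ENNReal.ofReal lam • (@Measure.dirac Bool ⊤ true) +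
    ENNReal.ofReal (1 - lam) • (@Measure.dirac Bool ⊤ false)
  prob := by
    constructor
    simp only [Measure.coe_add, Pi.add_apply, Measure.smul_apply, smul_eq_mul, measure_univ,
      mul_one]
    rw [← ENNReal.ofReal_add h0 (by linarith)]
    simp
  alg t := if t then LSch m else Careful3 m lam R
  meas _ _ _ := trivial

theorem mixed3_cost (lam R : ℝ) (h0 : 0 ≤ lam) (h1 : lam ≤ 1) (p : ℕ → ℝ) (n : ℕ) :
    (mixed3 m lam R h0 h1).cost p n
      = lam * (LSch m).cost p n + (1 - lam) * (Careful3 m lam R).cost p n := by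
  unfold Randomized.cost mixed3
  dsimp only
  rw [integral_add_measure, integral_smul_measure, integral_smul_measure, integral_dirac,
    integral_dirac, ENNReal.toReal_ofReal h0, ENNReal.toReal_ofReal (by linarith)]
  · rfl
  · exact Integrable.smul_measure (integrable_dirac (by simp)) ENNReal.ofReal_ne_top
  · exact Integrable.smul_measure (integrable_dirac (by simp)) ENNReal.ofReal_ne_top

theorem mixed7_competitive (hM : (m : ℝ) = 7) :
    CompetitiveAll m (mixed3 m (3 / 5) (447 / 250) (by norm_num) (by norm_num)).cost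
      (447 / 250) := by
  intro p n hp
  rw [mixed3_cost]
  have hm : 0 < m := mpos
  obtain ⟨j, hj⟩ := exists_cost (p := p) hm (lsr_congr (m := m)) n
  obtain ⟨j', hj'⟩ := exists_cost (p := p) hm (cr3_congr (m := m) (3 / 5) (447 / 250)) n
  have h1 : (LSch m).cost p n = ls m p n j := hj
  have h2 : (Careful3 m (3 / 5) (447 / 250)).cost p n = ca3 m (3 / 5) (447 / 250) p n j' := hj'
  rw [h1, h2]
  exact ca3_safe hM hp n j' p hp (fun _ _ => rfl) n le_rfl j

theorem randRatio_seven_le : randRatio 7 ≤ 447 / 250 :=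
  csInf_le ⟨4 / 3, fun _ ⟨A, hc⟩ => four_thirds_le (by norm_num) A hc⟩
    ⟨_, mixed7_competitive (m := 7) (by norm_num)⟩

end Pool.Agent.Lib_MP_25a3c1_mix
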