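import Pool.Agent.Lib_MP_25a3c1_mix.Key8A
import Pool.Agent.Lib_MP_25a3c1_mix.Key8B
import Pool.Agent.Lib_MP_25a3c1_mix.Key8C
import Pool.Agent.Lib_MP_25a3c1_mix.Main3

/-!
The mixture of List Scheduling and the careful algorithm for `m = 8`.
-/

namespace Pool.Agent.Lib_MP_25a3c1_mix

open Pool.Agent.Lib_MP_25a3c1 Finset MeasureTheory

variable {m : ℕ} [NeZero m]

/-- the trivial bound: one job on an empty machine -/
theorem base8 (hM : (m : ℝ) = 8) {q : ℕ → ℝ} (hq : ∀ i, 0 < q i) {N : ℕ} (j : Fin m) {y : ℝ}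
    (hy : y ≤ opt m q N) : 23 / 40 * ls m q N j + (1 - 23 / 40) * y ≤ 721 / 400 * opt m q N := by
  have hm : 0 < m := mpos
  have hO := opt_nonneg hm hq N
  rcases ls_last (p := q) N j with h0 | ⟨l, hlN, -, hl⟩
  · rw [h0]
    linarith
  · rw [hl]
    have h1 := (mn_vol_succ (m := m) (p := q) l).trans
      ((vol_mono hq (show l + 1 ≤ N from hlN)).trans (vol_le_opt hm _))
    have h2 := job_le_opt hm hq hlN
    rw [hM] at h1
    linarith

/-- a machine which was empty stays safe -/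
theorem safe8_of_nonpos (hM : (m : ℝ) = 8) {p : ℕ → ℝ} (n : ℕ) {y : ℝ} (hy : y ≤ p n) :
    Safe m (23 / 40) (721 / 400) (n + 1) p y := by
  intro q hq hqp N hN j
  have hpn : q n = p n := hqp n (Nat.lt_succ_self n)
  have hnO : q n ≤ opt m q N := job_le_opt mpos hq (by omega)
  exact base8 hM hq j (by rw [hpn] at hnO; exact hy.trans hnO)

/-- after a job on the lowest machine, only the next such job itself or a later job can make the
lowest machine unsafe -/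
theorem alpha8 (hM : (m : ℝ) = 8) {p : ℕ → ℝ} (hp : ∀ i, 0 < p i) {s1 n : ℕ} (h10 : s1 < n)
    {x1 x2 y : ℝ} (hx : B28 p s1 x1 x2) (nn_y : 0 ≤ y) (yx1 : y ≤ x1 + p s1)
    (yx2 : y ≤ x2) (u1 : ¬ Safe m (23 / 40) (721 / 400) (s1 + 1) p (x2 + p s1))
    (u0 : ¬ Safe m (23 / 40) (721 / 400) (n + 1) p (y + p n)) :
    (721 / 400 * opt m p (n + 1) < 23 / 40 * (mn m p n + p n) + (1 - 23 / 40) * (y + p n)) ∨
      ∃ q : ℕ → ℝ, ∃ N l, (∀ i, 0 < q i) ∧ (∀ i < n + 1, q i = p i) ∧ n < l ∧ l < N ∧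
      721 / 400 * opt m q N < 23 / 40 * (mn m q l + q l) + (1 - 23 / 40) * (y + p n) := by
  obtain ⟨nn_x1, nn_x2, x12, xV⟩ := hx
  obtain ⟨nn_r1, nn_e1, nn_V1, nn_O1, r1O, V1O, e1V⟩ := bas8 hM hp s1
  obtain ⟨nn_r0, nn_e0, nn_V0, nn_O0, r0O, V0O, e0V⟩ := bas8 hM hp n
  obtain ⟨V1V0, O1O0, e1e0⟩ := stp8 hM hp h10
  have O0pos : 0 < opt m p (n + 1) := (hp n).trans_le r0O
  have vf := cv18 hM (p := p) (q := p) hp (t0 := s1) (l := n) (fun _ _ => rfl) h10 (a1 := s1)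
    le_rfl
  rcases wit28 (by norm_num) (by norm_num) hp h10 u0 with
    ⟨l0, g0, w_0⟩ | w_0 | ⟨l0, g0, gg0, w_0⟩ | w_0 | h
  · obtain ⟨nn_A0, nn_P0, p0_V, p0_O, p0_e⟩ := pas8 hM hp g0
    exfalso
    rcases wit18 (by norm_num) (by norm_num) hp u1 with
      ⟨l1, g1, w_1⟩ | w_1 | ⟨q1, N1, l1, hq1, hqp1, hl1, hlN1, w_1⟩
    · obtain ⟨nn_A1, nn_P1, p1_V, p1_O, p1_e⟩ := pas8 hM hp g1
      linarith
    · linarith
    · obtain ⟨nn_A1, nn_P1, nn_U1, nn_Q1, q1_O, q1_P, q1_U, q1_V, q1_e⟩ :=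
        fut8 hM hq1 hqp1 hl1 hlN1
      have vq := cv18 hM (p := p) (q := q1) hq1 (t0 := s1) (l := l1) hqp1 hl1 (a1 := s1) le_rfl
      have vq0 := cv08 hM (p := p) (q := q1) hq1 (t0 := s1) (l := l1) hqp1 hl1
      linarith
  · exfalso
    linarith
  · obtain ⟨nn_A0, nn_P0, nn_U0, m0_P, m0_e, m0_f, m0_V, m0_W⟩ := mid8 hM hp g0 gg0
    have vm := cv18 hM (p := p) (q := p) hp (t0 := s1) (l := l0) (fun _ _ => rfl) g0 (a1 := s1)
      le_rfl
    have vm0 := cv08 hM (p := p) (q := p) hp (t0 := s1) (l := l0) (fun _ _ => rfl) g0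
    exfalso
    linarith
  · exact Or.inl w_0
  · exact Or.inr h

/-! ### the events -/

section events

variable {lam R : ℝ} {p : ℕ → ℝ}

theorem rank18 (hm : 4 ≤ m) (hp : ∀ i, 0 < p i) {s t : ℕ} (hst : s < t)
    (h : E1 m lam R p s) (hn : ∀ u, s < u → u < t → ¬ E1 m lam R p u) :
    ¬ Safe m lam R (s + 1) p (lo2 (ca4 m lam R p s) + p s) ∧
      lo1 (ca4 m lam R p t) ≤ lo1 (ca4 m lam R p s) + p s ∧
      lo1 (ca4 m lam R p t) ≤ lo2 (ca4 m lam R p s) := by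
  have h1 := stay1 (m := m) (lam := lam) (R := R) hp (show s + 1 ≤ t from hst)
    fun u h1 h2 => hn u h1 h2
  rw [ca4_succ, h] at h1
  obtain ⟨c1, c2, -⟩ := step1 hm (ca4 m lam R p s) (hp s).le
  rw [h1]
  refine ⟨?_, c1, c2⟩
  rcases bt_cases (m := m) lam R p s with e | e | e | e
  · exact absurd (e.1.symm.trans h) (am4_spec hm _).1
  · exact absurd (e.1.symm.trans h) (am3_spec (by omega) _).1
  · exact absurd (e.1.symm.trans h) (am2_spec (by omega) _).1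
  · exact e.2

theorem rank28 (hm : 4 ≤ m) (hp : ∀ i, 0 < p i) {s t : ℕ} (hst : s < t)
    (h : E2 m lam R p s) (hn : ∀ u, s < u → u < t → ¬ E2 m lam R p u) :
    (¬ Safe m lam R (s + 1) p (lo2 (ca4 m lam R p s) + p s) ∧
      T218 (lo1 (ca4 m lam R p s)) (lo2 (ca4 m lam R p s)) (lo3 (ca4 m lam R p s))
        (lo1 (ca4 m lam R p t)) (lo2 (ca4 m lam R p t)) (p s)) ∨
    (¬ Safe m lam R (s + 1) p (lo3 (ca4 m lam R p s) + p s) ∧
      T228 (lo1 (ca4 m lam R p s)) (lo2 (ca4 m lam R p s)) (lo3 (ca4 m lam R p s))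
        (lo1 (ca4 m lam R p t)) (lo2 (ca4 m lam R p t)) (p s)) := by
  obtain ⟨g1, g2⟩ := stay2 (m := m) (lam := lam) (R := R) hm hp (show s + 1 ≤ t from hst)
    fun u h1 h2 => hn u h1 h2
  rw [ca4_succ] at g1 g2
  rw [g1, g2]
  rcases h with h | h
  · left
    obtain ⟨c1, c2, c3, c4, c5, c6⟩ := step1 hm (ca4 m lam R p s) (hp s).le
    rw [h]
    refine ⟨?_, c2, c1, c3, c4⟩
    rcases bt_cases (m := m) lam R p s with e | e | e | e
    · exact absurd (e.1.symm.trans h) (am4_spec hm _).1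
    · exact absurd (e.1.symm.trans h) (am3_spec (by omega) _).1
    · exact absurd (e.1.symm.trans h) (am2_spec (by omega) _).1
    · exact e.2
  · right
    obtain ⟨c1, c2, c3, c4, c5⟩ := step2 hm (ca4 m lam R p s) (hp s).le
    rw [h]
    refine ⟨?_, c1, c3, c2⟩
    rcases bt_cases (m := m) lam R p s with e | e | e | e
    · exact absurd (e.1.symm.trans h) (am4_spec hm _).2.1
    · exact absurd (e.1.symm.trans h) (am3_spec (by omega) _).2.1
    · exact e.2.2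
    · exact absurd (h.symm.trans e.1) (am2_spec (by omega) _).1

theorem rank38 (hm : 4 ≤ m) (hp : ∀ i, 0 < p i) {s t : ℕ} (hst : s < t)
    (h : E3 m lam R p s) (hn : ∀ u, s < u → u < t → ¬ E3 m lam R p u) :
    (¬ Safe m lam R (s + 1) p (lo2 (ca4 m lam R p s) + p s) ∧
      T318 (lo1 (ca4 m lam R p s)) (lo2 (ca4 m lam R p s)) (lo3 (ca4 m lam R p s))
        (lo4 (ca4 m lam R p s)) (lo1 (ca4 m lam R p t)) (lo2 (ca4 m lam R p t))
        (lo3 (ca4 m lam R p t)) (p s)) ∨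
    (¬ Safe m lam R (s + 1) p (lo3 (ca4 m lam R p s) + p s) ∧
      T328 (lo1 (ca4 m lam R p s)) (lo2 (ca4 m lam R p s)) (lo3 (ca4 m lam R p s))
        (lo4 (ca4 m lam R p s)) (lo1 (ca4 m lam R p t)) (lo2 (ca4 m lam R p t))
        (lo3 (ca4 m lam R p t)) (p s)) ∨
    (¬ Safe m lam R (s + 1) p (lo4 (ca4 m lam R p s) + p s) ∧
      T338 (lo1 (ca4 m lam R p s)) (lo2 (ca4 m lam R p s)) (lo3 (ca4 m lam R p s))
        (lo4 (ca4 m lam R p s)) (lo1 (ca4 m lam R p t)) (lo2 (ca4 m lam R p t))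
        (lo3 (ca4 m lam R p t)) (p s) ∧
      (lo3 (ca4 m lam R p s) + p s ≤ lo3 (ca4 m lam R p t) ∨
        lo4 (ca4 m lam R p s) ≤ lo3 (ca4 m lam R p t))) := by
  obtain ⟨g1, g2, g3⟩ := stay3 (m := m) (lam := lam) (R := R) hm hp (show s + 1 ≤ t from hst)
    fun u h1 h2 => hn u h1 h2
  rw [ca4_succ] at g1 g2 g3
  rw [g1, g2, g3]
  rcases h with h | h | h
  · left
    obtain ⟨c1, c2, c3, c4, c5, c6⟩ := step1 hm (ca4 m lam R p s) (hp s).le
    rw [h]
    refine ⟨?_, c2, c1, c3, c4, c5, c6⟩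
    rcases bt_cases (m := m) lam R p s with e | e | e | e
    · exact absurd (e.1.symm.trans h) (am4_spec hm _).1
    · exact absurd (e.1.symm.trans h) (am3_spec (by omega) _).1
    · exact absurd (e.1.symm.trans h) (am2_spec (by omega) _).1
    · exact e.2
  · right; left
    obtain ⟨c1, c2, c3, c4, c5⟩ := step2 hm (ca4 m lam R p s) (hp s).le
    rw [h]
    refine ⟨?_, c1, c3, c2, c4, c5⟩
    rcases bt_cases (m := m) lam R p s with e | e | e | e
    · exact absurd (e.1.symm.trans h) (am4_spec hm _).2.1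
    · exact absurd (e.1.symm.trans h) (am3_spec (by omega) _).2.1
    · exact e.2.2
    · exact absurd (h.symm.trans e.1) (am2_spec (by omega) _).1
  · right; right
    obtain ⟨c1, c2, c3, c4, c5⟩ := step3 hm (ca4 m lam R p s) (hp s).le
    rw [h]
    refine ⟨?_, ⟨c1, c2, c4, c3⟩, c5⟩
    rcases bt_cases (m := m) lam R p s with e | e | e | e
    · exact absurd (e.1.symm.trans h) (am4_spec hm _).2.2.1
    · exact e.2.2
    · exact absurd (h.symm.trans e.1) (am3_spec (by omega) _).2.1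
    · exact absurd (h.symm.trans e.1) (am3_spec (by omega) _).1

theorem lo_sum8 (hM : (m : ℝ) = 8) (hm : 4 ≤ m) (hp : ∀ i, 0 < p i) (s : ℕ) :
    B48 p s (lo1 (ca4 m lam R p s)) (lo2 (ca4 m lam R p s)) (lo3 (ca4 m lam R p s))
      (lo4 (ca4 m lam R p s)) := by
  have h := sum_lo4 hm (ca4 m lam R p s)
  have e : ∑ j, ca4 m lam R p s j = vol p s := sum_ca4 lam R p s
  rw [e, hM] at h
  have h0 : ∀ j, 0 ≤ ca4 m lam R p s j := fun j => ca4_nonneg hp s j
  exact ⟨h0 _, h0 _, h0 _, h0 _, lo12 _, lo23 hm _, lo34 hm _, by linarith⟩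

theorem bp8 (hM : (m : ℝ) = 8) (hm : 4 ≤ m) (hp : ∀ i, 0 < p i) (s : ℕ) :
    BP8 m lam R p s (lo1 (ca4 m lam R p s)) (lo2 (ca4 m lam R p s)) (lo3 (ca4 m lam R p s))
      (lo4 (ca4 m lam R p s)) := by
  intro κ i1 i2 i3 i4 h
  rcases bpig (lam := lam) (R := R) hm hp (s := s) (κ := κ) (i1 := i1) (i2 := i2) (i3 := i3)
    h.2.1.1 h.2.2.1.2.2 h.2.2.2.1.2.2.2 with h1 | h1 | ⟨s4, h43, h1, h2, h3⟩
  · exact Or.inl h1
  · refine Or.inr (Or.inl ?_)
    rw [hM] at h1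
    linarith
  · refine Or.inr (Or.inr ⟨s4, h43, _, _, _, _, lo_sum8 (lam := lam) (R := R) hM hm hp s4, ?_,
      ?_, ?_, ?_, ?_, rank38 hm hp h43 h1 h2⟩)
    · exact lo1_mono (ca4_mono hp h43.le)
    · exact lo2_mono hm (ca4_mono hp h43.le)
    · exact lo3_mono hm (ca4_mono hp h43.le)
    · exact lo4_mono hm (ca4_mono hp h43.le)
    · rw [hM] at h3
      linarith

end events

/-- the lowest machine is always safe -/
theorem key8 (hM : (m : ℝ) = 8) {p : ℕ → ℝ} (hp : ∀ i, 0 < p i) (n : ℕ) :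
    Safe m (23 / 40) (721 / 400) (n + 1) p (lo1 (ca4 m (23 / 40) (721 / 400) p n) + p n) := by
  have hm8 : m = 8 := by exact_mod_cast hM
  have hm : 4 ≤ m := by omega
  have h00 : lo3 (ca4 m (23 / 40) (721 / 400) p 0) = 0 := rfl
  have h01 : lo2 (ca4 m (23 / 40) (721 / 400) p 0) = 0 := rfl
  have h02 : lo1 (ca4 m (23 / 40) (721 / 400) p 0) = 0 := rfl
  by_contra u0
  rcases last_or_none (E1 m (23 / 40) (721 / 400) p) n with h1 | ⟨s1, h10, e1, n1⟩
  · refine u0 (safe8_of_nonpos hM n ?_)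
    rw [stay1 hp (Nat.zero_le n) fun t _ h2 => h1 t h2, h02]
    linarith
  obtain ⟨u1, yx1, yx2⟩ := rank18 hm hp h10 e1 n1
  obtain ⟨b1, b2, b3, b4, b12, b23, b34, bV⟩ := lo_sum8 (lam := (23 / 40 : ℝ)) (R := (721 / 400 : ℝ)) hM hm hp s1
  have hx : B28 p s1 (lo1 (ca4 m (23 / 40) (721 / 400) p s1)) (lo2 (ca4 m (23 / 40) (721 / 400) p s1)) :=
    ⟨b1, b2, b12, by linarith⟩
  have nn_y : 0 ≤ lo1 (ca4 m (23 / 40) (721 / 400) p n) := ca4_nonneg hp n _
  have w_0 := alpha8 hM hp h10 hx nn_y yx1 yx2 u1 u0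
  rcases last_or_none (E2 m (23 / 40) (721 / 400) p) s1 with h2 | ⟨s2, h21, e2, n2⟩
  · refine u1 (safe8_of_nonpos hM s1 ?_)
    rw [(stay2 hm hp (Nat.zero_le s1) fun t _ h3 => h2 t h3).2, h01]
    linarith
  obtain ⟨c1, c2, c3, c4, c12, c23, c34, cV⟩ := lo_sum8 (lam := (23 / 40 : ℝ)) (R := (721 / 400 : ℝ)) hM hm hp s2
  have hz : B38 p s2 (lo1 (ca4 m (23 / 40) (721 / 400) p s2)) (lo2 (ca4 m (23 / 40) (721 / 400) p s2))
      (lo3 (ca4 m (23 / 40) (721 / 400) p s2)) := ⟨c1, c2, c3, c12, c23, by linarith⟩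
  rcases last_or_none (E3 m (23 / 40) (721 / 400) p) s2 with h3 | ⟨s3, h32, e3, n3⟩
  · obtain ⟨k1, k2, k3⟩ := stay3 (lam := (23 / 40 : ℝ)) (R := (721 / 400 : ℝ)) hm hp (Nat.zero_le s2)
      fun t _ h4 => h3 t h4
    rcases rank28 hm hp h21 e2 n2 with ⟨u2, -⟩ | ⟨u2, -⟩
    · refine u2 (safe8_of_nonpos hM s2 ?_)
      rw [k2, h01]
      linarith
    · refine u2 (safe8_of_nonpos hM s2 ?_)
      rw [k3, h00]
      linarith
  have hw := lo_sum8 (lam := (23 / 40 : ℝ)) (R := (721 / 400 : ℝ)) hM hm hp s3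
  rcases rank38 hm hp h32 e3 n3 with ⟨u3, t3⟩ | ⟨u3, t3⟩ | ⟨u3, t3, -⟩ <;>
    rcases rank28 hm hp h21 e2 n2 with ⟨u2, t2⟩ | ⟨u2, t2⟩
  · exact case8_11 hM hp h32 h21 h10 hw hz hx nn_y yx1 yx2 t3 t2 u3 u2 u1 w_0
  · exact case8_12 hM hp h32 h21 h10 hw hz hx nn_y yx1 yx2 t3 t2 u3 u2 u1 w_0
  · exact case8_21 hM hp h32 h21 h10 hw hz hx nn_y yx1 yx2 t3 t2 u3 u2 u1 w_0
  · exact case8_22 hM hp h32 h21 h10 hw hz hx nn_y yx1 yx2 t3 t2 u3 u2 u1 w_0
  · exact case8_31 hM hp h32 h21 h10 hw hz hx nn_y yx1 yx2 t3 t2 u3 u2 u1 w_0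
  · exact case8_32 hM hp h32 h21 h10 hw hz hx nn_y yx1 yx2 t3 t2 u3 u2 u1
      (bp8 hM hm hp s3) w_0

theorem ca4_safe8 (hM : (m : ℝ) = 8) {p : ℕ → ℝ} (hp : ∀ i, 0 < p i) (n : ℕ) (j : Fin m) :
    Safe m (23 / 40) (721 / 400) n p (ca4 m (23 / 40) (721 / 400) p n j) := by
  classical
  have hm8 : m = 8 := by exact_mod_cast hM
  induction n generalizing j with
  | zero =>
    intro q hq _ N _ j'
    change 23 / 40 * ls m q N j' + (1 - 23 / 40) * 0 ≤ _
    exact base8 hM hq j' (opt_nonneg mpos hq N)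
  | succ n ih =>
    rw [ca4_succ]
    by_cases hj : bt m (23 / 40) (721 / 400) p n = j
    · rw [← hj, put_self]
      rcases bt_cases (m := m) (23 / 40) (721 / 400) p n with h | h | h | h
      · rw [h.1]; exact h.2
      · rw [h.1]; exact h.2.1
      · rw [h.1]; exact h.2.1
      · rw [h.1]; exact key8 hM hp n
    · rw [put_ne _ hj]
      exact (ih j).step (Nat.le_succ n)

/-- the careful algorithm which looks at four machines -/
noncomputable def Careful4 (m : ℕ) [NeZero m] (lam R : ℝ) : Online m :=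
  ofRule (cr4 m lam R) (cr4_congr lam R)

/-- List Scheduling with probability `lam`, else the careful algorithm -/
noncomputable def mixed4 (m : ℕ) [NeZero m] (lam R : ℝ) (h0 : 0 ≤ lam) (h1 : lam ≤ 1) :
    Randomized m where
  Ω := Bool
  mΩ := ⊤
  μ := ENNReal.ofReal lam • (@Measure.dirac Bool ⊤ true) +
    ENNReal.ofReal (1 - lam) • (@Measure.dirac Bool ⊤ false)
  prob := by
    constructor
    simp only [Measure.coe_add, Pi.add_apply, Measure.smul_apply, smul_eq_mul, measure_univ,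
      mul_one]
    rw [← ENNReal.ofReal_add h0 (by linarith)]
    simp
  alg t := if t then LSch m else Careful4 m lam R
  meas _ _ _ := trivial

theorem mixed4_cost (lam R : ℝ) (h0 : 0 ≤ lam) (h1 : lam ≤ 1) (p : ℕ → ℝ) (n : ℕ) :
    (mixed4 m lam R h0 h1).cost p n
      = lam * (LSch m).cost p n + (1 - lam) * (Careful4 m lam R).cost p n := by
  unfold Randomized.cost mixed4
  dsimp only
  rw [integral_add_measure, integral_smul_measure, integral_smul_measure, integral_dirac,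
    integral_dirac, ENNReal.toReal_ofReal h0, ENNReal.toReal_ofReal (by linarith)]
  · rfl
  · exact Integrable.smul_measure (integrable_dirac (by simp)) ENNReal.ofReal_ne_top
  · exact Integrable.smul_measure (integrable_dirac (by simp)) ENNReal.ofReal_ne_top

theorem mixed8_competitive (hM : (m : ℝ) = 8) :
    CompetitiveAll m (mixed4 m (23 / 40) (721 / 400) (by norm_num) (by norm_num)).cost
      (721 / 400) := by
  intro p n hp
  rw [mixed4_cost]
  have hm : 0 < m := mpos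
  obtain ⟨j, hj⟩ := exists_cost (p := p) hm (lsr_congr (m := m)) n
  obtain ⟨j', hj'⟩ := exists_cost (p := p) hm (cr4_congr (m := m) (23 / 40) (721 / 400)) n
  have h1 : (LSch m).cost p n = ls m p n j := hj
  have h2 : (Careful4 m (23 / 40) (721 / 400)).cost p n = ca4 m (23 / 40) (721 / 400) p n j' := hj'
  rw [h1, h2]
  exact ca4_safe8 hM hp n j' p hp (fun _ _ => rfl) n le_rfl j

theorem randRatio_eight_le : randRatio 8 ≤ 721 / 400 :=
  csInf_le ⟨4 / 3, fun _ ⟨A, hc⟩ => four_thirds_le (by norm_num) A hc⟩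
    ⟨_, mixed8_competitive (m := 8) (by norm_num)⟩

end Pool.Agent.Lib_MP_25a3c1_mix
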