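import Pool.Agent.Lib_MP_25a3c1_mix.Main

/-!
The linear facts for `lam = 2 M / (3 M - 1)` and `R = 6 (M - 1) / (3 M - 1)`.
-/

namespace Pool.Agent.Lib_MP_25a3c1_mix

open Pool.Agent.Lib_MP_25a3c1

variable {M : ℝ}

theorem scale (hM : 5 ≤ M) {X Y O : ℝ} (h : 2 * M * X + (M - 1) * Y ≤ 6 * (M - 1) * O) :
    2 * M / (3 * M - 1) * X + (1 - 2 * M / (3 * M - 1)) * Y ≤ 6 * (M - 1) / (3 * M - 1) * O := by
  have h0 : 0 < 3 * M - 1 := by linarith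
  have h1 : 2 * M / (3 * M - 1) * X + (1 - 2 * M / (3 * M - 1)) * Y
      = (2 * M * X + (M - 1) * Y) / (3 * M - 1) := by
    have h0' : 3 * M - 1 ≠ 0 := h0.ne'
    have h2 : 1 - 2 * M / (3 * M - 1) = (M - 1) / (3 * M - 1) := by
      rw [eq_div_iff h0', sub_mul, div_mul_cancel₀ _ h0']
      ring
    rw [h2]
    ring
  have h2 : 6 * (M - 1) / (3 * M - 1) * O = 6 * (M - 1) * O / (3 * M - 1) := by ring
  rw [h1, h2]
  exact div_le_div_of_nonneg_right h h0.le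

theorem unscale (hM : 5 ≤ M) {X Y O : ℝ}
    (h : 6 * (M - 1) / (3 * M - 1) * O
      < 2 * M / (3 * M - 1) * X + (1 - 2 * M / (3 * M - 1)) * Y) :
    6 * (M - 1) * O ≤ 2 * M * X + (M - 1) * Y := by
  by_contra hcon
  exact absurd (scale hM (not_le.1 hcon).le) (not_le.2 h)

theorem n_base (hM : 5 ≤ M) (a q p O : ℝ) (h1 : M * a + q ≤ M * O) (h2 : q ≤ O) (h3 : p ≤ O)
    (h4 : 0 ≤ p) : 2 * M * (a + q) + (M - 1) * p ≤ 6 * (M - 1) * O := by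
  have e1 := mul_nonneg (show 0 ≤ 2 * M - 2 by linarith) (sub_nonneg.2 h2)
  have e2 := mul_nonneg (show 0 ≤ M - 1 by linarith) (sub_nonneg.2 h3)
  have e3 := mul_nonneg (show 0 ≤ M - 3 by linarith) (h4.trans h3)
  linarith

theorem n_old (hM : 5 ≤ M) (U p0 x b O0 au pu O' : ℝ) (h2 : p0 ≤ O0) (h3 : 0 ≤ x)
    (h5 : x + p0 + (M - 1) * b ≤ U) (h6 : U ≤ M * O0) (h7 : pu ≤ O0)
    (h8 : M * au + pu + p0 ≤ U) (h9 : O0 ≤ O') :
    2 * M * (au + pu) + (M - 1) * (b + p0) ≤ 6 * (M - 1) * O' := by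
  have e1 := mul_nonneg (show 0 ≤ 2 * M - 2 by linarith) (sub_nonneg.2 h7)
  have e2 := mul_nonneg (show 0 ≤ M - 4 by linarith) (sub_nonneg.2 h2)
  have e3 := mul_nonneg (show 0 ≤ 6 * M - 6 by linarith) (sub_nonneg.2 h9)
  linarith

theorem n_qq (hM : 5 ≤ M) (U p0 x b O0 a0 ai aj O' P' V' a' : ℝ) (h2 : p0 ≤ O0) (h3 : 0 ≤ x)
    (h5 : x + p0 + (M - 1) * b ≤ U) (h9 : O0 ≤ O') (h10 : P' ≤ O')
    (h11 : a0 + p0 + (M - 1) * a' ≤ V') (h12 : V' + P' ≤ M * O')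
    (h13 : U + (a' - ai) + (a' - aj) ≤ V') (h14 : ai + aj ≤ O' + 2 * a0) :
    2 * M * (a' + P') + (M - 1) * (b + p0) ≤ 6 * (M - 1) * O' := by
  have e1 := mul_nonneg (show 0 ≤ M - 4 by linarith) (sub_nonneg.2 h2)
  have e2 := mul_nonneg (show 0 ≤ M - 4 by linarith) (sub_nonneg.2 h9)
  have e3 := mul_nonneg (show 0 ≤ 2 * M - 3 by linarith) (sub_nonneg.2 h10)
  linarith

theorem cancel (hM : 5 ≤ M) {X Y : ℝ} (h : (M - 1) * X ≤ (M - 1) * Y) : X ≤ Y :=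
  le_of_mul_le_mul_left h (by linarith)

theorem n_q0 (hM : 5 ≤ M) (U p0 x b O0 a0 ai O' P' V' a' : ℝ) (h1 : 0 < p0) (h2 : p0 ≤ O0)
    (h3 : 0 ≤ x) (h5 : x + p0 + (M - 1) * b ≤ U) (h6 : 0 ≤ a0) (h9 : O0 ≤ O')
    (h10 : P' ≤ O') (h11 : a0 + p0 + (M - 1) * a' ≤ V') (h12 : V' + P' ≤ M * O')
    (h13 : U + (a' - ai) ≤ V') (h14 : ai + p0 ≤ O' + a0) :
    2 * M * (a' + P') + (M - 1) * (b + p0) ≤ 6 * (M - 1) * O' := by
  apply cancel hM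
  have hM1 : 0 ≤ M - 1 := by linarith
  have e1 := mul_nonneg hM1 (sub_nonneg.2 h5)
  have e2 := mul_nonneg (show 0 ≤ 2 * M - 1 by linarith) (sub_nonneg.2 h11)
  have e3 := mul_nonneg (show 0 ≤ 3 * M - 2 by linarith) (sub_nonneg.2 h12)
  have e4 := mul_nonneg hM1 (sub_nonneg.2 h13)
  have e5 := mul_nonneg hM1 (sub_nonneg.2 h14)
  have e6 := mul_nonneg (show 0 ≤ (2 * M - 1) * (M - 2) by
    exact mul_nonneg (by linarith) (by linarith)) (sub_nonneg.2 h10)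
  have e7 := mul_nonneg (show 0 ≤ M by linarith) h6
  have e8 := mul_nonneg hM1 h3
  have hO : 0 ≤ O' := (h1.le.trans h2).trans h9
  rcases le_total 0 (M ^ 2 - 6 * M + 4) with h | h
  · have e9 := mul_nonneg h (sub_nonneg.2 (h2.trans h9))
    linarith
  · have e9 := mul_nonneg (sub_nonneg.2 h) h1.le
    have e10 := mul_nonneg (show 0 ≤ (M - 1) * (M - 5) by
      exact mul_nonneg (by linarith) (by linarith)) hO
    linarith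

theorem n_qP (hM : 5 ≤ M) (U p0 x b O0 a0 ai O' P' V' a' : ℝ) (h1 : 0 < p0) (h2 : p0 ≤ O0)
    (h3 : 0 ≤ x) (h5 : x + p0 + (M - 1) * b ≤ U) (h6 : 0 ≤ a0) (h9 : O0 ≤ O')
    (h10 : P' ≤ O') (h11 : a0 + p0 + (M - 1) * a' ≤ V') (h12 : V' + P' ≤ M * O')
    (h13 : U + (a' - ai) ≤ V') (h14 : ai + P' ≤ O' + a0) :
    2 * M * (a' + P') + (M - 1) * (b + p0) ≤ 6 * (M - 1) * O' := by
  apply cancel hM
  have hM1 : 0 ≤ M - 1 := by linarith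
  have hM5 : 0 ≤ M * (M - 5) := mul_nonneg (by linarith) (by linarith)
  have e1 := mul_nonneg hM1 (sub_nonneg.2 h5)
  have e2 := mul_nonneg (show 0 ≤ 2 * M - 1 by linarith) (sub_nonneg.2 h11)
  have e3 := mul_nonneg (show 0 ≤ 3 * M - 2 by linarith) (sub_nonneg.2 h12)
  have e4 := mul_nonneg hM1 (sub_nonneg.2 h13)
  have e5 := mul_nonneg hM1 (sub_nonneg.2 h14)
  have e6 := mul_nonneg (show 0 ≤ 2 * M ^ 2 - 6 * M + 3 by nlinarith) (sub_nonneg.2 h10)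
  have e7 := mul_nonneg (show 0 ≤ M by linarith) h6
  have e8 := mul_nonneg hM1 h3
  have hO : 0 ≤ O' := (h1.le.trans h2).trans h9
  have e9 := mul_nonneg (show 0 ≤ M ^ 2 - 5 * M + 3 by nlinarith) (sub_nonneg.2 (h2.trans h9))
  linarith

theorem n_zP (hM : 5 ≤ M) (U p0 x b O0 a0 O' P' V' a' : ℝ) (h1 : 0 < p0) (h2 : p0 ≤ O0)
    (h3 : 0 ≤ x) (h5 : x + p0 + (M - 1) * b ≤ U) (h6 : 0 ≤ a0) (h9 : O0 ≤ O')
    (h10 : P' ≤ O') (h15 : U ≤ V') (h11 : a0 + p0 + (M - 1) * a' ≤ V')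
    (h12 : V' + P' ≤ M * O') (h14 : p0 + P' ≤ O') :
    2 * M * (a' + P') + (M - 1) * (b + p0) ≤ 6 * (M - 1) * O' := by
  apply cancel hM
  have hM1 : 0 ≤ M - 1 := by linarith
  have hM5 : 0 ≤ M * (M - 5) := mul_nonneg (by linarith) (by linarith)
  have e1 := mul_nonneg hM1 (sub_nonneg.2 h5)
  have e2 := mul_nonneg (show 0 ≤ 2 * M by linarith) (sub_nonneg.2 h11)
  have e3 := mul_nonneg (show 0 ≤ 3 * M - 1 by linarith) (sub_nonneg.2 h12)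
  have e4 := mul_nonneg hM1 (sub_nonneg.2 h15)
  have e5 := mul_nonneg (show 0 ≤ M ^ 2 - 5 * M + 2 by nlinarith) (sub_nonneg.2 h14)
  have e6 := mul_nonneg (show 0 ≤ M ^ 2 - 1 by nlinarith) (sub_nonneg.2 h10)
  have e7 := mul_nonneg (show 0 ≤ 2 * M by linarith) h6
  have e8 := mul_nonneg hM1 h3
  have hO : 0 ≤ O' := (h1.le.trans h2).trans h9
  have e9 := mul_nonneg (show 0 ≤ (M - 1) * (M - 5) by
    exact mul_nonneg (by linarith) (by linarith)) hO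
  linarith

theorem cancel' (hM : 5 ≤ M) {X Y : ℝ} (h : M * X ≤ M * Y) : X ≤ Y :=
  le_of_mul_le_mul_left h (by linarith)

theorem n_vi (hM : 5 ≤ M) (U p0 x b c O p au pu : ℝ)
    (h5 : x + p0 + (M - 1) * b ≤ U) (h6 : c ≤ x + p0) (h7 : c ≤ b) (h8 : 0 < p) (h9 : p ≤ O)
    (h10 : U + p ≤ M * O) (h11 : pu ≤ O) (h12 : M * au + pu ≤ U) :
    2 * M * (au + pu) + (M - 1) * (c + p) ≤ 6 * (M - 1) * O := by
  apply cancel' hM
  have hM1 : 0 ≤ M - 1 := by linarith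
  have e1 := mul_nonneg hM1 (sub_nonneg.2 h5)
  have e2 := mul_nonneg hM1 (sub_nonneg.2 h6)
  have e3 := mul_nonneg (mul_nonneg hM1 hM1) (sub_nonneg.2 h7)
  have e4 := mul_nonneg (show 0 ≤ 3 * M - 1 by linarith) (sub_nonneg.2 h10)
  have e5 := mul_nonneg (show 0 ≤ 2 * M by linarith) (sub_nonneg.2 h12)
  have e6 := mul_nonneg (show 0 ≤ M * (2 * M - 2) by
    exact mul_nonneg (by linarith) (by linarith)) (sub_nonneg.2 h11)
  have e7 := mul_nonneg (show 0 ≤ M ^ 2 - 4 * M + 1 by nlinarith) (sub_nonneg.2 h9)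
  have e8 := mul_nonneg hM1 (h8.le.trans h9)
  linarith

theorem cancel2 (hM : 5 ≤ M) {X Y : ℝ} (h : M * (M - 1) * X ≤ M * (M - 1) * Y) : X ≤ Y :=
  le_of_mul_le_mul_left h (mul_pos (by linarith) (by linarith))

theorem n_va (hM : 5 ≤ M) (U p0 x b O0 a0 c O p V a P : ℝ) (h3 : 0 ≤ x)
    (h5 : x + p0 + (M - 1) * b ≤ U) (h0 : U ≤ M * O0) (h6 : c ≤ x + p0) (h7 : c ≤ b)
    (h8 : 0 < p) (h9 : p ≤ O) (h15 : U ≤ V) (h11 : a0 + p0 + (M - 1) * a ≤ V) (h10 : P ≤ O)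
    (h12 : V + P + p ≤ M * O)
    (h13 : 6 * (M - 1) * O0 ≤ 2 * M * (a0 + p0) + (M - 1) * (b + p0)) :
    2 * M * (a + P) + (M - 1) * (c + p) ≤ 6 * (M - 1) * O := by
  apply cancel2 hM
  have hM0 : 0 ≤ M := by linarith
  have hM1 : 0 ≤ M - 1 := by linarith
  have hM5 : 0 ≤ M - 5 := by linarith
  have g1 := mul_nonneg hM0 hM5
  have g2 := mul_nonneg hM0 g1
  have e1 := mul_nonneg (mul_nonneg (show 0 ≤ M + 1 by linarith) hM1) (sub_nonneg.2 h5)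
  have e2 := mul_nonneg (show 0 ≤ 6 * (M - 1) by linarith) (sub_nonneg.2 h0)
  have e3 := mul_nonneg hM1 (sub_nonneg.2 h6)
  have e4 := mul_nonneg (mul_nonneg hM1 (show 0 ≤ M ^ 2 - M - 1 by nlinarith)) (sub_nonneg.2 h7)
  have e5 := mul_nonneg (show 0 ≤ 2 * M ^ 2 by positivity) (sub_nonneg.2 h11)
  have e6 := mul_nonneg hM0 (sub_nonneg.2 h13)
  have e7 := mul_nonneg (mul_nonneg hM5 hM1) (sub_nonneg.2 h15)
  have e8 := mul_nonneg (show 0 ≤ 3 * M ^ 2 - 6 * M + 5 by nlinarith) (sub_nonneg.2 h12)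
  have e9 := mul_nonneg (show 0 ≤ 2 * M ^ 3 - 5 * M ^ 2 + 6 * M - 5 by nlinarith)
    (sub_nonneg.2 h10)
  have e10 := mul_nonneg (show 0 ≤ M ^ 3 - 5 * M ^ 2 + 7 * M - 5 by nlinarith) (sub_nonneg.2 h9)
  have e11 := mul_nonneg (mul_nonneg hM0 hM1) h3
  have e12 := mul_nonneg (show 0 ≤ 4 * M ^ 2 - 12 * M + 10 by nlinarith) (h8.le.trans h9)
  linarith

theorem n_vb (hM : 5 ≤ M) (U p0 x b O0 a0 c O p V a : ℝ) (h3 : 0 ≤ x)
    (h5 : x + p0 + (M - 1) * b ≤ U) (h0 : U ≤ M * O0) (h6 : c ≤ x + p0) (h7 : c ≤ b)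
    (h8 : 0 < p) (h9 : p ≤ O) (h15 : U ≤ V) (h11 : a0 + p0 + (M - 1) * a ≤ V)
    (h12 : V + p ≤ M * O)
    (h13 : 6 * (M - 1) * O0 ≤ 2 * M * (a0 + p0) + (M - 1) * (b + p0)) :
    2 * M * (a + p) + (M - 1) * (c + p) ≤ 6 * (M - 1) * O := by
  apply cancel2 hM
  have hM0 : 0 ≤ M := by linarith
  have hM1 : 0 ≤ M - 1 := by linarith
  have hM5 : 0 ≤ M - 5 := by linarith
  have g1 := mul_nonneg hM0 hM5
  have g2 := mul_nonneg hM0 g1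
  have e1 := mul_nonneg (mul_nonneg (show 0 ≤ M + 1 by linarith) hM1) (sub_nonneg.2 h5)
  have e2 := mul_nonneg (show 0 ≤ 6 * (M - 1) by linarith) (sub_nonneg.2 h0)
  have e3 := mul_nonneg hM1 (sub_nonneg.2 h6)
  have e4 := mul_nonneg (mul_nonneg hM1 (show 0 ≤ M ^ 2 - M - 1 by nlinarith)) (sub_nonneg.2 h7)
  have e5 := mul_nonneg (show 0 ≤ 2 * M ^ 2 by positivity) (sub_nonneg.2 h11)
  have e6 := mul_nonneg hM0 (sub_nonneg.2 h13)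
  have e7 := mul_nonneg (mul_nonneg hM5 hM1) (sub_nonneg.2 h15)
  have e8 := mul_nonneg (show 0 ≤ 3 * M ^ 2 - 6 * M + 5 by nlinarith) (sub_nonneg.2 h12)
  have e9 := mul_nonneg (show 0 ≤ 3 * M ^ 3 - 7 * M ^ 2 + 7 * M - 5 by nlinarith)
    (sub_nonneg.2 h9)
  have e11 := mul_nonneg (mul_nonneg hM0 hM1) h3
  have e12 := mul_nonneg (mul_nonneg hM1 hM5) (h8.le.trans h9)
  linarith

theorem n_vc (hM : 5 ≤ M) (U p0 x b O0 a0 c O p V a P : ℝ) (h3 : 0 ≤ x)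
    (h5 : x + p0 + (M - 1) * b ≤ U) (h0 : U ≤ M * O0) (h6 : c ≤ x + p0) (h7 : c ≤ b)
    (h8 : 0 < p) (h9 : p ≤ O) (h15 : U + p ≤ V) (h11 : a0 + p0 + (M - 1) * a ≤ V) (h10 : P ≤ O)
    (h12 : V + P ≤ M * O)
    (h13 : 6 * (M - 1) * O0 ≤ 2 * M * (a0 + p0) + (M - 1) * (b + p0)) :
    2 * M * (a + P) + (M - 1) * (c + p) ≤ 6 * (M - 1) * O := by
  apply cancel2 hM
  have hM0 : 0 ≤ M := by linarith
  have hM1 : 0 ≤ M - 1 := by linarith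
  have hM5 : 0 ≤ M - 5 := by linarith
  have g1 := mul_nonneg hM0 hM5
  have g2 := mul_nonneg hM0 g1
  have e1 := mul_nonneg (mul_nonneg (show 0 ≤ M + 1 by linarith) hM1) (sub_nonneg.2 h5)
  have e2 := mul_nonneg (show 0 ≤ 6 * (M - 1) by linarith) (sub_nonneg.2 h0)
  have e3 := mul_nonneg hM1 (sub_nonneg.2 h6)
  have e4 := mul_nonneg (mul_nonneg hM1 (show 0 ≤ M ^ 2 - M - 1 by nlinarith)) (sub_nonneg.2 h7)
  have e5 := mul_nonneg (show 0 ≤ 2 * M ^ 2 by positivity) (sub_nonneg.2 h11)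
  have e6 := mul_nonneg hM0 (sub_nonneg.2 h13)
  have e7 := mul_nonneg (mul_nonneg hM5 hM1) (sub_nonneg.2 h15)
  have e8 := mul_nonneg (show 0 ≤ 3 * M ^ 2 - 6 * M + 5 by nlinarith) (sub_nonneg.2 h12)
  have e9 := mul_nonneg (show 0 ≤ 2 * M ^ 3 - 5 * M ^ 2 + 6 * M - 5 by nlinarith)
    (sub_nonneg.2 h10)
  have e10 := mul_nonneg (mul_nonneg hM1 (show 0 ≤ M ^ 2 - 2 * M + 5 by nlinarith))
    (sub_nonneg.2 h9)
  have e11 := mul_nonneg (mul_nonneg hM0 hM1) h3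
  have e12 := mul_nonneg (mul_nonneg hM1 hM5) (h8.le.trans h9)
  linarith

theorem good (hM : 5 ≤ M) : Good M (2 * M / (3 * M - 1)) (6 * (M - 1) / (3 * M - 1)) where
  lam0 := div_nonneg (by linarith) (by linarith)
  lam1 := (div_le_one (by linarith)).2 (by linarith)
  R0 := div_nonneg (by linarith) (by linarith)
  base a q p O h1 h2 h3 _ _ h6 := scale hM (n_base hM a q p O h1 h2 h3 h6)
  old U p0 x b O0 au pu O' _ h2 h3 _ h5 h6 _ _ h9 h10 h11 :=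
    scale hM (n_old hM U p0 x b O0 au pu O' h2 h3 h5 h6 h9 h10 h11)
  qq U p0 x b O0 a0 ai aj O' P' V' a' _ h2 h3 _ h5 _ _ _ _ _ h11 _ h13 _ h15 h16 _ h18 _ _ h21 :=
    scale hM (n_qq hM U p0 x b O0 a0 ai aj O' P' V' a' h2 h3 h5 h11 h13 h15 h16 h18 h21)
  q0 U p0 x b O0 a0 ai O' P' V' a' h1 h2 h3 _ h5 _ h7 _ _ h10 _ h12 _ h14 h15 _ h17 h18 :=
    scale hM (n_q0 hM U p0 x b O0 a0 ai O' P' V' a' h1 h2 h3 h5 h7 h10 h12 h14 h15 h17 h18)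
  qP U p0 x b O0 a0 ai O' P' V' a' h1 h2 h3 _ h5 _ h7 _ _ h10 _ h12 _ h14 h15 _ h17 h18 :=
    scale hM (n_qP hM U p0 x b O0 a0 ai O' P' V' a' h1 h2 h3 h5 h7 h10 h12 h14 h15 h17 h18)
  zP U p0 x b O0 a0 O' P' V' a' h1 h2 h3 _ h5 _ h7 h8 _ h10 h11 h12 h13 _ h15 :=
    scale hM (n_zP hM U p0 x b O0 a0 O' P' V' a' h1 h2 h3 h5 h7 h8 h10 h11 h12 h13 h15)
  vi U p0 x b O0 c O p au pu _ _ _ _ h5 _ _ h8 h9 _ h11 h12 h13 _ _ h16 h17 :=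
    scale hM (n_vi hM U p0 x b c O p au pu h5 h8 h9 h11 h12 h13 h16 h17)
  va U p0 x b O0 a0 c O p V a P _ _ h3 _ h5 h6 _ _ _ h10 h11 _ h13 h14 h15 h16 _ h18 h19 h20 :=
    scale hM (n_va hM U p0 x b O0 a0 c O p V a P h3 h5 h6 h10 h11 h13 h14 h15 h16 h18 h19
      (unscale hM h20))
  vb U p0 x b O0 a0 c O p V a _ _ h3 _ h5 h6 _ _ _ h10 h11 _ h13 h14 h15 h16 h17 h18 :=
    scale hM (n_vb hM U p0 x b O0 a0 c O p V a h3 h5 h6 h10 h11 h13 h14 h15 h16 h17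
      (unscale hM h18))
  vc U p0 x b O0 a0 c O p V a P _ _ h3 _ h5 h6 _ _ _ h10 h11 _ h13 h14 h15 h16 _ h18 h19 h20 :=
    scale hM (n_vc hM U p0 x b O0 a0 c O p V a P h3 h5 h6 h10 h11 h13 h14 h15 h16 h18 h19
      (unscale hM h20))

end Pool.Agent.Lib_MP_25a3c1_mix
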